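import Pool.Agent.H33.G.BCH

/-! # ACT: the action of field automorphisms on the points of the Hilbert scheme -/

open MvPolynomial Module

namespace Pool.H33.G

variable {k : Type} [Field k] {d : ℕ} {g : ℤ} {r : ℕ}

theorem map_mem_Fm (σ : k →+* k) {n : ℕ} {f : A4 k} (hf' : f ∈ Fm k n) :
    MvPolynomial.map σ f ∈ Fm k n := by
  rw [mem_homogeneousSubmodule] at *
  exact hf'.map σ

/-- the action of an automorphism `σ` of `k` on the points of the Hilbert scheme: apply `σ` to the
coefficients of all forms -/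
noncomputable def galAct (σ : k ≃+* k) (w : HilbPt k d g r) : HilbPt k d g r :=
  ⟨Submodule.span k (MvPolynomial.map (σ : k →+* k) '' (w.1 : Set (A4 k))), by
    refine ⟨Submodule.span_le.2 ?_, fun n hn => ?_⟩
    · rintro _ ⟨f, hf', rfl⟩
      exact map_mem_Fm _ (w.2.1 hf')
    · rw [hf_span_map (σ : k →+* k) w.1 w.2.1]
      exact w.2.2 n hn⟩

theorem act_smul (σ : k →+* k) (c : k) (f : A4 k) :
    MvPolynomial.map σ (c • f) = σ c • MvPolynomial.map σ f := by
  rw [MvPolynomial.smul_eq_C_mul, map_mul, MvPolynomial.map_C, MvPolynomial.smul_eq_C_mul]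

theorem act_span (σ : k →+* k) (S : Set (A4 k)) :
    Submodule.span k (MvPolynomial.map σ '' (Submodule.span k S : Set (A4 k))) =
      Submodule.span k (MvPolynomial.map σ '' S) := by
  apply le_antisymm
  · rw [Submodule.span_le]
    rintro _ ⟨f, hf', rfl⟩
    rw [SetLike.mem_coe] at hf' ⊢
    induction hf' using Submodule.span_induction with
    | mem x hx => exact Submodule.subset_span ⟨x, hx, rfl⟩
    | zero =>
      rw [map_zero]
      exact zero_mem _
    | add x y _ _ hx hy =>
      rw [map_add]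
      exact add_mem hx hy
    | smul a x _ hx =>
      rw [act_smul]
      exact Submodule.smul_mem _ _ hx
  · exact Submodule.span_mono (Set.image_mono Submodule.subset_span)

theorem act_symm (σ : k ≃+* k) (f : A4 k) :
    MvPolynomial.map ((σ.symm : k ≃+* k) : k →+* k) (MvPolynomial.map (σ : k →+* k) f) = f := by
  rw [MvPolynomial.map_map]
  have h : (((σ.symm : k ≃+* k) : k →+* k).comp (σ : k →+* k)) = RingHom.id k := by
    ext x
    simp
  rw [h, MvPolynomial.map_id]

theorem act_symm' (σ : k ≃+* k) {ι : Type} (f : MvPolynomial ι k) :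
    MvPolynomial.map (σ : k →+* k) (MvPolynomial.map ((σ.symm : k ≃+* k) : k →+* k) f) = f := by
  rw [MvPolynomial.map_map]
  have h : ((σ : k →+* k).comp ((σ.symm : k ≃+* k) : k →+* k)) = RingHom.id k := by
    ext x
    simp
  rw [h, MvPolynomial.map_id]

theorem act_eval (σ : k →+* k) {ι : Type} (x : ι → k) (f : MvPolynomial ι k) :
    MvPolynomial.eval (fun i => σ (x i)) (MvPolynomial.map σ f) = σ (MvPolynomial.eval x f) := by
  rw [MvPolynomial.eval_map, MvPolynomial.eval₂_comp]
  rfl

theorem act_basic (σ : k ≃+* k) (m : ℕ) (μ : Fin m → (Fin 4 →₀ ℕ))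
    (φ : MvPolynomial (Fin m × (Fin 4 →₀ ℕ)) k) (w : HilbPt k d g r) (hw : w ∈ basicOpen m μ φ) :
    galAct σ w ∈ basicOpen m μ (MvPolynomial.map (σ : k →+* k) φ) := by
  obtain ⟨v, hv, hc, he⟩ := hw
  refine ⟨fun a => MvPolynomial.map (σ : k →+* k) (v a), ?_, ?_, ?_⟩
  · change _ = Submodule.span k (MvPolynomial.map (σ : k →+* k) '' (w.1 : Set (A4 k)))
    rw [← hv, act_span]
    congr 1
    ext x
    constructor
    · rintro ⟨a, rfl⟩
      exact ⟨v a, ⟨a, rfl⟩, rfl⟩
    · rintro ⟨_, ⟨a, rfl⟩, rfl⟩
      exact ⟨a, rfl⟩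
  · intro a b
    rw [MvPolynomial.coeff_map, hc]
    split_ifs
    · exact map_one _
    · exact map_zero _
  · simp only [MvPolynomial.coeff_map]
    rw [act_eval (σ : k →+* k) (fun x : Fin m × (Fin 4 →₀ ℕ) => coeff x.2 (v x.1)) φ]
    intro h0
    apply he
    exact (map_eq_zero_iff (σ : k →+* k) (RingHom.injective _)).1 h0

theorem galAct_symm (σ : k ≃+* k) (w : HilbPt k d g r) : galAct σ.symm (galAct σ w) = w := by
  apply Subtype.ext
  change Submodule.span k (MvPolynomial.map ((σ.symm : k ≃+* k) : k →+* k) ''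
    (Submodule.span k (MvPolynomial.map (σ : k →+* k) '' (w.1 : Set (A4 k))) : Set (A4 k))) = w.1
  rw [act_span]
  have h : MvPolynomial.map ((σ.symm : k ≃+* k) : k →+* k) ''
      (MvPolynomial.map (σ : k →+* k) '' (w.1 : Set (A4 k))) = (w.1 : Set (A4 k)) := by
    ext x
    constructor
    · rintro ⟨_, ⟨f, hf', rfl⟩, rfl⟩
      rw [act_symm]
      exact hf'
    · intro hx
      exact ⟨_, ⟨x, hx, rfl⟩, act_symm σ x⟩
  rw [h, Submodule.span_eq]

/-- the preimage of a basic open set is a basic open set (apply `σ.symm` to the coefficients of the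
frame and of the polynomial) -/
theorem continuous_galAct (σ : k ≃+* k) :
    Continuous (galAct σ : HilbPt k d g r → HilbPt k d g r) := by
  rw [continuous_generateFrom_iff]
  rintro _ ⟨m, μ, φ, rfl⟩
  have h : (galAct σ : HilbPt k d g r → HilbPt k d g r) ⁻¹' basicOpen m μ φ =
      basicOpen m μ (MvPolynomial.map ((σ.symm : k ≃+* k) : k →+* k) φ) := by
    ext w
    constructor
    · intro hw
      have h1 := act_basic σ.symm m μ φ (galAct σ w) hw
      rwa [galAct_symm] at h1
    · intro hw
      have h1 := act_basic σ m μ _ w hw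
      rwa [act_symm'] at h1
  rw [h]
  exact TopologicalSpace.isOpen_generateFrom_of_mem ⟨m, μ, _, rfl⟩

/-- the action is by homeomorphisms -/
noncomputable def galHomeo (σ : k ≃+* k) : HilbPt k d g r ≃ₜ HilbPt k d g r where
  toFun := galAct σ
  invFun := galAct σ.symm
  left_inv := galAct_symm σ
  right_inv := fun w => by simpa using galAct_symm σ.symm w
  continuous_toFun := continuous_galAct σ
  continuous_invFun := continuous_galAct σ.symm

/-- the action permutes the irreducible components -/
theorem galAct_component (σ : k ≃+* k) {H : Set (HilbPt k d g r)}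
    (hH : H ∈ irreducibleComponents (HilbPt k d g r)) :
    galAct σ '' H ∈ irreducibleComponents (HilbPt k d g r) := by
  have hirr : ∀ (τ : k ≃+* k) (S : Set (HilbPt k d g r)), IsIrreducible S →
      IsIrreducible (galAct τ '' S) := fun τ S hS => hS.image _ (continuous_galAct τ).continuousOn
  refine ⟨hirr σ H hH.1, ?_⟩
  intro t ht hle
  have h1 : H ⊆ galAct σ.symm '' t := by
    intro w hw
    exact ⟨galAct σ w, hle ⟨w, hw, rfl⟩, galAct_symm σ w⟩
  have h2 := hH.2 (hirr σ.symm t ht) h1
  intro x hx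
  refine ⟨galAct σ.symm x, h2 ⟨x, hx, rfl⟩, ?_⟩
  simpa using galAct_symm σ.symm x

end Pool.H33.G
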