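import Pool.Agent.H33.G.EXA

/-! # BCH: base change along a field homomorphism

`hf_map`: a basis of `part I n` stays linearly independent after applying `φ` to the coefficients, and
spans `part (I.map (map φ)) n` over `F'` (for homogeneous `I`). -/

open MvPolynomial Module

namespace Pool.H33.G

variable {F F' : Type} [Field F] [Field F'] (φ : F →+* F')

theorem BCH_li {κ M M' : Type*} [AddCommGroup M] [Module F M] [AddCommGroup M'] [Module F' M']
    (B : Basis κ F M) (B' : Basis κ F' M') (j : M →ₛₗ[φ] M') (hj : ∀ a, j (B a) = B' a)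
    {ι : Type*} {v : ι → M} (hv : LinearIndependent F v) :
    LinearIndependent F' (fun i => j (v i)) := by
  classical
  obtain ⟨g, hg⟩ := LinearMap.exists_leftInverse_of_injective (Finsupp.linearCombination F v)
    (LinearMap.ker_eq_bot.2 hv)
  have hgv : ∀ k, g (v k) = Finsupp.single k 1 := by
    intro k
    have h1 := LinearMap.congr_fun hg (Finsupp.single k (1 : F))
    rw [LinearMap.comp_apply, Finsupp.linearCombination_single, one_smul] at h1
    exact h1
  have hext : ∀ (l : M →ₗ[F] F) (x : M),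
      B'.constr F' (fun a => φ (l (B a))) (j x) = φ (l x) := by
    intro l x
    refine Submodule.span_induction (p := fun x _ =>
      B'.constr F' (fun a => φ (l (B a))) (j x) = φ (l x)) ?_ ?_ ?_ ?_ (B.mem_span x)
    · rintro _ ⟨a, rfl⟩
      rw [hj, Basis.constr_basis]
    · rw [map_zero, map_zero, map_zero, map_zero]
    · intro x y _ _ hx hy
      rw [map_add, map_add, hx, hy, map_add, map_add]
    · intro c x _ hx
      rw [LinearMap.map_smulₛₗ, map_smul, hx, map_smul, smul_eq_mul, smul_eq_mul, map_mul]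
  rw [linearIndependent_iff']
  intro s c hc i hi
  have h1 := congrArg (B'.constr F' (fun a => φ ((Finsupp.lapply i ∘ₗ g) (B a)))) hc
  rw [map_zero, map_sum] at h1
  have h2 : ∀ k ∈ s, B'.constr F' (fun a => φ ((Finsupp.lapply i ∘ₗ g) (B a))) (c k • j (v k)) =
      if k = i then c i else 0 := by
    intro k _
    rw [map_smul, hext, LinearMap.comp_apply, hgv, Finsupp.lapply_apply, Finsupp.single_apply]
    split_ifs with h
    · rw [map_one, smul_eq_mul, mul_one, h]
    · rw [map_zero, smul_zero]
  rw [Finset.sum_congr rfl h2, Finset.sum_ite_eq' s i, if_pos hi] at h1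
  exact h1

theorem HI_map {I : Ideal (A4 F)} (hI : HI I) : HI (I.map (MvPolynomial.map φ)) := by
  obtain ⟨s, hs, rfl⟩ := HI_fg hI
  rw [Ideal.map_span]
  apply HI_span
  rintro _ ⟨f, hf, rfl⟩
  obtain ⟨n, hn⟩ := hs f hf
  exact ⟨n, IsHomogeneous.map hn φ⟩

/-- the semilinear map given by `φ` on coefficients -/
noncomputable def BCH_map : A4 F →ₛₗ[φ] A4 F' where
  toFun := MvPolynomial.map φ
  map_add' := map_add _
  map_smul' := by
    intro c x
    rw [MvPolynomial.smul_eq_C_mul, map_mul, MvPolynomial.map_C, MvPolynomial.smul_eq_C_mul]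

theorem BCH_map_apply (f : A4 F) : BCH_map φ f = MvPolynomial.map φ f := rfl

theorem BCH_map_smul (c : F) (f : A4 F) :
    MvPolynomial.map φ (c • f) = φ c • MvPolynomial.map φ f := (BCH_map φ).map_smulₛₗ c f

theorem BCH_li_poly {ι : Type*} {v : ι → A4 F} (hv : LinearIndependent F v) :
    LinearIndependent F' (fun i => MvPolynomial.map φ (v i)) :=
  BCH_li φ (basisMonomials (Fin 4) F) (basisMonomials (Fin 4) F') (BCH_map φ)
    (fun a => by
      rw [coe_basisMonomials, coe_basisMonomials, BCH_map_apply, MvPolynomial.map_monomial, map_one])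
    hv

theorem BCH_mem_span {S : Set (A4 F)} {x : A4 F} (hx : x ∈ Submodule.span F S) :
    MvPolynomial.map φ x ∈ Submodule.span F' (MvPolynomial.map φ '' S) := by
  refine Submodule.span_induction (p := fun x _ => MvPolynomial.map φ x ∈
    Submodule.span F' (MvPolynomial.map φ '' S)) ?_ ?_ ?_ ?_ hx
  · intro y hy
    exact Submodule.subset_span ⟨y, hy, rfl⟩
  · rw [map_zero]; exact Submodule.zero_mem _
  · intro x y _ _ hx hy
    rw [map_add]
    exact Submodule.add_mem _ hx hy
  · intro c x _ hx
    rw [BCH_map_smul]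
    exact Submodule.smul_mem _ _ hx

theorem BCH_finrank (W : Submodule F (A4 F)) [Module.Finite F W] :
    finrank F' (Submodule.span F' (MvPolynomial.map φ '' (W : Set (A4 F)))) = finrank F W := by
  have b := Module.finBasis F W
  have hli : LinearIndependent F (fun i => (b i : A4 F)) := by
    have := b.linearIndependent.map' W.subtype (Submodule.ker_subtype W)
    exact this
  have hsp : Submodule.span F (Set.range (fun i => (b i : A4 F))) = W := by
    have h1 := congrArg (Submodule.map W.subtype) b.span_eq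
    rw [Submodule.map_span, Submodule.map_top, Submodule.range_subtype, ← Set.range_comp] at h1
    exact h1
  have h2 : Submodule.span F' (MvPolynomial.map φ '' (W : Set (A4 F))) =
      Submodule.span F' (Set.range (fun i => MvPolynomial.map φ (b i : A4 F))) := by
    apply le_antisymm
    · rw [Submodule.span_le]
      rintro _ ⟨x, hx, rfl⟩
      have hx' : x ∈ Submodule.span F (Set.range (fun i => (b i : A4 F))) := by
        rw [hsp]; exact hx
      have h3 := BCH_mem_span φ hx'
      rw [← Set.range_comp] at h3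
      exact h3
    · apply Submodule.span_mono
      rintro _ ⟨i, rfl⟩
      exact ⟨(b i : A4 F), (b i).2, rfl⟩
  rw [h2, finrank_span_eq_card (BCH_li_poly φ hli), Fintype.card_fin]

theorem BCH_mul_mem {I : Ideal (A4 F)} (a : A4 F') {x : A4 F'}
    (hx : x ∈ Submodule.span F' (MvPolynomial.map φ '' (I : Set (A4 F)))) :
    a * x ∈ Submodule.span F' (MvPolynomial.map φ '' (I : Set (A4 F))) := by
  refine Submodule.span_induction (p := fun x _ => a * x ∈
    Submodule.span F' (MvPolynomial.map φ '' (I : Set (A4 F)))) ?_ ?_ ?_ ?_ hx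
  · rintro _ ⟨f, hf, rfl⟩
    induction a using MvPolynomial.induction_on' with
    | monomial m c =>
      have h1 : monomial m c * MvPolynomial.map φ f =
          c • MvPolynomial.map φ (monomial m 1 * f) := by
        rw [map_mul, MvPolynomial.map_monomial, map_one, ← smul_mul_assoc, smul_monomial,
          smul_eq_mul, mul_one]
      rw [h1]
      exact Submodule.smul_mem _ _ (Submodule.subset_span ⟨_, I.mul_mem_left _ hf, rfl⟩)
    | add p q hp hq =>
      rw [add_mul]
      exact Submodule.add_mem _ hp hq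
  · rw [mul_zero]; exact Submodule.zero_mem _
  · intro x y _ _ hx hy
    rw [mul_add]
    exact Submodule.add_mem _ hx hy
  · intro c x _ hx
    rw [mul_smul_comm]
    exact Submodule.smul_mem _ _ hx

theorem BCH_mem_map {I : Ideal (A4 F)} {x : A4 F'} (hx : x ∈ I.map (MvPolynomial.map φ)) :
    x ∈ Submodule.span F' (MvPolynomial.map φ '' (I : Set (A4 F))) := by
  refine Submodule.span_induction (p := fun x _ => x ∈
    Submodule.span F' (MvPolynomial.map φ '' (I : Set (A4 F)))) ?_ ?_ ?_ ?_ hx
  · intro y hy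
    exact Submodule.subset_span hy
  · exact Submodule.zero_mem _
  · intro x y _ _ hx hy
    exact Submodule.add_mem _ hx hy
  · intro c x _ hx
    exact BCH_mul_mem φ c hx

theorem BCH_hc (n : ℕ) (f : A4 F) :
    homogeneousComponent n (MvPolynomial.map φ f) = MvPolynomial.map φ (homogeneousComponent n f) := by
  ext m
  rw [coeff_homogeneousComponent, coeff_map, coeff_map, coeff_homogeneousComponent]
  split_ifs with h
  · rfl
  · rw [map_zero]

theorem BCH_part {I : Ideal (A4 F)} (hI : HI I) (n : ℕ) :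
    part (I.map (MvPolynomial.map φ)) n =
      Submodule.span F' (MvPolynomial.map φ '' (part I n : Set (A4 F))) := by
  apply le_antisymm
  · intro x hx
    rw [mem_part] at hx
    have h1 : ∀ y ∈ Submodule.span F' (MvPolynomial.map φ '' (I : Set (A4 F))),
        homogeneousComponent n y ∈
          Submodule.span F' (MvPolynomial.map φ '' (part I n : Set (A4 F))) := by
      intro y hy
      refine Submodule.span_induction (p := fun y _ => homogeneousComponent n y ∈
        Submodule.span F' (MvPolynomial.map φ '' (part I n : Set (A4 F)))) ?_ ?_ ?_ ?_ hy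
      · rintro _ ⟨f, hf, rfl⟩
        rw [BCH_hc]
        refine Submodule.subset_span ⟨_, ?_, rfl⟩
        show homogeneousComponent n f ∈ part I n
        rw [mem_part]
        exact ⟨hI f hf n, HF2_hc_mem n f⟩
      · rw [map_zero]; exact Submodule.zero_mem _
      · intro x y _ _ hx hy
        rw [map_add]
        exact Submodule.add_mem _ hx hy
      · intro c x _ hx
        rw [map_smul]
        exact Submodule.smul_mem _ _ hx
    have h2 := h1 x (BCH_mem_map φ hx.1)
    rwa [HF2_hc_self hx.2] at h2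
  · rw [Submodule.span_le]
    rintro _ ⟨f, hf, rfl⟩
    have hf' : f ∈ part I n := hf
    rw [mem_part] at hf'
    show _ ∈ part _ n
    rw [mem_part]
    exact ⟨Ideal.mem_map_of_mem _ hf'.1, IsHomogeneous.map hf'.2 φ⟩

include φ in
theorem BCH_Fm (n : ℕ) : finrank F' (Fm F' n) = finrank F (Fm F n) := by
  have h0 : ∀ (K : Type) [Field K], part (⊤ : Ideal (A4 K)) n = Fm K n := by
    intro K _
    apply le_antisymm inf_le_right
    intro f hf
    exact ⟨trivial, hf⟩
  have h1 := BCH_part φ (HI_top (F := F)) n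
  rw [Ideal.map_top, h0, h0] at h1
  rw [h1, BCH_finrank]

theorem hf_map {I : Ideal (A4 F)} (hI : HI I) (n : ℕ) :
    hf (I.map (MvPolynomial.map φ)) n = hf I n := by
  have : Module.Finite F (part I n) :=
    Submodule.finiteDimensional_of_le (inf_le_right : part I n ≤ Fm F n)
  unfold hf
  rw [BCH_part φ hI, BCH_finrank, BCH_Fm φ]

theorem BCH_res (P Q : Fin 4 → F) (f : A4 F) :
    res (φ ∘ P) (φ ∘ Q) (MvPolynomial.map φ f) = MvPolynomial.map φ (res P Q f) := by
  induction f using MvPolynomial.induction_on with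
  | C a =>
    rw [MvPolynomial.map_C]
    unfold res
    rw [MvPolynomial.aeval_C, MvPolynomial.aeval_C, MvPolynomial.algebraMap_eq,
      MvPolynomial.algebraMap_eq, MvPolynomial.map_C]
  | add p q hp hq => rw [map_add, map_add, hp, hq, map_add, map_add]
  | mul_X p i hp =>
    rw [map_mul, map_mul, hp, map_mul, map_mul, MvPolynomial.map_X]
    congr 1
    unfold res
    rw [MvPolynomial.aeval_X, MvPolynomial.aeval_X, map_add, map_mul, map_mul, MvPolynomial.map_C,
      MvPolynomial.map_C, MvPolynomial.map_X, MvPolynomial.map_X]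
    rfl

theorem BCH_hg (g : Polynomial F) (M : ℕ) :
    hg (g.map φ) M = MvPolynomial.map φ (hg g M) := by
  unfold hg
  rw [map_sum]
  refine Finset.sum_congr rfl fun i _ => ?_
  rw [map_mul, map_mul, map_pow, map_pow, MvPolynomial.map_X, MvPolynomial.map_X,
    MvPolynomial.map_C, Polynomial.coeff_map]

theorem BCH_dres (P Q U V : Fin 4 → F) (g : Polynomial F) (M : ℕ) (f : A4 F) :
    dres (φ ∘ P) (φ ∘ Q) (φ ∘ U) (φ ∘ V) (g.map φ) M (MvPolynomial.map φ f) =
      MvPolynomial.map φ (dres P Q U V g M f) := by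
  unfold dres
  rw [map_sum]
  refine Finset.sum_congr rfl fun a _ => ?_
  rw [MvPolynomial.pderiv_map, BCH_res, BCH_hg, map_mul, map_add, map_mul, map_mul, map_pow,
    MvPolynomial.map_X, MvPolynomial.map_C, MvPolynomial.map_C]
  rfl

theorem mapC_ideal {ι κ : Type} (C : Cfg F ι κ) :
    C.ideal.map (MvPolynomial.map φ) ≤ (C.mapC φ).ideal := by
  rw [Ideal.map_le_iff_le_comap]
  intro f hf
  rw [Ideal.mem_comap]
  obtain ⟨hf1, hf2⟩ := hf
  refine ⟨?_, ?_⟩
  · have hf1' : f ∈ ⨅ i, C.tI i := hf1
    show _ ∈ ⨅ i, (C.mapC φ).tI i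
    rw [Ideal.mem_iInf] at hf1' ⊢
    intro i
    have h1 : res (C.TP i) (C.TQ i) f = 0 := hf1' i
    show res (φ ∘ C.TP i) (φ ∘ C.TQ i) (MvPolynomial.map φ f) = 0
    rw [BCH_res, h1, map_zero]
  · have hf2' : f ∈ ⨅ j, C.dI j := hf2
    show _ ∈ ⨅ j, (C.mapC φ).dI j
    rw [Ideal.mem_iInf] at hf2' ⊢
    intro j
    obtain ⟨h1, h2⟩ : res (C.P j) (C.Q j) f = 0 ∧
      dres (C.P j) (C.Q j) (C.U j) (C.V j) (C.g j) (C.M j) f = 0 := hf2' j
    show res (φ ∘ C.P j) (φ ∘ C.Q j) (MvPolynomial.map φ f) = 0 ∧
      dres (φ ∘ C.P j) (φ ∘ C.Q j) (φ ∘ C.U j) (φ ∘ C.V j) ((C.g j).map φ) (C.M j)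
        (MvPolynomial.map φ f) = 0
    rw [BCH_res, h1, map_zero, BCH_dres, h2, map_zero]
    exact ⟨rfl, rfl⟩

/-- the semilinear map `φ ∘ ·` on vectors -/
noncomputable def BCH_vec : (Fin 4 → F) →ₛₗ[φ] (Fin 4 → F') where
  toFun := fun v => φ ∘ v
  map_add' := by
    intro x y
    funext a
    exact map_add φ _ _
  map_smul' := by
    intro c x
    funext a
    exact map_mul φ _ _

theorem BCH_vec_apply (v : Fin 4 → F) : BCH_vec φ v = φ ∘ v := rfl

theorem BCH_li_vec {ι : Type*} {v : ι → Fin 4 → F} (hv : LinearIndependent F v) :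
    LinearIndependent F' (fun i => φ ∘ v i) :=
  BCH_li φ (Pi.basisFun F (Fin 4)) (Pi.basisFun F' (Fin 4)) (BCH_vec φ)
    (fun a => by
      rw [Pi.basisFun_apply, Pi.basisFun_apply, BCH_vec_apply]
      funext b
      simp only [Function.comp_apply, Pi.single_apply]
      split_ifs with h
      · exact map_one φ
      · exact map_zero φ)
    hv

theorem BCH_vec_span {S : Set (Fin 4 → F)} {x : Fin 4 → F} (hx : x ∈ Submodule.span F S) :
    φ ∘ x ∈ Submodule.span F' ((fun v => φ ∘ v) '' S) := by
  refine Submodule.span_induction (p := fun x _ => φ ∘ x ∈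
    Submodule.span F' ((fun v => φ ∘ v) '' S)) ?_ ?_ ?_ ?_ hx
  · intro y hy
    exact Submodule.subset_span ⟨y, hy, rfl⟩
  · rw [← BCH_vec_apply, map_zero]; exact Submodule.zero_mem _
  · intro x y _ _ hx hy
    rw [← BCH_vec_apply, map_add]
    exact Submodule.add_mem _ hx hy
  · intro c x _ hx
    rw [← BCH_vec_apply, LinearMap.map_smulₛₗ]
    exact Submodule.smul_mem _ _ hx

theorem mapC_good {ι κ : Type} {C : Cfg F ι κ} {Γ : Finset (ι × κ)} (hC : C.Good Γ) :
    (C.mapC φ).Good Γ := by
  have h2 : ∀ {x y : Fin 4 → F}, LinearIndependent F ![x, y] →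
      LinearIndependent F' ![φ ∘ x, φ ∘ y] := by
    intro x y h
    have h1 := BCH_li_vec φ h
    have h3 : (fun i => φ ∘ (![x, y] : Fin 2 → Fin 4 → F) i) = ![φ ∘ x, φ ∘ y] := by
      funext i
      fin_cases i <;> rfl
    rwa [h3] at h1
  have h4 : ∀ {x y z w : Fin 4 → F}, LinearIndependent F ![x, y, z, w] →
      LinearIndependent F' ![φ ∘ x, φ ∘ y, φ ∘ z, φ ∘ w] := by
    intro x y z w h
    have h1 := BCH_li_vec φ h
    have h3 : (fun i => φ ∘ (![x, y, z, w] : Fin 4 → Fin 4 → F) i) =
        ![φ ∘ x, φ ∘ y, φ ∘ z, φ ∘ w] := by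
      funext i
      fin_cases i <;> rfl
    rwa [h3] at h1
  refine ⟨fun i => h2 (hC.tind i), fun i i' h => h4 (hC.tdis i i' h), fun j => h4 (hC.lind j),
    fun j j' h => h4 (hC.ldis j j' h), hC.pos, fun j => ?_, fun i j h => h4 (hC.non i j h), ?_⟩
  · show ((C.g j).map φ).natDegree = C.M j
    rw [Polynomial.natDegree_map, hC.deg j]
  · intro i j hij
    obtain ⟨s, t, hst, ha, hb⟩ := hC.node i j hij
    refine ⟨φ s, φ t, ?_, ?_, ?_⟩
    · rcases hst with h | h
      · exact Or.inl ((map_ne_zero φ).2 h)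
      · exact Or.inr ((map_ne_zero φ).2 h)
    · have h1 := BCH_vec_span φ ha
      rw [Set.image_insert_eq, Set.image_singleton, ← BCH_vec_apply φ (s • C.P j + _), map_add,
        LinearMap.map_smulₛₗ, LinearMap.map_smulₛₗ] at h1
      exact h1
    · have h1 := BCH_vec_span φ hb
      rw [Set.image_insert_eq, Set.image_insert_eq, Set.image_insert_eq, Set.image_singleton,
        ← BCH_vec_apply φ (s ^ C.M j • C.U j + _), map_add, LinearMap.map_smulₛₗ,
        LinearMap.map_smulₛₗ, map_pow] at h1
      show φ s ^ C.M j • (φ ∘ C.U j) + (MvPolynomial.eval ![φ s, φ t]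
        (hg ((C.g j).map φ) (C.M j))) • (φ ∘ C.V j) ∈ _
      have h5 : MvPolynomial.eval ![φ s, φ t] (hg ((C.g j).map φ) (C.M j)) =
          φ (MvPolynomial.eval ![s, t] (hg (C.g j) (C.M j))) := by
        rw [BCH_hg, MvPolynomial.eval_map]
        have h6 : (![φ s, φ t] : Fin 2 → F') = φ ∘ ![s, t] := by
          funext i
          fin_cases i <;> rfl
        rw [h6, MvPolynomial.eval₂_comp]
      rw [h5]
      exact h1

/-- the span of the images of a subspace of forms under an automorphism of the field -/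
theorem hf_span_map {n r : ℕ} (W : Submodule F (A4 F)) (hW : W ≤ Fm F r) :
    hf (Ideal.span ((Submodule.span F' (MvPolynomial.map φ '' (W : Set (A4 F))) :
      Submodule F' (A4 F')) : Set (A4 F'))) n = hf (Ideal.span (W : Set (A4 F))) n := by
  have h1 : Ideal.span ((Submodule.span F' (MvPolynomial.map φ '' (W : Set (A4 F))) :
      Submodule F' (A4 F')) : Set (A4 F')) =
      (Ideal.span (W : Set (A4 F))).map (MvPolynomial.map φ) := by
    rw [Ideal.map_span]
    exact Submodule.span_span_of_tower F' (A4 F') _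
  rw [h1, hf_map φ (HI_span fun f hf => ⟨r, hW hf⟩)]

end Pool.H33.G
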