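import Pool.Agent.H33.G.HP

/-! # BD: ideals with bounded Hilbert function; primes with unbounded Hilbert function

* `exists_prime`: take `p` maximal among homogeneous ideals `⊇ I` with unbounded Hilbert function
  (Noetherian); if `f g ∈ p`, `f, g ∉ p` forms then `p ⊔ (f)` and `cln p (f) ∋ g` are bounded, so `p`
  is bounded by `hf_colon`, `hf_colon_lt`.
* `Bdd_of_lt_prime`: take a form `f ∈ J \ p`; `cln p (f) = p`, so
  `hf (p ⊔ (f)) (n + a) = hf p (n + a) - hf p n` is bounded.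
* `mod_bound`: `J` is generated by finitely many forms `f_1 .. f_m` (`HI_fg`) and
  `dim (part (I ⊔ J) n) - dim (part I n) ≤ Σ_i hf A (n - deg f_i)`; e.g. by induction on the number
  of generators with `hf_colon` for `I ⊔ (f_1, .., f_i)` and `A ≤ cln (I ⊔ ..) (f_i)`. -/

open MvPolynomial Module

namespace Pool.H33.G

variable {F : Type} [Field F]

theorem Bdd_mono {I J : Ideal (A4 F)} (h : I ≤ J) (hI : Bdd I) : Bdd J := by
  obtain ⟨c, hc⟩ := hI
  exact ⟨c, fun n => (hf_anti h n).trans (hc n)⟩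

theorem BD_HI_single {a : ℕ} {f : A4 F} (hf' : f ∈ Fm F a) : HI (Ideal.span {f}) :=
  HI_span (fun g hg => by
    rw [Set.mem_singleton_iff] at hg
    subst hg
    exact ⟨a, hf'⟩)

theorem BD_le_cln_self (I J : Ideal (A4 F)) : I ≤ cln I J := by
  intro f hf' g _
  exact I.mul_mem_right g hf'

theorem BD_mem_cln_single {I : Ideal (A4 F)} {f g : A4 F} :
    g ∈ cln I (Ideal.span {f}) ↔ g * f ∈ I := by
  constructor
  · intro h
    exact h f (Ideal.mem_span_singleton_self f)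
  · intro h x hx
    obtain ⟨y, rfl⟩ := Ideal.mem_span_singleton'.1 hx
    have : g * (y * f) = y * (g * f) := by ring
    rw [this]
    exact I.mul_mem_left y h

theorem BD_of_colon {I : Ideal (A4 F)} (hI : HI I) {a : ℕ} {f : A4 F} (hf' : f ∈ Fm F a)
    (h1 : Bdd (I ⊔ Ideal.span {f})) (h2 : Bdd (cln I (Ideal.span {f}))) : Bdd I := by
  obtain ⟨c1, h1⟩ := h1
  obtain ⟨c2, h2⟩ := h2
  refine ⟨c1 + c2, fun n => ?_⟩
  rcases lt_or_ge n a with hn | hn
  · rw [hf_colon_lt hI hf' hn]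
    have := h1 n
    have h3 := (hf_nonneg (cln I (Ideal.span {f})) n).trans (h2 n)
    linarith
  · obtain ⟨m, rfl⟩ := Nat.exists_eq_add_of_le' hn
    rw [hf_colon hI hf' m]
    exact add_le_add (h1 _) (h2 _)

theorem BD_top : Bdd (⊤ : Ideal (A4 F)) := ⟨0, fun n => by rw [hf_top]⟩

theorem exists_prime {I : Ideal (A4 F)} (hI : HI I) (h : ¬ Bdd I) : ∃ p, UP I p := by
  obtain ⟨p, ⟨hpI, hle, hpb⟩, hmax⟩ := set_has_maximal_iff_noetherian.2
    (inferInstance : IsNoetherian (A4 F) (A4 F)) {J : Ideal (A4 F) | HI J ∧ I ≤ J ∧ ¬ Bdd J}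
    ⟨I, hI, le_refl I, h⟩
  have hmax' : ∀ J : Ideal (A4 F), HI J → p < J → Bdd J := by
    intro J hJ hlt
    by_contra hb
    exact hmax J ⟨hJ, hle.trans hlt.le, hb⟩ hlt
  refine ⟨p, ?_, hpI, hle, hpb⟩
  refine HI_isPrime hpI ?_ ?_
  · rintro rfl
    exact hpb BD_top
  · intro a b f hfa g hgb hfg
    by_contra hcon
    push Not at hcon
    obtain ⟨hfp, hgp⟩ := hcon
    apply hpb
    refine BD_of_colon hpI hfa ?_ ?_
    · refine hmax' _ (HI_sup hpI (BD_HI_single hfa)) ?_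
      refine lt_of_le_of_ne le_sup_left ?_
      intro heq
      apply hfp
      rw [heq]
      exact (le_sup_right : Ideal.span {f} ≤ p ⊔ Ideal.span {f}) (Ideal.mem_span_singleton_self f)
    · refine hmax' _ (HI_cln hpI (BD_HI_single hfa)) ?_
      refine lt_of_le_of_ne (BD_le_cln_self _ _) ?_
      intro heq
      apply hgp
      rw [heq, BD_mem_cln_single, mul_comm]
      exact hfg

theorem BD_exists_form {p J : Ideal (A4 F)} (hJ : HI J) (h : ¬ J ≤ p) :
    ∃ (a : ℕ) (f : A4 F), f ∈ Fm F a ∧ f ∈ J ∧ f ∉ p := by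
  by_contra hcon
  push Not at hcon
  apply h
  refine le_of_part_le hJ (fun n f hf' => ?_)
  rw [mem_part] at hf' ⊢
  exact ⟨hcon n f hf'.2 hf'.1, hf'.2⟩

theorem BD_cln_prime {p : Ideal (A4 F)} (hp : p.IsPrime) {f : A4 F} (hf' : f ∉ p) :
    cln p (Ideal.span {f}) = p := by
  refine le_antisymm ?_ (BD_le_cln_self _ _)
  intro g hg
  rw [BD_mem_cln_single] at hg
  exact (hp.mem_or_mem hg).resolve_right hf'

theorem Bdd_of_lt_prime {p J : Ideal (A4 F)} (hp : p.IsPrime) (hpI : HI p) (hJ : HI J) (hlt : p < J)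
    {e : ℕ} {c : ℤ} (hL : Lin p e c) : Bdd J := by
  obtain ⟨a, f, hfa, hfJ, hfp⟩ := BD_exists_form hJ (not_le_of_gt hlt)
  have hle : p ⊔ Ideal.span {f} ≤ J := by
    refine sup_le hlt.le ?_
    rw [Ideal.span_singleton_le_iff_mem]
    exact hfJ
  refine Bdd_mono hle ?_
  obtain ⟨c', hc'⟩ := Lin_bound hL
  have hc0 : 0 ≤ c' := (abs_nonneg _).trans (hc' 0)
  have he : (0 : ℤ) ≤ (e : ℤ) := Int.natCast_nonneg e
  refine ⟨(e : ℤ) * a + 2 * c', fun n => ?_⟩
  rcases lt_or_ge n a with hn | hn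
  · rw [← hf_colon_lt hpI hfa hn]
    have h1 := (abs_le.1 (hc' n)).2
    have h2 : (e : ℤ) * n ≤ (e : ℤ) * a := by
      have : (n : ℤ) ≤ (a : ℤ) := by exact_mod_cast hn.le
      exact mul_le_mul_of_nonneg_left this he
    linarith
  · obtain ⟨m, rfl⟩ := Nat.exists_eq_add_of_le' hn
    have h1 := hf_colon hpI hfa m
    rw [BD_cln_prime hp hfp] at h1
    have h2 := (abs_le.1 (hc' (m + a))).2
    have h3 := (abs_le.1 (hc' m)).1
    push_cast at h2
    have h4 : hf (p ⊔ Ideal.span {f}) (m + a) = hf p (m + a) - hf p m := by linarith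
    rw [h4]
    nlinarith

theorem UP_eq {I p p' : Ideal (A4 F)} {e : ℕ} {c : ℤ} (hL : Lin I e c) (hp : UP I p)
    (hp' : UP I p') (h : p ≤ p') : p = p' := by
  by_contra hne
  have hlt : p < p' := lt_of_le_of_ne h hne
  obtain ⟨e', c', _, hL'⟩ := exists_Lin_of_le hp.2.1 hp.2.2.1 hL
  exact hp'.2.2.2 (Bdd_of_lt_prime hp.1 hp.2.1 hp'.2.1 hlt hL')

theorem BD_mod_finset {I A : Ideal (A4 F)} (hI : HI I) (hA' : Bdd A) (s : Finset (A4 F)) :
    (∀ f ∈ s, ∃ n, f ∈ Fm F n) → (∀ f ∈ s, ∀ a ∈ A, a * f ∈ I) →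
    ∃ c : ℤ, ∀ n, hf I n ≤ hf (I ⊔ Ideal.span (s : Set (A4 F))) n + c := by
  classical
  induction s using Finset.induction_on with
  | empty =>
    intro _ _
    refine ⟨0, fun n => ?_⟩
    simp
  | insert f s hfs ih =>
    intro h1 h2
    obtain ⟨c, hc⟩ := ih (fun g hg => h1 g (Finset.mem_insert_of_mem hg))
      (fun g hg => h2 g (Finset.mem_insert_of_mem hg))
    obtain ⟨cA, hcA⟩ := hA'
    obtain ⟨a, hfa⟩ := h1 f (Finset.mem_insert_self f s)
    set I' := I ⊔ Ideal.span (s : Set (A4 F)) with hI'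
    have hI'H : HI I' := HI_sup hI
      (HI_span (fun g hg => h1 g (Finset.mem_insert_of_mem (Finset.mem_coe.1 hg))))
    have heq : I ⊔ Ideal.span ((insert f s : Finset (A4 F)) : Set (A4 F)) =
        I' ⊔ Ideal.span {f} := by
      rw [Finset.coe_insert, Set.insert_eq, Ideal.span_union, hI', sup_assoc]
      congr 1
      exact sup_comm _ _
    have hAle : A ≤ cln I' (Ideal.span {f}) := by
      intro x hx
      rw [BD_mem_cln_single]
      exact (le_sup_left : I ≤ I') (h2 f (Finset.mem_insert_self f s) x hx)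
    have hcA0 : 0 ≤ cA := (hf_nonneg A 0).trans (hcA 0)
    refine ⟨c + cA, fun n => ?_⟩
    rw [heq]
    have h3 := hc n
    rcases lt_or_ge n a with hn | hn
    · rw [← hf_colon_lt hI'H hfa hn]
      linarith
    · obtain ⟨m, rfl⟩ := Nat.exists_eq_add_of_le' hn
      have h4 := hf_colon hI'H hfa m
      have h5 := (hf_anti hAle m).trans (hcA m)
      linarith

theorem mod_bound {I J A : Ideal (A4 F)} (hI : HI I) (hJ : HI J) (hA : HI A) (hA' : Bdd A)
    (h : A * J ≤ I) : ∃ c : ℤ, ∀ n, hf I n ≤ hf (I ⊔ J) n + c := by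
  obtain ⟨s, hs, hsJ⟩ := HI_fg hJ
  have h2 : ∀ f ∈ s, ∀ a ∈ A, a * f ∈ I := by
    intro f hf' a ha
    refine h (Ideal.mul_mem_mul ha ?_)
    rw [← hsJ]
    exact Ideal.subset_span hf'
  obtain ⟨c, hc⟩ := BD_mod_finset hI hA' s hs h2
  refine ⟨c, fun n => ?_⟩
  rw [← hsJ]
  exact hc n

theorem BD_mem_of_vars {p : Ideal (A4 F)} (h : ∀ i, (X i : A4 F) ∈ p) {n : ℕ} (hn : 1 ≤ n)
    {f : A4 F} (hf' : f ∈ Fm F n) : f ∈ p := by
  rw [mem_homogeneousSubmodule] at hf'
  rw [f.as_sum]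
  refine p.sum_mem (fun m hm => ?_)
  have hdeg : m.degree = n := by
    have := hf' (mem_support_iff.1 hm)
    rwa [Finsupp.degree_eq_weight_one]
  have hm0 : m ≠ 0 := by
    rintro rfl
    rw [map_zero] at hdeg
    omega
  obtain ⟨i, hi⟩ := Finsupp.ne_iff.1 hm0
  have hi' : Finsupp.single i 1 ≤ m := by
    rw [Finsupp.single_le_iff]
    exact Nat.one_le_iff_ne_zero.2 hi
  have heq : monomial m (coeff m f) = monomial (m - Finsupp.single i 1) (coeff m f) * X i := by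
    rw [X, monomial_mul, mul_one, tsub_add_cancel_of_le hi']
  rw [heq]
  exact p.mul_mem_left _ (h i)

/-- a prime with unbounded Hilbert function does not contain all linear forms -/
theorem exists_linear_not_mem {p : Ideal (A4 F)} (hp : p.IsPrime) (hpI : HI p) (h : ¬ Bdd p) :
    ∃ x ∈ Fm F 1, x ∉ p := by
  by_contra hcon
  push Not at hcon
  apply h
  have hX : ∀ i, (X i : A4 F) ∈ p := fun i => hcon _ (by
    rw [mem_homogeneousSubmodule]
    exact isHomogeneous_X F i)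
  refine ⟨max 0 (hf p 0), fun n => ?_⟩
  rcases Nat.eq_zero_or_pos n with rfl | hn
  · exact le_max_right _ _
  · refine le_trans ?_ (le_max_left _ _)
    rw [← hf_top (F := F) n]
    refine hf_anti_part (fun f hf' => ?_)
    rw [mem_part] at hf' ⊢
    exact ⟨BD_mem_of_vars hX hn hf'.2, hf'.2⟩

theorem Lle_of_le {I J : Ideal (A4 F)} (h : I ≤ J) : Lle I J :=
  ⟨0, fun n _ => part_mono h n⟩

theorem Lle_trans {I J L : Ideal (A4 F)} (h : Lle I J) (h' : Lle J L) : Lle I L := by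
  obtain ⟨n0, h⟩ := h
  obtain ⟨n1, h'⟩ := h'
  exact ⟨max n0 n1, fun n hn => (h n (le_trans (le_max_left _ _) hn)).trans
    (h' n (le_trans (le_max_right _ _) hn))⟩

theorem BD_pow_mul_mem {x f : A4 F} (hx : x ∈ Fm F 1) {n : ℕ} (hf' : f ∈ Fm F n) (N : ℕ) :
    x ^ N * f ∈ Fm F (N + n) := by
  rw [mem_homogeneousSubmodule] at *
  have := (hx.pow N).mul hf'
  rwa [one_mul] at this

/-- if `I` is contained in `J` in large degrees then multiplying by a large power of any linear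
form moves `I` into `J` -/
theorem Lle_mul_pow {I J : Ideal (A4 F)} (hI : HI I) (h : Lle I J) :
    ∃ N : ℕ, ∀ x ∈ Fm F 1, ∀ f ∈ I, x ^ N * f ∈ J := by
  obtain ⟨n0, h⟩ := h
  refine ⟨n0, fun x hx f hf' => ?_⟩
  rw [← sum_homogeneousComponent f, Finset.mul_sum]
  refine J.sum_mem (fun m _ => ?_)
  have h1 : x ^ n0 * homogeneousComponent m f ∈ part J (n0 + m) := by
    refine h _ (Nat.le_add_right _ _) ?_
    rw [mem_part]
    exact ⟨I.mul_mem_left _ (hI f hf' m), BD_pow_mul_mem hx (homogeneousComponent_mem m f) n0⟩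
  exact (mem_part.1 h1).1

theorem Lle_prime {I J p : Ideal (A4 F)} (hI : HI I) (hp : p.IsPrime) (hpI : HI p) (hb : ¬ Bdd p)
    (h : Lle I J) (hJ : J ≤ p) : I ≤ p := by
  obtain ⟨x, hx, hxp⟩ := exists_linear_not_mem hp hpI hb
  obtain ⟨N, hN⟩ := Lle_mul_pow hI h
  intro f hf'
  have h1 := hJ (hN x hx f hf')
  exact (hp.mem_or_mem h1).resolve_left (fun h2 => hxp (hp.mem_of_pow_mem _ h2))

theorem hf_le_of_Lle {I J : Ideal (A4 F)} (h : Lle I J) :
    ∃ n0 : ℕ, ∀ n ≥ n0, hf J n ≤ hf I n := by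
  obtain ⟨n0, h⟩ := h
  exact ⟨n0, fun n hn => hf_anti_part (h n hn)⟩

end Pool.H33.G
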