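import Pool.Agent.H33.G.BD

/-! # BZ: integral curves over an algebraically closed field: `hf p n ≤ e n + 1`

Let `p` be a homogeneous prime with `hf p n = e n + c` for large `n`, `e ≥ 1`.
(1) `V(p)` (nonzero points of `K^4` up to scalars where all forms of `p` vanish) is infinite: otherwise
the (affine) Nullstellensatz gives `p = ` vanishing ideal of finitely many lines through the origin, and
evaluation at `N` representatives shows `hf p n ≤ N` for all `n`, contradiction.
(2) for a form `f ∉ p` of degree `n`: `hf (p ⊔ (f)) (m + n) = hf p (m+n) - hf p m = e n` for large `m`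
(`hf_colon`, `cln p (f) = p`), while `N` pairwise non-proportional common zeros of `p` and `f` impose `N`
independent conditions on forms of large degree, so `N ≤ e n`.
(3) choose `e n + 1` pairwise non-proportional points of `V(p)`; evaluation of forms of degree `n` has
kernel `part p n`; so `hf p n ≤ e n + 1`. -/

open MvPolynomial Module

namespace Pool.H33.G

section BZaux

variable {K : Type} [Field K]

/-- evaluation of forms of degree `n` at finitely many points -/
noncomputable def BZev {N : ℕ} (v : Fin N → Fin 4 → K) (n : ℕ) : Fm K n →ₗ[K] (Fin N → K) :=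
  LinearMap.pi fun i => (aeval (R := K) (v i)).toLinearMap.comp (Fm K n).subtype

theorem BZev_apply {N : ℕ} (v : Fin N → Fin 4 → K) (n : ℕ) (f : Fm K n) (i : Fin N) :
    BZev v n f i = aeval (v i) (f : A4 K) := rfl

theorem BZ_upper {I : Ideal (A4 K)} {N n : ℕ} (v : Fin N → Fin 4 → K)
    (h : ∀ f ∈ Fm K n, (∀ i, aeval (v i) f = 0) → f ∈ I) : hf I n ≤ N := by
  have h1 := LinearMap.finrank_range_add_finrank_ker (BZev v n)
  have h2 : finrank K (LinearMap.range (BZev v n)) ≤ N := by
    refine (Submodule.finrank_le _).trans ?_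
    simp
  have h3 : finrank K (LinearMap.ker (BZev v n)) ≤ finrank K (part I n) := by
    have h4 : (LinearMap.ker (BZev v n)).map (Fm K n).subtype ≤ part I n := by
      rintro f ⟨⟨g, hg⟩, hgk, rfl⟩
      rw [mem_part]
      refine ⟨h g hg fun i => ?_, hg⟩
      have := LinearMap.mem_ker.1 hgk
      exact congrFun this i
    have h5 := Submodule.finrank_mono h4
    rwa [LinearEquiv.finrank_eq (Submodule.equivMapOfInjective _ (Submodule.injective_subtype _) _).symm] at h5
  unfold hf
  omega

theorem BZ_lower {I : Ideal (A4 K)} {N n : ℕ} (v : Fin N → Fin 4 → K)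
    (hI : ∀ f ∈ I, ∀ i, aeval (v i) f = 0) (hs : Function.Surjective (BZev v n)) : (N : ℤ) ≤ hf I n := by
  have h1 := LinearMap.finrank_range_add_finrank_ker (BZev v n)
  have h2 : finrank K (LinearMap.range (BZev v n)) = N := by
    rw [LinearMap.range_eq_top.2 hs, finrank_top]
    simp
  have h3 : finrank K (part I n) ≤ finrank K (LinearMap.ker (BZev v n)) := by
    have h4 : part I n ≤ (LinearMap.ker (BZev v n)).map (Fm K n).subtype := by
      intro f hf'
      rw [mem_part] at hf'
      refine ⟨⟨f, hf'.2⟩, ?_, rfl⟩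
      rw [SetLike.mem_coe, LinearMap.mem_ker]
      funext i
      exact hI f hf'.1 i
    have h5 := Submodule.finrank_mono h4
    rwa [LinearEquiv.finrank_eq (Submodule.equivMapOfInjective _ (Submodule.injective_subtype _) _).symm] at h5
  unfold hf
  omega

/-- a linear functional as a linear form -/
theorem BZ_form (φ : (Fin 4 → K) →ₗ[K] K) :
    ∃ l ∈ Fm K 1, ∀ x : Fin 4 → K, aeval x l = φ x := by
  refine ⟨∑ a, C (φ (Pi.single a 1)) * X a, ?_, fun x => ?_⟩
  · exact Submodule.sum_mem _ fun a _ => isHomogeneous_C_mul_X _ _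
  · have hx : x = ∑ a, x a • (Pi.single a 1 : Fin 4 → K) := by
      funext b
      simp [Finset.sum_apply, Pi.single_apply]
    conv_rhs => rw [hx]
    rw [map_sum, map_sum]
    refine Finset.sum_congr rfl fun a _ => ?_
    simp [mul_comm]

theorem BZ_surj {N n : ℕ} (v : Fin N → Fin 4 → K) (h0 : ∀ i, v i ≠ 0)
    (h1 : ∀ i j, i ≠ j → v i ∉ Submodule.span K {v j}) (hn : N ≤ n + 1) :
    Function.Surjective (BZev v n) := by
  classical
  rw [← LinearMap.range_eq_top, eq_top_iff]
  intro y _
  have hy : y = ∑ i, y i • (Pi.single i 1 : Fin N → K) := by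
    funext b
    simp [Finset.sum_apply, Pi.single_apply]
  rw [hy]
  refine Submodule.sum_mem _ fun i _ => Submodule.smul_mem _ _ ?_
  -- linear forms
  have hl : ∀ j, ∃ l ∈ Fm K 1, aeval (v i) l ≠ 0 ∧ (j ≠ i → aeval (v j) l = 0) := by
    intro j
    by_cases hj : j = i
    · obtain ⟨φ, hφ, -⟩ := Submodule.exists_le_ker_of_notMem (p := (⊥ : Submodule K (Fin 4 → K)))
        (v := v i) (by simpa using h0 i)
      obtain ⟨l, hl, hl'⟩ := BZ_form φ
      exact ⟨l, hl, by rw [hl']; exact hφ, fun h => absurd hj h⟩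
    · obtain ⟨φ, hφ, hφ'⟩ := Submodule.exists_le_ker_of_notMem (h1 i j (Ne.symm hj))
      obtain ⟨l, hl, hl'⟩ := BZ_form φ
      refine ⟨l, hl, by rw [hl']; exact hφ, fun _ => ?_⟩
      rw [hl']
      exact hφ' (Submodule.mem_span_singleton_self _)
  choose l hl1 hl2 hl3 using hl
  set g : A4 K := (∏ j ∈ Finset.univ.erase i, l j) * l i ^ (n - (N - 1)) with hg
  have hcard : (Finset.univ.erase i).card = N - 1 := by simp
  have hgF : g ∈ Fm K n := by
    have e1 : (∏ j ∈ Finset.univ.erase i, l j).IsHomogeneous (∑ j ∈ Finset.univ.erase i, 1) :=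
      IsHomogeneous.prod _ _ _ fun j _ => hl1 j
    have e2 : (l i ^ (n - (N - 1))).IsHomogeneous (1 * (n - (N - 1))) := IsHomogeneous.pow (hl1 i) _
    have e3 := e1.mul e2
    have e4 : (∑ j ∈ Finset.univ.erase i, 1) + 1 * (n - (N - 1)) = n := by
      rw [Finset.sum_const, hcard]
      simp only [smul_eq_mul, mul_one, one_mul]
      have := i.pos
      omega
    rw [e4] at e3
    exact e3
  have hgi : aeval (v i) g ≠ 0 := by
    rw [hg, map_mul, map_prod, map_pow]
    exact mul_ne_zero (Finset.prod_ne_zero_iff.2 fun j _ => hl2 j) (pow_ne_zero _ (hl2 i))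
  have hgj : ∀ j, j ≠ i → aeval (v j) g = 0 := by
    intro j hj
    rw [hg, map_mul, map_prod]
    rw [Finset.prod_eq_zero (i := j) (by simp [hj]) (hl3 j hj), zero_mul]
  refine ⟨(aeval (v i) g)⁻¹ • ⟨g, hgF⟩, ?_⟩
  funext j
  rw [map_smul]
  simp only [Pi.smul_apply, BZev_apply, smul_eq_mul]
  by_cases hj : j = i
  · rw [hj, inv_mul_cancel₀ hgi, Pi.single_eq_same]
  · simp [hgj j hj, hj]

theorem BZ_smul {f : A4 K} {n : ℕ} (hf' : f ∈ Fm K n) (c : K) (x : Fin 4 → K) :
    aeval (c • x) f = c ^ n * aeval x f := by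
  rw [aeval_def, aeval_def, eval₂_eq', eval₂_eq', Finset.mul_sum]
  refine Finset.sum_congr rfl fun d hd => ?_
  have hd' : d.degree = n := by
    have := (mem_homogeneousSubmodule n f).1 hf' (mem_support_iff.1 hd)
    rw [← this, Finsupp.weight_apply, Finsupp.degree_apply]
    simp [Finsupp.sum]
  have : ∏ a, (c • x) a ^ d a = c ^ n * ∏ a, x a ^ d a := by
    simp only [Pi.smul_apply, smul_eq_mul, mul_pow, Finset.prod_mul_distrib]
    rw [Finset.prod_pow_eq_pow_sum]
    congr 2
    rw [← hd', Finsupp.degree_eq_sum]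
  rw [this]
  ring

end BZaux

variable {K : Type} [Field K] [IsAlgClosed K]

theorem BZ_points {p : Ideal (A4 K)} (hp : p.IsPrime) {e : ℕ} {c : ℤ}
    (hL : Lin p e c) (he : 1 ≤ e) (N : ℕ) :
    ∃ v : Fin N → Fin 4 → K, (∀ i, v i ≠ 0) ∧ (∀ i j, i ≠ j → v i ∉ Submodule.span K {v j}) ∧
      ∀ i, v i ∈ zeroLocus K p := by
  induction N with
  | zero => exact ⟨fun i => i.elim0, fun i => i.elim0, fun i => i.elim0, fun i => i.elim0⟩
  | succ N ih =>
    obtain ⟨v, h0, h1, h2⟩ := ih
    have key : ∃ x ∈ zeroLocus K p, x ≠ 0 ∧ ∀ i, x ∉ Submodule.span K {v i} := by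
      by_contra hcon
      push Not at hcon
      have hup : ∀ n, 1 ≤ n → hf p n ≤ N := by
        intro n hn
        refine BZ_upper v fun f hf' hfv => ?_
        have : f ∈ vanishingIdeal K (zeroLocus K p) := by
          rw [mem_vanishingIdeal_iff]
          intro x hx
          by_cases hx0 : x = 0
          · have := BZ_smul hf' (0 : K) 0
            rw [zero_smul, zero_pow (by omega), zero_mul] at this
            rw [hx0]
            exact this
          · obtain ⟨i, hi⟩ := hcon x hx hx0
            obtain ⟨a, rfl⟩ := Submodule.mem_span_singleton.1 hi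
            rw [BZ_smul hf', hfv i, mul_zero]
        rw [vanishingIdeal_zeroLocus_eq_radical, hp.isRadical.radical] at this
        exact this
      obtain ⟨n0, hn0⟩ := hL
      have a1 := hn0 (n0 + 1 + (N + 1 + c.natAbs)) (by omega)
      have a2 := hup (n0 + 1 + (N + 1 + c.natAbs)) (by omega)
      rw [a1] at a2
      have a3 : ((n0 + 1 + (N + 1 + c.natAbs) : ℕ) : ℤ) ≤
          (e : ℤ) * ((n0 + 1 + (N + 1 + c.natAbs) : ℕ) : ℤ) := by
        have : (1 : ℤ) ≤ e := by exact_mod_cast he
        nlinarith [Nat.cast_nonneg (α := ℤ) (n0 + 1 + (N + 1 + c.natAbs))]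
      have a4 : -(c.natAbs : ℤ) ≤ c := by omega
      push_cast at a2 a3
      have a5 : (c.natAbs : ℤ) = |c| := by simp
      omega
    obtain ⟨x, hx, hx0, hxv⟩ := key
    refine ⟨Fin.cons x v, ?_, ?_, ?_⟩
    · intro i
      refine Fin.cases ?_ (fun i => ?_) i
      · simpa using hx0
      · simpa using h0 i
    · intro i j
      refine Fin.cases ?_ (fun i => ?_) i
      · refine Fin.cases ?_ (fun j => ?_) j
        · intro h; exact absurd rfl h
        · intro _; simpa using hxv j
      · refine Fin.cases ?_ (fun j => ?_) j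
        · intro _ hmem
          simp only [Fin.cons_succ, Fin.cons_zero] at hmem
          obtain ⟨a, ha⟩ := Submodule.mem_span_singleton.1 hmem
          have ha0 : a ≠ 0 := by
            rintro rfl
            rw [zero_smul] at ha
            exact h0 i ha.symm
          apply hxv i
          rw [Submodule.mem_span_singleton]
          exact ⟨a⁻¹, by rw [← ha, smul_smul, inv_mul_cancel₀ ha0, one_smul]⟩
        · intro hij
          simp only [Fin.cons_succ]
          exact h1 i j fun h => hij (by rw [h])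
    · intro i
      refine Fin.cases ?_ (fun i => ?_) i
      · simpa using hx
      · simpa using h2 i

theorem hf_prime_le {p : Ideal (A4 K)} (hp : p.IsPrime) (hpI : HI p) {e : ℕ} {c : ℤ}
    (hL : Lin p e c) (he : 1 ≤ e) (n : ℕ) : hf p n ≤ e * n + 1 := by
  obtain ⟨v, h0, h1, h2⟩ := BZ_points hp hL he (e * n + 1)
  have := BZ_upper (I := p) (n := n) v ?_
  · push_cast at this
    exact this
  intro f hf' hfv
  by_contra hfp
  have hc : cln p (Ideal.span {f}) = p := by
    apply le_antisymm
    · intro g hg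
      have := hg f (Ideal.mem_span_singleton_self f)
      exact (hp.mem_or_mem this).resolve_right hfp
    · intro g hg q _
      exact p.mul_mem_right _ hg
  obtain ⟨n0, hn0⟩ := hL
  have e1 := hf_colon hpI hf' (n0 + e * n + 1)
  rw [hc, hn0 _ (by omega), hn0 _ (by omega)] at e1
  have e2 := BZ_lower (I := p ⊔ Ideal.span {f}) (n := n0 + e * n + 1 + n) v ?_
    (BZ_surj v h0 h1 (by omega))
  · push_cast at e1 e2
    have : (e : ℤ) * (n0 + e * n + 1 + n) + c = (e : ℤ) * (n0 + e * n + 1) + c + e * n := by ring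
    rw [this] at e1
    linarith
  · intro g hg i
    have hle : p ⊔ Ideal.span {f} ≤ RingHom.ker (aeval (R := K) (v i)) := by
      refine sup_le (fun q hq => ?_) ?_
      · rw [RingHom.mem_ker]
        exact (mem_zeroLocus_iff.1 (h2 i)) q hq
      · rw [Ideal.span_singleton_le_iff_mem, RingHom.mem_ker]
        exact hfv i
    exact RingHom.mem_ker.1 (hle hg)

end Pool.H33.G
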