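import Pool.Agent.H33.G.Defs

/-! # CFG: the explicit curve

`z0, z1, z2` are homogeneous coordinates of the 8 points of a MacLane (Möbius-Kantor) configuration `8_3`
over `F`, where `ω^2 + ω + 1 = 0`; the lines of the configuration are the `blk b`.  The point `i` has affine
coordinates `(al i, be i)`.  The line `b` has the equation `pk b * β = qk b + rk b * α`. -/

open MvPolynomial Module

namespace Pool.H33.G

/-- the collinear triples of the configuration -/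
def blk : Fin 8 → Fin 3 → Fin 8 :=
  ![![0, 1, 3], ![0, 2, 7], ![0, 5, 6], ![1, 2, 4], ![1, 6, 7], ![2, 3, 5], ![3, 4, 6], ![4, 5, 7]]

/-- the nodes: `T 8` meets every `L j`; `T i`, `i < 8`, meets `L 0`, `L 1` and `L (b + 2)` for the lines `b`
through the point `i` -/
def Gam : Finset (Fin 9 × Fin 10) :=
  Finset.univ.filter fun x => x.1 = 8 ∨ x.2 = 0 ∨ x.2 = 1 ∨
    ∃ b : Fin 8, ∃ c : Fin 3, x.2 = ⟨b.1 + 2, by omega⟩ ∧ x.1 = (blk b c).castSucc

theorem card_Gam : Gam.card = 50 := by decide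

section
variable {F : Type} [Field F] (ω : F)

def z0 : Fin 8 → F := ![2, 2, 1, 4, 2 + ω, 5 + ω, 5 + 3 * ω, 3]
def z1 : Fin 8 → F := ![1, 0, 1, 1, ω, 2 + ω, 2 + 2 * ω, 2]
def z2 : Fin 8 → F := ![0, 1, 1, 1, 1 + ω, 2 + ω, 2 + ω, 1]
def pk : Fin 8 → F := ![4, -1, 1 - ω, -2, -4 - 4 * ω, 1, 2 - 3 * ω, -4 + ω]
def qk : Fin 8 → F := ![2, 1, 2 + ω, -1, -2 - 2 * ω, 0, 1, -2 - ω]
def rk : Fin 8 → F := ![-4, -2, -4 - 2 * ω, -1, 1 + ω, 1, -2 - 3 * ω, 1 + 2 * ω]

def al (i : Fin 8) : F := z1 ω i / z0 ω i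
def be (i : Fin 8) : F := z2 ω i / z0 ω i

/-- the reduced lines -/
def sTP : Fin 9 → Fin 4 → F :=
  Fin.lastCases ![0, 1, 0, 0] fun i => ![1, al ω i, 0, 0]
def sTQ : Fin 9 → Fin 4 → F :=
  Fin.lastCases ![0, 0, 0, 1] fun i => ![0, 0, 1, be ω i]

/-- the supports of the double lines -/
def sP : Fin 10 → Fin 4 → F :=
  Fin.cons ![1, 0, 0, 0] (Fin.cons ![0, 0, 1, 0] fun b : Fin 8 => ![1, 0, pk ω b, qk ω b])
def sQ : Fin 10 → Fin 4 → F :=
  Fin.cons ![0, 1, 0, 0] (Fin.cons ![0, 0, 0, 1] fun b : Fin 8 => ![0, 1, 0, rk ω b])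
def sU : Fin 10 → Fin 4 → F :=
  Fin.cons ![0, 0, 1, 0] (Fin.cons ![1, 0, 0, 0] fun _ : Fin 8 => ![0, 0, 1, 0])
def sV : Fin 10 → Fin 4 → F :=
  Fin.cons ![0, 0, 0, 1] (Fin.cons ![0, 1, 0, 0] fun _ : Fin 8 => ![0, 0, 0, 1])

/-- monic polynomial of degree `M ≥ 8` with value `y i` at `x i` -/
noncomputable def gpoly (x y : Fin 8 → F) (M : ℕ) : Polynomial F :=
  Lagrange.interpolate Finset.univ x y +
    Polynomial.X ^ (M - 8) * ∏ i, (Polynomial.X - Polynomial.C (x i))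

/-- the genus parameters of the double lines -/
def sM (j : Fin 10) : ℕ := 152 + j

noncomputable def sg (j : Fin 10) : Polynomial F :=
  if j = 1 then gpoly (be ω) (al ω) (sM j) else gpoly (al ω) (be ω) (sM j)

/-- the explicit curve of degree 29 and arithmetic genus -1483: the union of the nine reduced lines
`sTP i, sTQ i` and of ten double lines with support `sP j, sQ j` -/
noncomputable def curve : Cfg F (Fin 9) (Fin 10) where
  TP := sTP ω
  TQ := sTQ ω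
  P := sP ω
  Q := sQ ω
  U := sU
  V := sV
  g := sg ω
  M := sM

end

theorem chi0_curve : chi0 (ι := Fin 9) (κ := Fin 10) sM Gam = 1 - (-1483) := by
  unfold chi0
  rw [card_Gam]
  simp [Fin.sum_univ_succ, sM]

end Pool.H33.G
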