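import Pool.Agent.H33.G.LNS

/-! # DBL: the double line `dblI P Q U V g M`

Let `y0, y1, u, w` be the linear forms dual to the basis `P, Q, U, V`.  Every `f` is
`f0(y0,y1) + f1(y0,y1) u + f2(y0,y1) w` modulo `(u,w)^2 = (lineI P Q)^2`, with
`res P Q f = f0` and `dres f = X0^M f1 + (hg g M) f2` (as `y0, y1` vanish on `U, V`); for `y ∈ lineI` one has
`dres (h * y) = res h * dres y`.  `X0^M` and `hg g M` are coprime since the coefficient of `X1^M` in
`hg g M` is the leading coefficient of `g`; in degree `n - 1 + M`, `n ≥ M`, every binary form is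
`X0^M f1 + (hg g M) f2` with `f1, f2` of degree `n - 1`. -/

open MvPolynomial Module

namespace Pool.H33.G

variable {F : Type} [Field F] {P Q U V : Fin 4 → F} {g : Polynomial F} {M : ℕ}

theorem mem_dblI {f : A4 F} : f ∈ dblI P Q U V g M ↔ res P Q f = 0 ∧ dres P Q U V g M f = 0 :=
  Iff.rfl

private theorem dbl_mem_lineI {f : A4 F} : f ∈ lineI P Q ↔ res P Q f = 0 := Iff.rfl

private theorem dbl_dres_mul (f h : A4 F) : dres P Q U V g M (f * h) =
    res P Q f * dres P Q U V g M h + res P Q h * dres P Q U V g M f := by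
  unfold dres
  rw [Finset.mul_sum, Finset.mul_sum, ← Finset.sum_add_distrib]
  refine Finset.sum_congr rfl fun a _ => ?_
  rw [pderiv_mul, map_add, map_mul, map_mul]
  ring

private theorem dbl_dres_add (f h : A4 F) : dres P Q U V g M (f + h) =
    dres P Q U V g M f + dres P Q U V g M h := by
  unfold dres
  rw [← Finset.sum_add_distrib]
  refine Finset.sum_congr rfl fun a _ => ?_
  rw [map_add, map_add, add_mul]

private theorem dbl_dres_smul (c : F) (f : A4 F) : dres P Q U V g M (c • f) =
    c • dres P Q U V g M f := by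
  unfold dres
  rw [Finset.smul_sum]
  refine Finset.sum_congr rfl fun a _ => ?_
  rw [Derivation.map_smul, map_smul, smul_mul_assoc]

/-- `dres` as a linear map -/
private noncomputable def dblL (P Q U V : Fin 4 → F) (g : Polynomial F) (M : ℕ) :
    A4 F →ₗ[F] MvPolynomial (Fin 2) F where
  toFun := dres P Q U V g M
  map_add' := dbl_dres_add
  map_smul' := dbl_dres_smul

private theorem dbl_res_hom {n : ℕ} {f : A4 F} (h : f.IsHomogeneous n) :
    (res P Q f).IsHomogeneous n := by
  have := h.aeval (S := F) (fun a => C (P a) * X 0 + C (Q a) * X 1) (n := 1)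
    (τ := Fin 2) (fun a => (isHomogeneous_C_mul_X _ _).add (isHomogeneous_C_mul_X _ _))
  rw [one_mul] at this
  exact this

private theorem dbl_hg_hom (g : Polynomial F) (M : ℕ) : (hg g M).IsHomogeneous M := by
  unfold hg
  refine IsHomogeneous.sum _ _ _ fun i hi => ?_
  rw [Finset.mem_range] at hi
  have h := ((isHomogeneous_C (Fin 2) (g.coeff i)).mul
    ((isHomogeneous_X_pow (R := F) (0 : Fin 2) (M - i)))).mul
    (isHomogeneous_X_pow (R := F) (1 : Fin 2) i)
  have e : 0 + (M - i) + i = M := by omega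
  rw [e] at h
  exact h

private theorem dbl_dres_hom {n : ℕ} {f : A4 F} (h : f.IsHomogeneous n) :
    (dres P Q U V g M f).IsHomogeneous (n - 1 + M) := by
  unfold dres
  refine IsHomogeneous.sum _ _ _ fun a _ => ?_
  refine (dbl_res_hom h.pderiv).mul (IsHomogeneous.add ?_ ?_)
  · have := (isHomogeneous_X_pow (R := F) (0 : Fin 2) M).mul (isHomogeneous_C (Fin 2) (U a))
    rw [add_zero] at this
    exact this
  · have := (dbl_hg_hom g M).mul (isHomogeneous_C (Fin 2) (V a))
    rw [add_zero] at this
    exact this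

private theorem dbl_zero_comp (T : A4 F →ₗ[F] MvPolynomial (Fin 2) F) (d : ℕ → ℕ)
    (hT : ∀ n, ∀ f ∈ Fm F n, T f ∈ homogeneousSubmodule (Fin 2) F (d n))
    (hd : ∀ m n, d m = d n → m = n ∨ (∀ f ∈ Fm F m, T f = 0) ∨ (∀ f ∈ Fm F n, T f = 0))
    {f : A4 F} (hf : T f = 0) (n : ℕ) : T (homogeneousComponent n f) = 0 := by
  by_cases hn : ∀ f ∈ Fm F n, T f = 0
  · exact hn _ (homogeneousComponent_mem n f)
  by_cases hN : n ≤ f.totalDegree
  · have h1 : T f = ∑ i ∈ Finset.range (f.totalDegree + 1), T (homogeneousComponent i f) := by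
      conv_lhs => rw [← sum_homogeneousComponent f]
      rw [map_sum]
    rw [hf] at h1
    have h2 := congrArg (homogeneousComponent (d n)) h1
    rw [map_zero, map_sum, Finset.sum_eq_single n] at h2
    · rw [homogeneousComponent_of_mem (hT n _ (homogeneousComponent_mem n f)), if_pos rfl] at h2
      exact h2.symm
    · intro i _ hi
      rw [homogeneousComponent_of_mem (hT i _ (homogeneousComponent_mem i f))]
      split_ifs with h
      · rcases hd n i h with h' | h' | h'
        · exact absurd h'.symm hi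
        · exact absurd h' hn
        · exact h' _ (homogeneousComponent_mem i f)
      · rfl
    · intro h
      exact absurd (Finset.mem_range.mpr (Nat.lt_succ_of_le hN)) h
  · rw [homogeneousComponent_eq_zero _ _ (not_le.mp hN), map_zero]

theorem HI_dblI : HI (dblI P Q U V g M) := by
  intro f hf n
  refine ⟨?_, ?_⟩
  · refine dbl_zero_comp (res P Q).toLinearMap (fun n => n) (fun n f hf => dbl_res_hom hf)
      (fun m n h => Or.inl h) hf.1 n
  · refine dbl_zero_comp (dblL P Q U V g M) (fun n => n - 1 + M) (fun n f hf => dbl_dres_hom hf)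
      ?_ hf.2 n
    have h0 : ∀ f ∈ Fm F 0, dblL P Q U V g M f = 0 := by
      intro f hf
      have h1 := (totalDegree_zero_iff_isHomogeneous (p := f)).mpr hf
      rw [totalDegree_eq_zero_iff_eq_C] at h1
      rw [h1]
      change dres P Q U V g M _ = 0
      unfold dres
      refine Finset.sum_eq_zero fun a _ => ?_
      rw [pderiv_C, map_zero, zero_mul]
    intro m n h
    rcases Nat.eq_zero_or_pos m with rfl | hm
    · exact Or.inr (Or.inl h0)
    rcases Nat.eq_zero_or_pos n with rfl | hn
    · exact Or.inr (Or.inr h0)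
    left
    omega

theorem dblI_le : dblI P Q U V g M ≤ lineI P Q := fun _ h => h.1

/-- `dres` is linear over `res` on the ideal of the line -/
theorem dres_mul {f y : A4 F} (hy : y ∈ lineI P Q) :
    dres P Q U V g M (f * y) = res P Q f * dres P Q U V g M y := by
  rw [dbl_dres_mul, dbl_mem_lineI.mp hy, zero_mul, add_zero]

theorem sq_le_dblI : (lineI P Q) ^ 2 ≤ dblI P Q U V g M := by
  rw [pow_two, Ideal.mul_le]
  intro r hr s hs
  refine ⟨?_, ?_⟩
  · rw [map_mul, dbl_mem_lineI.mp hr, zero_mul]
  · rw [dres_mul hs, dbl_mem_lineI.mp hr, zero_mul]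

theorem dblI_primary {f y : A4 F} (hf' : f ∉ lineI P Q) (hy : f * y ∈ dblI P Q U V g M) :
    y ∈ dblI P Q U V g M := by
  have hf0 : res P Q f ≠ 0 := fun h => hf' h
  have h1 : res P Q y = 0 := by
    have := hy.1
    rw [map_mul] at this
    exact (mul_eq_zero.mp this).resolve_left hf0
  refine ⟨h1, ?_⟩
  have h2 := hy.2
  rw [dres_mul (show y ∈ lineI P Q from h1)] at h2
  exact (mul_eq_zero.mp h2).resolve_left hf0

/-- the linear form with given values -/
private noncomputable def dblF (l : (Fin 4 → F) →ₗ[F] F) : A4 F :=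
  ∑ a, C (l (fun j => if a = j then 1 else 0)) * X a

private theorem dblF_hom (l : (Fin 4 → F) →ₗ[F] F) : (dblF l).IsHomogeneous 1 :=
  IsHomogeneous.sum _ _ _ fun a _ => isHomogeneous_C_mul_X _ _

private theorem dblF_val (l : (Fin 4 → F) →ₗ[F] F) (v : Fin 4 → F) :
    ∑ a, l (fun j => if a = j then 1 else 0) * v a = l v := by
  rw [LinearMap.pi_apply_eq_sum_univ l v]
  refine Finset.sum_congr rfl fun a _ => ?_
  rw [smul_eq_mul, mul_comm]

private theorem dblF_res (l : (Fin 4 → F) →ₗ[F] F) :
    res P Q (dblF l) = C (l P) * X 0 + C (l Q) * X 1 := by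
  unfold dblF res
  rw [map_sum, ← dblF_val l P, ← dblF_val l Q, map_sum, map_sum, Finset.sum_mul, Finset.sum_mul,
    ← Finset.sum_add_distrib]
  refine Finset.sum_congr rfl fun a _ => ?_
  rw [map_mul, aeval_X, map_mul, map_mul, algHom_C]
  rw [algebraMap_eq]
  ring

private theorem dblF_dres (l : (Fin 4 → F) →ₗ[F] F) :
    dres P Q U V g M (dblF l) = X 0 ^ M * C (l U) + hg g M * C (l V) := by
  have h : ∀ a, pderiv a (dblF l) = C (l (fun j => if a = j then 1 else 0)) := by
    intro a
    unfold dblF
    rw [map_sum, Finset.sum_eq_single a]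
    · rw [pderiv_C_mul, pderiv_X_self, mul_one]
    · intro b _ hb
      rw [pderiv_C_mul, pderiv_X_of_ne hb, mul_zero]
    · intro h
      exact absurd (Finset.mem_univ a) h
  unfold dres
  rw [← dblF_val l U, ← dblF_val l V, map_sum, map_sum, Finset.mul_sum, Finset.mul_sum,
    ← Finset.sum_add_distrib]
  refine Finset.sum_congr rfl fun a _ => ?_
  rw [h, algHom_C, algebraMap_eq, map_mul, map_mul]
  ring

/-- dual coordinates and the section of the restriction -/
private theorem dbl_coords (hi : LinearIndependent F ![P, Q, U, V]) (g : Polynomial F) (M : ℕ) :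
    ∃ (s : MvPolynomial (Fin 2) F →ₐ[F] A4 F) (u w : A4 F),
      (∀ p, res P Q (s p) = p) ∧ (∀ p, dres P Q U V g M (s p) = 0) ∧
      (∀ n p, p.IsHomogeneous n → (s p).IsHomogeneous n) ∧
      u.IsHomogeneous 1 ∧ w.IsHomogeneous 1 ∧ u ∈ lineI P Q ∧ w ∈ lineI P Q ∧
      dres P Q U V g M u = X 0 ^ M ∧ dres P Q U V g M w = hg g M := by
  let b : Basis (Fin 4) F (Fin 4 → F) := basisOfLinearIndependentOfCardEqFinrank hi (by simp)
  have hb : ∀ i, b i = ![P, Q, U, V] i := by
    intro i
    simp [b]
  have hc : ∀ i j, b.coord i (![P, Q, U, V] j) = if j = i then 1 else 0 := by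
    intro i j
    rw [← hb, Basis.coord_apply, Basis.repr_self, Finsupp.single_apply]
  have hP : ∀ i, b.coord i P = if (0 : Fin 4) = i then 1 else 0 := fun i => hc i 0
  have hQ : ∀ i, b.coord i Q = if (1 : Fin 4) = i then 1 else 0 := fun i => hc i 1
  have hU : ∀ i, b.coord i U = if (2 : Fin 4) = i then 1 else 0 := fun i => hc i 2
  have hV : ∀ i, b.coord i V = if (3 : Fin 4) = i then 1 else 0 := fun i => hc i 3
  have r0 : res P Q (dblF (b.coord 0)) = X 0 := by
    rw [dblF_res, hP, hQ]
    simp
  have r1 : res P Q (dblF (b.coord 1)) = X 1 := by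
    rw [dblF_res, hP, hQ]
    simp
  have d0 : dres P Q U V g M (dblF (b.coord 0)) = 0 := by
    rw [dblF_dres, hU, hV]
    simp
  have d1 : dres P Q U V g M (dblF (b.coord 1)) = 0 := by
    rw [dblF_dres, hU, hV]
    simp
  let s : MvPolynomial (Fin 2) F →ₐ[F] A4 F := aeval ![dblF (b.coord 0), dblF (b.coord 1)]
  have hs0 : s (X 0) = dblF (b.coord 0) := by simp [s]
  have hs1 : s (X 1) = dblF (b.coord 1) := by simp [s]
  have hsX : ∀ i, res P Q (s (X i)) = X i ∧ dres P Q U V g M (s (X i)) = 0 := by
    intro i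
    fin_cases i
    · exact ⟨by simpa [hs0] using r0, by simpa [hs0] using d0⟩
    · exact ⟨by simpa [hs1] using r1, by simpa [hs1] using d1⟩
  have hsr : ∀ p, res P Q (s p) = p := by
    intro p
    have : (res P Q).comp s = AlgHom.id F _ := by
      apply MvPolynomial.algHom_ext
      intro i
      exact (hsX i).1
    exact congrArg (fun t : MvPolynomial (Fin 2) F →ₐ[F] MvPolynomial (Fin 2) F => t p) this
  refine ⟨s, dblF (b.coord 2), dblF (b.coord 3), hsr, ?_, ?_, dblF_hom _, dblF_hom _, ?_, ?_, ?_, ?_⟩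
  · intro p
    induction p using MvPolynomial.induction_on with
    | C _ =>
      rw [algHom_C]
      unfold dres
      refine Finset.sum_eq_zero fun c _ => ?_
      rw [algebraMap_eq, pderiv_C, map_zero, zero_mul]
    | add p q hp hq => rw [map_add, dbl_dres_add, hp, hq, add_zero]
    | mul_X p i hp => rw [map_mul, dbl_dres_mul, hp, (hsX i).2, mul_zero, mul_zero, add_zero]
  · intro n p hp
    have := hp.aeval (S := F) (τ := Fin 4) ![dblF (b.coord 0), dblF (b.coord 1)] (n := 1) (by
      intro i
      fin_cases i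
      · exact dblF_hom _
      · exact dblF_hom _)
    rw [one_mul] at this
    exact this
  · rw [dbl_mem_lineI, dblF_res, hP, hQ]
    simp
  · rw [dbl_mem_lineI, dblF_res, hP, hQ]
    simp
  · rw [dblF_dres, hU, hV]
    simp
  · rw [dblF_dres, hU, hV]
    simp

/-- rank-nullity -/
private theorem dbl_rank {E : Type*} [AddCommGroup E] [Module F E] (T : A4 F →ₗ[F] E)
    (S : Submodule F (A4 F)) [FiniteDimensional F S] :
    finrank F (S.map T) + finrank F (S ⊓ LinearMap.ker T : Submodule F (A4 F)) = finrank F S := by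
  have h := LinearMap.finrank_range_add_finrank_ker (T.comp S.subtype)
  rw [LinearMap.range_comp, Submodule.range_subtype, LinearMap.ker_comp] at h
  rw [← Submodule.map_comap_subtype S (LinearMap.ker T), Submodule.finrank_map_subtype_eq]
  exact h

private theorem dbl_part_line (n : ℕ) :
    (Fm F n ⊓ LinearMap.ker (res P Q).toLinearMap : Submodule F (A4 F)) = part (lineI P Q) n := by
  unfold part
  rw [inf_comm]
  rfl

private theorem dbl_finrank (hi : LinearIndependent F ![P, Q, U, V]) (n : ℕ) :
    finrank F (homogeneousSubmodule (Fin 2) F n) = n + 1 := by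
  obtain ⟨s, u, w, hs, -, hsn, -⟩ := dbl_coords hi 0 0
  have hPQ : LinearIndependent F ![P, Q] := by
    have := hi.comp (![0, 1] : Fin 2 → Fin 4) (by decide)
    have e : (![P, Q, U, V] : Fin 4 → Fin 4 → F) ∘ (![0, 1] : Fin 2 → Fin 4) = ![P, Q] := by
      funext i
      fin_cases i <;> rfl
    rw [e] at this
    exact this
  have h1 := dbl_rank (res P Q).toLinearMap (Fm F n)
  have h2 : (Fm F n).map (res P Q).toLinearMap = homogeneousSubmodule (Fin 2) F n := by
    apply le_antisymm
    · rintro _ ⟨f, hf, rfl⟩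
      exact dbl_res_hom hf
    · intro p hp
      exact ⟨s p, hsn n p hp, hs p⟩
  rw [h2, dbl_part_line] at h1
  have h3 := hf_lineI hPQ n
  unfold hf at h3
  omega

private theorem dbl_decomp (hg' : g.natDegree = M) (hM : 0 < M) {n : ℕ} (hn : M ≤ n)
    {h : MvPolynomial (Fin 2) F} (hh : h.IsHomogeneous (n - 1 + M)) :
    ∃ f1 f2 : MvPolynomial (Fin 2) F, f1.IsHomogeneous (n - 1) ∧ f2.IsHomogeneous (n - 1) ∧
      h = X 0 ^ M * f1 + hg g M * f2 := by
  have hlc : g.coeff M ≠ 0 := by
    rw [← hg', Polynomial.coeff_natDegree]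
    intro h0
    rw [Polynomial.leadingCoeff_eq_zero] at h0
    rw [h0, Polynomial.natDegree_zero] at hg'
    omega
  let W : Submodule F (MvPolynomial (Fin 2) F) :=
    (homogeneousSubmodule (Fin 2) F (n - 1)).map (LinearMap.mulLeft F (X 0 ^ M)) ⊔
    (homogeneousSubmodule (Fin 2) F (n - 1)).map (LinearMap.mulLeft F (hg g M))
  have key : ∀ k a b : ℕ, a + b = n - 1 + M → M ≤ a + k →
      (X 0 ^ a * X 1 ^ b : MvPolynomial (Fin 2) F) ∈ W := by
    intro k
    induction k with
    | zero =>
      intro a b hab hk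
      apply Submodule.mem_sup_left
      refine ⟨X 0 ^ (a - M) * X 1 ^ b, ?_, ?_⟩
      · have := (isHomogeneous_X_pow (R := F) (0 : Fin 2) (a - M)).mul
          (isHomogeneous_X_pow (R := F) (1 : Fin 2) b)
        have e : a - M + b = n - 1 := by omega
        rw [e] at this
        exact this
      · rw [LinearMap.mulLeft_apply, ← mul_assoc, ← pow_add]
        congr 2
        omega
    | succ k ih =>
      intro a b hab hk
      rcases le_or_gt M a with ha | ha
      · exact ih a b hab (by omega)
      have hb : M ≤ b := by omega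
      have h1 : (X 0 ^ a * X 1 ^ (b - M) * hg g M : MvPolynomial (Fin 2) F) =
          (∑ i ∈ Finset.range M, g.coeff i • (X 0 ^ (a + (M - i)) * X 1 ^ (b - M + i))) +
            g.coeff M • (X 0 ^ a * X 1 ^ b) := by
        unfold hg
        rw [Finset.sum_range_succ, mul_add, Finset.mul_sum]
        congr 1
        · refine Finset.sum_congr rfl fun i _ => ?_
          rw [smul_eq_C_mul, pow_add, pow_add]
          ring
        · rw [smul_eq_C_mul, Nat.sub_self, pow_zero, mul_one]
          have e : b = b - M + M := by omega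
          conv_rhs => rw [e, pow_add]
          ring
      have h2 : (X 0 ^ a * X 1 ^ (b - M) * hg g M : MvPolynomial (Fin 2) F) ∈ W := by
        apply Submodule.mem_sup_right
        refine ⟨X 0 ^ a * X 1 ^ (b - M), ?_, ?_⟩
        · have := (isHomogeneous_X_pow (R := F) (0 : Fin 2) a).mul
            (isHomogeneous_X_pow (R := F) (1 : Fin 2) (b - M))
          have e : a + (b - M) = n - 1 := by omega
          rw [e] at this
          exact this
        · rw [LinearMap.mulLeft_apply, mul_comm]
      have h3 : (∑ i ∈ Finset.range M, g.coeff i • (X 0 ^ (a + (M - i)) * X 1 ^ (b - M + i)) :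
          MvPolynomial (Fin 2) F) ∈ W := by
        refine Submodule.sum_mem _ fun i hi => Submodule.smul_mem _ _ ?_
        rw [Finset.mem_range] at hi
        exact ih _ _ (by omega) (by omega)
      have h4 : g.coeff M • (X 0 ^ a * X 1 ^ b : MvPolynomial (Fin 2) F) ∈ W := by
        have : g.coeff M • (X 0 ^ a * X 1 ^ b : MvPolynomial (Fin 2) F) =
            X 0 ^ a * X 1 ^ (b - M) * hg g M -
              ∑ i ∈ Finset.range M, g.coeff i • (X 0 ^ (a + (M - i)) * X 1 ^ (b - M + i)) := by
          rw [h1]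
          ring
        rw [this]
        exact Submodule.sub_mem _ h2 h3
      exact (Submodule.smul_mem_iff _ hlc).mp h4
  have hW : h ∈ W := by
    rw [h.as_sum]
    refine Submodule.sum_mem _ fun d hd => ?_
    have h1 : monomial d (coeff d h) = coeff d h • (X 0 ^ (d 0) * X 1 ^ (d 1)) := by
      rw [monomial_eq, Finsupp.prod_fintype _ _ (fun i => pow_zero _), Fin.prod_univ_two,
        smul_eq_C_mul]
    rw [h1]
    apply Submodule.smul_mem
    have h2 : d.degree = n - 1 + M := by
      by_contra hne
      exact (mem_support_iff.mp hd) (hh.coeff_eq_zero hne)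
    have h3 : d 0 + d 1 = n - 1 + M := by
      rw [← h2, Finsupp.degree_eq_sum, Fin.sum_univ_two]
    exact key M _ _ h3 (by omega)
  obtain ⟨x, ⟨f1, hf1, rfl⟩, y, ⟨f2, hf2, rfl⟩, hxy⟩ := Submodule.mem_sup.mp hW
  refine ⟨f1, f2, hf1, hf2, ?_⟩
  rw [← hxy]
  rfl

theorem hf_dblI (hi : LinearIndependent F ![P, Q, U, V]) (hg' : g.natDegree = M) (hM : 0 < M)
    {n : ℕ} (hn : M ≤ n) : hf (dblI P Q U V g M) n = 2 * n + 1 + M := by
  obtain ⟨s, u, w, hs, -, hsn, hu, hw, hul, hwl, hdu, hdw⟩ := dbl_coords hi g M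
  have h1 := dbl_rank (dblL P Q U V g M) (part (lineI P Q) n)
  have h2 : (part (lineI P Q) n).map (dblL P Q U V g M) =
      homogeneousSubmodule (Fin 2) F (n - 1 + M) := by
    apply le_antisymm
    · rintro _ ⟨f, hf, rfl⟩
      exact dbl_dres_hom (mem_part.mp hf).2
    · intro p hp
      obtain ⟨f1, f2, hf1, hf2, rfl⟩ := dbl_decomp hg' hM hn hp
      have e : n - 1 + 1 = n := by omega
      refine ⟨s f1 * u + s f2 * w, mem_part.mpr ⟨?_, ?_⟩, ?_⟩
      · exact Ideal.add_mem _ (Ideal.mul_mem_left _ _ hul) (Ideal.mul_mem_left _ _ hwl)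
      · have h3 := ((hsn _ _ hf1).mul hu).add ((hsn _ _ hf2).mul hw)
        rw [e] at h3
        exact h3
      · change dres P Q U V g M _ = _
        rw [dbl_dres_add, dres_mul hul, dres_mul hwl, hs, hs, hdu, hdw]
        ring
  have h3 : (part (lineI P Q) n ⊓ LinearMap.ker (dblL P Q U V g M) : Submodule F (A4 F)) =
      part (dblI P Q U V g M) n := by
    ext f
    rw [Submodule.mem_inf, mem_part, mem_part, LinearMap.mem_ker, mem_dblI, dbl_mem_lineI]
    change (res P Q f = 0 ∧ f ∈ Fm F n) ∧ dres P Q U V g M f = 0 ↔ _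
    tauto
  rw [h2, h3, dbl_finrank hi] at h1
  have h4 := dbl_rank (res P Q).toLinearMap (Fm F n)
  have h5 : (Fm F n).map (res P Q).toLinearMap = homogeneousSubmodule (Fin 2) F n := by
    apply le_antisymm
    · rintro _ ⟨f, hf, rfl⟩
      exact dbl_res_hom hf
    · intro p hp
      exact ⟨s p, hsn n p hp, hs p⟩
  rw [h5, dbl_part_line, dbl_finrank hi] at h4
  unfold hf
  omega

/-- `lineI / dblI` has rank one over the line -/
theorem dblI_rank_one (hi : LinearIndependent F ![P, Q, U, V]) {a : A4 F} (ha : a ∈ lineI P Q)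
    (ha' : a ∉ dblI P Q U V g M) :
    ∃ t, t ∉ lineI P Q ∧ ∀ y ∈ lineI P Q, t * y ∈ Ideal.span {a} ⊔ dblI P Q U V g M := by
  obtain ⟨s, u, w, hs, -, -⟩ := dbl_coords hi g M
  refine ⟨s (dres P Q U V g M a), ?_, ?_⟩
  · rw [dbl_mem_lineI, hs]
    intro h
    exact ha' ⟨ha, h⟩
  · intro y hy
    have h1 : s (dres P Q U V g M a) * y =
        s (dres P Q U V g M y) * a + (s (dres P Q U V g M a) * y - s (dres P Q U V g M y) * a) := by
      ring
    rw [h1]
    apply Submodule.add_mem_sup
    · exact Ideal.mul_mem_left _ _ (Ideal.mem_span_singleton_self a)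
    · refine ⟨?_, ?_⟩
      · rw [map_sub, map_mul, map_mul, dbl_mem_lineI.mp ha, dbl_mem_lineI.mp hy, mul_zero,
          mul_zero, sub_zero]
      · rw [sub_eq_add_neg, ← neg_one_smul F (s (dres P Q U V g M y) * a), dbl_dres_add,
          dbl_dres_smul, dres_mul hy, dres_mul ha, hs, hs, neg_one_smul]
        ring

private theorem dbl_chain (i : Fin 2) (f : A4 F) : pderiv i (res P Q f) =
    ∑ a, res P Q (pderiv a f) * C ((![P, Q] : Fin 2 → Fin 4 → F) i a) := by
  induction f using MvPolynomial.induction_on with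
  | C _ =>
    rw [algHom_C, algebraMap_eq, pderiv_C]
    symm
    refine Finset.sum_eq_zero fun a _ => ?_
    rw [pderiv_C, map_zero, zero_mul]
  | add p q hp hq =>
    rw [map_add, map_add, hp, hq, ← Finset.sum_add_distrib]
    refine Finset.sum_congr rfl fun a _ => ?_
    rw [map_add, map_add, add_mul]
  | mul_X p j hp =>
    have h1 : ∀ a, res P Q (pderiv a (p * X j)) * C ((![P, Q] : Fin 2 → Fin 4 → F) i a) =
        res P Q (X j) * (res P Q (pderiv a p) * C ((![P, Q] : Fin 2 → Fin 4 → F) i a)) +
          (if a = j then res P Q p * C ((![P, Q] : Fin 2 → Fin 4 → F) i j) else 0) := by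
      intro a
      rw [pderiv_mul, map_add, map_mul, map_mul]
      split_ifs with h
      · subst h
        rw [pderiv_X_self, map_one]
        ring
      · rw [pderiv_X_of_ne (fun h' => h h'.symm), map_zero]
        ring
    have h2 : pderiv i (res P Q (X j)) = C ((![P, Q] : Fin 2 → Fin 4 → F) i j) := by
      unfold res
      rw [aeval_X, map_add, pderiv_C_mul, pderiv_C_mul]
      fin_cases i
      · simp [pderiv_X]
      · simp [pderiv_X]
    simp only [h1]
    rw [map_mul, pderiv_mul, hp, h2, Finset.sum_add_distrib, ← Finset.mul_sum,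
      Finset.sum_ite_eq' Finset.univ j, if_pos (Finset.mem_univ j)]
    ring

private theorem dbl_eval (s t : F) (f : A4 F) :
    eval ![s, t] (res P Q f) = eval (s • P + t • Q) f := by
  have h : (aeval ![s, t] : MvPolynomial (Fin 2) F →ₐ[F] F).comp (res P Q) =
      (aeval (s • P + t • Q) : A4 F →ₐ[F] F) := by
    apply MvPolynomial.algHom_ext
    intro i
    simp [res]
    ring
  have h2 := congrArg (fun φ : A4 F →ₐ[F] F => φ f) h
  simp only [AlgHom.comp_apply] at h2
  rw [← coe_aeval_eq_eval, ← coe_aeval_eq_eval]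
  exact h2

/-- at a node: let `v = s P + t Q` and `D` be vectors such that the normal direction at `v` lies in
`span {P, Q, D}`.  Then for `f ∈ dblI` the derivative of `f` at `v` in direction `D` vanishes, provided
`(s,t) ≠ 0` (so that the normal direction is not in `span {P, Q}`) -/
theorem dblI_node (hi : LinearIndependent F ![P, Q, U, V]) (hg' : g.natDegree = M) (hM : 0 < M)
    {s t : F} (hst : s ≠ 0 ∨ t ≠ 0) {D : Fin 4 → F}
    (hD : s ^ M • U + (MvPolynomial.eval ![s, t] (hg g M)) • V ∈ Submodule.span F {P, Q, D})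
    {f : A4 F} (hf' : f ∈ dblI P Q U V g M) :
    eval (s • P + t • Q) f = 0 ∧ ∑ a, eval (s • P + t • Q) (pderiv a f) * D a = 0 := by
  obtain ⟨h0, h1⟩ := hf'
  refine ⟨by rw [← dbl_eval, h0, map_zero], ?_⟩
  have hP : ∑ a, eval (s • P + t • Q) (pderiv a f) * P a = 0 := by
    have := congrArg (eval ![s, t]) (dbl_chain (P := P) (Q := Q) 0 f)
    rw [h0, map_zero, map_zero, map_sum] at this
    rw [this]
    refine Finset.sum_congr rfl fun a _ => ?_
    rw [map_mul, dbl_eval, eval_C]
    rfl
  have hQ : ∑ a, eval (s • P + t • Q) (pderiv a f) * Q a = 0 := by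
    have := congrArg (eval ![s, t]) (dbl_chain (P := P) (Q := Q) 1 f)
    rw [h0, map_zero, map_zero, map_sum] at this
    rw [this]
    refine Finset.sum_congr rfl fun a _ => ?_
    rw [map_mul, dbl_eval, eval_C]
    rfl
  have hN : ∑ a, eval (s • P + t • Q) (pderiv a f) *
      (s ^ M • U + (MvPolynomial.eval ![s, t] (hg g M)) • V) a = 0 := by
    have := congrArg (eval ![s, t]) h1
    unfold dres at this
    rw [map_zero, map_sum] at this
    rw [← this]
    refine Finset.sum_congr rfl fun a _ => ?_
    rw [map_mul, dbl_eval, map_add, map_mul, map_mul, eval_C, eval_C, map_pow, eval_X]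
    rfl
  obtain ⟨α, β, γ, hαβγ⟩ := Submodule.mem_span_triple.mp hD
  rw [← hαβγ] at hN
  have hsum : ∑ a, eval (s • P + t • Q) (pderiv a f) * (α • P + β • Q + γ • D) a =
      α * (∑ a, eval (s • P + t • Q) (pderiv a f) * P a) +
      β * (∑ a, eval (s • P + t • Q) (pderiv a f) * Q a) +
      γ * (∑ a, eval (s • P + t • Q) (pderiv a f) * D a) := by
    rw [Finset.mul_sum, Finset.mul_sum, Finset.mul_sum, ← Finset.sum_add_distrib,
      ← Finset.sum_add_distrib]
    refine Finset.sum_congr rfl fun a _ => ?_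
    simp only [Pi.add_apply, Pi.smul_apply, smul_eq_mul]
    ring
  rw [hsum, hP, hQ, mul_zero, mul_zero, add_zero, zero_add] at hN
  rcases mul_eq_zero.mp hN with hγ | h
  · exfalso
    rw [hγ, zero_smul, add_zero] at hαβγ
    have hlin := Fintype.linearIndependent_iff.mp hi
      ![α, β, -s ^ M, -(MvPolynomial.eval ![s, t] (hg g M))] (by
        rw [Fin.sum_univ_four]
        simp only [Matrix.cons_val_zero, Matrix.cons_val_one, Matrix.cons_val]
        rw [hαβγ]
        module)
    have h2 : s ^ M = 0 := by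
      have := hlin 2
      simpa using this
    have h3 : eval ![s, t] (hg g M) = 0 := by
      have := hlin 3
      simpa using this
    have hs : s = 0 := by
      by_contra hs
      exact pow_ne_zero M hs h2
    have ht : t ≠ 0 := hst.resolve_left (fun h => h hs)
    have hlc : g.coeff M ≠ 0 := by
      rw [← hg', Polynomial.coeff_natDegree]
      intro h0
      rw [Polynomial.leadingCoeff_eq_zero] at h0
      rw [h0, Polynomial.natDegree_zero] at hg'
      omega
    subst hs
    unfold hg at h3
    rw [map_sum, Finset.sum_eq_single M] at h3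
    · simp only [map_mul, map_pow, eval_C, eval_X, Nat.sub_self, pow_zero, mul_one] at h3
      have h4 : (![0, t] : Fin 2 → F) 1 = t := rfl
      rw [h4] at h3
      rcases mul_eq_zero.mp h3 with h5 | h5
      · exact hlc h5
      · exact pow_ne_zero M ht h5
    · intro i hi' hne
      rw [Finset.mem_range] at hi'
      have h5 : M - i ≠ 0 := by omega
      simp only [map_mul, map_pow, eval_C, eval_X]
      have h4 : (![0, t] : Fin 2 → F) 0 = 0 := rfl
      rw [h4, zero_pow h5, mul_zero, zero_mul]
    · intro h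
      exact absurd (Finset.mem_range.mpr (Nat.lt_succ_self M)) h
  · exact h

end Pool.H33.G
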