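import Pool.Agent.H33.G.PRI

/-! # DEC: additivity of slopes, finiteness of the set of components, decomposition

* `Lin_finset_inf`: induction on `s`: `hf (inf ⊓ q_a) = hf inf + hf q_a - hf (inf ⊔ q_a)` and
  `inf ⊔ q_a` is bounded: otherwise a prime `p ⊇ inf ⊔ q_a` with unbounded Hilbert function
  (`exists_prime`) contains some `q_b` (`p ⊇ ∏ q_b`) and `q_a`.  A bounded homogeneous ideal has
  `Lin _ 0 c` (`exists_Lin`).
* `UP_finite`: distinct primes `p_1 .. p_m` of the set: `Lin (inf) (Σ e_i) C` with `e_i ≥ 1` and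
  `I ≤ inf` so `m ≤ Σ e_i ≤ d`.
* `decomp`: `J = inf of the qp I p` over all of them; `A = cln I J` is bounded: otherwise a prime
  `p ⊇ A` in `UP I`, but `J` is finitely generated and `J ≤ qp I p`, so some `g ∉ p` has `g J ≤ I`,
  i.e. `g ∈ A ≤ p`, contradiction.  Then `mod_bound` with `I ⊔ J = J`. -/

open MvPolynomial Module

namespace Pool.H33.G

variable {F : Type} [Field F]

theorem DEC_top : Lin (⊤ : Ideal (A4 F)) 0 0 := ⟨0, fun n _ => by rw [hf_top]; simp⟩

theorem DEC_Bdd_Lin {I : Ideal (A4 F)} (hI : HI I) (h : Bdd I) : ∃ c, Lin I 0 c := by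
  have h' := h
  obtain ⟨c, hc⟩ := h
  obtain ⟨e, c', hL⟩ := exists_Lin hI (c := |c|) fun n => by
    have h1 := hc n
    have h2 := le_abs_self c
    have h3 := abs_nonneg c
    have h4 : (0 : ℤ) ≤ n := Int.natCast_nonneg n
    nlinarith
  have he := (Lin_Bdd_iff hL).1 h'
  subst he
  exact ⟨c', hL⟩

theorem Lin_finset_inf {α : Type} {s : Finset α} {q : α → Ideal (A4 F)} {e : α → ℕ} {c : α → ℤ}
    (hq : ∀ a ∈ s, HI (q a)) (hL : ∀ a ∈ s, Lin (q a) (e a) (c a))
    (hd : ∀ a ∈ s, ∀ b ∈ s, a ≠ b → ∀ p : Ideal (A4 F), p.IsPrime → HI p → q a ≤ p → q b ≤ p → Bdd p) :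
    ∃ C, Lin (s.inf q) (∑ a ∈ s, e a) C := by
  classical
  induction s using Finset.induction_on with
  | empty =>
    refine ⟨0, ?_⟩
    rw [Finset.inf_empty, Finset.sum_empty]
    exact DEC_top
  | insert a s ha ih =>
    have hqa : HI (q a) := hq a (Finset.mem_insert_self a s)
    have hqs : ∀ b ∈ s, HI (q b) := fun b hb => hq b (Finset.mem_insert_of_mem hb)
    obtain ⟨C, hC⟩ := ih hqs (fun b hb => hL b (Finset.mem_insert_of_mem hb))
      (fun x hx y hy => hd x (Finset.mem_insert_of_mem hx) y (Finset.mem_insert_of_mem hy))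
    have hinf : HI (s.inf q) := HI_finset_inf hqs
    have hsup : HI (q a ⊔ s.inf q) := HI_sup hqa hinf
    have hB : Bdd (q a ⊔ s.inf q) := by
      by_contra hcon
      obtain ⟨p, hpp, hpI, hle, hpb⟩ := exists_prime hsup hcon
      obtain ⟨b, hb, hbp⟩ := (Ideal.IsPrime.inf_le' hpp).1 (le_sup_right.trans hle)
      exact hpb (hd a (Finset.mem_insert_self a s) b (Finset.mem_insert_of_mem hb)
        (fun h => ha (h ▸ hb)) p hpp hpI (le_sup_left.trans hle) hbp)
    obtain ⟨c', hc'⟩ := DEC_Bdd_Lin hsup hB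
    refine ⟨c a + C - c', ?_⟩
    rw [Finset.inf_insert, Finset.sum_insert ha]
    obtain ⟨n1, h1⟩ := hL a (Finset.mem_insert_self a s)
    obtain ⟨n2, h2⟩ := hC
    obtain ⟨n3, h3⟩ := hc'
    refine ⟨n1 + n2 + n3, fun n hn => ?_⟩
    have h4 := hf_inf_add_sup hqa hinf n
    rw [h1 n (by omega), h2 n (by omega), h3 n (by omega)] at h4
    push_cast at h4 ⊢
    linarith

theorem DEC_le_of_Lin {I J : Ideal (A4 F)} (hIJ : I ≤ J) {d e : ℕ} {χ c : ℤ} (hI : Lin I d χ)
    (hJ : Lin J e c) : e ≤ d := by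
  obtain ⟨n0, hn0⟩ := hI
  exact Lin_le hJ ⟨n0, fun n hn => (hf_anti hIJ n).trans (hn0 n hn).le⟩

theorem UP_finite {I : Ideal (A4 F)} (hI : HI I) {d : ℕ} {χ : ℤ} (hL : Lin I d χ) :
    {p | UP I p}.Finite := by
  classical
  by_contra hinf
  obtain ⟨t, ht, hcard⟩ := Set.Infinite.exists_subset_card_eq hinf (d + 1)
  have hex : ∀ p : Ideal (A4 F), ∃ (e : ℕ) (c : ℤ), p ∈ t → Lin p e c ∧ 1 ≤ e := by
    intro p
    by_cases hp : p ∈ t
    · have hUP : UP I p := ht hp
      obtain ⟨e, c, -, hLp⟩ := exists_Lin_of_le hUP.2.1 hUP.2.2.1 hL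
      refine ⟨e, c, fun _ => ⟨hLp, ?_⟩⟩
      rcases Nat.eq_zero_or_pos e with h0 | h0
      · exact absurd ((Lin_Bdd_iff hLp).2 h0) hUP.2.2.2
      · exact h0
    · exact ⟨0, 0, fun h => absurd h hp⟩
  choose e c hec using hex
  obtain ⟨C, hC⟩ := Lin_finset_inf (s := t) (q := fun p => p) (e := e) (c := c)
    (fun p hp => (ht hp : UP I p).2.1) (fun p hp => (hec p hp).1) (by
      intro a ha b hb hab P hP hPI haP hbP
      by_contra hcon
      have hUa : UP I a := ht ha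
      have hUb : UP I b := ht hb
      have hUP : UP I P := ⟨hP, hPI, hUa.2.2.1.trans haP, hcon⟩
      exact hab ((UP_eq hL hUa hUP haP).trans (UP_eq hL hUb hUP hbP).symm))
  have hle : I ≤ t.inf (fun p => p) := Finset.le_inf fun p hp => (ht hp : UP I p).2.2.1
  have h1 := DEC_le_of_Lin hle hL hC
  have h2 : t.card ≤ ∑ p ∈ t, e p := by
    have := Finset.card_nsmul_le_sum t e 1 (fun p hp => (hec p hp).2)
    simpa using this
  omega

theorem DEC_le_inf {I : Ideal (A4 F)} {s : Finset (Ideal (A4 F))} (hs : ∀ p, p ∈ s ↔ UP I p) :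
    I ≤ s.inf (qp I) :=
  Finset.le_inf fun p hp => le_qp ((hs p).1 hp).1

theorem decomp {I : Ideal (A4 F)} (hI : HI I) {d : ℕ} {χ : ℤ} (hL : Lin I d χ)
    {s : Finset (Ideal (A4 F))} (hs : ∀ p, p ∈ s ↔ UP I p) :
    ∃ c : ℤ, ∀ n, hf I n ≤ hf (s.inf (qp I)) n + c := by
  classical
  have hJ : HI (s.inf (qp I)) :=
    HI_finset_inf fun p hp => HI_qp hI ((hs p).1 hp).1 ((hs p).1 hp).2.1
  have hA : HI (cln I (s.inf (qp I))) := HI_cln hI hJ
  have hAJ : cln I (s.inf (qp I)) * s.inf (qp I) ≤ I := by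
    rw [Ideal.mul_le]
    intro a ha b hb
    exact ha b hb
  have hA' : Bdd (cln I (s.inf (qp I))) := by
    by_contra hcon
    obtain ⟨p, hpp, hpI, hle, hpb⟩ := exists_prime hA hcon
    have hUP : UP I p := ⟨hpp, hpI, (BD_le_cln_self _ _).trans hle, hpb⟩
    have hJp : s.inf (qp I) ≤ qp I p := Finset.inf_le ((hs p).2 hUP)
    obtain ⟨t, -, htJ⟩ := HI_fg hJ
    have hex : ∀ f : A4 F, ∃ g : A4 F, f ∈ t → g ∉ p ∧ g * f ∈ I := by
      intro f
      by_cases hft : f ∈ t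
      · have hfJ : f ∈ s.inf (qp I) := by
          rw [← htJ]
          exact Ideal.subset_span hft
        obtain ⟨g, hg⟩ := (mem_qp hpp).1 (hJp hfJ)
        exact ⟨g, fun _ => hg⟩
      · exact ⟨0, fun h => absurd h hft⟩
    choose g hg using hex
    have hprod : ∏ f ∈ t, g f ∉ p := by
      intro hmem
      obtain ⟨f, hft, hfp⟩ := (Ideal.IsPrime.prod_mem_iff).1 hmem
      exact (hg f hft).1 hfp
    apply hprod
    apply hle
    intro x hx
    rw [← htJ] at hx
    refine Submodule.span_induction (p := fun x _ => (∏ f ∈ t, g f) * x ∈ I) ?_ ?_ ?_ ?_ hx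
    · intro f hft
      obtain ⟨y, hy⟩ := Finset.dvd_prod_of_mem g (Finset.mem_coe.1 hft)
      rw [hy]
      have h1 : g f * y * f = y * (g f * f) := by ring
      rw [h1]
      exact I.mul_mem_left _ (hg f hft).2
    · rw [mul_zero]; exact I.zero_mem
    · intro x y _ _ hx hy
      rw [mul_add]
      exact I.add_mem hx hy
    · intro a x _ hx
      have h1 : (∏ f ∈ t, g f) * (a • x) = a * ((∏ f ∈ t, g f) * x) := by
        rw [smul_eq_mul]; ring
      rw [h1]
      exact I.mul_mem_left _ hx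
  obtain ⟨c, hc⟩ := mod_bound hI hJ hA hA' hAJ
  refine ⟨c, fun n => ?_⟩
  have h := hc n
  rwa [sup_eq_right.2 (DEC_le_inf hs)] at h

/-- the slopes of the components add up to the slope of `I` -/
theorem sum_slopes {I : Ideal (A4 F)} (hI : HI I) {d : ℕ} {χ : ℤ} (hL : Lin I d χ)
    {s : Finset (Ideal (A4 F))} (hs : ∀ p, p ∈ s ↔ UP I p) {e : Ideal (A4 F) → ℕ}
    {c : Ideal (A4 F) → ℤ} (he : ∀ p ∈ s, Lin (qp I p) (e p) (c p)) : ∑ p ∈ s, e p = d := by
  obtain ⟨C, hC⟩ := Lin_finset_inf (s := s) (q := qp I) (e := e) (c := c)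
    (fun p hp => HI_qp hI ((hs p).1 hp).1 ((hs p).1 hp).2.1) he (by
      intro a ha b hb hab P hP hPI haP hbP
      by_contra hcon
      have hUa : UP I a := (hs a).1 ha
      have hUb : UP I b := (hs b).1 hb
      have hUP : UP I P := ⟨hP, hPI, (le_qp hUa.1).trans haP, hcon⟩
      obtain ⟨N, hN⟩ := pow_le_qp hI hL hUa
      obtain ⟨M, hM⟩ := pow_le_qp hI hL hUb
      have h1 : a ≤ P := Ideal.IsPrime.le_of_pow_le (hN.trans haP)
      have h2 : b ≤ P := Ideal.IsPrime.le_of_pow_le (hM.trans hbP)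
      exact hab ((UP_eq hL hUa hUP h1).trans (UP_eq hL hUb hUP h2).symm))
  apply le_antisymm
  · exact DEC_le_of_Lin (DEC_le_inf hs) hL hC
  · obtain ⟨c', hc'⟩ := decomp hI hL hs
    obtain ⟨n0, hn0⟩ := hC
    refine Lin_le hL (c' := C + c') ⟨n0, fun n hn => ?_⟩
    have h1 := hc' n
    rw [hn0 n hn] at h1
    linarith

end Pool.H33.G
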