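import Mathlib

/-! # Definitions for the theorem on the Galois action on components of Hilbert schemes of space curves -/

open MvPolynomial Module

namespace Pool.H33.G

/-- homogeneous coordinate ring of `P^3` over `F` -/
abbrev A4 (F : Type) [Field F] := MvPolynomial (Fin 4) F

/-- forms of degree `n` -/
abbrev Fm (F : Type) [Field F] (n : ℕ) : Submodule F (A4 F) := homogeneousSubmodule (Fin 4) F n

section Basic
variable {F : Type} [Field F]

/-- degree `n` part of an ideal -/
noncomputable def part (I : Ideal (A4 F)) (n : ℕ) : Submodule F (A4 F) := I.restrictScalars F ⊓ Fm F n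

/-- Hilbert function of `A4 F / I` -/
noncomputable def hf (I : Ideal (A4 F)) (n : ℕ) : ℤ :=
  (finrank F (Fm F n) : ℤ) - finrank F (part I n)

/-- homogeneous ideals -/
def HI (I : Ideal (A4 F)) : Prop := ∀ f ∈ I, ∀ n, homogeneousComponent n f ∈ I

/-- the Hilbert function is eventually `e n + c` -/
def Lin (I : Ideal (A4 F)) (e : ℕ) (c : ℤ) : Prop := ∃ n0 : ℕ, ∀ n ≥ n0, hf I n = (e : ℤ) * n + c

/-- the Hilbert function is bounded -/
def Bdd (I : Ideal (A4 F)) : Prop := ∃ c : ℤ, ∀ n, hf I n ≤ c

/-- `I` is contained in `J` in all large degrees -/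
def Lle (I J : Ideal (A4 F)) : Prop := ∃ n0 : ℕ, ∀ n ≥ n0, part I n ≤ part J n

/-- colon ideal `(I : J)` -/
noncomputable def cln (I J : Ideal (A4 F)) : Ideal (A4 F) where
  carrier := {f | ∀ g ∈ J, f * g ∈ I}
  add_mem' := by
    intro a b ha hb g hg
    rw [add_mul]; exact I.add_mem (ha g hg) (hb g hg)
  zero_mem' := by intro g _; rw [zero_mul]; exact I.zero_mem
  smul_mem' := by
    intro c x hx g hg
    rw [smul_eq_mul, mul_assoc]; exact I.mul_mem_left c (hx g hg)

/-- the `p`-primary component of `I` (for a minimal prime `p` of `I`) -/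
noncomputable def qp (I p : Ideal (A4 F)) : Ideal (A4 F) := Ideal.span {f | ∃ g, g ∉ p ∧ g * f ∈ I}

/-- homogeneous primes containing `I` with unbounded Hilbert function -/
def UP (I p : Ideal (A4 F)) : Prop := p.IsPrime ∧ HI p ∧ I ≤ p ∧ ¬ Bdd p

/-- vanishing ideal of a linear subspace -/
noncomputable def vI (Λ : Submodule F (Fin 4 → F)) : Ideal (A4 F) where
  carrier := {f | ∀ v ∈ Λ, eval v f = 0}
  add_mem' := by intro a b ha hb v hv; simp [ha v hv, hb v hv]
  zero_mem' := by intro v _; simp
  smul_mem' := by intro c x hx v hv; simp [hx v hv]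

/-- restriction of polynomials to the line spanned by `P` and `Q` -/
noncomputable def res (P Q : Fin 4 → F) : A4 F →ₐ[F] MvPolynomial (Fin 2) F :=
  aeval fun a => C (P a) * X 0 + C (Q a) * X 1

/-- the ideal of the line spanned by `P` and `Q` -/
noncomputable def lineI (P Q : Fin 4 → F) : Ideal (A4 F) := RingHom.ker (res P Q)

/-- the binary form of degree `M` with dehomogenisation `g` -/
noncomputable def hg (g : Polynomial F) (M : ℕ) : MvPolynomial (Fin 2) F :=
  ∑ i ∈ Finset.range (M + 1), C (g.coeff i) * X 0 ^ (M - i) * X 1 ^ i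

/-- derivative of `f` in the direction `X0 ^ M • U + hg g M • V`, restricted to the line `P Q` -/
noncomputable def dres (P Q U V : Fin 4 → F) (g : Polynomial F) (M : ℕ) (f : A4 F) :
    MvPolynomial (Fin 2) F :=
  ∑ a, res P Q (pderiv a f) * (X 0 ^ M * C (U a) + hg g M * C (V a))

/-- the ideal of the double structure on the line `P Q` in the normal direction
`X0 ^ M • U + hg g M • V` -/
noncomputable def dblI (P Q U V : Fin 4 → F) (g : Polynomial F) (M : ℕ) : Ideal (A4 F) where
  carrier := {f | res P Q f = 0 ∧ dres P Q U V g M f = 0}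
  add_mem' := by
    rintro a b ⟨ha, ha'⟩ ⟨hb, hb'⟩
    refine ⟨by rw [map_add, ha, hb, add_zero], ?_⟩
    unfold dres at *
    simp only [map_add, add_mul, Finset.sum_add_distrib]
    rw [ha', hb', add_zero]
  zero_mem' := by
    refine ⟨map_zero _, ?_⟩
    unfold dres
    simp
  smul_mem' := by
    rintro c x ⟨hx, hx'⟩
    refine ⟨by rw [smul_eq_mul, map_mul, hx, mul_zero], ?_⟩
    unfold dres at *
    have h : ∀ a, res P Q (pderiv a (c • x)) * (X 0 ^ M * C (U a) + hg g M * C (V a)) =
        res P Q c * (res P Q (pderiv a x) * (X 0 ^ M * C (U a) + hg g M * C (V a))) := by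
      intro a
      rw [smul_eq_mul, Derivation.leibniz, map_add, smul_eq_mul, smul_eq_mul, map_mul, map_mul, hx]
      ring
    simp only [h]
    rw [← Finset.mul_sum, hx', mul_zero]

end Basic

/-- the data of a union of lines `TP i, TQ i` and double lines `P j, Q j` with normal directions
`X0 ^ M j • U j + hg (g j) (M j) • V j` -/
structure Cfg (F : Type) [Field F] (ι κ : Type) where
  TP : ι → Fin 4 → F
  TQ : ι → Fin 4 → F
  P : κ → Fin 4 → F
  Q : κ → Fin 4 → F
  U : κ → Fin 4 → F
  V : κ → Fin 4 → F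
  g : κ → Polynomial F
  M : κ → ℕ

namespace Cfg
variable {F : Type} [Field F] {ι κ : Type}

/-- ideal of the reduced line `i` -/
noncomputable def tI (C : Cfg F ι κ) (i : ι) : Ideal (A4 F) := lineI (C.TP i) (C.TQ i)
/-- ideal of the support of the double line `j` -/
noncomputable def lI (C : Cfg F ι κ) (j : κ) : Ideal (A4 F) := lineI (C.P j) (C.Q j)
/-- ideal of the double line `j` -/
noncomputable def dI (C : Cfg F ι κ) (j : κ) : Ideal (A4 F) :=
  dblI (C.P j) (C.Q j) (C.U j) (C.V j) (C.g j) (C.M j)
/-- the homogeneous ideal of the curve -/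
noncomputable def ideal (C : Cfg F ι κ) : Ideal (A4 F) := (⨅ i, C.tI i) ⊓ (⨅ j, C.dI j)

/-- the curve is of the good type with nodes exactly at the pairs in `Γ`, where the double
structure is tangent to the plane of the two lines -/
structure Good (C : Cfg F ι κ) (Γ : Finset (ι × κ)) : Prop where
  tind : ∀ i, LinearIndependent F ![C.TP i, C.TQ i]
  tdis : ∀ i i', i ≠ i' → LinearIndependent F ![C.TP i, C.TQ i, C.TP i', C.TQ i']
  lind : ∀ j, LinearIndependent F ![C.P j, C.Q j, C.U j, C.V j]
  ldis : ∀ j j', j ≠ j' → LinearIndependent F ![C.P j, C.Q j, C.P j', C.Q j']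
  pos : ∀ j, 0 < C.M j
  deg : ∀ j, (C.g j).natDegree = C.M j
  non : ∀ i j, (i, j) ∉ Γ → LinearIndependent F ![C.TP i, C.TQ i, C.P j, C.Q j]
  node : ∀ i j, (i, j) ∈ Γ → ∃ s t : F, (s ≠ 0 ∨ t ≠ 0) ∧
    s • C.P j + t • C.Q j ∈ Submodule.span F {C.TP i, C.TQ i} ∧
    s ^ C.M j • C.U j + (MvPolynomial.eval ![s, t] (hg (C.g j) (C.M j))) • C.V j ∈
      Submodule.span F {C.P j, C.Q j, C.TP i, C.TQ i}

/-- apply a field homomorphism to all data -/
noncomputable def mapC {F' : Type} [Field F'] (φ : F →+* F') (C : Cfg F ι κ) : Cfg F' ι κ where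
  TP := fun i => φ ∘ C.TP i
  TQ := fun i => φ ∘ C.TQ i
  P := fun i => φ ∘ C.P i
  Q := fun i => φ ∘ C.Q i
  U := fun i => φ ∘ C.U i
  V := fun i => φ ∘ C.V i
  g := fun i => (C.g i).map φ
  M := C.M

end Cfg

/-- the Euler characteristic of the curve -/
def chi0 {ι κ : Type} [Fintype ι] [Fintype κ] (M : κ → ℕ) (Γ : Finset (ι × κ)) : ℤ :=
  Fintype.card ι + ∑ j, (1 + (M j : ℤ)) - 2 * Γ.card

section Limit
variable {K : Type} [Field K]

/-- reduction (limit) of an ideal over `K` along a valuation subring -/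
noncomputable def limI (R : ValuationSubring K) (I : Ideal (A4 K)) :
    Ideal (A4 (IsLocalRing.ResidueField R)) :=
  (I.comap (MvPolynomial.map (algebraMap R K))).map (MvPolynomial.map (IsLocalRing.residue R))

/-- reduction (limit) of a linear subspace -/
noncomputable def limS (R : ValuationSubring K) (Λ : Submodule K (Fin 4 → K)) :
    Submodule (IsLocalRing.ResidueField R) (Fin 4 → IsLocalRing.ResidueField R) :=
  Submodule.span _ {v | ∃ w : Fin 4 → R, (fun a => (w a : K)) ∈ Λ ∧ v = fun a => IsLocalRing.residue R (w a)}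

end Limit

section Hilb
variable {k : Type} [Field k] {d : ℕ} {g : ℤ} {r : ℕ}

/-- The closed points of the Hilbert scheme of closed subschemes of `P^3` over `k` with Hilbert
polynomial `d n + 1 - g`, realised (Gotzmann, Grothendieck) in the Grassmannian of the space of
forms of degree `r`: subspaces `W` of the space of forms of degree `r` such that the forms of
degree `n` in the ideal generated by `W` have codimension `d n + 1 - g` for all `n ≥ r`. -/
def HilbPt (k : Type) [Field k] (d : ℕ) (g : ℤ) (r : ℕ) : Type :=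
  {W : Submodule k (A4 k) // W ≤ Fm k r ∧
    ∀ n ≥ r, hf (Ideal.span (W : Set (A4 k))) n = (d : ℤ) * n + 1 - g}

/-- Basic Zariski open sets of the affine charts of the Grassmannian: `μ` is a set of pivot
monomials, the chart consists of the `W` having a (unique) basis `v` with coefficient matrix the
identity at the pivot monomials, and `φ` is a polynomial in the coefficients of `v`. -/
def basicOpen (m : ℕ) (μ : Fin m → (Fin 4 →₀ ℕ))
    (φ : MvPolynomial (Fin m × (Fin 4 →₀ ℕ)) k) : Set (HilbPt k d g r) :=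
  {w | ∃ v : Fin m → A4 k, Submodule.span k (Set.range v) = w.1 ∧
    (∀ a b, coeff (μ b) (v a) = if a = b then 1 else 0) ∧
    MvPolynomial.eval (fun x => coeff x.2 (v x.1)) φ ≠ 0}

/-- the Zariski topology -/
instance : TopologicalSpace (HilbPt k d g r) :=
  TopologicalSpace.generateFrom {U | ∃ m μ φ, U = basicOpen m μ φ}

end Hilb

end Pool.H33.G
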