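import Pool.Agent.H33.G.LOW
import Pool.Agent.H33.G.DBL

/-! # EXA: exact Hilbert polynomial of a good configuration

`≥` is `low` with `q j = C.dI j` (`lineI_eq_vI`, `hf_dblI`).
`≤`: `hf (A ⊓ B) = hf A + hf B - hf (A ⊔ B)`, `hf A n ≤ card ι (n+1)`, `hf B n ≤ Σ (2n+1+M j)` for large
`n` and `hf (A ⊔ B) n ≥ 2 card Γ` for large `n`: for a node `(i,j) ∈ Γ` with point `v = s P + t Q ∈ T i`
and a vector `D` with `span {TP i, TQ i} = span {v, D}`, the two functionals `f ↦ f(v)` and
`f ↦ Σ_a (∂_a f)(v) D a` vanish on `A ⊆ tI i` and on `B ⊆ dI j` (`dblI_node`), and the `2 card Γ` functionals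
obtained are linearly independent on forms of large degree, because the points `v_{ij}` are pairwise
non-proportional (`tdis`, `ldis`) and `D` is not proportional to `v`. -/

open MvPolynomial Module

namespace Pool.H33.G

section Lin
variable {F : Type} [Field F]

theorem exa_disj {A B C D : Fin 4 → F} (h : LinearIndependent F ![A, B, C, D]) {a b c d : F}
    (he : a • A + b • B = c • C + d • D) : a = 0 ∧ b = 0 ∧ c = 0 ∧ d = 0 := by
  rw [Fintype.linearIndependent_iff] at h
  have h1 := h ![a, b, -c, -d] (by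
    rw [Fin.sum_univ_four]
    simp only [Matrix.cons_val_zero, Matrix.cons_val_one, Matrix.cons_val_two,
      Matrix.cons_val_three, Matrix.head_cons, Matrix.tail_cons]
    rw [he]
    module)
  have e0 := h1 0
  have e1 := h1 1
  have e2 := h1 2
  have e3 := h1 3
  simp only [Matrix.cons_val_zero, Matrix.cons_val_one, Matrix.cons_val_two,
    Matrix.cons_val_three, Matrix.head_cons, Matrix.tail_cons, neg_eq_zero] at e0 e1 e2 e3
  exact ⟨e0, e1, e2, e3⟩

theorem exa_inf_bot {A B C D : Fin 4 → F} (h : LinearIndependent F ![A, B, C, D]) :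
    Submodule.span F {A, B} ⊓ Submodule.span F {C, D} = ⊥ := by
  rw [eq_bot_iff]
  rintro z ⟨h1, h2⟩
  obtain ⟨a, b, rfl⟩ := Submodule.mem_span_pair.mp h1
  obtain ⟨c, d, he⟩ := Submodule.mem_span_pair.mp h2
  obtain ⟨rfl, rfl, -, -⟩ := exa_disj h he.symm
  simp

theorem exa_finrank {A B : Fin 4 → F} (h : LinearIndependent F ![A, B]) :
    finrank F (Submodule.span F {A, B}) = 2 := by
  have h1 := finrank_span_eq_card h
  have h2 : Set.range ![A, B] = {A, B} := by
    rw [Matrix.range_cons, Matrix.range_cons, Matrix.range_empty]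
    rw [Set.union_empty]
    rfl
  rw [h2] at h1
  simpa using h1

/-- prescribed values of a linear form on independent vectors -/
theorem exa_dual {m : ℕ} {b : Fin m → Fin 4 → F} (hb : LinearIndependent F b) (c : Fin m → F) :
    ∃ w : Fin 4 → F, ∀ i, ∑ a, w a * b i a = c i := by
  obtain ⟨φ, hφ⟩ := LinearMap.exists_extend ((Basis.span hb).constr F c)
  have hval : ∀ i, φ (b i) = c i := by
    intro i
    have h1 := LinearMap.congr_fun hφ (Basis.span hb i)
    rw [Basis.constr_basis, LinearMap.comp_apply, Submodule.subtype_apply, Basis.span_apply] at h1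
    exact h1
  refine ⟨fun a => φ (Pi.single a 1), fun i => ?_⟩
  rw [← hval i]
  conv_rhs => rw [← Finset.univ_sum_single (b i)]
  rw [map_sum]
  refine Finset.sum_congr rfl (fun a _ => ?_)
  have : (Pi.single a (b i a) : Fin 4 → F) = (b i a) • Pi.single a 1 := by
    ext k
    by_cases hk : k = a
    · subst hk; simp
    · simp [Pi.single_eq_of_ne hk]
  rw [this, map_smul, smul_eq_mul, mul_comm]

end Lin

section Dual
variable {F : Type} [Field F]

/-- evaluation at `v + ε D` -/
noncomputable def exaE (v D : Fin 4 → F) : A4 F →ₐ[F] DualNumber F :=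
  aeval (fun a => TrivSqZeroExt.inl (v a) + TrivSqZeroExt.inr (D a))

theorem exaE_fst (v D : Fin 4 → F) (f : A4 F) : (exaE v D f).fst = eval v f := by
  induction f using MvPolynomial.induction_on with
  | C a =>
    rw [exaE, aeval_C, eval_C]
    rfl
  | add p q hp hq => rw [map_add, TrivSqZeroExt.fst_add, hp, hq, map_add]
  | mul_X p a hp =>
    rw [map_mul, TrivSqZeroExt.fst_mul, hp, map_mul, eval_X, exaE, aeval_X]
    simp

theorem exaE_snd (v D : Fin 4 → F) (f : A4 F) :
    (exaE v D f).snd = ∑ a, eval v (pderiv a f) * D a := by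
  induction f using MvPolynomial.induction_on with
  | C a =>
    rw [exaE, aeval_C]
    simp only [pderiv_C, map_zero, zero_mul, Finset.sum_const_zero]
    rfl
  | add p q hp hq =>
    rw [map_add, TrivSqZeroExt.snd_add, hp, hq, ← Finset.sum_add_distrib]
    refine Finset.sum_congr rfl (fun a _ => ?_)
    rw [map_add, map_add, add_mul]
  | mul_X p b hp =>
    rw [map_mul, TrivSqZeroExt.snd_mul, hp, exaE_fst]
    have h1 : ∀ a, eval v (pderiv a (p * X b)) * D a =
        eval v p * (if b = a then D a else 0) + v b * (eval v (pderiv a p) * D a) := by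
      intro a
      rw [Derivation.leibniz, smul_eq_mul, smul_eq_mul, map_add, map_mul, map_mul, eval_X, pderiv_X]
      by_cases hab : b = a
      · subst hab
        simp
        ring
      · rw [Pi.single_eq_of_ne (by exact fun h => hab h), if_neg hab]
        simp
        ring
    simp only [h1]
    rw [Finset.sum_add_distrib, ← Finset.mul_sum, ← Finset.mul_sum, Finset.sum_ite_eq]
    simp only [Finset.mem_univ, if_true]
    rw [exaE, aeval_X]
    simp [TrivSqZeroExt.snd_add, TrivSqZeroExt.fst_add]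
    ring

/-- elements of the ideal of a line vanish on the tangent vectors -/
theorem exaE_lineI (P Q : Fin 4 → F) (p q p' q' : F) {f : A4 F} (hf' : f ∈ lineI P Q) :
    exaE (p • P + q • Q) (p' • P + q' • Q) f = 0 := by
  have h1 : exaE (p • P + q • Q) (p' • P + q' • Q) =
      (aeval ![(TrivSqZeroExt.inl p + TrivSqZeroExt.inr p' : DualNumber F),
        TrivSqZeroExt.inl q + TrivSqZeroExt.inr q'] :
        MvPolynomial (Fin 2) F →ₐ[F] DualNumber F).comp (res P Q) := by
    apply MvPolynomial.algHom_ext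
    intro a
    rw [exaE, aeval_X, AlgHom.comp_apply, res, aeval_X, map_add, map_mul, map_mul, aeval_X, aeval_X,
      aeval_C, aeval_C]
    ext
    · simp [TrivSqZeroExt.algebraMap_eq_inl]
      ring
    · simp [TrivSqZeroExt.algebraMap_eq_inl]
      ring
  rw [h1, AlgHom.comp_apply]
  have h2 : res P Q f = 0 := hf'
  rw [h2, map_zero]

/-- linear form -/
noncomputable def exaL (w : Fin 4 → F) : A4 F := ∑ a, C (w a) * X a

theorem exaL_mem (w : Fin 4 → F) : exaL w ∈ Fm F 1 := by
  refine Submodule.sum_mem _ (fun a _ => ?_)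
  exact (isHomogeneous_C_mul_X (w a) a)

theorem exaE_L (v D w : Fin 4 → F) : exaE v D (exaL w) =
    TrivSqZeroExt.inl (∑ a, w a * v a) + TrivSqZeroExt.inr (∑ a, w a * D a) := by
  rw [exaL, map_sum]
  have h1 : ∀ a, exaE v D (C (w a) * X a) =
      TrivSqZeroExt.inl (w a * v a) + TrivSqZeroExt.inr (w a * D a) := by
    intro a
    rw [map_mul, exaE, aeval_C, aeval_X]
    ext <;> simp [TrivSqZeroExt.algebraMap_eq_inl]
  simp only [h1]
  rw [Finset.sum_add_distrib]
  ext
  · simp [TrivSqZeroExt.fst_sum]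
  · simp [TrivSqZeroExt.snd_sum]

/-- Hermite interpolation at pairwise different points -/
theorem exa_single {α : Type} [Fintype α] [DecidableEq α] {v D : α → Fin 4 → F}
    (h1 : ∀ x, LinearIndependent F ![v x, D x])
    (h2 : ∀ x y, x ≠ y → LinearIndependent F ![v x, v y]) {n : ℕ}
    (hn : 2 * Fintype.card α ≤ n) (x : α) (w : DualNumber F) :
    ∃ f ∈ Fm F n, exaE (v x) (D x) f = w ∧ ∀ y, y ≠ x → exaE (v y) (D y) f = 0 := by
  have hl : ∀ y, ∃ u : Fin 4 → F, y ≠ x → (∑ a, u a * v y a = 0 ∧ ∑ a, u a * v x a = 1) := by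
    intro y
    by_cases hyx : y = x
    · exact ⟨0, fun h => absurd hyx h⟩
    · obtain ⟨u, hu⟩ := exa_dual (h2 y x hyx) ![0, 1]
      exact ⟨u, fun _ => ⟨hu 0, hu 1⟩⟩
  choose l hl using hl
  obtain ⟨al, hal⟩ := exa_dual (h1 x) ![1, 0]
  obtain ⟨be, hbe⟩ := exa_dual (h1 x) ![0, 1]
  have hal0 : ∑ a, al a * v x a = 1 := hal 0
  have hal1 : ∑ a, al a * D x a = 0 := hal 1
  have hbe0 : ∑ a, be a * v x a = 0 := hbe 0
  have hbe1 : ∑ a, be a * D x a = 1 := hbe 1
  set G : A4 F := ∏ y ∈ Finset.univ.erase x, (exaL (l y)) ^ 2 with hG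
  have hGmem : G ∈ Fm F (2 * (Fintype.card α - 1)) := by
    have h3 : IsHomogeneous G (∑ y ∈ Finset.univ.erase x, 1 * 2) :=
      IsHomogeneous.prod _ _ _ (fun y _ => (exaL_mem (l y)).pow 2)
    rw [Finset.sum_const, Finset.card_erase_of_mem (Finset.mem_univ x), Finset.card_univ,
      smul_eq_mul] at h3
    have h4 : (Fintype.card α - 1) * (1 * 2) = 2 * (Fintype.card α - 1) := by ring
    rwa [h4] at h3
  have hcard : 1 ≤ Fintype.card α := Fintype.card_pos_iff.mpr ⟨x⟩
  obtain ⟨m, hm⟩ : ∃ m, n = 2 * (Fintype.card α - 1) + (m + 1) :=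
    ⟨n - 2 * (Fintype.card α - 1) - 1, by omega⟩
  set g : DualNumber F := exaE (v x) (D x) G with hg
  have hg1 : g.fst = 1 := by
    rw [hg, exaE_fst, hG, map_prod]
    refine Finset.prod_eq_one (fun y hy => ?_)
    have hyx : y ≠ x := Finset.ne_of_mem_erase hy
    rw [map_pow, ← exaE_fst (v x) (D x), exaE_L, (hl y hyx).2]
    simp
  have hA : exaE (v x) (D x) (exaL al) = 1 := by
    rw [exaE_L, hal0, hal1]
    ext <;> simp
  have hB : exaE (v x) (D x) (exaL be) = TrivSqZeroExt.inr 1 := by
    rw [exaE_L, hbe0, hbe1]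
    ext <;> simp
  refine ⟨G * (C w.fst * exaL al ^ (m + 1) + C (w.snd - g.snd * w.fst) * (exaL al ^ m * exaL be)),
    ?_, ?_, ?_⟩
  · rw [hm]
    refine IsHomogeneous.mul hGmem (IsHomogeneous.add ?_ ?_)
    · have h3 := ((exaL_mem al).pow (m + 1))
      have h4 := (isHomogeneous_C (Fin 4) w.fst).mul h3
      simpa using h4
    · have h3 := ((exaL_mem al).pow m).mul (exaL_mem be)
      have h4 := (isHomogeneous_C (Fin 4) (w.snd - g.snd * w.fst)).mul h3
      simpa using h4
  · rw [map_mul, map_add, map_mul, map_mul, map_mul, map_pow, map_pow, hA, hB, ← hg, one_pow,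
      one_pow, exaE, aeval_C, aeval_C]
    ext
    · simp [TrivSqZeroExt.algebraMap_eq_inl, hg1]
    · simp [TrivSqZeroExt.algebraMap_eq_inl, hg1]
  · intro y hyx
    rw [map_mul, hG, map_prod, Finset.prod_eq_zero (Finset.mem_erase.mpr ⟨hyx, Finset.mem_univ y⟩),
      zero_mul]
    rw [map_pow, exaE_L, (hl y hyx).1, TrivSqZeroExt.inl_zero, zero_add, sq,
      TrivSqZeroExt.inr_mul_inr]

theorem exa_surj {α : Type} [Fintype α] [DecidableEq α] {v D : α → Fin 4 → F}
    (h1 : ∀ x, LinearIndependent F ![v x, D x])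
    (h2 : ∀ x y, x ≠ y → LinearIndependent F ![v x, v y]) {n : ℕ}
    (hn : 2 * Fintype.card α ≤ n) (w : α → DualNumber F) :
    ∃ f ∈ Fm F n, ∀ x, exaE (v x) (D x) f = w x := by
  choose f hf1 hf2 hf3 using fun x => exa_single h1 h2 hn x (w x)
  refine ⟨∑ x, f x, Submodule.sum_mem _ (fun x _ => hf1 x), fun x => ?_⟩
  rw [map_sum, Finset.sum_eq_single x]
  · exact hf2 x
  · intro y _ hyx
    exact hf3 y x (fun h => hyx h.symm)
  · intro h
    exact absurd (Finset.mem_univ x) h

/-- the values at the tangent vectors -/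
noncomputable def exaPhi {α : Type} (v D : α → Fin 4 → F) : A4 F →ₗ[F] (α → F × F) where
  toFun f x := ((exaE (v x) (D x) f).fst, (exaE (v x) (D x) f).snd)
  map_add' f g := by
    funext x
    simp
  map_smul' c f := by
    funext x
    simp

theorem exa_hf_lower {α : Type} [Fintype α] [DecidableEq α] {v D : α → Fin 4 → F}
    (h1 : ∀ x, LinearIndependent F ![v x, D x])
    (h2 : ∀ x y, x ≠ y → LinearIndependent F ![v x, v y]) {n : ℕ}
    (hn : 2 * Fintype.card α ≤ n) {I : Ideal (A4 F)}
    (hI : ∀ f ∈ I, ∀ x, exaE (v x) (D x) f = 0) : 2 * (Fintype.card α : ℤ) ≤ hf I n := by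
  set ψ : Fm F n →ₗ[F] (α → F × F) := (exaPhi v D).comp (Fm F n).subtype with hψ
  have hr : LinearMap.range ψ = ⊤ := by
    rw [LinearMap.range_eq_top]
    intro w
    obtain ⟨f, hf, hfw⟩ := exa_surj h1 h2 hn
      (fun x => TrivSqZeroExt.inl (w x).1 + TrivSqZeroExt.inr (w x).2)
    refine ⟨⟨f, hf⟩, ?_⟩
    funext x
    show ((exaE (v x) (D x) f).fst, (exaE (v x) (D x) f).snd) = w x
    rw [hfw x]
    simp
  have h3 := LinearMap.finrank_range_add_finrank_ker ψ
  rw [hr, finrank_top, Module.finrank_pi_fintype] at h3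
  simp only [Module.finrank_prod, Module.finrank_self, Finset.sum_const, Finset.card_univ,
    smul_eq_mul] at h3
  have h4 : (part I n).comap (Fm F n).subtype ≤ LinearMap.ker ψ := by
    intro f hf
    rw [LinearMap.mem_ker]
    funext x
    show ((exaE (v x) (D x) f.1).fst, (exaE (v x) (D x) f.1).snd) = (0, 0)
    rw [hI f.1 hf.1 x]
    rfl
  have h5 : finrank F ((part I n).comap (Fm F n).subtype) = finrank F (part I n) :=
    (Submodule.comapSubtypeEquivOfLe (p := part I n) (q := Fm F n) inf_le_right).finrank_eq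
  have h6 := Submodule.finrank_mono h4
  rw [h5] at h6
  unfold hf
  omega

end Dual

section Main
variable {F : Type} [Field F] [Infinite F] {ι κ : Type} [Fintype ι] [Fintype κ] [DecidableEq ι]
  [DecidableEq κ]

theorem Good.HI_ideal {C : Cfg F ι κ} : HI C.ideal :=
  HI_inf (HI_iInf fun i => HI_lineI (C.TP i) (C.TQ i)) (HI_iInf fun _ => HI_dblI)

/-- the coefficient of `X 1 ^ M` in `hg g M` -/
theorem exa_hg_ne {g : Polynomial F} {M : ℕ} (hg' : g.natDegree = M) (hM : 0 < M) {t : F}
    (ht : t ≠ 0) : eval ![0, t] (hg g M) ≠ 0 := by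
  have h1 : eval ![0, t] (hg g M) = g.coeff M * t ^ M := by
    rw [hg, map_sum, Finset.sum_eq_single M]
    · simp
    · intro i hi hne
      have hi' : i < M + 1 := Finset.mem_range.mp hi
      have : M - i ≠ 0 := by omega
      simp [zero_pow this]
    · intro h
      exact absurd (Finset.mem_range.mpr (Nat.lt_succ_self M)) h
  rw [h1]
  have h2 : g.coeff M ≠ 0 := by
    rw [← hg', Polynomial.coeff_natDegree, Polynomial.leadingCoeff_ne_zero]
    rintro rfl
    simp at hg'
    omega
  exact mul_ne_zero h2 (pow_ne_zero _ ht)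

theorem exa_ind2 {A B C' D : Fin 4 → F} (h : LinearIndependent F ![A, B, C', D]) :
    LinearIndependent F ![A, B] := by
  rw [LinearIndependent.pair_iff]
  intro s t hst
  obtain ⟨h1, h2, -, -⟩ := exa_disj h (a := s) (b := t) (c := 0) (d := 0) (by rw [hst]; simp)
  exact ⟨h1, h2⟩

/-- the tangent vector of a node -/
theorem exa_node {C : Cfg F ι κ} {Γ : Finset (ι × κ)} (hC : C.Good Γ) {i : ι} {j : κ}
    (hij : (i, j) ∈ Γ) : ∃ v D : Fin 4 → F, LinearIndependent F ![v, D] ∧
      v ∈ Submodule.span F {C.TP i, C.TQ i} ∧ v ∈ Submodule.span F {C.P j, C.Q j} ∧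
      (∀ f ∈ C.tI i, exaE v D f = 0) ∧ (∀ f ∈ C.dI j, exaE v D f = 0) := by
  obtain ⟨s, t, hst, hv, hn⟩ := hC.node i j hij
  obtain ⟨p, q, hpq⟩ := Submodule.mem_span_pair.mp hv
  have hPQ : LinearIndependent F ![C.P j, C.Q j] := exa_ind2 (hC.lind j)
  have hT := hC.tind i
  rw [LinearIndependent.pair_iff] at hPQ hT
  have hne : p ≠ 0 ∨ q ≠ 0 := by
    by_contra hcon
    push Not at hcon
    obtain ⟨rfl, rfl⟩ := hcon
    rw [zero_smul, zero_smul, add_zero] at hpq
    obtain ⟨h1, h2⟩ := hPQ s t hpq.symm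
    rcases hst with h | h
    · exact h h1
    · exact h h2
  obtain ⟨p', q', hdet⟩ : ∃ p' q' : F, p * q' - q * p' ≠ 0 := by
    rcases hne with h | h
    · exact ⟨0, 1, by simpa using h⟩
    · exact ⟨1, 0, by simpa using h⟩
  refine ⟨s • C.P j + t • C.Q j, p' • C.TP i + q' • C.TQ i, ?_, hv,
    Submodule.mem_span_pair.mpr ⟨s, t, rfl⟩, ?_, ?_⟩
  · rw [LinearIndependent.pair_iff]
    intro x y hxy
    rw [← hpq] at hxy
    have h1 : (x * p + y * p') • C.TP i + (x * q + y * q') • C.TQ i = 0 := by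
      rw [← hxy]
      module
    obtain ⟨e1, e2⟩ := hT _ _ h1
    constructor
    · have : x * (p * q' - q * p') = 0 := by linear_combination q' * e1 - p' * e2
      exact (mul_eq_zero.mp this).resolve_right hdet
    · have : y * (p * q' - q * p') = 0 := by linear_combination p * e2 - q * e1
      exact (mul_eq_zero.mp this).resolve_right hdet
  · intro f hf'
    rw [← hpq]
    exact exaE_lineI _ _ _ _ _ _ hf'
  · intro f hf'
    have hspan : s ^ C.M j • C.U j + (MvPolynomial.eval ![s, t] (hg (C.g j) (C.M j))) • C.V j ∈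
        Submodule.span F {C.P j, C.Q j, p' • C.TP i + q' • C.TQ i} := by
      have hle : Submodule.span F {C.P j, C.Q j, C.TP i, C.TQ i} ≤
          Submodule.span F {C.P j, C.Q j, p' • C.TP i + q' • C.TQ i} := by
        set S := Submodule.span F {C.P j, C.Q j, p' • C.TP i + q' • C.TQ i} with hS
        have hP : C.P j ∈ S := Submodule.subset_span (by simp)
        have hQ : C.Q j ∈ S := Submodule.subset_span (by simp)
        have hD : p' • C.TP i + q' • C.TQ i ∈ S := Submodule.subset_span (by simp)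
        have hv' : p • C.TP i + q • C.TQ i ∈ S := by
          rw [hpq]
          exact S.add_mem (S.smul_mem _ hP) (S.smul_mem _ hQ)
        have hTP : C.TP i ∈ S := by
          have h1 : C.TP i = (p * q' - q * p')⁻¹ • (q' • (p • C.TP i + q • C.TQ i) -
              q • (p' • C.TP i + q' • C.TQ i)) := by
            rw [eq_inv_smul_iff₀ hdet]
            module
          rw [h1]
          exact S.smul_mem _ (S.sub_mem (S.smul_mem _ hv') (S.smul_mem _ hD))
        have hTQ : C.TQ i ∈ S := by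
          have h1 : C.TQ i = (p * q' - q * p')⁻¹ • (p • (p' • C.TP i + q' • C.TQ i) -
              p' • (p • C.TP i + q • C.TQ i)) := by
            rw [eq_inv_smul_iff₀ hdet]
            module
          rw [h1]
          exact S.smul_mem _ (S.sub_mem (S.smul_mem _ hD) (S.smul_mem _ hv'))
        rw [Submodule.span_le]
        rintro z (rfl | rfl | rfl | rfl)
        · exact hP
        · exact hQ
        · exact hTP
        · exact hTQ
      exact hle hn
    obtain ⟨h1, h2⟩ := dblI_node (hC.lind j) (hC.deg j) (hC.pos j) hst hspan hf'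
    ext
    · rw [exaE_fst, h1]
      rfl
    · rw [exaE_snd, h2]
      rfl

theorem exact_hf {C : Cfg F ι κ} {Γ : Finset (ι × κ)} (hC : C.Good Γ) :
    Lin C.ideal (Fintype.card ι + 2 * Fintype.card κ) (chi0 C.M Γ) := by
  classical
  -- lower bound
  obtain ⟨n1, hn1⟩ := low (fun i => Submodule.span F {C.TP i, C.TQ i})
    (fun j => Submodule.span F {C.P j, C.Q j}) (fun i => exa_finrank (hC.tind i))
    (fun j => exa_finrank (exa_ind2 (hC.lind j)))
    (fun i i' h => exa_inf_bot (hC.tdis i i' h)) (fun j j' h => exa_inf_bot (hC.ldis j j' h))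
    (by
      intro i j hTL
      by_cases hij : (i, j) ∈ Γ
      · obtain ⟨s, t, hst, hv, hn⟩ := hC.node i j hij
        have h1 : Submodule.span F {C.P j, C.Q j, C.TP i, C.TQ i} ≤
            Submodule.span F {C.P j, C.Q j} := by
          rw [Submodule.span_le]
          have hP : C.P j ∈ Submodule.span F {C.P j, C.Q j} := Submodule.subset_span (by simp)
          have hQ : C.Q j ∈ Submodule.span F {C.P j, C.Q j} := Submodule.subset_span (by simp)
          have hTP : C.TP i ∈ Submodule.span F {C.P j, C.Q j} := by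
            rw [← hTL]
            exact Submodule.subset_span (by simp)
          have hTQ : C.TQ i ∈ Submodule.span F {C.P j, C.Q j} := by
            rw [← hTL]
            exact Submodule.subset_span (by simp)
          rintro z (rfl | rfl | rfl | rfl)
          · exact hP
          · exact hQ
          · exact hTP
          · exact hTQ
        obtain ⟨a, b, hab⟩ := Submodule.mem_span_pair.mp (h1 hn)
        obtain ⟨-, -, h2, h3⟩ := exa_disj (hC.lind j) hab
        have hs : s = 0 := pow_eq_zero_iff (hC.pos j).ne' |>.mp h2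
        subst hs
        rcases hst with h | h
        · exact h rfl
        · exact exa_hg_ne (hC.deg j) (hC.pos j) h h3
      · have h1 := exa_inf_bot (hC.non i j hij)
        have h2 : Submodule.span F {C.TP i, C.TQ i} = Submodule.span F {C.P j, C.Q j} := hTL
        rw [← h2, inf_idem] at h1
        have h3 := exa_finrank (hC.tind i)
        rw [h1, finrank_bot] at h3
        omega)
    (fun j => C.dI j) (fun j => HI_dblI)
    (fun j => by rw [← lineI_eq_vI]; exact sq_le_dblI)
    (fun j => by rw [← lineI_eq_vI]; exact dblI_le) Γ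
    (fun i j h => exa_inf_bot (hC.non i j h))
  have hideal : (⨅ i, vI (Submodule.span F {C.TP i, C.TQ i})) ⊓ (⨅ j, C.dI j) = C.ideal := by
    unfold Cfg.ideal Cfg.tI
    simp only [lineI_eq_vI]
  -- upper bound
  set A : Ideal (A4 F) := ⨅ i, C.tI i with hA
  set B : Ideal (A4 F) := ⨅ j, C.dI j with hB
  have hAI : HI A := HI_iInf fun i => HI_lineI (C.TP i) (C.TQ i)
  have hBI : HI B := HI_iInf fun _ => HI_dblI
  have hAle : ∀ n : ℕ, hf A n ≤ (Fintype.card ι : ℤ) * (n + 1) := by
    intro n
    have h1 := hf_finset_inf_le (s := Finset.univ) (I := fun i => C.tI i)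
      (fun i _ => HI_lineI (C.TP i) (C.TQ i)) n
    rw [Finset.inf_univ_eq_iInf] at h1
    refine h1.trans (le_of_eq ?_)
    have h2 : ∀ i ∈ (Finset.univ : Finset ι), hf (C.tI i) n = (n : ℤ) + 1 :=
      fun i _ => hf_lineI (hC.tind i) n
    rw [Finset.sum_congr rfl h2, Finset.sum_const, Finset.card_univ, nsmul_eq_mul]
  set n2 : ℕ := Finset.univ.sup C.M with hn2
  have hdI : ∀ n ≥ n2, ∀ j, hf (C.dI j) n = 2 * n + 1 + C.M j := by
    intro n hn j
    exact hf_dblI (hC.lind j) (hC.deg j) (hC.pos j)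
      ((Finset.le_sup (f := C.M) (Finset.mem_univ j)).trans hn)
  have hBle : ∀ n ≥ n2, hf B n ≤ ∑ j, (2 * (n : ℤ) + 1 + C.M j) := by
    intro n hn
    have h1 := hf_finset_inf_le (s := Finset.univ) (I := fun j => C.dI j)
      (fun j _ => HI_dblI) n
    rw [Finset.inf_univ_eq_iInf] at h1
    refine h1.trans (le_of_eq ?_)
    exact Finset.sum_congr rfl (fun j _ => hdI n hn j)
  -- nodes
  have hnode : ∀ x : Γ, ∃ vD : (Fin 4 → F) × (Fin 4 → F), LinearIndependent F ![vD.1, vD.2] ∧
      vD.1 ∈ Submodule.span F {C.TP x.1.1, C.TQ x.1.1} ∧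
      vD.1 ∈ Submodule.span F {C.P x.1.2, C.Q x.1.2} ∧
      (∀ f ∈ C.tI x.1.1, exaE vD.1 vD.2 f = 0) ∧ (∀ f ∈ C.dI x.1.2, exaE vD.1 vD.2 f = 0) := by
    intro x
    obtain ⟨v, D, h⟩ := exa_node hC (i := x.1.1) (j := x.1.2) x.2
    exact ⟨(v, D), h⟩
  choose vD hv1 hv2 hv3 hv4 hv5 using hnode
  have hv0 : ∀ x, (vD x).1 ≠ 0 := fun x => (hv1 x).ne_zero 0
  have hpair : ∀ x y : Γ, x ≠ y → LinearIndependent F ![(vD x).1, (vD y).1] := by
    intro x y hxy
    rw [LinearIndependent.pair_iff' (hv0 x)]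
    intro c hc
    have hcases : x.1.1 ≠ y.1.1 ∨ x.1.2 ≠ y.1.2 := by
      by_contra hcon
      push Not at hcon
      exact hxy (Subtype.ext (Prod.ext hcon.1 hcon.2))
    rcases hcases with h | h
    · have h1 := exa_inf_bot (hC.tdis _ _ h)
      have h2 : (vD y).1 ∈ Submodule.span F {C.TP x.1.1, C.TQ x.1.1} ⊓
          Submodule.span F {C.TP y.1.1, C.TQ y.1.1} := by
        refine ⟨?_, hv2 y⟩
        rw [← hc]
        exact Submodule.smul_mem _ _ (hv2 x)
      rw [h1, Submodule.mem_bot] at h2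
      exact hv0 y h2
    · have h1 := exa_inf_bot (hC.ldis _ _ h)
      have h2 : (vD y).1 ∈ Submodule.span F {C.P x.1.2, C.Q x.1.2} ⊓
          Submodule.span F {C.P y.1.2, C.Q y.1.2} := by
        refine ⟨?_, hv3 y⟩
        rw [← hc]
        exact Submodule.smul_mem _ _ (hv3 x)
      rw [h1, Submodule.mem_bot] at h2
      exact hv0 y h2
  have hABge : ∀ n ≥ 2 * Fintype.card Γ, 2 * (Γ.card : ℤ) ≤ hf (A ⊔ B) n := by
    intro n hn
    have h1 := exa_hf_lower (v := fun x => (vD x).1) (D := fun x => (vD x).2) hv1 hpair hn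
      (I := A ⊔ B) (by
        intro f hf x
        obtain ⟨a, ha, b, hb, rfl⟩ := Submodule.mem_sup.mp hf
        rw [map_add, hv4 x a ((iInf_le _ x.1.1 : A ≤ _) ha),
          hv5 x b ((iInf_le _ x.1.2 : B ≤ _) hb), add_zero])
    rwa [Fintype.card_coe] at h1
  refine ⟨max n1 (max n2 (2 * Fintype.card Γ)), fun n hn => ?_⟩
  have hm1 : n1 ≤ n := (le_max_left _ _).trans hn
  have hm2 : n2 ≤ n := (le_max_left _ _).trans ((le_max_right _ _).trans hn)
  have hm3 : 2 * Fintype.card Γ ≤ n := (le_max_right _ _).trans ((le_max_right _ _).trans hn)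
  have hlow := hn1 n hm1
  have hsum : ∑ j, hf (C.dI j) n = ∑ j, (2 * (n : ℤ) + 1 + C.M j) :=
    Finset.sum_congr rfl (fun j _ => hdI n hm2 j)
  have hsum2 : ∑ j, (2 * (n : ℤ) + 1 + C.M j) =
      2 * (Fintype.card κ : ℤ) * n + ∑ j, (1 + (C.M j : ℤ)) := by
    rw [Finset.sum_add_distrib, Finset.sum_add_distrib, Finset.sum_const, Finset.sum_const,
      Finset.card_univ, Finset.sum_add_distrib, Finset.sum_const, Finset.card_univ, nsmul_eq_mul,
      nsmul_eq_mul]
    ring
  rw [hsum, hsum2] at hlow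
  have hlow' : (Fintype.card ι : ℤ) * (n + 1) + (2 * (Fintype.card κ : ℤ) * n +
      ∑ j, (1 + (C.M j : ℤ))) - 2 * Γ.card ≤ hf C.ideal n := by
    rw [← hideal]
    exact hlow
  have h1 := hf_inf_add_sup hAI hBI n
  have h2 := hAle n
  have h3 := hBle n hm2
  have h4 := hABge n hm3
  rw [hsum2] at h3
  have h5 : hf C.ideal n = hf (A ⊓ B) n := rfl
  unfold chi0
  push_cast
  linarith

end Main

end Pool.H33.G
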