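import Pool.Agent.H33.G.HF

/-! # LMA: limits of ideals along a valuation subring, algebraic properties

`MvPolynomial.map (residue R)` is surjective, so `mem_limI` holds (`Ideal.mem_map_iff_of_surjective`). -/

open MvPolynomial Module

namespace Pool.H33.G

variable {K : Type} [Field K] (R : ValuationSubring K)

theorem LMA_surj : Function.Surjective
    (MvPolynomial.map (σ := Fin 4) (IsLocalRing.residue R)) :=
  MvPolynomial.map_surjective _ IsLocalRing.residue_surjective

theorem mem_limI {I : Ideal (A4 K)} {f : A4 (IsLocalRing.ResidueField R)} :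
    f ∈ limI R I ↔ ∃ h : MvPolynomial (Fin 4) R, MvPolynomial.map (algebraMap R K) h ∈ I ∧
      MvPolynomial.map (IsLocalRing.residue R) h = f := by
  unfold limI
  rw [Ideal.mem_map_iff_of_surjective _ (LMA_surj R)]
  rfl

theorem limI_mono {I J : Ideal (A4 K)} (h : I ≤ J) : limI R I ≤ limI R J :=
  Ideal.map_mono (Ideal.comap_mono h)

theorem limI_mul {I J : Ideal (A4 K)} : limI R I * limI R J ≤ limI R (I * J) := by
  rw [Ideal.mul_le]
  intro a ha b hb
  rw [mem_limI] at ha hb ⊢
  obtain ⟨x, hx, rfl⟩ := ha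
  obtain ⟨y, hy, rfl⟩ := hb
  refine ⟨x * y, ?_, ?_⟩
  · rw [map_mul]
    exact Ideal.mul_mem_mul hx hy
  · rw [map_mul]

theorem limI_pow {I : Ideal (A4 K)} (n : ℕ) : limI R I ^ n ≤ limI R (I ^ n) := by
  induction n with
  | zero =>
    rw [pow_zero, pow_zero, Ideal.one_eq_top, Ideal.one_eq_top]
    intro f _
    obtain ⟨h, hh⟩ := LMA_surj R f
    rw [mem_limI]
    exact ⟨h, trivial, hh⟩
  | succ n ih =>
    rw [pow_succ, pow_succ]
    exact (Ideal.mul_mono_left ih).trans (limI_mul R)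

theorem LMA_hc_map {S T : Type} [CommRing S] [CommRing T] (φ : S →+* T) (n : ℕ)
    (h : MvPolynomial (Fin 4) S) :
    homogeneousComponent n (MvPolynomial.map φ h) = MvPolynomial.map φ (homogeneousComponent n h) := by
  ext m
  rw [coeff_homogeneousComponent, coeff_map, coeff_map, coeff_homogeneousComponent]
  split_ifs
  · rfl
  · rw [map_zero]

theorem HI_limI {I : Ideal (A4 K)} (hI : HI I) : HI (limI R I) := by
  intro f hf' n
  rw [mem_limI] at hf' ⊢
  obtain ⟨h, hh, rfl⟩ := hf'
  refine ⟨homogeneousComponent n h, ?_, ?_⟩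
  · rw [← LMA_hc_map]
    exact hI _ hh n
  · rw [← LMA_hc_map]

theorem mem_part_limI {I : Ideal (A4 K)} (hI : HI I) {n : ℕ} {f : A4 (IsLocalRing.ResidueField R)} :
    f ∈ part (limI R I) n ↔ ∃ h : MvPolynomial (Fin 4) R, h.IsHomogeneous n ∧
      MvPolynomial.map (algebraMap R K) h ∈ I ∧ MvPolynomial.map (IsLocalRing.residue R) h = f := by
  rw [mem_part, mem_limI]
  constructor
  · rintro ⟨⟨h, hh, rfl⟩, hn⟩
    refine ⟨homogeneousComponent n h, homogeneousComponent_isHomogeneous n h, ?_, ?_⟩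
    · rw [← LMA_hc_map]
      exact hI _ hh n
    · rw [← LMA_hc_map, homogeneousComponent_of_mem hn, if_pos rfl]
  · rintro ⟨h, hn, hh, rfl⟩
    exact ⟨⟨h, hh, rfl⟩, hn.map _⟩

end Pool.H33.G
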