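import Pool.Agent.H33.G.HF

/-! # ULT: ultraproducts of fields and of families of forms

`UK 𝒰 k` is the ultrapower of `k`.  Algebraically closed: see the proof of `KK_isAlgClosed` in
`Pool/Agent/H33/V/Acl.lean` (same proof for any ultrafilter).  `germ_hf`: the vectors
`monomial ν 1 * v x a` (`ν` of degree `n - r`, `a : Fin m`) span the degree `n` part of
`Ideal.span (range (v x))` (if `n ≥ r`; for `n < r` both sides are the full space). As there are finitely
many such vectors, some subset `Q` of the index set is such that for `𝒰`-almost all `x` the subfamily is a basis of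
the span; the same subset is a basis of the span of the germs (relations pass to germs and back). -/

open MvPolynomial Module Filter

namespace Pool.H33.G

/-- the ultrapower of `k` -/
abbrev UK {X : Type} (𝒰 : Ultrafilter X) (k : Type) [Field k] : Type := (𝒰 : Filter X).Germ k

noncomputable instance UKalg {X : Type} (𝒰 : Ultrafilter X) (k : Type) [Field k] :
    Algebra k (UK 𝒰 k) :=
  ((Germ.coeRingHom (𝒰 : Filter X)).comp (Pi.constRingHom X k)).toAlgebra

theorem UK_algebraMap {X : Type} (𝒰 : Ultrafilter X) (k : Type) [Field k] (c : k) :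
    algebraMap k (UK 𝒰 k) c = ((fun _ => c : X → k) : (𝒰 : Filter X).Germ k) := rfl

/-- the germ homomorphism -/
noncomputable def ULT_g {X : Type} (𝒰 : Ultrafilter X) (k : Type) [Field k] : (X → k) →+* UK 𝒰 k :=
  Germ.coeRingHom (𝒰 : Filter X)

theorem ULT_g_apply {X : Type} (𝒰 : Ultrafilter X) {k : Type} [Field k] (f : X → k) :
    ULT_g 𝒰 k f = (f : (𝒰 : Filter X).Germ k) := rfl

theorem ULT_g_surj {X : Type} (𝒰 : Ultrafilter X) {k : Type} [Field k] (y : UK 𝒰 k) :
    ∃ f : X → k, ULT_g 𝒰 k f = y := by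
  obtain ⟨f, hf⟩ := Quotient.exists_rep y
  exact ⟨f, hf⟩

theorem ULT_g_eq {X : Type} (𝒰 : Ultrafilter X) {k : Type} [Field k] {f f' : X → k} :
    ULT_g 𝒰 k f = ULT_g 𝒰 k f' ↔ ∀ᶠ x in (𝒰 : Filter X), f x = f' x := by
  rw [ULT_g_apply, ULT_g_apply, Germ.coe_eq]
  rfl

theorem ULT_g_eq_zero {X : Type} (𝒰 : Ultrafilter X) {k : Type} [Field k] {f : X → k} :
    ULT_g 𝒰 k f = 0 ↔ ∀ᶠ x in (𝒰 : Filter X), f x = 0 := by
  rw [← map_zero (ULT_g 𝒰 k), ULT_g_eq]
  rfl

theorem ULT_root {k : Type} [Field k] [IsAlgClosed k] (d : ℕ) (hd : 0 < d) (a : ℕ → k) :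
    ∃ r : k, r ^ d + ∑ i ∈ Finset.range d, a i * r ^ i = 0 := by
  let q : Polynomial k := ∑ i ∈ Finset.range d, Polynomial.C (a i) * Polynomial.X ^ i
  have hq : q.degree < d := by
    refine lt_of_le_of_lt (Polynomial.degree_sum_le _ _) ?_
    refine (Finset.sup_lt_iff (WithBot.bot_lt_coe d)).mpr ?_
    intro i hi
    refine lt_of_le_of_lt (Polynomial.degree_C_mul_X_pow_le i (a i)) ?_
    exact WithBot.coe_lt_coe.mpr (Finset.mem_range.mp hi)
  have hdeg : (Polynomial.X ^ d + q : Polynomial k).degree = (d : WithBot ℕ) := by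
    rw [Polynomial.degree_add_eq_left_of_degree_lt]
    · exact Polynomial.degree_X_pow d
    · rw [Polynomial.degree_X_pow]; exact hq
  obtain ⟨r, hr⟩ := IsAlgClosed.exists_root (Polynomial.X ^ d + q) (by
    rw [hdeg]
    exact_mod_cast hd.ne')
  refine ⟨r, ?_⟩
  have h1 : (Polynomial.X ^ d + q : Polynomial k).eval r = 0 := hr
  rw [Polynomial.eval_add, Polynomial.eval_pow, Polynomial.eval_X,
    Polynomial.eval_finsetSum] at h1
  simpa using h1

theorem UK_isAlgClosed {X : Type} (𝒰 : Ultrafilter X) (k : Type) [Field k] [IsAlgClosed k] :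
    IsAlgClosed (UK 𝒰 k) := by
  apply IsAlgClosed.of_exists_root
  intro p hp hirr
  have hd : 0 < p.natDegree := hirr.natDegree_pos
  choose a ha using fun i : ℕ => ULT_g_surj 𝒰 (p.coeff i)
  choose r hr using fun x : X => ULT_root p.natDegree hd (fun i => a i x)
  refine ⟨ULT_g 𝒰 k r, ?_⟩
  rw [Polynomial.eval_eq_sum_range, Finset.sum_range_succ]
  have h1 : p.coeff p.natDegree = 1 := hp
  rw [h1, one_mul]
  have h2 : ULT_g 𝒰 k (r ^ p.natDegree + ∑ i ∈ Finset.range p.natDegree, a i * r ^ i) = 0 := by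
    have h3 : (r ^ p.natDegree + ∑ i ∈ Finset.range p.natDegree, a i * r ^ i) = 0 := by
      funext x
      rw [Pi.add_apply, Finset.sum_apply]
      exact hr x
    rw [h3, map_zero]
  rw [map_add, map_sum, map_pow] at h2
  rw [add_comm, ← h2]
  congr 1
  refine Finset.sum_congr rfl fun i _ => ?_
  rw [map_mul, map_pow, ha]

theorem UK_charZero {X : Type} (𝒰 : Ultrafilter X) (k : Type) [Field k] [CharZero k] :
    CharZero (UK 𝒰 k) :=
  charZero_of_injective_algebraMap (algebraMap k (UK 𝒰 k)).injective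

/-- the germ of a family of forms of degree `r` -/
noncomputable def germP {X : Type} (𝒰 : Ultrafilter X) {k : Type} [Field k] (r : ℕ) (f : X → A4 k) :
    A4 (UK 𝒰 k) :=
  ∑ μ ∈ Finset.finsuppAntidiag (Finset.univ : Finset (Fin 4)) r,
    monomial μ (((fun x => coeff μ (f x)) : X → k) : (𝒰 : Filter X).Germ k)

theorem ULT_anti {n : ℕ} {μ : Fin 4 →₀ ℕ} :
    μ ∈ Finset.finsuppAntidiag (Finset.univ : Finset (Fin 4)) n ↔ μ.degree = n := by
  rw [Finset.mem_finsuppAntidiag, Finsupp.degree_eq_sum]
  simp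

theorem germP_mem {X : Type} (𝒰 : Ultrafilter X) {k : Type} [Field k] (r : ℕ) (f : X → A4 k) :
    germP 𝒰 r f ∈ Fm (UK 𝒰 k) r := by
  unfold germP
  refine Submodule.sum_mem _ fun μ hμ => ?_
  exact isHomogeneous_monomial _ (ULT_anti.mp hμ)

theorem ULT_coeff_zero {F : Type} [Field F] {n : ℕ} {f : A4 F} (hf' : f ∈ Fm F n) {μ : Fin 4 →₀ ℕ}
    (h : μ.degree ≠ n) : coeff μ f = 0 := by
  by_contra h0
  exact h ((mem_homogeneousSubmodule n f).mp hf' h0 |> fun h' => by
    rw [Finsupp.degree_eq_weight_one]; exact h')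

theorem coeff_germP {X : Type} (𝒰 : Ultrafilter X) {k : Type} [Field k] (r : ℕ) {f : X → A4 k}
    (hf' : ∀ x, f x ∈ Fm k r) (μ : Fin 4 →₀ ℕ) :
    coeff μ (germP 𝒰 r f) = (((fun x => coeff μ (f x)) : X → k) : (𝒰 : Filter X).Germ k) := by
  unfold germP
  rw [coeff_sum]
  simp only [coeff_monomial]
  by_cases h : μ.degree = r
  · rw [Finset.sum_eq_single μ]
    · rw [if_pos rfl]
    · intro b _ hb; rw [if_neg hb]
    · intro h2; exact absurd (ULT_anti.mpr h) h2
  · rw [Finset.sum_eq_zero]
    · have : (fun x => coeff μ (f x)) = (0 : X → k) := by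
        funext x; exact ULT_coeff_zero (hf' x) h
      rw [this]; rfl
    · intro b hb
      rw [if_neg]
      rintro rfl
      exact h (ULT_anti.mp hb)

theorem ULT_coeff_germP {X : Type} (𝒰 : Ultrafilter X) {k : Type} [Field k] (r : ℕ) {f : X → A4 k}
    (hf' : ∀ x, f x ∈ Fm k r) (μ : Fin 4 →₀ ℕ) :
    coeff μ (germP 𝒰 r f) = ULT_g 𝒰 k (fun x => coeff μ (f x)) := coeff_germP 𝒰 r hf' μ

/-- ranks of families of vectors pass to germs -/
theorem ULT_rank {X : Type} (𝒰 : Ultrafilter X) {k : Type} [Field k] {I J : Type} [Fintype I]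
    [Fintype J] (u : X → I → J → k) {ρ : ℕ}
    (h : ∀ᶠ x in (𝒰 : Filter X), finrank k (Submodule.span k (Set.range (u x))) = ρ) :
    finrank (UK 𝒰 k) (Submodule.span (UK 𝒰 k)
      (Set.range fun i => fun j => ULT_g 𝒰 k (fun x => u x i j))) = ρ := by
  classical
  have hQ : ∀ x, ∃ Q : Finset I, LinearIndependent k (fun i : Q => u x i) ∧
      Submodule.span k (Set.range fun i : Q => u x i) = Submodule.span k (Set.range (u x)) := by
    intro x
    obtain ⟨κ, a, ha, hsp, hli⟩ := exists_linearIndependent' k (u x)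
    have : Finite κ := Finite.of_injective a ha
    have : Fintype κ := Fintype.ofFinite κ
    refine ⟨Finset.univ.image a, ?_, ?_⟩
    · let e' : κ → (Finset.univ.image a : Finset I) := fun i => ⟨a i, by simp⟩
      have he' : Function.Bijective e' := by
        constructor
        · intro i i' hii
          exact ha (congrArg Subtype.val hii)
        · rintro ⟨b, hb⟩
          simp only [Finset.mem_image, Finset.mem_univ, true_and] at hb
          obtain ⟨i, rfl⟩ := hb
          exact ⟨i, rfl⟩
      exact (linearIndependent_equiv' (Equiv.ofBijective e' he') rfl).mp hli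
    · rw [← hsp]
      congr 1
      ext y
      constructor
      · rintro ⟨⟨b, hb⟩, rfl⟩
        simp only [Finset.mem_image, Finset.mem_univ, true_and] at hb
        obtain ⟨i, rfl⟩ := hb
        exact ⟨i, rfl⟩
      · rintro ⟨i, rfl⟩
        exact ⟨⟨a i, by simp⟩, rfl⟩
  have h1 : ∀ᶠ x in (𝒰 : Filter X), ∃ Q : Finset I, (LinearIndependent k (fun i : Q => u x i) ∧
      Submodule.span k (Set.range fun i : Q => u x i) = Submodule.span k (Set.range (u x))) ∧
      finrank k (Submodule.span k (Set.range (u x))) = ρ := by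
    filter_upwards [h] with x hx
    obtain ⟨Q, hQ1⟩ := hQ x
    exact ⟨Q, hQ1, hx⟩
  rw [Ultrafilter.eventually_exists_iff] at h1
  obtain ⟨Q, hQ2⟩ := h1
  have hcard : Q.card = ρ := by
    have : (𝒰 : Filter X).NeBot := inferInstance
    obtain ⟨x, hx⟩ := hQ2.exists
    rw [← hx.2, ← hx.1.2, finrank_span_eq_card hx.1.1, Fintype.card_coe]
  set U : I → J → UK 𝒰 k := fun i => fun j => ULT_g 𝒰 k (fun x => u x i j) with hU
  have hli : LinearIndependent (UK 𝒰 k) (fun i : Q => U i) := by
    rw [Fintype.linearIndependent_iff]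
    intro g hg i
    choose c hc using fun i => ULT_g_surj 𝒰 (g i)
    rw [← hc i, ULT_g_eq_zero]
    have h2 : ∀ j, ∀ᶠ x in (𝒰 : Filter X), (∑ i : Q, c i x * u x i j) = 0 := by
      intro j
      have h3 := congrFun hg j
      rw [Finset.sum_apply] at h3
      have h4 : ULT_g 𝒰 k (∑ i : Q, c i * fun x => u x i j) = 0 := by
        rw [map_sum]
        refine Eq.trans ?_ h3
        refine Finset.sum_congr rfl fun i _ => ?_
        rw [map_mul, hc i]
        rfl
      rw [ULT_g_eq_zero] at h4
      filter_upwards [h4] with x hx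
      rw [Finset.sum_apply] at hx
      exact hx
    have h5 : ∀ᶠ x in (𝒰 : Filter X), ∀ j, (∑ i : Q, c i x * u x i j) = 0 := eventually_all.mpr h2
    filter_upwards [h5, hQ2] with x hx hx2
    have h6 := Fintype.linearIndependent_iff.mp hx2.1.1 (fun i => c i x) (by
      funext j
      rw [Finset.sum_apply]
      exact hx j) i
    exact h6
  have hsp : Submodule.span (UK 𝒰 k) (Set.range fun i : Q => U i) =
      Submodule.span (UK 𝒰 k) (Set.range U) := by
    apply le_antisymm
    · apply Submodule.span_mono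
      rintro _ ⟨i, rfl⟩
      exact ⟨i, rfl⟩
    · rw [Submodule.span_le]
      rintro _ ⟨i, rfl⟩
      have h2 : ∀ x, ∃ c : Q → k, (∀ᶠ y in (𝒰 : Filter X), True) ∧
          ((LinearIndependent k (fun i : Q => u x i) ∧
          Submodule.span k (Set.range fun i : Q => u x i) = Submodule.span k (Set.range (u x))) →
          ∑ q : Q, c q • u x q = u x i) := by
        intro x
        by_cases hx : Submodule.span k (Set.range fun i : Q => u x i) =
            Submodule.span k (Set.range (u x))
        · have h3 : u x i ∈ Submodule.span k (Set.range fun i : Q => u x i) := by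
            rw [hx]; exact Submodule.subset_span ⟨i, rfl⟩
          obtain ⟨c, hc⟩ := (Submodule.mem_span_range_iff_exists_fun k).mp h3
          exact ⟨c, by simp, fun _ => hc⟩
        · exact ⟨0, by simp, fun h => absurd h.2 hx⟩
      choose c hc using h2
      refine (Submodule.mem_span_range_iff_exists_fun _).mpr
        ⟨fun q => ULT_g 𝒰 k (fun x => c x q), ?_⟩
      funext j
      rw [Finset.sum_apply]
      have h3 : (∑ q : Q, (ULT_g 𝒰 k (fun x => c x q) • U q) j) =
          ULT_g 𝒰 k (∑ q : Q, (fun x => c x q) * (fun x => u x q j)) := by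
        rw [map_sum]
        refine Finset.sum_congr rfl fun q _ => ?_
        rw [map_mul]
        rfl
      rw [h3, hU]
      simp only
      rw [ULT_g_eq]
      filter_upwards [hQ2] with x hx
      have h4 := congrFun ((hc x).2 hx.1) j
      rw [Finset.sum_apply] at h4
      rw [Finset.sum_apply]
      exact h4
  rw [← hsp, finrank_span_eq_card hli, Fintype.card_coe, hcard]

/-- the index set of monomials of degree `n` -/
abbrev ULT_J (n : ℕ) : Type := {μ // μ ∈ Finset.finsuppAntidiag (Finset.univ : Finset (Fin 4)) n}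

/-- coefficient vector of degree `n` -/
noncomputable def ULT_T (F : Type) [Field F] (n : ℕ) : A4 F →ₗ[F] (ULT_J n → F) where
  toFun f := fun μ => coeff μ.1 f
  map_add' a b := by funext μ; simp
  map_smul' c a := by funext μ; simp

theorem ULT_T_inj {F : Type} [Field F] {n : ℕ} {f : A4 F} (hf' : f ∈ Fm F n)
    (h : ULT_T F n f = 0) : f = 0 := by
  ext μ
  rw [coeff_zero]
  by_cases hμ : μ.degree = n
  · exact congrFun h ⟨μ, ULT_anti.mpr hμ⟩
  · exact ULT_coeff_zero hf' hμ

theorem ULT_finrank_map {F : Type} [Field F] {n : ℕ} {W : Submodule F (A4 F)} (hW : W ≤ Fm F n) :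
    finrank F (W.map (ULT_T F n)) = finrank F W := by
  have h1 : Function.Injective ((ULT_T F n).domRestrict W) := by
    rw [← LinearMap.ker_eq_bot, LinearMap.ker_eq_bot']
    rintro ⟨f, hf'⟩ h
    exact Subtype.ext (ULT_T_inj (hW hf') h)
  rw [← LinearMap.finrank_range_of_inj h1, LinearMap.range_domRestrict]

theorem ULT_finrank_Fm (F : Type) [Field F] (n : ℕ) :
    finrank F (Fm F n) = Fintype.card (ULT_J n) := by
  rw [← ULT_finrank_map (le_refl (Fm F n))]
  have h : (Fm F n).map (ULT_T F n) = ⊤ := by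
    rw [eq_top_iff]
    intro y _
    refine ⟨∑ μ : ULT_J n, monomial μ.1 (y μ), ?_, ?_⟩
    · refine Submodule.sum_mem _ fun μ _ => ?_
      exact isHomogeneous_monomial _ (ULT_anti.mp μ.2)
    · funext ν
      change coeff ν.1 (∑ μ : ULT_J n, monomial μ.1 (y μ)) = y ν
      rw [coeff_sum]
      simp only [coeff_monomial]
      rw [Finset.sum_eq_single ν]
      · rw [if_pos rfl]
      · intro b _ hb
        rw [if_neg]
        intro h; exact hb (Subtype.ext h)
      · intro h; exact absurd (Finset.mem_univ _) h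
  rw [h, finrank_top, finrank_fintype_fun_eq_card]

/-- homogeneous components of a product with a form -/
theorem ULT_comp_mul {F : Type} [Field F] {r n : ℕ} {q v : A4 F} (hv : v ∈ Fm F r) :
    homogeneousComponent n (q * v) =
      if r ≤ n then homogeneousComponent (n - r) q * v else 0 := by
  have h0 : q * v = ∑ i ∈ Finset.range (q.totalDegree + 1), homogeneousComponent i q * v := by
    rw [← Finset.sum_mul, sum_homogeneousComponent]
  have h1 : ∀ i, homogeneousComponent n (homogeneousComponent i q * v) =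
      if n = i + r then homogeneousComponent i q * v else 0 := by
    intro i
    exact homogeneousComponent_of_mem
      (IsHomogeneous.mul (homogeneousComponent_isHomogeneous i q) hv)
  rw [h0, map_sum]
  simp only [h1]
  split_ifs with hr
  · by_cases h2 : n - r ∈ Finset.range (q.totalDegree + 1)
    · rw [Finset.sum_eq_single (n - r)]
      · rw [if_pos (by omega)]
      · intro b _ hb; rw [if_neg (by omega)]
      · intro h; exact absurd h2 h
    · rw [Finset.sum_eq_zero]
      · rw [homogeneousComponent_eq_zero, zero_mul]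
        simp only [Finset.mem_range, not_lt] at h2
        omega
      · intro b hb
        rw [if_neg]
        rintro rfl
        apply h2
        rw [Nat.add_sub_cancel]; exact hb
  · rw [Finset.sum_eq_zero]
    intro b _
    rw [if_neg (by omega)]

/-- the degree `n` part of an ideal generated by forms of degree `r` -/
theorem ULT_part {F : Type} [Field F] {m r n : ℕ} {v : Fin m → A4 F} (hv : ∀ a, v a ∈ Fm F r)
    (hr : r ≤ n) : part (Ideal.span (Set.range v)) n =
      Submodule.span F (Set.range fun i : ULT_J (n - r) × Fin m => monomial i.1.1 (1 : F) * v i.2) := by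
  apply le_antisymm
  · rintro p ⟨hp1, hp2⟩
    have hp1' : p ∈ Ideal.span (Set.range v) := hp1
    rw [Ideal.mem_span_range_iff_exists_fun] at hp1'
    obtain ⟨c, hc⟩ := hp1'
    have hp3 : homogeneousComponent n p = p := homogeneousComponent_eq_self hp2
    rw [← hp3, ← hc, map_sum]
    refine Submodule.sum_mem _ fun a _ => ?_
    rw [ULT_comp_mul (hv a), if_pos hr]
    have h1 : homogeneousComponent (n - r) (c a) =
        ∑ μ : ULT_J (n - r), coeff μ.1 (c a) • monomial μ.1 (1 : F) := by
      ext ν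
      rw [coeff_homogeneousComponent, coeff_sum]
      simp only [coeff_smul, coeff_monomial, smul_eq_mul, mul_ite, mul_one, mul_zero]
      split_ifs with h
      · rw [Finset.sum_eq_single ⟨ν, ULT_anti.mpr h⟩]
        · rw [if_pos rfl]
        · intro b _ hb
          rw [if_neg]
          intro h; exact hb (Subtype.ext h)
        · intro h; exact absurd (Finset.mem_univ _) h
      · rw [Finset.sum_eq_zero]
        intro b _
        rw [if_neg]
        intro h2
        apply h
        rw [← h2]
        exact ULT_anti.mp b.2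
    rw [h1, Finset.sum_mul]
    refine Submodule.sum_mem _ fun μ _ => ?_
    rw [smul_mul_assoc]
    exact Submodule.smul_mem _ _ (Submodule.subset_span ⟨(μ, a), rfl⟩)
  · rw [Submodule.span_le]
    rintro _ ⟨i, rfl⟩
    refine ⟨?_, ?_⟩
    · change monomial i.1.1 (1 : F) * v i.2 ∈ Ideal.span (Set.range v)
      exact Ideal.mul_mem_left _ _ (Ideal.subset_span ⟨i.2, rfl⟩)
    · have h1 : (monomial i.1.1 (1 : F)) ∈ Fm F (n - r) :=
        isHomogeneous_monomial _ (ULT_anti.mp i.1.2)
      have h2 := IsHomogeneous.mul h1 (hv i.2)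
      rw [Nat.sub_add_cancel hr] at h2
      exact h2

theorem ULT_part_lt {F : Type} [Field F] {m r n : ℕ} {v : Fin m → A4 F} (hv : ∀ a, v a ∈ Fm F r)
    (hr : n < r) : part (Ideal.span (Set.range v)) n = ⊥ := by
  rw [eq_bot_iff]
  rintro p ⟨hp1, hp2⟩
  have hp1' : p ∈ Ideal.span (Set.range v) := hp1
  rw [Ideal.mem_span_range_iff_exists_fun] at hp1'
  obtain ⟨c, hc⟩ := hp1'
  have hp3 : homogeneousComponent n p = p := homogeneousComponent_eq_self hp2
  rw [← hp3, ← hc, map_sum, Finset.sum_eq_zero]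
  · exact Submodule.zero_mem _
  · intro a _
    rw [ULT_comp_mul (hv a), if_neg (by omega)]

theorem ULT_hf {F : Type} [Field F] {m r n : ℕ} {v : Fin m → A4 F} (hv : ∀ a, v a ∈ Fm F r)
    (hr : r ≤ n) : hf (Ideal.span (Set.range v)) n = (Fintype.card (ULT_J n) : ℤ) -
      finrank F (Submodule.span F (Set.range fun i : ULT_J (n - r) × Fin m =>
        ULT_T F n (monomial i.1.1 (1 : F) * v i.2))) := by
  unfold hf
  rw [ULT_finrank_Fm, ← ULT_finrank_map (W := part (Ideal.span (Set.range v)) n) inf_le_right,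
    ULT_part hv hr, Submodule.map_span, ← Set.range_comp]
  rfl

theorem germ_hf {X : Type} (𝒰 : Ultrafilter X) {k : Type} [Field k] {m r n : ℕ}
    (v : X → Fin m → A4 k) (hv : ∀ x a, v x a ∈ Fm k r) {c : ℤ}
    (h : ∀ᶠ x in (𝒰 : Filter X), hf (Ideal.span (Set.range (v x))) n = c) :
    hf (Ideal.span (Set.range fun a => germP 𝒰 r fun x => v x a)) n = c := by
  classical
  by_cases hr : r ≤ n
  · rw [ULT_hf (fun a => germP_mem 𝒰 r _) hr]
    have h1 : ∀ᶠ x in (𝒰 : Filter X), finrank k (Submodule.span k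
        (Set.range fun i : ULT_J (n - r) × Fin m => ULT_T k n (monomial i.1.1 (1 : k) * v x i.2))) =
        ((Fintype.card (ULT_J n) : ℤ) - c).toNat := by
      filter_upwards [h] with x hx
      rw [ULT_hf (hv x) hr] at hx
      omega
    have h2 := ULT_rank 𝒰 (fun x (i : ULT_J (n - r) × Fin m) =>
      ULT_T k n (monomial i.1.1 (1 : k) * v x i.2)) h1
    have h3 : (fun (i : ULT_J (n - r) × Fin m) => ULT_T (UK 𝒰 k) n (monomial i.1.1 (1 : UK 𝒰 k) *
        germP 𝒰 r fun x => v x i.2)) = fun i => fun j => ULT_g 𝒰 k (fun x =>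
        ULT_T k n (monomial i.1.1 (1 : k) * v x i.2) j) := by
      funext i j
      change coeff j.1 (monomial i.1.1 (1 : UK 𝒰 k) * germP 𝒰 r fun x => v x i.2) =
        ULT_g 𝒰 k (fun x => coeff j.1 (monomial i.1.1 (1 : k) * v x i.2))
      simp only [coeff_monomial_mul']
      split_ifs with h4
      · rw [ULT_coeff_germP 𝒰 r (fun x => hv x i.2)]
        simp only [one_mul]
      · exact (map_zero (ULT_g 𝒰 k)).symm
    rw [h3, h2]
    have : (𝒰 : Filter X).NeBot := inferInstance
    obtain ⟨x, hx, hx1⟩ := (h.and h1).exists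
    rw [ULT_hf (hv x) hr] at hx
    omega
  · have : (𝒰 : Filter X).NeBot := inferInstance
    obtain ⟨x, hx⟩ := h.exists
    rw [← hx]
    unfold hf
    rw [ULT_part_lt (hv x) (by omega), ULT_part_lt (fun a => germP_mem 𝒰 r _) (by omega),
      ULT_finrank_Fm, ULT_finrank_Fm, finrank_bot, finrank_bot]

/-- membership in the span passes to germs -/
theorem germ_span {X : Type} (𝒰 : Ultrafilter X) {k : Type} [Field k] {m r : ℕ}
    (v : X → Fin m → A4 k) (hv : ∀ x a, v x a ∈ Fm k r) {f : X → A4 k} (hf' : ∀ x, f x ∈ Fm k r)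
    (h : ∀ᶠ x in (𝒰 : Filter X), f x ∈ Submodule.span k (Set.range (v x))) :
    germP 𝒰 r f ∈ Submodule.span (UK 𝒰 k) (Set.range fun a => germP 𝒰 r fun x => v x a) := by
  classical
  have h2 : ∀ x, ∃ c : Fin m → k, f x ∈ Submodule.span k (Set.range (v x)) →
      ∑ a, c a • v x a = f x := by
    intro x
    by_cases hx : f x ∈ Submodule.span k (Set.range (v x))
    · obtain ⟨c, hc⟩ := (Submodule.mem_span_range_iff_exists_fun k).mp hx
      exact ⟨c, fun _ => hc⟩
    · exact ⟨0, fun h => absurd h hx⟩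
  choose c hc using h2
  refine (Submodule.mem_span_range_iff_exists_fun _).mpr
    ⟨fun a => ULT_g 𝒰 k (fun x => c x a), ?_⟩
  ext μ
  rw [ULT_coeff_germP 𝒰 r hf', coeff_sum]
  have h3 : (∑ a : Fin m, coeff μ (ULT_g 𝒰 k (fun x => c x a) • germP 𝒰 r fun x => v x a)) =
      ULT_g 𝒰 k (∑ a : Fin m, (fun x => c x a) * (fun x => coeff μ (v x a))) := by
    rw [map_sum]
    refine Finset.sum_congr rfl fun a _ => ?_
    rw [map_mul, coeff_smul, ULT_coeff_germP 𝒰 r (fun x => hv x a)]
    rfl
  rw [h3, ULT_g_eq]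
  filter_upwards [h] with x hx
  rw [Finset.sum_apply, ← hc x hx, coeff_sum]
  refine Finset.sum_congr rfl fun a _ => ?_
  rw [coeff_smul]
  rfl

end Pool.H33.G
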