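import Pool.Agent.H33.G.Defs

/-! # VAL: extension of a specialisation to a valuation subring

Let `A` be the subring of `K` generated by (the image of) `k` and the `a i`, i.e. the range of
`aeval a : MvPolynomial σ k → K`, and `P ⊆ A` the image of the kernel of `eval a0`; by `h` the ideal `P` is
proper (`1 ∉ P`: if `aeval a φ = 1` with `eval a0 φ = 0` then `φ - 1` contradicts `h`).  Apply
`Ideal.image_subset_nonunits_valuationSubring`. -/

open MvPolynomial Module

namespace Pool.H33.G

theorem exists_valuation {k K σ : Type} [Field k] [Field K] [Algebra k K] (a : σ → K) (a0 : σ → k)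
    (h : ∀ φ : MvPolynomial σ k, aeval a φ = 0 → MvPolynomial.eval a0 φ = 0) :
    ∃ R : ValuationSubring K, (∀ c : k, algebraMap k K c ∈ R) ∧
      ∀ i, a i ∈ R ∧ a i - algebraMap k K (a0 i) ∈ R.nonunits := by
  set f : MvPolynomial σ k →+* K := (aeval a : MvPolynomial σ k →ₐ[k] K).toRingHom with hf
  set I : Ideal f.range := (RingHom.ker (MvPolynomial.eval a0)).map f.rangeRestrict with hI
  have hmem : ∀ x : f.range, x ∈ I → ∃ φ, MvPolynomial.eval a0 φ = 0 ∧ f.rangeRestrict φ = x := by
    intro x hx
    obtain ⟨φ, hφ, hφx⟩ := (Ideal.mem_map_iff_of_surjective _ f.rangeRestrict_surjective).1 hx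
    exact ⟨φ, hφ, hφx⟩
  have hne : I ≠ ⊤ := by
    rw [Ideal.ne_top_iff_one]
    intro h1
    obtain ⟨φ, hφ, hφ1⟩ := hmem 1 h1
    have h2 : f φ = 1 := congrArg Subtype.val hφ1
    have h3 : aeval a (φ - 1) = 0 := by
      rw [map_sub, map_one]
      exact sub_eq_zero.2 h2
    have h4 := h _ h3
    rw [map_sub, hφ, map_one] at h4
    simp at h4
  obtain ⟨R, hR1, hR2⟩ := Ideal.image_subset_nonunits_valuationSubring I hne
  refine ⟨R, ?_, ?_⟩
  · intro c
    apply hR1
    exact ⟨C c, by rw [hf]; simp⟩
  · intro i
    constructor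
    · apply hR1
      exact ⟨X i, by rw [hf]; simp⟩
    · apply hR2
      refine ⟨f.rangeRestrict (X i - C (a0 i)), ?_, ?_⟩
      · apply Ideal.mem_map_of_mem
        rw [RingHom.mem_ker]
        simp
      · show f (X i - C (a0 i)) = _
        rw [hf]
        simp

/-- the homomorphism from `k` to the residue field -/
noncomputable def resHom {k K : Type} [Field k] [Field K] [Algebra k K] (R : ValuationSubring K)
    (h : ∀ c : k, algebraMap k K c ∈ R) : k →+* IsLocalRing.ResidueField R :=
  (IsLocalRing.residue R).comp ((algebraMap k K).codRestrict R h)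

end Pool.H33.G
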