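import Pool.Agent.H33.G.GNA
import Pool.Agent.H33.G.ULT
import Pool.Agent.H33.G.VAL
import Pool.Agent.H33.G.LMA

/-! # GEN: the generic point of an irreducible set of points of the Hilbert scheme

`exists_ultra`: the sets `{S | ∃ U open, (U ∩ H).Nonempty ∧ U ∩ H ⊆ S}` form a proper filter as `H` is
irreducible; take an ultrafilter finer than it.
`exists_frame`: every `w` has an echelon basis `v` for some pivot monomials `μ`: choose a basis
(`finrank`), the coefficient matrix has full row rank, choose `m` independent columns, multiply by the inverse.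
`generic_point`: `K = UK 𝒰 k` for `𝒰` from `exists_ultra`, index type `X = HilbPt k d g r`.  Take any `w0 ∈ H` and
`μ, v0` from `exists_frame`; `basicOpen m μ 1 ∋ w0` is in `𝒰`; for `x` in it let `v x` be the frame (else `0`).
`I = Ideal.span (range (germP 𝒰 r (v · a)))`, `germ_hf`.  For another `w ∈ H` with frame `μ', v0'` and
chart frames `v'`, the two spans agree by `germ_span`.  The hypothesis of `exists_valuation` for
`a = coefficients of germP 𝒰 r (v' · a)`, `a0 = coefficients of v0'`: if `aeval a φ = 0` then `φ` vanishes at the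
coefficients of `v' x` for almost all `x`; if `eval a0 φ ≠ 0` then `w ∈ basicOpen m μ' φ`, which is then in
`𝒰`, and the frame is unique, contradiction.  Finally for `f ∈ w.1`, `f = Σ c_a v0' a`, and
`Σ c_a germP (v' · a)` is an element of `I` with coefficients in `R` and reduction `map (resHom R hR) f`. -/

open MvPolynomial Module Filter

namespace Pool.H33.G

variable {k : Type} [Field k] {d : ℕ} {g : ℤ} {r : ℕ}

/-- evaluation of a polynomial at germs -/
theorem GEN_aeval {X : Type} (𝒰 : Ultrafilter X) {σ : Type} (F : σ → X → k)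
    (φ : MvPolynomial σ k) :
    aeval (fun s => ((F s : X → k) : (𝒰 : Filter X).Germ k)) φ =
      (((fun x => MvPolynomial.eval (fun s => F s x) φ) : X → k) : (𝒰 : Filter X).Germ k) := by
  induction φ using MvPolynomial.induction_on with
  | C c =>
    rw [aeval_C, UK_algebraMap]
    simp
  | add p q hp hq =>
    rw [map_add, hp, hq, ← Germ.coe_add]
    congr 1
    funext x
    simp
  | mul_X p s hp =>
    rw [map_mul, hp, aeval_X, ← Germ.coe_mul]
    congr 1
    funext x
    simp

open Classical in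
/-- the chart frame -/
noncomputable def GEN_fr (m : ℕ) (μ : Fin m → (Fin 4 →₀ ℕ)) (x : HilbPt k d g r) : Fin m → A4 k :=
  if h : ∃ v : Fin m → A4 k, Submodule.span k (Set.range v) = x.1 ∧
    (∀ a b, coeff (μ b) (v a) = if a = b then 1 else 0) then h.choose else fun _ => 0

theorem GEN_fr_spec {m : ℕ} {μ : Fin m → (Fin 4 →₀ ℕ)} {x : HilbPt k d g r} {v : Fin m → A4 k}
    (h1 : Submodule.span k (Set.range v) = x.1)
    (h2 : ∀ a b, coeff (μ b) (v a) = if a = b then 1 else 0) :
    Submodule.span k (Set.range (GEN_fr m μ x)) = x.1 ∧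
    (∀ a b, coeff (μ b) (GEN_fr m μ x a) = if a = b then 1 else 0) := by
  have h : ∃ v : Fin m → A4 k, Submodule.span k (Set.range v) = x.1 ∧
    (∀ a b, coeff (μ b) (v a) = if a = b then 1 else 0) := ⟨v, h1, h2⟩
  unfold GEN_fr
  rw [dif_pos h]
  exact h.choose_spec

theorem GEN_fr_mem (m : ℕ) (μ : Fin m → (Fin 4 →₀ ℕ)) (x : HilbPt k d g r) (a : Fin m) :
    GEN_fr m μ x a ∈ Fm k r := by
  classical
  by_cases h : ∃ v : Fin m → A4 k, Submodule.span k (Set.range v) = x.1 ∧
    (∀ a b, coeff (μ b) (v a) = if a = b then 1 else 0)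
  · obtain ⟨v, h1, h2⟩ := h
    have := (GEN_fr_spec h1 h2).1
    apply x.2.1
    rw [← this]
    exact Submodule.subset_span ⟨a, rfl⟩
  · unfold GEN_fr
    rw [dif_neg h]
    exact Submodule.zero_mem _

theorem GEN_span (m : ℕ) (v : Fin m → A4 k) {W : Submodule k (A4 k)}
    (h : Submodule.span k (Set.range v) = W) :
    Ideal.span (Set.range v) = Ideal.span (W : Set (A4 k)) := by
  apply le_antisymm
  · apply Ideal.span_mono
    rw [← h]
    exact Submodule.subset_span
  · rw [Ideal.span_le, ← h]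
    intro f hf'
    have : Submodule.span k (Set.range v) ≤
        (Ideal.span (Set.range v)).restrictScalars k := by
      rw [Submodule.span_le]
      exact Ideal.subset_span
    exact this hf'

theorem generic_point [IsAlgClosed k] [CharZero k] (H : Set (HilbPt k d g r)) (hH : IsIrreducible H) :
    ∃ (K : Type) (_ : Field K) (_ : IsAlgClosed K) (_ : CharZero K) (_ : Algebra k K)
      (I : Ideal (A4 K)), HI I ∧ (∀ n ≥ r, hf I n = (d : ℤ) * n + 1 - g) ∧
      ∀ w ∈ H, ∃ (R : ValuationSubring K) (hR : ∀ c : k, algebraMap k K c ∈ R),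
        ∀ f ∈ w.1, MvPolynomial.map (resHom R hR) f ∈ limI R I := by
  classical
  obtain ⟨𝒰, hHU, hU⟩ := exists_ultra H hH
  obtain ⟨w0, hw0⟩ := hH.nonempty
  -- charts
  have chart : ∀ w ∈ H, ∃ (m : ℕ) (μ : Fin m → (Fin 4 →₀ ℕ)),
      (Submodule.span k (Set.range (GEN_fr m μ w)) = w.1 ∧
        (∀ a b, coeff (μ b) (GEN_fr m μ w a) = if a = b then 1 else 0)) ∧
      ∀ᶠ x in (𝒰 : Filter (HilbPt k d g r)), Submodule.span k (Set.range (GEN_fr m μ x)) = x.1 ∧
        (∀ a b, coeff (μ b) (GEN_fr m μ x a) = if a = b then 1 else 0) := by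
    intro w hw
    obtain ⟨m, μ, v, h1, h2⟩ := exists_frame w
    refine ⟨m, μ, GEN_fr_spec h1 h2, ?_⟩
    have hopen : IsOpen (basicOpen (d := d) (g := g) (r := r) m μ (1 : MvPolynomial _ k)) :=
      TopologicalSpace.isOpen_generateFrom_of_mem ⟨m, μ, 1, rfl⟩
    have hmem := hU _ hopen ⟨w, ⟨v, h1, h2, by simp⟩, hw⟩
    refine Filter.mem_of_superset hmem ?_
    rintro x ⟨v', h1', h2', -⟩
    exact GEN_fr_spec h1' h2'
  obtain ⟨m, μ, hw1, hw2⟩ := chart w0 hw0
  refine ⟨UK 𝒰 k, inferInstance, UK_isAlgClosed 𝒰 k, UK_charZero 𝒰 k, UKalg 𝒰 k,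
    Ideal.span (Set.range fun a => germP 𝒰 r fun x => GEN_fr m μ x a), ?_, ?_, ?_⟩
  · apply HI_span
    rintro _ ⟨a, rfl⟩
    exact ⟨r, germP_mem 𝒰 r _⟩
  · intro n hn
    apply germ_hf 𝒰 (GEN_fr m μ) (GEN_fr_mem m μ)
    filter_upwards [hw2] with x hx
    rw [GEN_span m _ hx.1]
    exact x.2.2 n hn
  · intro w hw
    obtain ⟨m', μ', hv1, hv2⟩ := chart w hw
    let a : Fin m' × (Fin 4 →₀ ℕ) → UK 𝒰 k := fun s =>
      (((fun x => coeff s.2 (GEN_fr m' μ' x s.1)) : HilbPt k d g r → k) :
        (𝒰 : Filter (HilbPt k d g r)).Germ k)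
    let a0 : Fin m' × (Fin 4 →₀ ℕ) → k := fun s => coeff s.2 (GEN_fr m' μ' w s.1)
    have hval : ∀ φ : MvPolynomial (Fin m' × (Fin 4 →₀ ℕ)) k, aeval a φ = 0 →
        MvPolynomial.eval a0 φ = 0 := by
      intro φ hφ
      by_contra hne
      have e1 := GEN_aeval 𝒰 (fun s x => coeff s.2 (GEN_fr m' μ' x s.1)) φ
      have e0 := e1.symm.trans hφ
      rw [← Germ.coe_zero] at e0
      have e2 : ∀ᶠ x in (𝒰 : Filter (HilbPt k d g r)),
          MvPolynomial.eval (fun s => coeff s.2 (GEN_fr m' μ' x s.1)) φ = 0 := Germ.coe_eq.1 e0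
      have hopen : IsOpen (basicOpen (d := d) (g := g) (r := r) m' μ' φ) :=
        TopologicalSpace.isOpen_generateFrom_of_mem ⟨m', μ', φ, rfl⟩
      have hmem := hU _ hopen ⟨w, ⟨GEN_fr m' μ' w, hv1.1, hv1.2, hne⟩, hw⟩
      have e3 : ∀ᶠ x in (𝒰 : Filter (HilbPt k d g r)),
        x ∈ basicOpen (d := d) (g := g) (r := r) m' μ' φ := hmem
      obtain ⟨x, hx1, hx2, v, hx3, hx4, hx5⟩ := (e2.and (hv2.and e3)).exists
      have := frame_unique (hx3.trans hx2.1.symm) hx4 hx2.2
      rw [this] at hx5
      exact hx5 hx1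
    obtain ⟨R, hR, hRa⟩ := exists_valuation a a0 hval
    refine ⟨R, hR, ?_⟩
    intro f hf'
    rw [← hv1.1] at hf'
    induction hf' using Submodule.span_induction with
    | mem f hf' =>
      obtain ⟨b, rfl⟩ := hf'
      rw [mem_limI]
      refine ⟨∑ ν ∈ Finset.finsuppAntidiag (Finset.univ : Finset (Fin 4)) r,
        monomial ν ⟨a (b, ν), (hRa (b, ν)).1⟩, ?_, ?_⟩
      · rw [map_sum]
        have e1 : ∑ ν ∈ Finset.finsuppAntidiag (Finset.univ : Finset (Fin 4)) r,
            MvPolynomial.map (algebraMap R (UK 𝒰 k)) (monomial ν ⟨a (b, ν), (hRa (b, ν)).1⟩) =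
            germP 𝒰 r fun x => GEN_fr m' μ' x b := by
          unfold germP
          refine Finset.sum_congr rfl fun ν _ => ?_
          rw [map_monomial]
          rfl
        rw [e1]
        have e2 := germ_span 𝒰 (GEN_fr m μ) (GEN_fr_mem m μ)
          (f := fun x => GEN_fr m' μ' x b) (fun x => GEN_fr_mem m' μ' x b) (by
            filter_upwards [hw2, hv2] with x hx hx'
            rw [hx.1, ← hx'.1]
            exact Submodule.subset_span ⟨b, rfl⟩)
        have e3 : Submodule.span (UK 𝒰 k) (Set.range fun a => germP 𝒰 r fun x => GEN_fr m μ x a) ≤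
            (Ideal.span (Set.range fun a => germP 𝒰 r fun x => GEN_fr m μ x a)).restrictScalars
              (UK 𝒰 k) := by
          rw [Submodule.span_le]
          exact Ideal.subset_span
        exact e3 e2
      · rw [map_sum]
        have hres : ∀ ν : Fin 4 →₀ ℕ, IsLocalRing.residue R ⟨a (b, ν), (hRa (b, ν)).1⟩ =
            resHom R hR (coeff ν (GEN_fr m' μ' w b)) := by
          intro ν
          obtain ⟨h1, h2⟩ := ValuationSubring.mem_nonunits_iff_exists_mem_maximalIdeal.1
            (hRa (b, ν)).2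
          have h3 : IsLocalRing.residue R ⟨a (b, ν) - algebraMap k (UK 𝒰 k) (a0 (b, ν)), h1⟩ = 0 :=
            (IsLocalRing.residue_eq_zero_iff _).2 h2
          have h4 : (⟨a (b, ν) - algebraMap k (UK 𝒰 k) (a0 (b, ν)), h1⟩ : R) =
              ⟨a (b, ν), (hRa (b, ν)).1⟩ - ⟨algebraMap k (UK 𝒰 k) (a0 (b, ν)), hR _⟩ := rfl
          rw [h4, map_sub, sub_eq_zero] at h3
          rw [h3]
          rfl
        ext ν
        rw [coeff_sum, coeff_map]
        by_cases hν : ν ∈ Finset.finsuppAntidiag (Finset.univ : Finset (Fin 4)) r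
        · rw [Finset.sum_eq_single ν]
          · rw [map_monomial, coeff_monomial, if_pos rfl, hres]
          · intro ν' _ hne
            rw [map_monomial, coeff_monomial, if_neg hne]
          · intro h; exact absurd hν h
        · have hz : coeff ν (GEN_fr m' μ' w b) = 0 := by
            by_contra hne
            apply hν
            have := (mem_homogeneousSubmodule r _).1 (GEN_fr_mem m' μ' w b) hne
            rw [Finset.mem_finsuppAntidiag]
            refine ⟨?_, Finset.subset_univ _⟩
            rw [← this, Finsupp.weight_apply, Finsupp.sum_fintype]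
            · simp
            · simp
          rw [hz, map_zero]
          apply Finset.sum_eq_zero
          intro ν' hν'
          rw [map_monomial, coeff_monomial, if_neg]
          rintro rfl
          exact hν hν'
    | zero => rw [map_zero]; exact Ideal.zero_mem _
    | add f g _ _ h1 h2 => rw [map_add]; exact Ideal.add_mem _ h1 h2
    | smul c f _ h1 =>
      rw [smul_eq_C_mul, map_mul]
      exact Ideal.mul_mem_left _ _ h1

end Pool.H33.G
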