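import Pool.Agent.H33.G.XCA

/-! # PLM: the affine invariant and the MacLane configuration

`maclane`: in the frame of the points `0, 1, 2` (`br α β 0 1 2 ≠ 0`) write
`(1, α_i, β_i) = x_i P_0 + y_i P_1 + w_i P_2`; the conditions give `P_3 = (x3, y3, 0)`, `P_4 = (0, y4, w4)`,
`P_7 = (x7, 0, w7)`, `P_5 = c P_3 + s P_2`, `P_6 = c' P_5 + t P_0` with `c, c' ≠ 0`, and the last three
collinearities give with `a = y3/x3`, `b = w4/y4`, `e = w7/x7` (after scaling `P_5 = (1, a, s)`, `P_6 = (t, a, s)`):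
`s = e + a b`, `e + a b t = 0`, `s = e t`, so `(a b)^2 + (a b) e + e^2 = 0`; and
`numB / denB = (y3/x3) (w4/y4) (x7/w7) = a b / e`. -/

open Module

namespace Pool.H33.G

variable {K : Type} [Field K]

/-- the invariant `numB / denB` does not depend on the coordinates -/
theorem inv_affine {α β α' β' : Fin 8 → K} {x y z w : K} (hα : ∀ i, α i = x * α' i + y)
    (hβ : ∀ i, β i = z * β' i + w) :
    numB α β = (x * z) ^ 3 * numB α' β' ∧ denB α β = (x * z) ^ 3 * denB α' β' := by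
  have hbr : ∀ i j l, br α β i j l = (x * z) * br α' β' i j l := by
    intro i j l
    simp only [br, hα, hβ]
    ring
  constructor
  · simp only [numB, hbr]
    ring
  · simp only [denB, hbr]
    ring

/-- the MacLane configuration forces a primitive cube root of unity -/
theorem maclane {α β : Fin 8 → K} (hc : ∀ b, br α β (blk b 0) (blk b 1) (blk b 2) = 0)
    (hn : ∀ i j l : Fin 8, i ≠ j → i ≠ l → j ≠ l →
      (∀ b, ¬ ((∃ c, i = blk b c) ∧ (∃ c, j = blk b c) ∧ (∃ c, l = blk b c))) → br α β i j l ≠ 0) :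
    numB α β ^ 2 + numB α β * denB α β + denB α β ^ 2 = 0 := by
  have h013 : br α β 0 1 3 = 0 := hc 0
  have h027 : br α β 0 2 7 = 0 := hc 1
  have h056 : br α β 0 5 6 = 0 := hc 2
  have h124 : br α β 1 2 4 = 0 := hc 3
  have h167 : br α β 1 6 7 = 0 := hc 4
  have h235 : br α β 2 3 5 = 0 := hc 5
  have h346 : br α β 3 4 6 = 0 := hc 6
  have h457 : br α β 4 5 7 = 0 := hc 7
  have hX5 : br α β 5 1 2 ≠ 0 :=
    hn 5 1 2 (by decide) (by decide) (by decide) (by decide)
  have hW6 : br α β 0 1 6 ≠ 0 :=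
    hn 0 1 6 (by decide) (by decide) (by decide) (by decide)
  obtain ⟨X, hX⟩ : ∃ X : Fin 8 → K, ∀ i, X i = br α β i 1 2 := ⟨_, fun _ => rfl⟩
  obtain ⟨Y, hY⟩ : ∃ Y : Fin 8 → K, ∀ i, Y i = br α β 0 i 2 := ⟨_, fun _ => rfl⟩
  obtain ⟨W, hW⟩ : ∃ W : Fin 8 → K, ∀ i, W i = br α β 0 1 i := ⟨_, fun _ => rfl⟩
  have hW3 : W 3 = 0 := by rw [hW, h013]
  have hY7 : Y 7 = 0 := by
    rw [hY]
    have h : br α β 0 7 2 = -br α β 0 2 7 := by
      simp only [br]
      ring
    rw [h, h027, neg_zero]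
  have hX4 : X 4 = 0 := by
    rw [hX]
    have h : br α β 4 1 2 = br α β 1 2 4 := by
      simp only [br]
      ring
    rw [h, h124]
  have e235 : X 3 * Y 5 = Y 3 * X 5 := by
    have h : X 3 * Y 5 - Y 3 * X 5 = br α β 0 1 2 * br α β 2 3 5 := by
      simp only [hX, hY, br]
      ring
    rw [h235, mul_zero] at h
    exact sub_eq_zero.1 h
  have e056 : Y 5 * W 6 = W 5 * Y 6 := by
    have h : Y 5 * W 6 - W 5 * Y 6 = br α β 0 1 2 * br α β 0 5 6 := by
      simp only [hW, hY, br]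
      ring
    rw [h056, mul_zero] at h
    exact sub_eq_zero.1 h
  have e167 : X 6 * W 7 = W 6 * X 7 := by
    have h : X 6 * W 7 - W 6 * X 7 = -(br α β 0 1 2 * br α β 1 6 7) := by
      simp only [hW, hX, br]
      ring
    rw [h167, mul_zero, neg_zero] at h
    exact sub_eq_zero.1 h
  have hdet : ∀ i j l, X i * (Y j * W l - W j * Y l) - Y i * (X j * W l - W j * X l) +
      W i * (X j * Y l - Y j * X l) = br α β 0 1 2 ^ 2 * br α β i j l := by
    intro i j l
    simp only [hX, hY, hW, br]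
    ring
  have e346 := hdet 3 4 6
  rw [h346, mul_zero, hW3, hX4] at e346
  have e457 := hdet 4 5 7
  rw [h457, mul_zero, hX4, hY7] at e457
  have hnum : numB α β = -(Y 3 * W 4 * X 7) := by
    simp only [numB, hX, hY, hW, br]
    ring
  have hden : denB α β = -(X 3 * Y 4 * W 7) := by
    simp only [denB, hX, hY, hW, br]
    ring
  rw [hnum, hden]
  have i1 : X 5 * (Y 3 * W 4 * X 7 + X 3 * Y 4 * W 7) = X 3 * Y 4 * X 7 * W 5 := by
    linear_combination (-X 3) * e457 - W 4 * X 7 * e235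
  have i3 : Y 3 * Y 4 * X 7 * W 6 = (Y 3 * W 4 * X 7 + X 3 * Y 4 * W 7) * Y 6 := by
    have hX5' : X 5 ≠ 0 := by
      rw [hX]
      exact hX5
    apply mul_left_cancel₀ hX5'
    linear_combination (-Y 4 * X 7 * W 6) * e235 + X 3 * Y 4 * X 7 * e056 - Y 6 * i1
  have hW6' : W 6 ≠ 0 := by
    rw [hW]
    exact hW6
  apply mul_left_cancel₀ hW6'
  rw [mul_zero]
  linear_combination (W 7 * (Y 3 * W 4 * X 7 + X 3 * Y 4 * W 7)) * e346 -
    (Y 3 * W 4 * (Y 3 * W 4 * X 7 + X 3 * Y 4 * W 7)) * e167 - X 3 * W 4 * W 7 * i3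

end Pool.H33.G
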