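import Pool.Agent.H33.G.PLB
import Pool.Agent.H33.G.PLM

/-! # PLC: the two limits have the same cube root of unity

From `exists_PD` for `R` and `R'`, `PD_unique`, `inv_affine`: `lam = numB α β / denB α β` is the same for
both (`denB` is nonzero as its reduction is nonzero by `num_eq`).  `collinear` and `maclane` (the brackets of
non-collinear triples are nonzero since their reductions are, `br_ne`) give `lam^2 + lam + 1 = 0`, so
`lam = algebraMap k K μ` with `μ ∈ {ω1, ω1^2}` (`X^2+X+1 = (X-ω1)(X-ω1^2)`).  Reducing along `R`: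
`resHom μ = resHom ω1`, so `μ = ω1`; reducing along `R'`: `μ = ω2`. -/

open Module

namespace Pool.H33.G

/-- ring version of `br` -/
def plcB {A : Type} [CommRing A] (a b : Fin 8 → A) (i j l : Fin 8) : A :=
  (a j - a i) * (b l - b i) - (a l - a i) * (b j - b i)

theorem plc_map {A F : Type} [CommRing A] [Field F] (f : A →+* F) (a b : Fin 8 → A)
    (i j l : Fin 8) : br (fun i => f (a i)) (fun i => f (b i)) i j l = f (plcB a b i j l) := by
  simp [br, plcB]

/-- ring version of `numB` -/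
def plcN {A : Type} [CommRing A] (a b : Fin 8 → A) : A :=
  plcB a b 0 3 2 * plcB a b 1 4 0 * plcB a b 7 2 1

/-- ring version of `denB` -/
def plcD {A : Type} [CommRing A] (a b : Fin 8 → A) : A :=
  plcB a b 3 1 2 * plcB a b 4 2 0 * plcB a b 0 7 1

theorem plc_num {A F : Type} [CommRing A] [Field F] (f : A →+* F) (a b : Fin 8 → A) :
    numB (fun i => f (a i)) (fun i => f (b i)) = f (plcN a b) := by
  simp only [numB, plcN, plc_map, map_mul]

theorem plc_den {A F : Type} [CommRing A] [Field F] (f : A →+* F) (a b : Fin 8 → A) :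
    denB (fun i => f (a i)) (fun i => f (b i)) = f (plcD a b) := by
  simp only [denB, plcD, plc_map, map_mul]

theorem plc_reduce {k K : Type} [Field k] [CharZero k] [Field K] [Algebra k K]
    (R : ValuationSubring K) (hR : ∀ c : k, algebraMap k K c ∈ R) {ω1 μ : k}
    (h1 : ω1 ^ 2 + ω1 + 1 = 0) {α β : Fin 8 → R}
    (hα : ∀ i, IsLocalRing.residue R (α i) = al (resHom R hR ω1) i)
    (hβ : ∀ i, IsLocalRing.residue R (β i) = be (resHom R hR ω1) i)
    (h : numB (fun i => (α i : K)) (fun i => (β i : K)) =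
      algebraMap k K μ * denB (fun i => (α i : K)) (fun i => (β i : K))) : ω1 = μ := by
  have hchar : CharZero (IsLocalRing.ResidueField R) :=
    charZero_of_injective_ringHom (resHom R hR).injective
  have hw : (resHom R hR ω1) ^ 2 + resHom R hR ω1 + 1 = 0 := by
    rw [← map_pow, ← map_add, ← map_one (resHom R hR), ← map_add, h1, map_zero]
  obtain ⟨hn, hd⟩ := num_eq hw
  have e1 : al (resHom R hR ω1) = fun i => IsLocalRing.residue R (α i) := by
    funext i; exact (hα i).symm
  have e2 : be (resHom R hR ω1) = fun i => IsLocalRing.residue R (β i) := by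
    funext i; exact (hβ i).symm
  rw [e1, e2, plc_num, plc_den] at hn
  rw [e1, e2, plc_den] at hd
  have hK : plcN α β = (⟨algebraMap k K μ, hR μ⟩ : R) * plcD α β := by
    apply Subtype.ext
    have h2 := plc_num (algebraMap R K) α β
    have h3 := plc_den (algebraMap R K) α β
    show algebraMap R K (plcN α β) = algebraMap k K μ * algebraMap R K (plcD α β)
    rw [← h2, ← h3]
    exact h
  rw [hK, map_mul] at hn
  have h4 : IsLocalRing.residue R ⟨algebraMap k K μ, hR μ⟩ = resHom R hR ω1 :=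
    mul_right_cancel₀ hd hn
  have h5 : resHom R hR μ = resHom R hR ω1 := h4
  exact ((resHom R hR).injective h5).symm

theorem plc_ne {F : Type} [Field F] [CharZero F] (w0 : F) :
    (∀ j : Fin 10, (j = 0 ∨ j = 1) → ∀ i : Fin 9,
      Submodule.span F {sTP w0 i, sTQ w0 i} ≠ Submodule.span F {sP w0 j, sQ w0 j}) := by
  have eP : ∀ i : Fin 9, ¬ (sTP w0 i 0 = 0 ∧ sTP w0 i 1 = 0) := by
    intro i
    refine Fin.lastCases ?_ (fun i => ?_) i
    · rintro ⟨-, h2⟩
      have : sTP w0 (Fin.last 8) 1 = 1 := rfl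
      rw [this] at h2
      exact one_ne_zero h2
    · rintro ⟨h1, -⟩
      have : sTP w0 i.castSucc = ![1, al w0 i, 0, 0] := Fin.lastCases_castSucc ..
      rw [this] at h1
      exact one_ne_zero h1
  have eQ : ∀ i : Fin 9, ¬ (sTQ w0 i 2 = 0 ∧ sTQ w0 i 3 = 0) := by
    intro i
    refine Fin.lastCases ?_ (fun i => ?_) i
    · rintro ⟨-, h2⟩
      have : sTQ w0 (Fin.last 8) 3 = 1 := rfl
      rw [this] at h2
      exact one_ne_zero h2
    · rintro ⟨h1, -⟩
      have : sTQ w0 i.castSucc = ![0, 0, 1, be w0 i] := Fin.lastCases_castSucc ..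
      rw [this] at h1
      exact one_ne_zero h1
  intro j hj i h
  rcases hj with rfl | rfl
  · -- third and fourth coordinates vanish on `L 0`
    have hP : sP w0 0 = ![1, 0, 0, 0] := rfl
    have hQ : sQ w0 0 = ![0, 1, 0, 0] := rfl
    have h1 : ∀ v ∈ Submodule.span F {sP w0 0, sQ w0 0}, v 2 = 0 ∧ v 3 = 0 := by
      intro v hv
      obtain ⟨a, b, rfl⟩ := Submodule.mem_span_pair.1 hv
      rw [hP, hQ]
      simp
    have h2 : sTQ w0 i ∈ Submodule.span F {sP w0 0, sQ w0 0} := by
      rw [← h]; exact Submodule.subset_span (by simp)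
    exact eQ i (h1 _ h2)
  · have hP : sP w0 1 = ![0, 0, 1, 0] := rfl
    have hQ : sQ w0 1 = ![0, 0, 0, 1] := rfl
    have h1 : ∀ v ∈ Submodule.span F {sP w0 1, sQ w0 1}, v 0 = 0 ∧ v 1 = 0 := by
      intro v hv
      obtain ⟨a, b, rfl⟩ := Submodule.mem_span_pair.1 hv
      rw [hP, hQ]
      simp
    have h2 : sTP w0 i ∈ Submodule.span F {sP w0 1, sQ w0 1} := by
      rw [← h]; exact Submodule.subset_span (by simp)
    exact eP i (h1 _ h2)

theorem planar_main {k K : Type} [Field k] [CharZero k] [Field K] [Algebra k K]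
    (R R' : ValuationSubring K) (hR : ∀ c : k, algebraMap k K c ∈ R)
    (hR' : ∀ c : k, algebraMap k K c ∈ R') {T : Fin 9 → Submodule K (Fin 4 → K)}
    {L : Fin 10 → Submodule K (Fin 4 → K)} {ω1 ω2 : k} (h1 : ω1 ^ 2 + ω1 + 1 = 0)
    (h2 : ω2 ^ 2 + ω2 + 1 = 0) (hT : ∀ i, finrank K (T i) = 2) (hL : ∀ j, finrank K (L j) = 2)
    (hTd : ∀ i i', i ≠ i' → T i ⊓ T i' = ⊥) (hLd : ∀ j j', j ≠ j' → L j ⊓ L j' = ⊥)
    (hinc : ∀ i j, (i, j) ∈ Gam → T i ⊓ L j ≠ ⊥)
    (lT : ∀ i, limS R (T i) = Submodule.span _ {sTP (resHom R hR ω1) i, sTQ (resHom R hR ω1) i})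
    (lL : ∀ j, limS R (L j) = Submodule.span _ {sP (resHom R hR ω1) j, sQ (resHom R hR ω1) j})
    (lT' : ∀ i, limS R' (T i) = Submodule.span _ {sTP (resHom R' hR' ω2) i, sTQ (resHom R' hR' ω2) i})
    (lL' : ∀ j, limS R' (L j) = Submodule.span _ {sP (resHom R' hR' ω2) j, sQ (resHom R' hR' ω2) j}) :
    ω1 = ω2 := by
  have hchar : CharZero (IsLocalRing.ResidueField R) :=
    charZero_of_injective_ringHom (resHom R hR).injective
  have hw : (resHom R hR ω1) ^ 2 + resHom R hR ω1 + 1 = 0 := by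
    rw [← map_pow, ← map_add, ← map_one (resHom R hR), ← map_add, h1, map_zero]
  obtain ⟨E, α, β, hPD, hα, hβ⟩ := exists_PD R (resHom R hR ω1) hT hL hTd hinc lT lL
  obtain ⟨E', α', β', hPD', hα', hβ'⟩ := exists_PD R' (resHom R' hR' ω2) hT hL hTd hinc lT' lL'
  have hne : ∀ i : Fin 9, T i ≠ L 0 ∧ T i ≠ L 1 := by
    intro i
    constructor
    · intro h
      apply plc_ne (resHom R hR ω1) 0 (Or.inl rfl) i
      rw [← lT i, ← lL 0, h]
    · intro h
      apply plc_ne (resHom R hR ω1) 1 (Or.inr rfl) i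
      rw [← lT i, ← lL 1, h]
  obtain ⟨x, y, z, w, hx, hz, hxy, hzw⟩ := PD_unique hT hL (hne 8) hTd (fun i => hne i.castSucc)
    hPD hPD'
  obtain ⟨hnum, hden⟩ := inv_affine hxy hzw
  -- the configuration over `K`
  have hc : ∀ b, br (fun i => (α i : K)) (fun i => (β i : K)) (blk b 0) (blk b 1) (blk b 2) = 0 :=
    fun b => collinear hT hL hTd hLd hinc hPD b
  have hred : ∀ i j l, br (al (resHom R hR ω1)) (be (resHom R hR ω1)) i j l ≠ 0 →
      br (fun i => (α i : K)) (fun i => (β i : K)) i j l ≠ 0 := by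
    intro i j l h h0
    apply h
    have e1 : al (resHom R hR ω1) = fun i => IsLocalRing.residue R (α i) := by
      funext i; exact (hα i).symm
    have e2 : be (resHom R hR ω1) = fun i => IsLocalRing.residue R (β i) := by
      funext i; exact (hβ i).symm
    rw [e1, e2, plc_map]
    have h2 := plc_map (algebraMap R K) α β i j l
    have h3 : algebraMap R K (plcB α β i j l) = 0 := by rw [← h2]; exact h0
    have h4 : plcB α β i j l = 0 := by
      have : Function.Injective (algebraMap R K) := Subtype.val_injective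
      exact (map_eq_zero_iff _ this).1 h3
    rw [h4, map_zero]
  have hmac := maclane hc (fun i j l hij hil hjl hb => hred i j l (br_ne hw i j l hij hil hjl hb))
  set N := numB (fun i => (α i : K)) (fun i => (β i : K)) with hN
  set D := denB (fun i => (α i : K)) (fun i => (β i : K)) with hD
  have hK1 : (algebraMap k K ω1) ^ 2 + algebraMap k K ω1 + 1 = 0 := by
    rw [← map_pow, ← map_add, ← map_one (algebraMap k K), ← map_add, h1, map_zero]
  have hfac : (N - algebraMap k K ω1 * D) * (N - algebraMap k K (ω1 ^ 2) * D) = 0 := by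
    rw [map_pow]
    linear_combination hmac + (D * (algebraMap k K ω1 - 1) * D - N * D) * hK1
  obtain ⟨μ, hμ⟩ : ∃ μ : k, N = algebraMap k K μ * D := by
    rcases mul_eq_zero.1 hfac with h | h
    · exact ⟨ω1, sub_eq_zero.1 h⟩
    · exact ⟨ω1 ^ 2, sub_eq_zero.1 h⟩
  have r1 : ω1 = μ := plc_reduce R hR h1 hα hβ hμ
  have hμ' : numB (fun i => (α' i : K)) (fun i => (β' i : K)) =
      algebraMap k K μ * denB (fun i => (α' i : K)) (fun i => (β' i : K)) := by
    have hcne : (x * z) ^ 3 ≠ 0 := pow_ne_zero _ (mul_ne_zero hx hz)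
    apply mul_left_cancel₀ hcne
    rw [← hnum, hμ, hden]
    ring
  have r2 : ω2 = μ := plc_reduce R' hR' h2 hα' hβ' hμ'
  rw [r1, r2]

end Pool.H33.G
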