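import Pool.Agent.H33.G.MCE

/-! # UNI: the lines `T' i`, `L' j` do not depend on the specialisation -/

open MvPolynomial Module

namespace Pool.H33.G

theorem out_unique {K : Type} [Field K] [Infinite K] {R R' : ValuationSubring K} {I : Ideal (A4 K)}
    {ι κ : Type} {C : Cfg (IsLocalRing.ResidueField R) ι κ}
    {C' : Cfg (IsLocalRing.ResidueField R') ι κ} {Γ : Finset (ι × κ)}
    {T T' : ι → Submodule K (Fin 4 → K)} {L L' : κ → Submodule K (Fin 4 → K)}
    (h : Out R I C Γ T L) (h' : Out R' I C' Γ T' L') (hM : C.M = C'.M)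
    (hinj : Function.Injective C.M) (hΓ : ∀ i i', (∀ j, (i, j) ∈ Γ ↔ (i', j) ∈ Γ) → i = i') :
    T = T' ∧ L = L' := by
  have hL : L = L' := by
    funext j
    obtain ⟨j', hj'⟩ := (h'.redL (vI (L j))).1 ((h.redL (vI (L j))).2 ⟨j, rfl⟩)
    have h1 := h.chi j
    have h2 := h'.chi j'
    rw [← hj'] at h2
    have h3 := (Lin_unique h1 h2).2
    have h4 : C.M j = C.M j' := by
      rw [← hM] at h3
      have : (C.M j : ℤ) = C.M j' := by linarith
      exact_mod_cast this
    have h5 : j = j' := hinj h4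
    rw [vI_inj hj', h5]
  refine ⟨?_, hL⟩
  funext i
  obtain ⟨i', hi'⟩ := (h'.redT (vI (T i))).1 ((h.redT (vI (T i))).2 ⟨i, rfl⟩)
  have h1 : T i = T' i' := vI_inj hi'
  have h2 : i = i' := by
    apply hΓ
    intro j
    rw [h.inc, h'.inc, h1, hL]
  rw [h1, h2]

end Pool.H33.G
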