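import Pool.Agent.H33.G.CFG

/-! # XCP: the interpolation polynomials -/

open MvPolynomial Module

namespace Pool.H33.G

variable {F : Type} [Field F] [CharZero F] {ω : F}

omit [CharZero F] in
theorem xcp_prod_monic (x : Fin 8 → F) (M : ℕ) :
    (Polynomial.X ^ (M - 8) * ∏ i, (Polynomial.X - Polynomial.C (x i))).Monic :=
  (Polynomial.monic_X_pow _).mul (Polynomial.monic_prod_of_monic _ _ fun i _ =>
    Polynomial.monic_X_sub_C _)

omit [CharZero F] in
theorem xcp_prod_natDegree (x : Fin 8 → F) {M : ℕ} (hM : 8 ≤ M) :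
    (Polynomial.X ^ (M - 8) * ∏ i, (Polynomial.X - Polynomial.C (x i))).natDegree = M := by
  rw [(Polynomial.monic_X_pow _).natDegree_mul (Polynomial.monic_prod_of_monic _ _ fun i _ =>
    Polynomial.monic_X_sub_C _), Polynomial.natDegree_X_pow,
    Polynomial.natDegree_prod_of_monic _ _ fun i _ => Polynomial.monic_X_sub_C _]
  simp
  omega

omit [CharZero F] in
theorem xcp_interp_degree (x y : Fin 8 → F) :
    (Lagrange.interpolate Finset.univ x y).natDegree < 8 := by
  have h1 : (Lagrange.interpolate Finset.univ x y).natDegree ≤ 7 := by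
    rw [Lagrange.interpolate_apply]
    refine Polynomial.natDegree_sum_le_of_forall_le _ _ fun i _ => ?_
    refine le_trans (Polynomial.natDegree_C_mul_le _ _) ?_
    unfold Lagrange.basis
    refine le_trans (Polynomial.natDegree_prod_le _ _) ?_
    have h2 : ∀ j ∈ Finset.univ.erase i, (Lagrange.basisDivisor (x i) (x j)).natDegree ≤ 1 := by
      intro j _
      unfold Lagrange.basisDivisor
      refine le_trans (Polynomial.natDegree_C_mul_le _ _) ?_
      exact (Polynomial.natDegree_X_sub_C (x j)).le
    refine le_trans (Finset.sum_le_sum h2) ?_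
    simp
  omega

omit [CharZero F] in
theorem xcp_main {x y : Fin 8 → F} {M : ℕ} (hM : 8 ≤ M) :
    (gpoly x y M).natDegree = M ∧ (gpoly x y M).coeff M = 1 := by
  have h1 := xcp_interp_degree x y
  have h2 := xcp_prod_natDegree x hM
  have h3 := xcp_prod_monic x M
  constructor
  · unfold gpoly
    rw [Polynomial.natDegree_add_eq_right_of_natDegree_lt (by rw [h2]; omega)]
    exact h2
  · unfold gpoly
    rw [Polynomial.coeff_add, Polynomial.coeff_eq_zero_of_natDegree_lt (by omega), zero_add]
    have h4 := h3.coeff_natDegree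
    rw [h2] at h4
    exact h4

omit [CharZero F] in
theorem gpoly_natDegree {x y : Fin 8 → F} {M : ℕ} (hM : 8 ≤ M) : (gpoly x y M).natDegree = M :=
  (xcp_main hM).1

omit [CharZero F] in
theorem gpoly_eval {x y : Fin 8 → F} (hx : Function.Injective x) (M : ℕ) (i : Fin 8) :
    (gpoly x y M).eval (x i) = y i := by
  unfold gpoly
  rw [Polynomial.eval_add, Lagrange.eval_interpolate_at_node y hx.injOn (Finset.mem_univ i),
    Polynomial.eval_mul, Polynomial.eval_prod, Finset.prod_eq_zero (Finset.mem_univ i) (by simp)]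
  simp

omit [CharZero F] in
theorem gpoly_coeff {x y : Fin 8 → F} {M : ℕ} (hM : 8 ≤ M) : (gpoly x y M).coeff M = 1 :=
  (xcp_main hM).2

omit [CharZero F] in
theorem hg_eval_one {g : Polynomial F} {M : ℕ} (h : g.natDegree = M) (t : F) :
    MvPolynomial.eval ![1, t] (hg g M) = g.eval t := by
  unfold hg
  rw [map_sum, Polynomial.eval_eq_sum_range, h]
  refine Finset.sum_congr rfl fun i _ => ?_
  simp

omit [CharZero F] in
theorem hg_eval_inf {g : Polynomial F} {M : ℕ} (hM : 0 < M) :
    MvPolynomial.eval ![0, 1] (hg g M) = g.coeff M := by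
  unfold hg
  rw [map_sum, Finset.sum_range_succ, Finset.sum_eq_zero, zero_add]
  · simp
  · intro i hi
    have hi' : M - i ≠ 0 := by have := Finset.mem_range.1 hi; omega
    simp [hi']

end Pool.H33.G
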