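import Pool.Agent.H33.G.XCA
import Pool.Agent.H33.G.XCP

/-! # XCB: the explicit curve is good.  `T i ∋ (1, al i, 0, 0), (0,0,1, be i)`; the node of `T i` and `L 0` is
`P + al i Q` (s = 1, t = al i), normal direction `U + be i V = (0,0,1,be i)`; same for `L (b+2)`:
`P + al i Q = (1, al i, p, q + r al i) = (1, al i, p, p be i)`; for `L 1` exchange `al` and `be`.  The node of `T 8` and
`L j` is `Q j` (s = 0, t = 1), normal direction `V j` (as `gpoly` is monic). -/

open MvPolynomial Module

namespace Pool.H33.G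

section

variable {F : Type} [Field F]

theorem xcb_li4 {F : Type} [Field F] (a b c d : Fin 4 → F)
    (h : ∀ x y z w : F, (∀ l, x * a l + y * b l + z * c l + w * d l = 0) →
      x = 0 ∧ y = 0 ∧ z = 0 ∧ w = 0) :
    LinearIndependent F ![a, b, c, d] := by
  rw [Fintype.linearIndependent_iff]
  intro g hg
  obtain ⟨h0, h1, h2, h3⟩ := h (g 0) (g 1) (g 2) (g 3) (by
    intro l
    have h4 := congrFun hg l
    rw [Fin.sum_univ_four] at h4
    simpa using h4)
  intro i
  fin_cases i
  · exact h0
  · exact h1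
  · exact h2
  · exact h3

theorem xcb_sTP_last (ω : F) : sTP ω (Fin.last 8) = ![0, 1, 0, 0] := by
  unfold sTP; rw [Fin.lastCases_last]
theorem xcb_sTQ_last (ω : F) : sTQ ω (Fin.last 8) = ![0, 0, 0, 1] := by
  unfold sTQ; rw [Fin.lastCases_last]
theorem xcb_sTP_cast (ω : F) (i : Fin 8) : sTP ω i.castSucc = ![1, al ω i, 0, 0] := by
  unfold sTP; rw [Fin.lastCases_castSucc]
theorem xcb_sTQ_cast (ω : F) (i : Fin 8) : sTQ ω i.castSucc = ![0, 0, 1, be ω i] := by
  unfold sTQ; rw [Fin.lastCases_castSucc]

theorem xcb_sP_zero (ω : F) : sP ω 0 = ![1, 0, 0, 0] := rfl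
theorem xcb_sP_one (ω : F) : sP ω 1 = ![0, 0, 1, 0] := rfl
theorem xcb_sP_succ (ω : F) (b : Fin 8) : sP ω b.succ.succ = ![1, 0, pk ω b, qk ω b] := rfl
theorem xcb_sQ_zero (ω : F) : sQ ω 0 = ![0, 1, 0, 0] := rfl
theorem xcb_sQ_one (ω : F) : sQ ω 1 = ![0, 0, 0, 1] := rfl
theorem xcb_sQ_succ (ω : F) (b : Fin 8) : sQ ω b.succ.succ = ![0, 1, 0, rk ω b] := rfl
theorem xcb_sU_zero : (sU 0 : Fin 4 → F) = ![0, 0, 1, 0] := rfl
theorem xcb_sU_one : (sU 1 : Fin 4 → F) = ![1, 0, 0, 0] := rfl
theorem xcb_sU_succ (b : Fin 8) : (sU b.succ.succ : Fin 4 → F) = ![0, 0, 1, 0] := rfl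
theorem xcb_sV_zero : (sV 0 : Fin 4 → F) = ![0, 0, 0, 1] := rfl
theorem xcb_sV_one : (sV 1 : Fin 4 → F) = ![0, 1, 0, 0] := rfl
theorem xcb_sV_succ (b : Fin 8) : (sV b.succ.succ : Fin 4 → F) = ![0, 0, 0, 1] := rfl

end

variable {F : Type} [Field F] [CharZero F] {ω : F}

/-- the three kinds of double lines -/
theorem xcb_cases {p : Fin 10 → Prop} (h0 : p 0) (h1 : p 1) (h2 : ∀ b : Fin 8, p b.succ.succ)
    (j : Fin 10) : p j := by
  induction j using Fin.cases with
  | zero => exact h0
  | succ j =>
    induction j using Fin.cases with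
    | zero => exact h1
    | succ b => exact h2 b

theorem xcb_mem (i b : Fin 8) : (i.castSucc, b.succ.succ) ∈ Gam ↔ ∃ c, i = blk b c := by
  revert i b
  decide

theorem xcb_last_mem (j : Fin 10) : (Fin.last 8, j) ∈ Gam := by
  revert j
  decide

theorem xcb_zero_mem (i : Fin 9) : (i, (0 : Fin 10)) ∈ Gam := by
  revert i
  decide

theorem xcb_one_mem (i : Fin 9) : (i, (1 : Fin 10)) ∈ Gam := by
  revert i
  decide

theorem xcb_sM (j : Fin 10) : 8 ≤ sM j := by
  unfold sM; omega

theorem xcb_succ_ne (b : Fin 8) : b.succ.succ ≠ (1 : Fin 10) := by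
  revert b
  decide

theorem xcb_tind (i : Fin 9) : LinearIndependent F ![sTP ω i, sTQ ω i] := by
  rw [LinearIndependent.pair_iff]
  intro s t hst
  induction i using Fin.lastCases with
  | last =>
    rw [xcb_sTP_last, xcb_sTQ_last] at hst
    have h1 := congrFun hst 1
    have h3 := congrFun hst 3
    simp at h1 h3
    exact ⟨h1, h3⟩
  | cast i =>
    rw [xcb_sTP_cast, xcb_sTQ_cast] at hst
    have h1 := congrFun hst 0
    have h3 := congrFun hst 2
    simp at h1 h3
    exact ⟨h1, h3⟩

theorem xcb_tdis (h : ω ^ 2 + ω + 1 = 0) (i i' : Fin 9) (hii : i ≠ i') :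
    LinearIndependent F ![sTP ω i, sTQ ω i, sTP ω i', sTQ ω i'] := by
  apply xcb_li4
  intro x y z w hl
  have l0 := hl 0
  have l1 := hl 1
  have l2 := hl 2
  have l3 := hl 3
  induction i using Fin.lastCases with
  | last =>
    induction i' using Fin.lastCases with
    | last => exact absurd rfl hii
    | cast i' =>
      rw [xcb_sTP_last, xcb_sTQ_last, xcb_sTP_cast, xcb_sTQ_cast] at l0 l1 l2 l3
      simp at l0 l1 l2 l3
      subst l0
      subst l2
      simp at l1 l3
      exact ⟨l1, l3, rfl, rfl⟩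
  | cast i =>
    induction i' using Fin.lastCases with
    | last =>
      rw [xcb_sTP_last, xcb_sTQ_last, xcb_sTP_cast, xcb_sTQ_cast] at l0 l1 l2 l3
      simp at l0 l1 l2 l3
      subst l0
      subst l2
      simp at l1 l3
      exact ⟨rfl, rfl, l1, l3⟩
    | cast i' =>
      rw [xcb_sTP_cast, xcb_sTQ_cast, xcb_sTP_cast, xcb_sTQ_cast] at l0 l1 l2 l3
      simp at l0 l1 l2 l3
      have hne : i ≠ i' := fun h => hii (congrArg _ h)
      have ha : al ω i - al ω i' ≠ 0 := sub_ne_zero.2 fun h' => hne (al_inj h h')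
      have hb : be ω i - be ω i' ≠ 0 := sub_ne_zero.2 fun h' => hne (be_inj h h')
      have hz : x = -z := by linear_combination l0
      have hw : y = -w := by linear_combination l2
      have hz0 : z = 0 := by
        have : z * (al ω i - al ω i') = 0 := by
          rw [hz] at l1
          linear_combination -l1
        exact (mul_eq_zero.1 this).resolve_right ha
      have hw0 : w = 0 := by
        have : w * (be ω i - be ω i') = 0 := by
          rw [hw] at l3
          linear_combination -l3
        exact (mul_eq_zero.1 this).resolve_right hb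
      rw [hz0] at hz
      rw [hw0] at hw
      exact ⟨by rw [hz, neg_zero], by rw [hw, neg_zero], hz0, hw0⟩

theorem xcb_lind (j : Fin 10) : LinearIndependent F ![sP ω j, sQ ω j, sU j, sV j] := by
  apply xcb_li4
  intro x y z w hl
  have l0 := hl 0
  have l1 := hl 1
  have l2 := hl 2
  have l3 := hl 3
  clear hl
  revert l0 l1 l2 l3
  induction j using xcb_cases with
  | h0 =>
    rw [xcb_sP_zero, xcb_sQ_zero, xcb_sU_zero, xcb_sV_zero]
    intro l0 l1 l2 l3
    simp at l0 l1 l2 l3
    exact ⟨l0, l1, l2, l3⟩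
  | h1 =>
    rw [xcb_sP_one, xcb_sQ_one, xcb_sU_one, xcb_sV_one]
    intro l0 l1 l2 l3
    simp at l0 l1 l2 l3
    exact ⟨l2, l3, l0, l1⟩
  | h2 b =>
    rw [xcb_sP_succ, xcb_sQ_succ, xcb_sU_succ, xcb_sV_succ]
    intro l0 l1 l2 l3
    simp at l0 l1 l2 l3
    subst l0
    subst l1
    simp at l2 l3
    exact ⟨rfl, rfl, l2, l3⟩

theorem xcb_ldis (h : ω ^ 2 + ω + 1 = 0) (j j' : Fin 10) (hjj : j ≠ j') :
    LinearIndependent F ![sP ω j, sQ ω j, sP ω j', sQ ω j'] := by
  apply xcb_li4
  intro x y z w hl
  have l0 := hl 0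
  have l1 := hl 1
  have l2 := hl 2
  have l3 := hl 3
  clear hl
  revert l0 l1 l2 l3 hjj
  induction j using xcb_cases with
  | h0 =>
    induction j' using xcb_cases with
    | h0 => exact fun h => absurd rfl h
    | h1 =>
      rw [xcb_sP_zero, xcb_sQ_zero, xcb_sP_one, xcb_sQ_one]
      intro _ l0 l1 l2 l3
      simp at l0 l1 l2 l3
      exact ⟨l0, l1, l2, l3⟩
    | h2 b =>
      rw [xcb_sP_zero, xcb_sQ_zero, xcb_sP_succ, xcb_sQ_succ]
      intro _ l0 l1 l2 l3
      simp at l0 l1 l2 l3
      have hz : z = 0 := l2.resolve_right (pk_ne h b)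
      subst hz
      simp at l0 l3
      have hw : w = 0 := l3.resolve_right (rk_ne h b)
      subst hw
      simp at l1
      exact ⟨l0, l1, rfl, rfl⟩
  | h1 =>
    induction j' using xcb_cases with
    | h0 =>
      rw [xcb_sP_zero, xcb_sQ_zero, xcb_sP_one, xcb_sQ_one]
      intro _ l0 l1 l2 l3
      simp at l0 l1 l2 l3
      exact ⟨l2, l3, l0, l1⟩
    | h1 => exact fun h => absurd rfl h
    | h2 b =>
      rw [xcb_sP_one, xcb_sQ_one, xcb_sP_succ, xcb_sQ_succ]
      intro _ l0 l1 l2 l3
      simp at l0 l1 l2 l3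
      subst l0
      subst l1
      simp at l2 l3
      exact ⟨l2, l3, rfl, rfl⟩
  | h2 b =>
    induction j' using xcb_cases with
    | h0 =>
      rw [xcb_sP_zero, xcb_sQ_zero, xcb_sP_succ, xcb_sQ_succ]
      intro _ l0 l1 l2 l3
      simp at l0 l1 l2 l3
      have hz : x = 0 := l2.resolve_right (pk_ne h b)
      subst hz
      simp at l0 l3
      have hw : y = 0 := l3.resolve_right (rk_ne h b)
      subst hw
      simp at l1
      exact ⟨rfl, rfl, l0, l1⟩
    | h1 =>
      rw [xcb_sP_one, xcb_sQ_one, xcb_sP_succ, xcb_sQ_succ]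
      intro _ l0 l1 l2 l3
      simp at l0 l1 l2 l3
      subst l0
      subst l1
      simp at l2 l3
      exact ⟨rfl, rfl, l2, l3⟩
    | h2 b' =>
      rw [xcb_sP_succ, xcb_sQ_succ, xcb_sP_succ, xcb_sQ_succ]
      intro hjj l0 l1 l2 l3
      simp at l0 l1 l2 l3
      have hne : b ≠ b' := fun h => hjj (by rw [h])
      have ha : pk ω b - pk ω b' ≠ 0 := sub_ne_zero.2 fun h' => hne (pk_inj h h')
      have hb : rk ω b - rk ω b' ≠ 0 := sub_ne_zero.2 fun h' => hne (rk_inj h h')
      have hz : x = -z := by linear_combination l0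
      have hw : y = -w := by linear_combination l1
      have hz0 : z = 0 := by
        have : z * (pk ω b - pk ω b') = 0 := by
          rw [hz] at l2
          linear_combination -l2
        exact (mul_eq_zero.1 this).resolve_right ha
      rw [hz0, neg_zero] at hz
      have hw0 : w = 0 := by
        have : w * (rk ω b - rk ω b') = 0 := by
          rw [hz, hz0, hw] at l3
          linear_combination -l3
        exact (mul_eq_zero.1 this).resolve_right hb
      rw [hw0] at hw
      exact ⟨hz, by rw [hw, neg_zero], hz0, hw0⟩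

theorem xcb_non (h : ω ^ 2 + ω + 1 = 0) (i : Fin 9) (j : Fin 10) (hij : (i, j) ∉ Gam) :
    LinearIndependent F ![sTP ω i, sTQ ω i, sP ω j, sQ ω j] := by
  apply xcb_li4
  intro x y z w hl
  have l0 := hl 0
  have l1 := hl 1
  have l2 := hl 2
  have l3 := hl 3
  clear hl
  revert l0 l1 l2 l3 hij
  induction i using Fin.lastCases with
  | last => exact fun h => absurd (xcb_last_mem j) h
  | cast i =>
    induction j using xcb_cases with
    | h0 => exact fun h => absurd (xcb_zero_mem _) h
    | h1 => exact fun h => absurd (xcb_one_mem _) h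
    | h2 b =>
      rw [xcb_sTP_cast, xcb_sTQ_cast, xcb_sP_succ, xcb_sQ_succ]
      intro hij l0 l1 l2 l3
      simp at l0 l1 l2 l3
      have h1 : pk ω b * be ω i - (qk ω b + rk ω b * al ω i) ≠ 0 := by
        refine sub_ne_zero.2 (off_line h b i ?_)
        intro c hc
        exact hij ((xcb_mem i b).2 ⟨c, hc⟩)
      have hx : x = -z := by linear_combination l0
      have hw : w = z * al ω i := by rw [hx] at l1; linear_combination l1
      have hy : y = -(z * pk ω b) := by linear_combination l2
      have hz0 : z = 0 := by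
        have : z * (pk ω b * be ω i - (qk ω b + rk ω b * al ω i)) = 0 := by
          rw [hy, hw] at l3
          linear_combination -l3
        exact (mul_eq_zero.1 this).resolve_right h1
      rw [hx, hy, hw, hz0]
      simp

theorem curve_good (h : ω ^ 2 + ω + 1 = 0) : (curve ω).Good Gam := by
  have hginf : ∀ j, MvPolynomial.eval ![0, 1] (hg (sg ω j) (sM j)) = 1 := by
    intro j
    rw [hg_eval_inf (by have := xcb_sM j; omega)]
    unfold sg
    split_ifs
    · exact gpoly_coeff (xcb_sM j)
    · exact gpoly_coeff (xcb_sM j)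
  have hdeg : ∀ j, (sg ω j).natDegree = sM j := by
    intro j
    unfold sg
    split_ifs
    · exact gpoly_natDegree (xcb_sM j)
    · exact gpoly_natDegree (xcb_sM j)
  have hev : ∀ j, j ≠ 1 → ∀ i, MvPolynomial.eval ![1, al ω i] (hg (sg ω j) (sM j)) = be ω i := by
    intro j hj i
    rw [hg_eval_one (hdeg j)]
    unfold sg
    rw [if_neg hj]
    exact gpoly_eval (al_inj h) _ i
  have hev1 : ∀ i, MvPolynomial.eval ![1, be ω i] (hg (sg ω 1) (sM 1)) = al ω i := by
    intro i
    rw [hg_eval_one (hdeg 1)]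
    unfold sg
    rw [if_pos rfl]
    exact gpoly_eval (be_inj h) _ i
  have hpow0 : ∀ j, (0 : F) ^ sM j = 0 := by
    intro j
    exact zero_pow (by have := xcb_sM j; omega)
  refine ⟨xcb_tind, xcb_tdis h, xcb_lind, xcb_ldis h, ?_, hdeg, xcb_non h, ?_⟩
  · intro j
    change 0 < sM j
    have := xcb_sM j
    omega
  · intro i j hij
    change ∃ s t : F, (s ≠ 0 ∨ t ≠ 0) ∧
      s • sP ω j + t • sQ ω j ∈ Submodule.span F {sTP ω i, sTQ ω i} ∧
      s ^ sM j • sU j + (MvPolynomial.eval ![s, t] (hg (sg ω j) (sM j))) • sV j ∈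
      Submodule.span F {sP ω j, sQ ω j, sTP ω i, sTQ ω i}
    induction i using Fin.lastCases with
    | last =>
      refine ⟨0, 1, Or.inr one_ne_zero, ?_, ?_⟩
      · rw [zero_smul, one_smul, zero_add, xcb_sTP_last, xcb_sTQ_last]
        induction j using xcb_cases with
        | h0 => exact Submodule.subset_span (Or.inl rfl)
        | h1 => exact Submodule.subset_span (Or.inr rfl)
        | h2 b =>
          rw [Submodule.mem_span_pair, xcb_sQ_succ]
          refine ⟨1, rk ω b, ?_⟩
          funext l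
          fin_cases l <;> simp
      · rw [hpow0, zero_smul, zero_add, hginf, one_smul, xcb_sTP_last, xcb_sTQ_last]
        induction j using xcb_cases with
        | h0 => exact Submodule.subset_span (Or.inr (Or.inr (Or.inr rfl)))
        | h1 => exact Submodule.subset_span (Or.inr (Or.inr (Or.inl rfl)))
        | h2 b => exact Submodule.subset_span (Or.inr (Or.inr (Or.inr rfl)))
    | cast i =>
      rw [xcb_sTP_cast, xcb_sTQ_cast]
      revert hij
      induction j using xcb_cases with
      | h0 =>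
        intro _
        refine ⟨1, al ω i, Or.inl one_ne_zero, ?_, ?_⟩
        · refine Submodule.subset_span (Or.inl ?_)
          rw [xcb_sP_zero, xcb_sQ_zero]
          funext l
          fin_cases l <;> simp
        · refine Submodule.subset_span (Or.inr (Or.inr (Or.inr ?_)))
          rw [one_pow, hev 0 (by decide), xcb_sU_zero, xcb_sV_zero]
          change _ = (![0, 0, 1, be ω i] : Fin 4 → F)
          funext l
          fin_cases l <;> simp
      | h1 =>
        intro _
        refine ⟨1, be ω i, Or.inl one_ne_zero, ?_, ?_⟩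
        · refine Submodule.subset_span (Or.inr ?_)
          rw [xcb_sP_one, xcb_sQ_one]
          change _ = (![0, 0, 1, be ω i] : Fin 4 → F)
          funext l
          fin_cases l <;> simp
        · refine Submodule.subset_span (Or.inr (Or.inr (Or.inl ?_)))
          rw [one_pow, hev1, xcb_sU_one, xcb_sV_one]
          funext l
          fin_cases l <;> simp
      | h2 b =>
        intro hij
        obtain ⟨c, hc⟩ := (xcb_mem i b).1 hij
        have hon := on_line h b c
        rw [← hc] at hon
        refine ⟨1, al ω i, Or.inl one_ne_zero, ?_, ?_⟩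
        · rw [Submodule.mem_span_pair, xcb_sP_succ, xcb_sQ_succ]
          refine ⟨1, pk ω b, ?_⟩
          funext l
          fin_cases l
          · simp
          · simp
          · simp
          · simp
            rw [hon]
            ring
        · refine Submodule.subset_span (Or.inr (Or.inr (Or.inr ?_)))
          rw [one_pow, hev _ (xcb_succ_ne b), xcb_sU_succ, xcb_sV_succ]
          change _ = (![0, 0, 1, be ω i] : Fin 4 → F)
          funext l
          fin_cases l <;> simp

theorem xcb_al_map {F' : Type} [Field F'] (φ : F →+* F') (i : Fin 8) :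
    φ (al ω i) = al (φ ω) i := by
  unfold al
  rw [map_div₀]
  congr 1
  · fin_cases i <;> simp [z1, map_ofNat]
  · fin_cases i <;> simp [z0, map_ofNat]

theorem xcb_be_map {F' : Type} [Field F'] (φ : F →+* F') (i : Fin 8) :
    φ (be ω i) = be (φ ω) i := by
  unfold be
  rw [map_div₀]
  congr 1
  · fin_cases i <;> simp [z2, map_ofNat]
  · fin_cases i <;> simp [z0, map_ofNat]

theorem xcb_pk_map {F' : Type} [Field F'] (φ : F →+* F') (i : Fin 8) :
    φ (pk ω i) = pk (φ ω) i := by
  fin_cases i <;> simp [pk, map_ofNat]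

theorem xcb_qk_map {F' : Type} [Field F'] (φ : F →+* F') (i : Fin 8) :
    φ (qk ω i) = qk (φ ω) i := by
  fin_cases i <;> simp [qk, map_ofNat]

theorem xcb_rk_map {F' : Type} [Field F'] (φ : F →+* F') (i : Fin 8) :
    φ (rk ω i) = rk (φ ω) i := by
  fin_cases i <;> simp [rk, map_ofNat]

theorem curve_map {F' : Type} [Field F'] (φ : F →+* F') :
    ((curve ω).mapC φ).TP = sTP (φ ω) ∧ ((curve ω).mapC φ).TQ = sTQ (φ ω) ∧
    ((curve ω).mapC φ).P = sP (φ ω) ∧ ((curve ω).mapC φ).Q = sQ (φ ω) := by
  refine ⟨?_, ?_, ?_, ?_⟩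
  · funext i l
    change φ (sTP ω i l) = sTP (φ ω) i l
    unfold sTP
    induction i using Fin.lastCases with
    | last =>
      rw [Fin.lastCases_last, Fin.lastCases_last]
      fin_cases l <;> simp
    | cast i =>
      rw [Fin.lastCases_castSucc, Fin.lastCases_castSucc]
      fin_cases l <;> simp [xcb_al_map]
  · funext i l
    change φ (sTQ ω i l) = sTQ (φ ω) i l
    unfold sTQ
    induction i using Fin.lastCases with
    | last =>
      rw [Fin.lastCases_last, Fin.lastCases_last]
      fin_cases l <;> simp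
    | cast i =>
      rw [Fin.lastCases_castSucc, Fin.lastCases_castSucc]
      fin_cases l <;> simp [xcb_be_map]
  · funext j l
    change φ (sP ω j l) = sP (φ ω) j l
    induction j using xcb_cases with
    | h0 => fin_cases l <;> simp [sP]
    | h1 =>
      change φ ((![0, 0, 1, 0] : Fin 4 → F) l) = (![0, 0, 1, 0] : Fin 4 → F') l
      fin_cases l <;> simp
    | h2 b =>
      change φ ((![1, 0, pk ω b, qk ω b] : Fin 4 → F) l) =
        (![1, 0, pk (φ ω) b, qk (φ ω) b] : Fin 4 → F') l
      fin_cases l <;> simp [xcb_pk_map, xcb_qk_map]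
  · funext j l
    change φ (sQ ω j l) = sQ (φ ω) j l
    induction j using xcb_cases with
    | h0 => fin_cases l <;> simp [sQ]
    | h1 =>
      change φ ((![0, 0, 0, 1] : Fin 4 → F) l) = (![0, 0, 0, 1] : Fin 4 → F') l
      fin_cases l <;> simp
    | h2 b =>
      change φ ((![0, 1, 0, rk ω b] : Fin 4 → F) l) =
        (![0, 1, 0, rk (φ ω) b] : Fin 4 → F') l
      fin_cases l <;> simp [xcb_rk_map]

theorem Gam_distinct (i i' : Fin 9) (h : ∀ j, (i, j) ∈ Gam ↔ (i', j) ∈ Gam) : i = i' := by
  revert i i'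
  decide

end Pool.H33.G
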