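import Pool.Agent.H33.G.ACT
import Pool.Agent.H33.G.UNI
import Pool.Agent.H33.G.GEN
import Pool.Agent.H33.G.PLC
import Pool.Agent.H33.G.XCB

/-! # FIN: assembly -/

open MvPolynomial Module

namespace Pool.H33.G

theorem hf_eq_of_part_eq {F : Type} [Field F] {I J : Ideal (A4 F)} {n : ℕ}
    (h : part I n = part J n) : hf I n = hf J n := by
  unfold hf; rw [h]

theorem Lin_curve {k : Type} [Field k] [CharZero k] {ω : k} (hω : ω ^ 2 + ω + 1 = 0) :
    Lin (curve ω).ideal 29 1484 := by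
  have h := exact_hf (curve_good hω)
  have h1 : chi0 (curve ω).M Gam = 1484 := chi0_curve
  rw [h1] at h
  simpa using h

/-- the point of the Hilbert scheme given by the explicit curve, for large `r` -/
theorem exists_point {k : Type} [Field k] [CharZero k] {ω : k} (hω : ω ^ 2 + ω + 1 = 0) :
    ∃ r0 : ℕ, ∀ r ≥ r0, ∃ w : HilbPt k 29 (-1483) r, w.1 = part (curve ω).ideal r := by
  obtain ⟨r1, h1⟩ := part_gen (Good.HI_ideal (C := curve ω))
  obtain ⟨n0, h2⟩ := Lin_curve hω
  refine ⟨max r1 n0, fun r hr => ⟨⟨part (curve ω).ideal r, inf_le_right, fun n hn => ?_⟩, rfl⟩⟩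
  rw [hf_eq_of_part_eq (h1 r (le_trans (le_max_left _ _) hr) n hn),
    h2 n (le_trans (le_trans (le_max_right _ _) hr) hn)]
  push_cast
  ring

/-- limits: the generic curve specialises to the explicit curve -/
theorem sit_of_point {k : Type} [Field k] [CharZero k] {r : ℕ} {ω : k}
    (hω : ω ^ 2 + ω + 1 = 0) {w : HilbPt k 29 (-1483) r} {K : Type} [Field K]
    {I : Ideal (A4 K)} (hI : HI I) (hIf : ∀ n ≥ r, hf I n = (29 : ℕ) * n + 1 - (-1483))
    (R : ValuationSubring K) (φ : k →+* IsLocalRing.ResidueField R)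
    {W : Submodule k (A4 k)} (hW : W = part (curve ω).ideal r)
    (hw : ∀ n ≥ r, hf (Ideal.span (W : Set (A4 k))) n = (29 : ℕ) * n + 1 - (-1483))
    (hlim : ∀ f ∈ W, MvPolynomial.map φ f ∈ limI R I) :
    Sit R I ((curve ω).mapC φ) Gam := by
  have hgood : ((curve ω).mapC φ).Good Gam := mapC_good φ (curve_good hω)
  have hchar : CharZero (IsLocalRing.ResidueField R) := charZero_of_injective_ringHom φ.injective
  have hinf : Infinite (IsLocalRing.ResidueField R) := inferInstance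
  have hex := exact_hf hgood
  have hchi : chi0 ((curve ω).mapC φ).M Gam = 1484 := chi0_curve
  rw [hchi] at hex
  refine ⟨hI, hgood, ?_, ?_, ?_⟩
  · -- Lle
    let W' : Submodule (IsLocalRing.ResidueField R) (A4 (IsLocalRing.ResidueField R)) :=
      Submodule.span _ (MvPolynomial.map φ '' (W : Set (A4 k)))
    have hWF : W ≤ Fm k r := by rw [hW]; exact inf_le_right
    have h1 : Ideal.span (W' : Set (A4 _)) ≤ limI R I := by
      rw [Ideal.span_le]
      intro f hf'
      have hsub : W' ≤ (limI R I).restrictScalars _ := by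
        refine Submodule.span_le.2 ?_
        rintro _ ⟨f, hf', rfl⟩
        exact hlim f hf'
      exact hsub hf'
    have h2 : Ideal.span (W' : Set (A4 _)) ≤ ((curve ω).mapC φ).ideal := by
      rw [Ideal.span_le]
      intro f hf'
      have hsub : W' ≤ (((curve ω).mapC φ).ideal).restrictScalars _ := by
        refine Submodule.span_le.2 ?_
        rintro _ ⟨f, hf', rfl⟩
        have : f ∈ (curve ω).ideal := by
          rw [hW] at hf'
          exact hf'.1
        exact mapC_ideal φ (curve ω) (Ideal.mem_map_of_mem _ this)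
      exact hsub hf'
    have h3 : ∀ n ≥ r, hf (Ideal.span (W' : Set (A4 (IsLocalRing.ResidueField R)))) n =
        (29 : ℕ) * n + 1 - (-1483) := by
      intro n hn
      rw [← hw n hn]
      exact hf_span_map φ W hWF
    obtain ⟨n0, hn0⟩ := hex
    refine ⟨max r n0, fun n hn => ?_⟩
    have hn1 : n ≥ r := le_trans (le_max_left _ _) hn
    have hn2 : n ≥ n0 := le_trans (le_max_right _ _) hn
    have e1 : part (Ideal.span (W' : Set (A4 _))) n = part ((curve ω).mapC φ).ideal n := by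
      refine part_eq_of_hf_eq (part_mono h2 n) ?_
      rw [h3 n hn1, hn0 n hn2]
      simp
      ring
    rw [← e1]
    exact part_mono h1 n
  · rw [hchi]
    refine ⟨r, fun n hn => ?_⟩
    rw [hIf n hn]
    simp
    ring
  · intro j
    rw [card_Gam]
    show 3 * 50 + 2 ≤ sM j
    unfold sM
    omega

theorem not_fixed {k : Type} [Field k] [CharZero k] [IsAlgClosed k] {r : ℕ} {ω : k}
    (hω : ω ^ 2 + ω + 1 = 0) (w : HilbPt k 29 (-1483) r) (hw : w.1 = part (curve ω).ideal r)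
    {H : Set (HilbPt k 29 (-1483) r)} (hH : IsIrreducible H) (hwH : w ∈ H) (σ : k ≃+* k)
    (hσ : σ ω ≠ ω) : galAct σ w ∉ H := by
  intro hσw
  obtain ⟨K, _, _, _, _, I, hI, hIf, hpl⟩ := generic_point H hH
  obtain ⟨R, hR, hlim⟩ := hpl w hwH
  obtain ⟨R', hR', hlim'⟩ := hpl (galAct σ w) hσw
  have hIf' : ∀ n ≥ r, hf I n = (29 : ℕ) * n + 1 - (-1483) := fun n hn => hIf n hn
  have S : Sit R I ((curve ω).mapC (resHom R hR)) Gam :=
    sit_of_point hω (w := w) hI hIf' R (resHom R hR) hw (fun n hn => w.2.2 n hn) hlim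
  have S' : Sit R' I ((curve ω).mapC ((resHom R' hR').comp (σ : k →+* k))) Gam := by
    refine sit_of_point hω (w := w) hI hIf' R' _ hw (fun n hn => w.2.2 n hn) ?_
    intro f hf'
    have h1 : MvPolynomial.map (σ : k →+* k) f ∈ (galAct σ w).1 := Submodule.subset_span ⟨f, hf', rfl⟩
    have h2 := hlim' _ h1
    rwa [MvPolynomial.map_map] at h2
  have hchar : CharZero (IsLocalRing.ResidueField R) :=
    charZero_of_injective_ringHom (resHom R hR).injective
  have hchar' : CharZero (IsLocalRing.ResidueField R') :=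
    charZero_of_injective_ringHom (resHom R' hR').injective
  obtain ⟨T, L, O⟩ := mc_main S
  obtain ⟨T', L', O'⟩ := mc_main S'
  have hMinj : Function.Injective ((curve ω).mapC (resHom R hR)).M := by
    intro a b hab
    have : sM a = sM b := hab
    unfold sM at this
    apply Fin.ext; omega
  obtain ⟨rfl, rfl⟩ := out_unique O O' rfl hMinj Gam_distinct
  obtain ⟨m1, m2, m3, m4⟩ := curve_map (ω := ω) (resHom R hR)
  obtain ⟨m1', m2', m3', m4'⟩ := curve_map (ω := ω) ((resHom R' hR').comp (σ : k →+* k))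
  have lT := O.lT
  have lL := O.lL
  have lT' := O'.lT
  have lL' := O'.lL
  rw [m1, m2] at lT
  rw [m3, m4] at lL
  rw [m1', m2'] at lT'
  rw [m3', m4'] at lL'
  have hω' : (σ ω) ^ 2 + σ ω + 1 = 0 := by
    rw [← map_pow, ← map_add, ← map_one σ, ← map_add, hω, map_zero]
  -- disjointness over `K`
  have hg := S.good
  have key : ∀ {v1 v2 v3 v4 : Fin 4 → IsLocalRing.ResidueField R},
      LinearIndependent (IsLocalRing.ResidueField R) ![v1, v2, v3, v4] →
      Submodule.span (IsLocalRing.ResidueField R) {v1, v2} ⊓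
        Submodule.span (IsLocalRing.ResidueField R) {v3, v4} = ⊥ := by
    intro v1 v2 v3 v4 h
    rw [eq_bot_iff]
    rintro x ⟨hx1, hx2⟩
    obtain ⟨a, b, rfl⟩ := Submodule.mem_span_pair.1 hx1
    obtain ⟨c, e, hce⟩ := Submodule.mem_span_pair.1 hx2
    have hli := Fintype.linearIndependent_iff.1 h ![a, b, -c, -e] (by
      simp [Fin.sum_univ_succ]
      have : a • v1 + b • v2 - (c • v3 + e • v4) = 0 := by rw [hce, sub_self]
      rw [← this]; abel)
    have ha := hli 0
    have hb := hli 1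
    simp at ha hb
    rw [ha, hb]
    simp
  have hTd : ∀ i i', i ≠ i' → T i ⊓ T i' = ⊥ := by
    intro i i' hii
    apply inf_eq_bot_of_limS R
    rw [O.lT, O.lT]
    exact key (hg.tdis i i' hii)
  have hLd : ∀ j j', j ≠ j' → L j ⊓ L j' = ⊥ := by
    intro i i' hii
    apply inf_eq_bot_of_limS R
    rw [O.lL, O.lL]
    exact key (hg.ldis i i' hii)
  exact hσ (planar_main R R' hR hR' hω hω' O.fT O.fL hTd hLd (fun i j h => (O.inc i j).1 h)
    lT lL lT' lL').symm

/-- there is a primitive cube root of unity and an automorphism moving it -/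
theorem exists_omega : ∃ ω : AlgebraicClosure ℚ, ω ^ 2 + ω + 1 = 0 ∧
    ∃ σ : AlgebraicClosure ℚ ≃ₐ[ℚ] AlgebraicClosure ℚ, σ ω ≠ ω := by
  obtain ⟨ω, hω⟩ : ∃ ω : AlgebraicClosure ℚ, ω ^ 2 + ω + 1 = 0 := by
    obtain ⟨ω, h⟩ := IsAlgClosed.exists_root
      (Polynomial.X ^ 2 + Polynomial.X + 1 : Polynomial (AlgebraicClosure ℚ)) (by
        have : (Polynomial.X ^ 2 + Polynomial.X + 1 : Polynomial (AlgebraicClosure ℚ)).degree = 2 := by
          compute_degree!
        rw [this]; norm_num)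
    exact ⟨ω, by simpa [Polynomial.IsRoot] using h⟩
  refine ⟨ω, hω, ?_⟩
  haveI hal : Algebra.IsAlgebraic ℚ (AlgebraicClosure ℚ) := AlgebraicClosure.isAlgebraic ℚ
  haveI : IsAlgClosure ℚ (AlgebraicClosure ℚ) := ⟨inferInstance, hal⟩
  haveI : Normal ℚ (AlgebraicClosure ℚ) := IsAlgClosure.normal ℚ (AlgebraicClosure ℚ)
  haveI : IsGalois ℚ (AlgebraicClosure ℚ) := ⟨⟩
  by_contra hcon
  have hcon' : ∀ σ : AlgebraicClosure ℚ ≃ₐ[ℚ] AlgebraicClosure ℚ, σ ω = ω := by
    intro σ
    by_contra h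
    exact hcon ⟨σ, h⟩
  have hmem : ω ∈ (⊥ : IntermediateField ℚ (AlgebraicClosure ℚ)) :=
    (InfiniteGalois.mem_bot_iff_fixed ω).2 hcon'
  rw [IntermediateField.mem_bot] at hmem
  obtain ⟨q, rfl⟩ := hmem
  have h1 : algebraMap ℚ (AlgebraicClosure ℚ) (q ^ 2 + q + 1) = 0 := by simpa using hω
  have h2 : q ^ 2 + q + 1 = 0 := by
    exact (map_eq_zero_iff _ (algebraMap ℚ (AlgebraicClosure ℚ)).injective).1 h1
  nlinarith [sq_nonneg (2 * q + 1)]

/-- The final statement -/
theorem final : ∃ ω : AlgebraicClosure ℚ, ω ^ 2 + ω + 1 = 0 ∧ ∃ r₀ : ℕ, ∀ r ≥ r₀,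
    ∃ w : HilbPt (AlgebraicClosure ℚ) 29 (-1483) r, w.1 = part (curve ω).ideal r ∧
      (∃ H ∈ irreducibleComponents (HilbPt (AlgebraicClosure ℚ) 29 (-1483) r), w ∈ H) ∧
      (∃ σ : AlgebraicClosure ℚ ≃ₐ[ℚ] AlgebraicClosure ℚ, σ ω ≠ ω) ∧
      ∀ H ∈ irreducibleComponents (HilbPt (AlgebraicClosure ℚ) 29 (-1483) r), w ∈ H →
        ∀ σ : AlgebraicClosure ℚ ≃ₐ[ℚ] AlgebraicClosure ℚ, σ ω ≠ ω →
          galAct σ.toRingEquiv '' H ∈ irreducibleComponents (HilbPt (AlgebraicClosure ℚ) 29 (-1483) r) ∧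
          galAct σ.toRingEquiv '' H ≠ H := by
  obtain ⟨ω, hω, hσ⟩ := exists_omega
  obtain ⟨r0, hr0⟩ := exists_point hω
  refine ⟨ω, hω, r0, fun r hr => ?_⟩
  obtain ⟨w, hw⟩ := hr0 r hr
  refine ⟨w, hw, ⟨irreducibleComponent w, irreducibleComponent_mem_irreducibleComponents w,
    mem_irreducibleComponent⟩, hσ, fun H hH hwH σ hσω => ⟨galAct_component _ hH, fun heq => ?_⟩⟩
  have hirr : IsIrreducible H := hH.1
  exact not_fixed hω w hw hirr hwH σ.toRingEquiv hσω (heq ▸ Set.mem_image_of_mem _ hwH)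

end Pool.H33.G
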