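import Pool.Agent.H33.G.HF

/-! # GNA (part of GEN): the generic point of an irreducible set of points of the Hilbert scheme

`exists_ultra`: the sets `{S | ∃ U open, (U ∩ H).Nonempty ∧ U ∩ H ⊆ S}` form a proper filter as `H` is
irreducible; take an ultrafilter finer than it.
`exists_frame`: every `w` has an echelon basis `v` for some pivot monomials `μ`: choose a basis
(`finrank`), the coefficient matrix has full row rank, choose `m` independent columns, multiply by the inverse.
`generic_point`: `K = UK 𝒰 k` for `𝒰` from `exists_ultra`, index type `X = HilbPt k d g r`.  Take any `w0 ∈ H` and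
`μ, v0` from `exists_frame`; `basicOpen m μ 1 ∋ w0` is in `𝒰`; for `x` in it let `v x` be the frame (else `0`).
`I = Ideal.span (range (germP 𝒰 r (v · a)))`, `germ_hf`.  For another `w ∈ H` with frame `μ', v0'` and
chart frames `v'`, the two spans agree by `germ_span`.  The hypothesis of `exists_valuation` for
`a = coefficients of germP 𝒰 r (v' · a)`, `a0 = coefficients of v0'`: if `aeval a φ = 0` then `φ` vanishes at the
coefficients of `v' x` for almost all `x`; if `eval a0 φ ≠ 0` then `w ∈ basicOpen m μ' φ`, which is then in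
`𝒰`, and the frame is unique, contradiction.  Finally for `f ∈ w.1`, `f = Σ c_a v0' a`, and
`Σ c_a germP (v' · a)` is an element of `I` with coefficients in `R` and reduction `map (resHom R hR) f`. -/

open MvPolynomial Module Filter

namespace Pool.H33.G

variable {k : Type} [Field k] {d : ℕ} {g : ℤ} {r : ℕ}

/-- the filter of dense open subsets of an irreducible set -/
def GNA_filter {X : Type} [TopologicalSpace X] (H : Set X) (hH : IsIrreducible H) : Filter X where
  sets := {S | ∃ U, IsOpen U ∧ (U ∩ H).Nonempty ∧ U ∩ H ⊆ S}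
  univ_sets := ⟨Set.univ, isOpen_univ, by rw [Set.univ_inter]; exact hH.1, Set.subset_univ _⟩
  sets_of_superset := by
    rintro S T ⟨U, hU, hne, hs⟩ hST
    exact ⟨U, hU, hne, hs.trans hST⟩
  inter_sets := by
    rintro S T ⟨U, hU, hne, hs⟩ ⟨V, hV, hne', hs'⟩
    refine ⟨U ∩ V, hU.inter hV, ?_, ?_⟩
    · have h := hH.2 U V hU hV (by rwa [Set.inter_comm]) (by rwa [Set.inter_comm])
      rwa [Set.inter_comm]
    · rintro x ⟨⟨h1, h2⟩, h3⟩
      exact ⟨hs ⟨h1, h3⟩, hs' ⟨h2, h3⟩⟩

theorem exists_ultra (H : Set (HilbPt k d g r)) (hH : IsIrreducible H) :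
    ∃ 𝒰 : Ultrafilter (HilbPt k d g r), H ∈ 𝒰 ∧ ∀ U, IsOpen U → (U ∩ H).Nonempty → U ∈ 𝒰 := by
  have hne : (GNA_filter H hH).NeBot := by
    rw [← Filter.forall_mem_nonempty_iff_neBot]
    rintro S ⟨U, _, hne, hs⟩
    exact hne.mono hs
  refine ⟨Ultrafilter.of (GNA_filter H hH), ?_, ?_⟩
  · exact Ultrafilter.of_le _ ⟨Set.univ, isOpen_univ, by rw [Set.univ_inter]; exact hH.1,
      Set.inter_subset_right⟩
  · intro U hU hne'
    exact Ultrafilter.of_le _ ⟨U, hU, hne', Set.inter_subset_left⟩

theorem GNA_frame (W : Submodule k (A4 k)) [FiniteDimensional k W] :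
    ∃ (m : ℕ) (μ : Fin m → (Fin 4 →₀ ℕ)) (v : Fin m → A4 k),
    Submodule.span k (Set.range v) = W ∧ ∀ a b, coeff (μ b) (v a) = if a = b then 1 else 0 := by
  classical
  let L : (Fin 4 →₀ ℕ) → Module.Dual k W := fun μ => (lcoeff k μ).comp W.subtype
  have hL : ∀ μ (w : W), L μ w = coeff μ (w : A4 k) := fun μ w => rfl
  obtain ⟨κ, a, ha, hsp, hli⟩ := exists_linearIndependent' k L
  have : Finite κ := hli.finite
  have : Fintype κ := Fintype.ofFinite κ
  obtain ⟨e⟩ : Nonempty (κ ≃ Fin (Fintype.card κ)) := ⟨Fintype.equivFin κ⟩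
  let T : W →ₗ[k] (Fin (Fintype.card κ) → k) := LinearMap.pi fun i => L (a (e.symm i))
  have hT : ∀ w i, T w i = coeff (a (e.symm i)) (w : A4 k) := fun w i => rfl
  have hinj : Function.Injective T := by
    rw [← LinearMap.ker_eq_bot, LinearMap.ker_eq_bot']
    intro w hw
    have h1 : ∀ φ ∈ Submodule.span k (Set.range (L ∘ a)), φ w = 0 := by
      intro φ hφ
      induction hφ using Submodule.span_induction with
      | mem x hx =>
        obtain ⟨i, rfl⟩ := hx
        have h2 := congrFun hw (e i)
        rw [hT, Equiv.symm_apply_apply] at h2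
        exact h2
      | zero => rfl
      | add x y _ _ hx hy => rw [LinearMap.add_apply, hx, hy, add_zero]
      | smul c x _ hx => rw [LinearMap.smul_apply, hx, smul_zero]
    apply Subtype.ext
    ext μ
    have h3 := h1 (L μ) (by rw [hsp]; exact Submodule.subset_span ⟨μ, rfl⟩)
    rw [hL] at h3
    rw [h3]
    simp
  have hcard : Fintype.card κ ≤ finrank k W := by
    have h1 := hli.fintype_card_le_finrank
    rwa [Subspace.dual_finrank_eq] at h1
  have hfr : finrank k W = finrank k (Fin (Fintype.card κ) → k) := by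
    apply le_antisymm
    · exact LinearMap.finrank_le_finrank_of_injective hinj
    · rw [finrank_fintype_fun_eq_card, Fintype.card_fin]
      exact hcard
  let E := LinearMap.linearEquivOfInjective T hinj hfr
  have hE : ∀ w, E w = T w := fun w => rfl
  refine ⟨Fintype.card κ, fun i => a (e.symm i), fun i => (E.symm (Pi.single i 1) : W), ?_, ?_⟩
  · apply le_antisymm
    · rw [Submodule.span_le]
      rintro _ ⟨i, rfl⟩
      exact (E.symm (Pi.single i 1)).2
    · intro w hw
      have h1 : (⟨w, hw⟩ : W) = ∑ i, (T ⟨w, hw⟩ i) • E.symm (Pi.single i 1) := by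
        apply E.injective
        rw [map_sum]
        funext j
        rw [Finset.sum_apply, hE]
        simp [Pi.single_apply]
      have h2 : w = ∑ i, (T ⟨w, hw⟩ i) • ((E.symm (Pi.single i 1) : W) : A4 k) := by
        have := congrArg (Subtype.val) h1
        rw [Submodule.coe_sum] at this
        exact this
      rw [h2]
      refine Submodule.sum_mem _ fun i _ => Submodule.smul_mem _ _ (Submodule.subset_span ⟨i, rfl⟩)
  · intro i j
    rw [← hT, ← hE, LinearEquiv.apply_symm_apply, Pi.single_apply]
    by_cases h : i = j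
    · subst h; simp
    · rw [if_neg h, if_neg (Ne.symm h)]

theorem exists_frame (w : HilbPt k d g r) : ∃ (m : ℕ) (μ : Fin m → (Fin 4 →₀ ℕ)) (v : Fin m → A4 k),
    Submodule.span k (Set.range v) = w.1 ∧ ∀ a b, coeff (μ b) (v a) = if a = b then 1 else 0 := by
  have : FiniteDimensional k w.1 := Submodule.finiteDimensional_of_le w.2.1
  exact GNA_frame w.1

theorem frame_unique {m : ℕ} {μ : Fin m → (Fin 4 →₀ ℕ)} {v v' : Fin m → A4 k}
    (h : Submodule.span k (Set.range v) = Submodule.span k (Set.range v'))
    (hv : ∀ a b, coeff (μ b) (v a) = if a = b then 1 else 0)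
    (hv' : ∀ a b, coeff (μ b) (v' a) = if a = b then 1 else 0) : v = v' := by
  classical
  funext a
  have h1 : v a ∈ Submodule.span k (Set.range v') := by
    rw [← h]
    exact Submodule.subset_span ⟨a, rfl⟩
  obtain ⟨c, hc⟩ := (Submodule.mem_span_range_iff_exists_fun k).1 h1
  have h2 : ∀ b, c b = if a = b then 1 else 0 := by
    intro b
    rw [← hv a b, ← hc, coeff_sum, Finset.sum_eq_single b]
    · rw [coeff_smul, hv', if_pos rfl, smul_eq_mul, mul_one]
    · intro b' _ hb'
      rw [coeff_smul, hv', if_neg hb', smul_zero]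
    · intro hb'
      exact absurd (Finset.mem_univ b) hb'
  rw [← hc, Finset.sum_eq_single a]
  · rw [h2 a, if_pos rfl, one_smul]
  · intro b _ hb
    rw [h2 b, if_neg (Ne.symm hb), zero_smul]
  · intro hb
    exact absurd (Finset.mem_univ a) hb

end Pool.H33.G
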