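import Pool.Agent.H33.G.Defs

/-! # HF0: dimensions of the graded parts -/

open MvPolynomial Module

namespace Pool.H33.G

variable {F : Type} [Field F]

instance Fm_finite (n : ℕ) : FiniteDimensional F (Fm F n) :=
  Module.Finite.iff_fg.2 (homogeneousSubmodule_fg (Fin 4) F n)

instance part_finite (I : Ideal (A4 F)) (n : ℕ) : FiniteDimensional F (part I n) :=
  Submodule.finiteDimensional_of_le (inf_le_right : part I n ≤ Fm F n)

theorem mem_part {I : Ideal (A4 F)} {n : ℕ} {f : A4 F} : f ∈ part I n ↔ f ∈ I ∧ f ∈ Fm F n :=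
  Iff.rfl

theorem hf_nonneg (I : Ideal (A4 F)) (n : ℕ) : 0 ≤ hf I n := by
  unfold hf
  have h : finrank F (part I n) ≤ finrank F (Fm F n) :=
    Submodule.finrank_mono (inf_le_right : part I n ≤ Fm F n)
  omega

theorem part_mono {I J : Ideal (A4 F)} (h : I ≤ J) (n : ℕ) : part I n ≤ part J n :=
  fun _ hf => ⟨h hf.1, hf.2⟩

theorem hf_anti_part {I J : Ideal (A4 F)} {n : ℕ} (h : part I n ≤ part J n) : hf J n ≤ hf I n := by
  unfold hf
  have h : finrank F (part I n) ≤ finrank F (part J n) := Submodule.finrank_mono h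
  omega

theorem hf_anti {I J : Ideal (A4 F)} (h : I ≤ J) (n : ℕ) : hf J n ≤ hf I n :=
  hf_anti_part (part_mono h n)

theorem part_eq_of_hf_eq {I J : Ideal (A4 F)} {n : ℕ} (h : part I n ≤ part J n)
    (h2 : hf I n = hf J n) : part I n = part J n := by
  apply Submodule.eq_of_le_of_finrank_eq h
  unfold hf at h2
  omega

theorem hf_top (n : ℕ) : hf (⊤ : Ideal (A4 F)) n = 0 := by
  have h : part (⊤ : Ideal (A4 F)) n = Fm F n := by
    apply le_antisymm inf_le_right
    intro f hf
    exact ⟨trivial, hf⟩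
  unfold hf
  rw [h, sub_self]

end Pool.H33.G
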