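import Pool.Agent.H33.G.HF0

/-! # HF1: homogeneous ideals (relate `HI` to `Ideal.IsHomogeneous (homogeneousSubmodule (Fin 4) F)` if convenient) -/

open MvPolynomial Module

namespace Pool.H33.G

variable {F : Type} [Field F]

attribute [local instance] MvPolynomial.gradedAlgebra

theorem HF1_dec (f : A4 F) (n : ℕ) :
    (DirectSum.decompose (homogeneousSubmodule (Fin 4) F) f n : A4 F) = homogeneousComponent n f :=
  decomposition.decompose'_apply f n

theorem HF1_iff {I : Ideal (A4 F)} : HI I ↔ I.IsHomogeneous (homogeneousSubmodule (Fin 4) F) := by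
  constructor
  · intro h i f hf
    rw [HF1_dec]
    exact h f hf i
  · intro h f hf n
    have := h n hf
    rwa [HF1_dec] at this

theorem HF1_mul_right {n m : ℕ} {f g : A4 F} (hg : g ∈ Fm F m) :
    homogeneousComponent (n + m) (f * g) = homogeneousComponent n f * g := by
  rw [← HF1_dec, ← HF1_dec]
  exact DirectSum.coe_decompose_mul_add_of_right_mem _ hg

/-- a homogeneous ideal is determined by its parts -/
theorem le_of_part_le {I J : Ideal (A4 F)} (hI : HI I) (h : ∀ n, part I n ≤ part J n) : I ≤ J := by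
  intro f hf
  rw [← sum_homogeneousComponent f]
  apply Ideal.sum_mem
  intro n _
  exact (h n ⟨hI f hf n, homogeneousComponent_mem n f⟩).1

theorem HI_top : HI (⊤ : Ideal (A4 F)) := fun _ _ _ => trivial

theorem HI_bot : HI (⊥ : Ideal (A4 F)) := by
  intro f hf n
  rw [Ideal.mem_bot] at hf
  rw [hf, map_zero]
  exact Ideal.zero_mem _

theorem HI_span {s : Set (A4 F)} (h : ∀ f ∈ s, ∃ n, f ∈ Fm F n) : HI (Ideal.span s) := by
  rw [HF1_iff]
  exact Ideal.homogeneous_span _ s h

theorem HI_inf {I J : Ideal (A4 F)} (hI : HI I) (hJ : HI J) : HI (I ⊓ J) :=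
  fun f hf n => ⟨hI f hf.1 n, hJ f hf.2 n⟩

theorem HI_iInf {α : Sort*} {I : α → Ideal (A4 F)} (hI : ∀ a, HI (I a)) : HI (⨅ a, I a) := by
  intro f hf n
  rw [Submodule.mem_iInf] at hf ⊢
  exact fun a => hI a f (hf a) n

theorem HI_finset_inf {α : Type*} {s : Finset α} {I : α → Ideal (A4 F)} (hI : ∀ a ∈ s, HI (I a)) :
    HI (s.inf I) := by
  intro f hf n
  rw [Submodule.mem_finsetInf] at hf ⊢
  exact fun a ha => hI a ha f (hf a ha) n

theorem HI_sup {I J : Ideal (A4 F)} (hI : HI I) (hJ : HI J) : HI (I ⊔ J) := by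
  rw [HF1_iff] at *
  exact hI.sup hJ

theorem HI_mul {I J : Ideal (A4 F)} (hI : HI I) (hJ : HI J) : HI (I * J) := by
  rw [HF1_iff] at *
  exact hI.mul hJ

theorem HI_pow {I : Ideal (A4 F)} (hI : HI I) (n : ℕ) : HI (I ^ n) := by
  induction n with
  | zero => rw [pow_zero, Ideal.one_eq_top]; exact HI_top
  | succ n ih => rw [pow_succ]; exact HI_mul ih hI

theorem HI_cln {I J : Ideal (A4 F)} (hI : HI I) (hJ : HI J) : HI (cln I J) := by
  intro f hf n
  show ∀ g ∈ J, homogeneousComponent n f * g ∈ I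
  intro g hg
  rw [← sum_homogeneousComponent g, Finset.mul_sum]
  apply Ideal.sum_mem
  intro m _
  rw [← HF1_mul_right (homogeneousComponent_mem m g)]
  apply hI
  exact hf _ (hJ g hg m)

/-- homogeneous ideals are generated by finitely many homogeneous elements -/
theorem HI_fg {I : Ideal (A4 F)} (hI : HI I) :
    ∃ s : Finset (A4 F), (∀ f ∈ s, ∃ n, f ∈ Fm F n) ∧ Ideal.span (s : Set (A4 F)) = I := by
  classical
  obtain ⟨t, ht⟩ : I.FG := IsNoetherian.noetherian I
  refine ⟨t.biUnion fun f => (Finset.range (f.totalDegree + 1)).image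
    fun n => homogeneousComponent n f, ?_, ?_⟩
  · intro f hf
    obtain ⟨g, _, hg⟩ := Finset.mem_biUnion.1 hf
    obtain ⟨n, _, rfl⟩ := Finset.mem_image.1 hg
    exact ⟨n, homogeneousComponent_mem n g⟩
  · apply le_antisymm
    · rw [Ideal.span_le]
      intro f hf
      obtain ⟨g, hgt, hg⟩ := Finset.mem_biUnion.1 (Finset.mem_coe.1 hf)
      obtain ⟨n, _, rfl⟩ := Finset.mem_image.1 hg
      apply hI
      rw [← ht]
      exact Ideal.subset_span hgt
    · conv_lhs => rw [← ht]
      apply Submodule.span_le.2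
      intro f hf
      show f ∈ Ideal.span _
      rw [← sum_homogeneousComponent f]
      apply Ideal.sum_mem
      intro n hn
      apply Ideal.subset_span
      exact Finset.mem_coe.2 (Finset.mem_biUnion.2 ⟨f, hf, Finset.mem_image.2 ⟨n, hn, rfl⟩⟩)

/-- primality can be tested on homogeneous elements -/
theorem HI_isPrime {I : Ideal (A4 F)} (hI : HI I) (hne : I ≠ ⊤)
    (h : ∀ a b : ℕ, ∀ f ∈ Fm F a, ∀ g ∈ Fm F b, f * g ∈ I → f ∈ I ∨ g ∈ I) : I.IsPrime := by
  apply (HF1_iff.1 hI).isPrime_of_homogeneous_mem_or_mem hne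
  rintro f g ⟨a, ha⟩ ⟨b, hb⟩ hfg
  exact h a b f ha g hb hfg

end Pool.H33.G
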