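import Pool.Agent.H33.G.HF1

/-! # HF2: exact sequences for Hilbert functions

`hf_inf_add_sup`: `part (I ⊔ J) n = part I n ⊔ part J n` for homogeneous ideals (take homogeneous
components), `part (I ⊓ J) n = part I n ⊓ part J n`, `Submodule.finrank_sup_add_finrank_inf_eq`.
`hf_colon`: multiplication by `f` maps `part ⊤ n` onto `part (span {f}) (n+a)` (homogeneous components) and the
preimage of `I` is `part (cln I (span {f})) n`; for `f ≠ 0` it is injective; for `f = 0` the colon ideal is `⊤`.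
`part_gen`: `HI_fg`; for `n ≥ r ≥ deg g_i` every form of degree `n - deg g_i` is a sum of products of forms of
degrees `n - r` and `r - deg g_i`. -/

open MvPolynomial Module

namespace Pool.H33.G

variable {F : Type} [Field F]

theorem HF2_hc_self {n : ℕ} {x : A4 F} (hx : x ∈ Fm F n) : homogeneousComponent n x = x := by
  rw [homogeneousComponent_of_mem hx, if_pos rfl]

theorem HF2_hc_mem (n : ℕ) (x : A4 F) : homogeneousComponent n x ∈ Fm F n :=
  homogeneousComponent_mem n x

theorem HF2_mul_mem {m n : ℕ} {x y : A4 F} (hx : x ∈ Fm F m) (hy : y ∈ Fm F n) :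
    x * y ∈ Fm F (m + n) :=
  IsHomogeneous.mul hx hy

/-- homogeneous components of a product with a form -/
theorem HF2_hc_mul {a : ℕ} {f : A4 F} (hf' : f ∈ Fm F a) (n : ℕ) (c : A4 F) :
    homogeneousComponent (n + a) (c * f) = homogeneousComponent n c * f := by
  conv_lhs => rw [← sum_homogeneousComponent c]
  rw [Finset.sum_mul, map_sum]
  have h1 : ∀ i ∈ Finset.range (c.totalDegree + 1),
      homogeneousComponent (n + a) (homogeneousComponent i c * f) =
        if n = i then homogeneousComponent n c * f else 0 := by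
    intro i _
    rw [homogeneousComponent_of_mem (HF2_mul_mem (HF2_hc_mem i c) hf')]
    by_cases h : n = i
    · subst h; simp
    · rw [if_neg (by omega), if_neg h]
  rw [Finset.sum_congr rfl h1, Finset.sum_ite_eq]
  split_ifs with h2
  · rfl
  · rw [homogeneousComponent_eq_zero, zero_mul]
    rw [Finset.mem_range] at h2
    omega

theorem HF2_hc_mul_lt {a : ℕ} {f : A4 F} (hf' : f ∈ Fm F a) {n : ℕ} (hn : n < a) (c : A4 F) :
    homogeneousComponent n (c * f) = 0 := by
  conv_lhs => rw [← sum_homogeneousComponent c]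
  rw [Finset.sum_mul, map_sum]
  refine Finset.sum_eq_zero fun i _ => ?_
  rw [homogeneousComponent_of_mem (HF2_mul_mem (HF2_hc_mem i c) hf'), if_neg (by omega)]

theorem HF2_part_inf (I J : Ideal (A4 F)) (n : ℕ) : part (I ⊓ J) n = part I n ⊓ part J n := by
  ext x
  rw [Submodule.mem_inf, mem_part, mem_part, mem_part, Ideal.mem_inf]
  tauto

theorem HF2_part_sup {I J : Ideal (A4 F)} (hI : HI I) (hJ : HI J) (n : ℕ) :
    part (I ⊔ J) n = part I n ⊔ part J n := by
  apply le_antisymm
  · intro x hx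
    rw [mem_part] at hx
    obtain ⟨hx1, hx2⟩ := hx
    obtain ⟨y, hy, z, hz, hyz⟩ := Submodule.mem_sup.1 hx1
    rw [Submodule.mem_sup]
    refine ⟨homogeneousComponent n y, ?_, homogeneousComponent n z, ?_, ?_⟩
    · rw [mem_part]; exact ⟨hI y hy n, HF2_hc_mem n y⟩
    · rw [mem_part]; exact ⟨hJ z hz n, HF2_hc_mem n z⟩
    · rw [← map_add, hyz, HF2_hc_self hx2]
  · exact sup_le (part_mono le_sup_left n) (part_mono le_sup_right n)

theorem hf_inf_add_sup {I J : Ideal (A4 F)} (hI : HI I) (hJ : HI J) (n : ℕ) :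
    hf (I ⊓ J) n + hf (I ⊔ J) n = hf I n + hf J n := by
  have h := Submodule.finrank_sup_add_finrank_inf_eq (part I n) (part J n)
  unfold hf
  rw [HF2_part_sup hI hJ, HF2_part_inf]
  omega

theorem hf_inf_le {I J : Ideal (A4 F)} (hI : HI I) (hJ : HI J) (n : ℕ) :
    hf (I ⊓ J) n ≤ hf I n + hf J n := by
  have h := hf_inf_add_sup hI hJ n
  have h2 := hf_nonneg (I ⊔ J) n
  omega

theorem hf_finset_inf_le {α : Type*} {s : Finset α} {I : α → Ideal (A4 F)}
    (hI : ∀ a ∈ s, HI (I a)) (n : ℕ) : hf (s.inf I) n ≤ ∑ a ∈ s, hf (I a) n := by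
  classical
  induction s using Finset.induction_on with
  | empty => rw [Finset.inf_empty, hf_top]; simp
  | insert a s ha ih =>
    rw [Finset.inf_insert, Finset.sum_insert ha]
    have h1 : HI (I a) := hI a (Finset.mem_insert_self a s)
    have h2 : ∀ b ∈ s, HI (I b) := fun b hb => hI b (Finset.mem_insert_of_mem hb)
    have h3 := hf_inf_le h1 (HI_finset_inf h2) n
    have h4 := ih h2
    omega

theorem HF2_HI_span {a : ℕ} {f : A4 F} (hf' : f ∈ Fm F a) : HI (Ideal.span {f}) := by
  apply HI_span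
  intro g hg
  rw [Set.mem_singleton_iff] at hg
  subst hg
  exact ⟨a, hf'⟩

/-- multiplication by `f` as a linear map -/
noncomputable def HF2_mulL (f : A4 F) : A4 F →ₗ[F] A4 F := LinearMap.mulRight F f

theorem HF2_mulL_apply (f c : A4 F) : HF2_mulL f c = c * f := rfl

theorem HF2_mulL_inj {f : A4 F} (hf0 : f ≠ 0) : Function.Injective (HF2_mulL f) := by
  intro x y hxy
  rw [HF2_mulL_apply, HF2_mulL_apply] at hxy
  exact mul_right_cancel₀ hf0 hxy

theorem HF2_finrank_map {f : A4 F} (hf0 : f ≠ 0) (V : Submodule F (A4 F)) :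
    finrank F (V.map (HF2_mulL f)) = finrank F V :=
  ((V.equivMapOfInjective (HF2_mulL f) (HF2_mulL_inj hf0)).finrank_eq).symm

theorem HF2_mem_cln {I : Ideal (A4 F)} {f x : A4 F} :
    x ∈ cln I (Ideal.span {f}) ↔ x * f ∈ I := by
  constructor
  · intro h
    exact h f (Ideal.mem_span_singleton_self f)
  · intro h g hg
    obtain ⟨c, rfl⟩ := Ideal.mem_span_singleton'.1 hg
    have : x * (c * f) = c * (x * f) := by ring
    rw [this]
    exact I.mul_mem_left c h

theorem HF2_part_span {a : ℕ} {f : A4 F} (hf' : f ∈ Fm F a) (n : ℕ) :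
    part (Ideal.span {f}) (n + a) = (Fm F n).map (HF2_mulL f) := by
  ext x
  rw [mem_part, Submodule.mem_map]
  constructor
  · rintro ⟨h1, h2⟩
    obtain ⟨c, rfl⟩ := Ideal.mem_span_singleton'.1 h1
    refine ⟨homogeneousComponent n c, HF2_hc_mem n c, ?_⟩
    rw [HF2_mulL_apply, ← HF2_hc_mul hf', HF2_hc_self h2]
  · rintro ⟨c, hc, rfl⟩
    rw [HF2_mulL_apply]
    exact ⟨Ideal.mem_span_singleton'.2 ⟨c, rfl⟩, HF2_mul_mem hc hf'⟩

theorem HF2_part_inf_span {I : Ideal (A4 F)} {a : ℕ} {f : A4 F} (hf' : f ∈ Fm F a) (n : ℕ) :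
    part (I ⊓ Ideal.span {f}) (n + a) = (part (cln I (Ideal.span {f})) n).map (HF2_mulL f) := by
  ext x
  rw [mem_part, Submodule.mem_map]
  constructor
  · rintro ⟨h1, h2⟩
    obtain ⟨h3, h4⟩ := Ideal.mem_inf.1 h1
    obtain ⟨c, rfl⟩ := Ideal.mem_span_singleton'.1 h4
    have h5 : homogeneousComponent n c * f = c * f := by
      rw [← HF2_hc_mul hf', HF2_hc_self h2]
    refine ⟨homogeneousComponent n c, ?_, ?_⟩
    · rw [mem_part, HF2_mem_cln, h5]
      exact ⟨h3, HF2_hc_mem n c⟩
    · rw [HF2_mulL_apply, h5]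
  · rintro ⟨c, hc, rfl⟩
    rw [mem_part, HF2_mem_cln] at hc
    rw [HF2_mulL_apply]
    exact ⟨Ideal.mem_inf.2 ⟨hc.1, Ideal.mem_span_singleton'.2 ⟨c, rfl⟩⟩, HF2_mul_mem hc.2 hf'⟩

/-- exact sequence for multiplication by a form -/
theorem hf_colon {I : Ideal (A4 F)} (hI : HI I) {a : ℕ} {f : A4 F} (hf' : f ∈ Fm F a) (n : ℕ) :
    hf I (n + a) = hf (I ⊔ Ideal.span {f}) (n + a) + hf (cln I (Ideal.span {f})) n := by
  by_cases hf0 : f = 0
  · have h1 : Ideal.span {f} = (⊥ : Ideal (A4 F)) := by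
      rw [hf0]; exact Ideal.span_singleton_eq_bot.2 rfl
    have h2 : cln I (Ideal.span {f}) = ⊤ := by
      rw [Ideal.eq_top_iff_one, HF2_mem_cln, hf0, mul_zero]
      exact I.zero_mem
    rw [h2, h1, hf_top, sup_bot_eq, add_zero]
  · have h := hf_inf_add_sup hI (HF2_HI_span hf') (n + a)
    have h1 : hf (I ⊓ Ideal.span {f}) (n + a) =
        (finrank F (Fm F (n + a)) : ℤ) - finrank F (part (cln I (Ideal.span {f})) n) := by
      unfold hf
      rw [HF2_part_inf_span hf', HF2_finrank_map hf0]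
    have h2 : hf (Ideal.span {f}) (n + a) =
        (finrank F (Fm F (n + a)) : ℤ) - finrank F (Fm F n) := by
      unfold hf
      rw [HF2_part_span hf', HF2_finrank_map hf0]
    have h3 : hf (cln I (Ideal.span {f})) n =
        (finrank F (Fm F n) : ℤ) - finrank F (part (cln I (Ideal.span {f})) n) := rfl
    omega

theorem hf_colon_lt {I : Ideal (A4 F)} (hI : HI I) {a : ℕ} {f : A4 F} (hf' : f ∈ Fm F a) {n : ℕ}
    (hn : n < a) : hf I n = hf (I ⊔ Ideal.span {f}) n := by
  have h1 : part (Ideal.span {f}) n = ⊥ := by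
    rw [eq_bot_iff]
    intro x hx
    rw [mem_part] at hx
    obtain ⟨h1, h2⟩ := hx
    obtain ⟨c, rfl⟩ := Ideal.mem_span_singleton'.1 h1
    rw [Submodule.mem_bot, ← HF2_hc_self h2, HF2_hc_mul_lt hf' hn]
  unfold hf
  rw [HF2_part_sup hI (HF2_HI_span hf'), h1, sup_bot_eq]

/-- a form of degree at least `k` is in the ideal generated by the products with forms of
degree `k` -/
theorem HF2_form_mul_mem {K : Ideal (A4 F)} {k m : ℕ} (hkm : k ≤ m) {g : A4 F}
    (hK : ∀ c ∈ Fm F k, c * g ∈ K) {c : A4 F} (hc : c ∈ Fm F m) : c * g ∈ K := by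
  rw [c.as_sum, Finset.sum_mul]
  refine K.sum_mem fun d hd => ?_
  have hd1 : d.degree = m := by
    by_contra hne
    have := IsHomogeneous.coeff_eq_zero hc hne
    exact (MvPolynomial.mem_support_iff.1 hd) this
  obtain ⟨e, hed, he⟩ := Finsupp.exists_le_degree_eq d k (by omega)
  have h1 : monomial d (coeff d c) = monomial (d - e) (coeff d c) * monomial e (1 : F) := by
    rw [monomial_mul, mul_one, tsub_add_cancel_of_le hed]
  rw [h1, mul_assoc]
  exact K.mul_mem_left _ (hK _ (isHomogeneous_monomial 1 he))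

/-- the parts of a homogeneous ideal are eventually generated by any of them -/
theorem part_gen {I : Ideal (A4 F)} (hI : HI I) :
    ∃ r1 : ℕ, ∀ r ≥ r1, ∀ n ≥ r, part (Ideal.span (part I r : Set (A4 F))) n = part I n := by
  classical
  obtain ⟨s, hs, hsI⟩ := HI_fg hI
  choose! dg hdg using hs
  refine ⟨s.sup dg, fun r hr n hn => ?_⟩
  have hle : Ideal.span (part I r : Set (A4 F)) ≤ I := by
    rw [Ideal.span_le]
    intro x hx
    exact (mem_part.1 hx).1
  apply le_antisymm (part_mono hle n)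
  intro x hx
  rw [mem_part] at hx ⊢
  refine ⟨?_, hx.2⟩
  have hx1 : x ∈ Ideal.span (s : Set (A4 F)) := by rw [hsI]; exact hx.1
  obtain ⟨c, hc⟩ := Submodule.mem_span_finset'.1 hx1
  have hx2 : x = homogeneousComponent n x := (HF2_hc_self hx.2).symm
  rw [hx2, ← hc, map_sum]
  refine Ideal.sum_mem _ fun g _ => ?_
  have hg1 : dg g ≤ r := le_trans (Finset.le_sup g.2) hr
  have hn2 : n = (n - dg g) + dg g := by omega
  rw [smul_eq_mul, hn2, HF2_hc_mul (hdg g g.2)]
  refine HF2_form_mul_mem (k := r - dg g) (m := n - dg g) (by omega) ?_ (HF2_hc_mem _ _)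
  intro e he
  refine Ideal.subset_span ?_
  show e * g ∈ part I r
  rw [mem_part]
  refine ⟨I.mul_mem_left _ ?_, ?_⟩
  · rw [← hsI]; exact Ideal.subset_span g.2
  · have h3 := HF2_mul_mem he (hdg g g.2)
    have h4 : r - dg g + dg g = r := by omega
    rwa [h4] at h3

end Pool.H33.G
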