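import Pool.Agent.H33.G.HF

/-! # HP: existence of Hilbert polynomials, the predicate `Lin`

`hilbert_poly`: Noetherian induction on homogeneous ideals `I` (all strictly larger homogeneous ideals
have a Hilbert polynomial).  If `I = ⊤`: `hf = 0`.  If `I` is not prime: by `HI_isPrime` there are
forms `f, g ∉ I` with `f * g ∈ I`; then `I < I ⊔ (f)`, `I < cln I (f)` and `hf_colon`.
If `I` is prime and contains all `X i`: `part I n = Fm F n` for `n ≥ 1`, so `hf I n = 0`.
If `I` is prime and `X i ∉ I`: `cln I (X i) = I`, so `hf I (n+1) - hf I n = hf (I ⊔ (X i)) (n+1)` is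
eventually a polynomial, hence so is `hf I n` (sum a polynomial: e.g. by induction on the degree, or
`Polynomial.exists..`/ via binomial basis). -/

open MvPolynomial Module

namespace Pool.H33.G

variable {F : Type} [Field F]

/-- the sums of the values of a polynomial are the values of a polynomial -/
theorem HP_sum_poly (P : Polynomial ℚ) :
    ∃ Q : Polynomial ℚ, ∀ n : ℕ, ∑ k ∈ Finset.range n, P.eval (k : ℚ) = Q.eval (n : ℚ) := by
  induction P using Polynomial.induction_on' with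
  | add P1 P2 h1 h2 =>
    obtain ⟨Q1, h1⟩ := h1
    obtain ⟨Q2, h2⟩ := h2
    refine ⟨Q1 + Q2, fun n => ?_⟩
    simp only [Polynomial.eval_add, Finset.sum_add_distrib]
    rw [h1, h2]
  | monomial p a =>
    refine ⟨∑ i ∈ Finset.range (p + 1), Polynomial.C (a * (bernoulli i * ((p + 1).choose i) / (p + 1)))
      * Polynomial.X ^ (p + 1 - i), fun n => ?_⟩
    simp only [Polynomial.eval_monomial, Polynomial.eval_finsetSum, Polynomial.eval_mul,
      Polynomial.eval_C, Polynomial.eval_pow, Polynomial.eval_X]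
    rw [← Finset.mul_sum, sum_range_pow, Finset.mul_sum]
    refine Finset.sum_congr rfl fun i _ => ?_
    ring

/-- if the differences of `g` are eventually polynomial, so is `g` -/
theorem HP_antidiff {g : ℕ → ℤ} (h : ∃ (P : Polynomial ℚ) (n0 : ℕ), ∀ n ≥ n0,
    ((g (n + 1) : ℤ) : ℚ) - g n = P.eval (n : ℚ)) :
    ∃ (Q : Polynomial ℚ) (n0 : ℕ), ∀ n ≥ n0, ((g n : ℤ) : ℚ) = Q.eval (n : ℚ) := by
  obtain ⟨P, n0, hP⟩ := h
  obtain ⟨Q, hQ⟩ := HP_sum_poly P
  refine ⟨Q + Polynomial.C (((g n0 : ℤ) : ℚ) - Q.eval (n0 : ℚ)), n0, fun n hn => ?_⟩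
  induction n, hn using Nat.le_induction with
  | base => simp
  | succ n hn ih =>
    have h1 := hP n hn
    have h2 : Q.eval ((n + 1 : ℕ) : ℚ) = Q.eval (n : ℚ) + P.eval (n : ℚ) := by
      rw [← hQ, ← hQ, Finset.sum_range_succ]
    rw [Polynomial.eval_add, Polynomial.eval_C] at ih ⊢
    rw [h2]
    linarith

theorem HP_part_eq_of_X {I : Ideal (A4 F)} (h : ∀ i, (X i : A4 F) ∈ I) {n : ℕ} (hn : 1 ≤ n) :
    part I n = Fm F n := by
  apply le_antisymm
  · intro x hx
    exact (mem_part.1 hx).2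
  · intro x hx
    rw [mem_part]
    refine ⟨?_, hx⟩
    rw [x.as_sum]
    refine I.sum_mem fun d hd => ?_
    have hd1 : d.degree = n := by
      by_contra hne
      have := IsHomogeneous.coeff_eq_zero hx hne
      exact (MvPolynomial.mem_support_iff.1 hd) this
    obtain ⟨e, hed, he⟩ := Finsupp.exists_le_degree_eq d 1 (by omega)
    have h1 : monomial d (coeff d x) = monomial (d - e) (coeff d x) * monomial e (1 : F) := by
      rw [monomial_mul, mul_one, tsub_add_cancel_of_le hed]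
    rw [h1]
    refine I.mul_mem_left _ ?_
    have he0 : e ≠ 0 := by
      rintro rfl
      simp at he
    obtain ⟨i, hi⟩ := Finsupp.ne_iff.1 he0
    have hi1 : Finsupp.single i 1 ≤ e := by
      rw [Finsupp.single_le_iff]
      exact Nat.one_le_iff_ne_zero.2 hi
    have h2 : (monomial e (1 : F) : A4 F) = monomial (e - Finsupp.single i 1) 1 * X i := by
      rw [X, monomial_mul, mul_one, tsub_add_cancel_of_le hi1]
    rw [h2]
    exact I.mul_mem_left _ (h i)

theorem HP_X_mem (i : Fin 4) : (X i : A4 F) ∈ Fm F 1 := isHomogeneous_X F i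

theorem hilbert_poly {I : Ideal (A4 F)} (hI : HI I) :
    ∃ (Q : Polynomial ℚ) (n0 : ℕ), ∀ n ≥ n0, ((hf I n : ℤ) : ℚ) = Q.eval (n : ℚ) := by
  revert hI
  induction I using WellFoundedGT.induction with
  | _ I ih =>
  intro hI
  by_cases htop : I = ⊤
  · subst htop
    exact ⟨0, 0, fun n _ => by rw [hf_top]; simp⟩
  by_cases hp : I.IsPrime
  · by_cases hX : ∀ i, (X i : A4 F) ∈ I
    · refine ⟨0, 1, fun n hn => ?_⟩
      unfold hf
      rw [HP_part_eq_of_X hX hn]
      simp
    · push Not at hX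
      obtain ⟨i, hi⟩ := hX
      have hsp : HI (Ideal.span {(X i : A4 F)}) := HF2_HI_span (HP_X_mem i)
      have hlt : I < I ⊔ Ideal.span {(X i : A4 F)} := by
        refine lt_of_le_of_ne le_sup_left fun he => hi ?_
        rw [he]
        exact Ideal.mem_sup_right (Ideal.mem_span_singleton_self _)
      obtain ⟨Q, n0, hQ⟩ := ih _ hlt (HI_sup hI hsp)
      have hcln : cln I (Ideal.span {(X i : A4 F)}) = I := by
        ext x
        rw [HF2_mem_cln]
        constructor
        · intro h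
          rcases hp.mem_or_mem h with h | h
          · exact h
          · exact absurd h hi
        · intro h
          exact I.mul_mem_right _ h
      apply HP_antidiff
      refine ⟨Q.comp (Polynomial.X + 1), n0, fun n hn => ?_⟩
      have h1 := hf_colon hI (HP_X_mem i) n
      rw [hcln] at h1
      have h2 := hQ (n + 1) (by omega)
      rw [Polynomial.eval_comp, Polynomial.eval_add, Polynomial.eval_X, Polynomial.eval_one, h1]
      push_cast at h2 ⊢
      rw [← h2]
      ring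
  · have hex : ∃ a b : ℕ, ∃ f ∈ Fm F a, ∃ g ∈ Fm F b, f * g ∈ I ∧ f ∉ I ∧ g ∉ I := by
      by_contra hno
      apply hp
      refine HI_isPrime hI htop fun a b f hf' g hg hfg => ?_
      by_contra hcon
      push Not at hcon
      exact hno ⟨a, b, f, hf', g, hg, hfg, hcon.1, hcon.2⟩
    obtain ⟨a, b, f, hf', g, hg, hfg, hfI, hgI⟩ := hex
    have hsp : HI (Ideal.span {f}) := HF2_HI_span hf'
    have hlt1 : I < I ⊔ Ideal.span {f} := by
      refine lt_of_le_of_ne le_sup_left fun he => hfI ?_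
      rw [he]
      exact Ideal.mem_sup_right (Ideal.mem_span_singleton_self _)
    have hlt2 : I < cln I (Ideal.span {f}) := by
      refine lt_of_le_of_ne ?_ fun he => hgI ?_
      · intro x hx
        rw [HF2_mem_cln]
        exact I.mul_mem_right _ hx
      · rw [he, HF2_mem_cln, mul_comm]
        exact hfg
    obtain ⟨Q1, n1, hQ1⟩ := ih _ hlt1 (HI_sup hI hsp)
    obtain ⟨Q2, n2, hQ2⟩ := ih _ hlt2 (HI_cln hI hsp)
    refine ⟨Q1 + Q2.comp (Polynomial.X - Polynomial.C (a : ℚ)), n1 + n2 + a, fun n hn => ?_⟩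
    obtain ⟨m, rfl⟩ : ∃ m, n = m + a := ⟨n - a, by omega⟩
    rw [hf_colon hI hf' m, Int.cast_add, hQ1 (m + a) (by omega), hQ2 m (by omega),
      Polynomial.eval_add, Polynomial.eval_comp, Polynomial.eval_sub, Polynomial.eval_X,
      Polynomial.eval_C]
    push_cast
    rw [add_sub_cancel_right]

/-- a polynomial with `|Q n| ≤ c (n+1)` for large `n` has degree at most one -/
theorem HP_degree_le {Q : Polynomial ℚ} {c : ℚ} {n0 : ℕ}
    (h : ∀ n : ℕ, n0 ≤ n → |Q.eval (n : ℚ)| ≤ c * (n + 1)) : Q.natDegree ≤ 1 := by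
  by_contra hcon
  push Not at hcon
  have hd : (Polynomial.X + 1 : Polynomial ℚ).degree < Q.degree := by
    have h1 : (Polynomial.X + 1 : Polynomial ℚ).degree = 1 := by
      have := Polynomial.degree_X_add_C (1 : ℚ)
      simpa using this
    rw [h1]
    by_contra hle
    push Not at hle
    have h2 : Q.natDegree ≤ 1 := Polynomial.natDegree_le_of_degree_le hle
    omega
  have hne : (Polynomial.X + 1 : Polynomial ℚ) ≠ 0 := by
    intro h0
    have := congrArg (Polynomial.eval (0 : ℚ)) h0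
    simp at this
  have ht := Polynomial.abs_div_tendsto_atTop_atTop_of_degree_gt Q (Polynomial.X + 1) hd hne
  have ht2 := ht.comp (tendsto_natCast_atTop_atTop (R := ℚ))
  have ht3 := (ht2.eventually_gt_atTop c).and (Filter.eventually_ge_atTop n0)
  obtain ⟨n, hn1, hn2⟩ := ht3.exists
  simp only [Function.comp_apply, Polynomial.eval_add, Polynomial.eval_X, Polynomial.eval_one] at hn1
  have h1 := h n hn2
  have hpos : (0 : ℚ) < (n : ℚ) + 1 := by positivity
  rw [abs_div, abs_of_pos hpos, lt_div_iff₀ hpos] at hn1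
  linarith

/-- an (integer valued) polynomial with `0 ≤ Q n ≤ c (n+1)` is linear -/
theorem exists_Lin {I : Ideal (A4 F)} (hI : HI I) {c : ℤ} (h : ∀ n : ℕ, hf I n ≤ c * (n + 1)) :
    ∃ e c', Lin I e c' := by
  obtain ⟨Q, n0, hQ⟩ := hilbert_poly hI
  have hdeg : Q.natDegree ≤ 1 := by
    apply HP_degree_le (c := (c : ℚ)) (n0 := n0)
    intro n hn
    rw [← hQ n hn, abs_of_nonneg (by exact_mod_cast hf_nonneg I n)]
    exact_mod_cast h n
  obtain ⟨a, b, hab⟩ : ∃ a b : ℚ, Q = Polynomial.C a * Polynomial.X + Polynomial.C b :=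
    ⟨_, _, Polynomial.eq_X_add_C_of_natDegree_le_one hdeg⟩
  have hev : ∀ n ≥ n0, ((hf I n : ℤ) : ℚ) = a * n + b := by
    intro n hn
    rw [hQ n hn, hab]
    simp
  set A : ℤ := hf I (n0 + 1) - hf I n0 with hA
  set B : ℤ := hf I n0 - A * n0 with hB
  have ha : (A : ℚ) = a := by
    rw [hA]
    push_cast
    rw [hev n0 le_rfl, hev (n0 + 1) (by omega)]
    push_cast
    ring
  have hb : (B : ℚ) = b := by
    rw [hB]
    push_cast
    rw [hev n0 le_rfl, ha]
    ring
  have hev2 : ∀ n ≥ n0, hf I n = A * n + B := by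
    intro n hn
    have h1 := hev n hn
    rw [← ha, ← hb] at h1
    exact_mod_cast h1
  have hA0 : 0 ≤ A := by
    by_contra hneg
    push Not at hneg
    have h1 := hev2 (n0 + B.toNat + 1) (by omega)
    have h2 := hf_nonneg I (n0 + B.toNat + 1)
    have h3 : B ≤ B.toNat := Int.self_le_toNat B
    push_cast at h1
    nlinarith [Int.natCast_nonneg n0, Int.natCast_nonneg B.toNat]
  refine ⟨A.toNat, B, n0, fun n hn => ?_⟩
  rw [hev2 n hn, Int.toNat_of_nonneg hA0]

theorem Lin_unique {I : Ideal (A4 F)} {e e' : ℕ} {c c' : ℤ} (h : Lin I e c) (h' : Lin I e' c') :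
    e = e' ∧ c = c' := by
  obtain ⟨n0, h⟩ := h
  obtain ⟨n1, h'⟩ := h'
  have h1 := h (n0 + n1) (by omega)
  have h2 := h' (n0 + n1) (by omega)
  have h3 := h (n0 + n1 + 1) (by omega)
  have h4 := h' (n0 + n1 + 1) (by omega)
  rw [h1] at h2
  rw [h3] at h4
  push_cast at h2 h4
  have h5 : (e : ℤ) = e' := by linarith
  refine ⟨by exact_mod_cast h5, ?_⟩
  rw [h5] at h2
  linarith

theorem Lin_bound {I : Ideal (A4 F)} {e : ℕ} {c : ℤ} (h : Lin I e c) :
    ∃ c' : ℤ, ∀ n : ℕ, |hf I n - e * n| ≤ c' := by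
  obtain ⟨n0, h⟩ := h
  refine ⟨|c| + ∑ m ∈ Finset.range n0, |hf I m - e * m|, fun n => ?_⟩
  have hs : 0 ≤ ∑ m ∈ Finset.range n0, |hf I m - e * m| :=
    Finset.sum_nonneg fun m _ => abs_nonneg _
  by_cases hn : n0 ≤ n
  · rw [h n hn]
    have : (e : ℤ) * n + c - e * n = c := by ring
    rw [this]
    linarith
  · have h1 : |hf I n - e * n| ≤ ∑ m ∈ Finset.range n0, |hf I m - e * m| :=
      Finset.single_le_sum (f := fun m : ℕ => |hf I m - e * m|) (fun m _ => abs_nonneg _)
        (Finset.mem_range.2 (by omega))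
    have h2 := abs_nonneg c
    linarith

/-- comparison of slopes -/
theorem HP_slope {A B e e' : ℤ} {n0 : ℕ} (h : ∀ n : ℕ, n0 ≤ n → e * n + A ≤ e' * n + B) :
    e ≤ e' := by
  by_contra hcon
  push Not at hcon
  have h1 := h (n0 + (B - A).toNat + 1) (by omega)
  have h2 : B - A ≤ (B - A).toNat := Int.self_le_toNat _
  push_cast at h1
  nlinarith [Int.natCast_nonneg n0, Int.natCast_nonneg (B - A).toNat]

theorem HP_Lin_le {I : Ideal (A4 F)} {e : ℕ} {c : ℤ} (h : Lin I e c) {e' : ℕ} {c' : ℤ}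
    (h' : ∃ n0 : ℕ, ∀ n ≥ n0, hf I n ≤ e' * n + c') : e ≤ e' := by
  obtain ⟨n0, h⟩ := h
  obtain ⟨n1, h'⟩ := h'
  have := HP_slope (A := c) (B := c') (e := e) (e' := e') (n0 := n0 + n1) fun n hn => by
    rw [← h n (by omega)]
    exact h' n (by omega)
  exact_mod_cast this

theorem exists_Lin_of_le {I J : Ideal (A4 F)} (hJ : HI J) (hIJ : I ≤ J) {e : ℕ} {c : ℤ}
    (h : Lin I e c) : ∃ e' c', e' ≤ e ∧ Lin J e' c' := by
  obtain ⟨c1, hc1⟩ := Lin_bound h
  have hb : ∀ n : ℕ, hf J n ≤ e * n + c1 := by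
    intro n
    have h1 := hf_anti hIJ n
    have h2 := (abs_le.1 (hc1 n)).2
    linarith
  have hc0 : 0 ≤ c1 := le_trans (abs_nonneg _) (hc1 0)
  obtain ⟨e', c', hL⟩ := exists_Lin hJ (c := e + c1) fun n => by
    have h1 := hb n
    have h2 : (0 : ℤ) ≤ n := Int.natCast_nonneg n
    have h3 : (0 : ℤ) ≤ e := Int.natCast_nonneg e
    nlinarith
  exact ⟨e', c', HP_Lin_le hL ⟨0, fun n _ => hb n⟩, hL⟩

theorem Lin_Bdd_iff {I : Ideal (A4 F)} {e : ℕ} {c : ℤ} (h : Lin I e c) : Bdd I ↔ e = 0 := by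
  constructor
  · rintro ⟨C, hC⟩
    have := HP_Lin_le h (e' := 0) (c' := C) ⟨0, fun n _ => by
      have := hC n
      push_cast
      linarith⟩
    omega
  · intro he
    subst he
    obtain ⟨c', hc'⟩ := Lin_bound h
    refine ⟨c', fun n => ?_⟩
    have := (abs_le.1 (hc' n)).2
    push_cast at this
    linarith

/-- comparison of slopes -/
theorem Lin_le {I : Ideal (A4 F)} {e : ℕ} {c : ℤ} (h : Lin I e c) {e' : ℕ} {c' : ℤ}
    (h' : ∃ n0 : ℕ, ∀ n ≥ n0, hf I n ≤ e' * n + c') : e ≤ e' :=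
  HP_Lin_le h h'

theorem Lin_ge {I : Ideal (A4 F)} {e : ℕ} {c : ℤ} (h : Lin I e c) {e' : ℕ} {c' : ℤ}
    (h' : ∃ n0 : ℕ, ∀ n ≥ n0, (e' : ℤ) * n + c' ≤ hf I n) : e' ≤ e := by
  obtain ⟨n0, h⟩ := h
  obtain ⟨n1, h'⟩ := h'
  have := HP_slope (A := c') (B := c) (e := e') (e' := e) (n0 := n0 + n1) fun n hn => by
    rw [← h n (by omega)]
    exact h' n (by omega)
  exact_mod_cast this

end Pool.H33.G
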