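import Pool.Agent.H33.G.Defs

/-! # LMB: reduction of a finite dimensional subspace along a valuation subring preserves dimension

`V ≤ K^N` (`N` a finite type), `V̄ = {v̄ | v ∈ R^N ∩ V}`.  The quotient of `R^N` by `R^N ∩ V` is finitely
generated and torsion free over the valuation ring `R`, hence flat, hence free; so `R^N ∩ V` is the kernel
of a split surjection `R^N → R^q`, `V` is the kernel of its extension to `K` and `V̄` the kernel of its
reduction. -/

open Module

namespace Pool.H33.G

variable {K : Type} [Field K] (R : ValuationSubring K)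

/-- reduction of a subspace of `K^N` -/
noncomputable def redS {N : Type} (V : Submodule K (N → K)) :
    Submodule (IsLocalRing.ResidueField R) (N → IsLocalRing.ResidueField R) :=
  Submodule.span _ {v | ∃ w : N → R, (fun a => (w a : K)) ∈ V ∧ v = fun a => IsLocalRing.residue R (w a)}

theorem mem_redS {N : Type} {V : Submodule K (N → K)} {v : N → IsLocalRing.ResidueField R} :
    v ∈ redS R V ↔ ∃ w : N → R, (fun a => (w a : K)) ∈ V ∧ v = fun a => IsLocalRing.residue R (w a) := by
  constructor
  · intro h
    refine Submodule.span_induction (p := fun v _ => ∃ w : N → R, (fun a => (w a : K)) ∈ V ∧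
      v = fun a => IsLocalRing.residue R (w a)) ?_ ?_ ?_ ?_ h
    · intro x hx; exact hx
    · exact ⟨0, V.zero_mem, by funext a; simp⟩
    · rintro x y - - ⟨w, hw, rfl⟩ ⟨w', hw', rfl⟩
      refine ⟨w + w', V.add_mem hw hw', ?_⟩
      funext a; simp
    · rintro c x - ⟨w, hw, rfl⟩
      obtain ⟨c, rfl⟩ := IsLocalRing.residue_surjective c
      refine ⟨c • w, V.smul_mem (c : K) hw, ?_⟩
      funext a; simp
  · intro h; exact Submodule.subset_span h

/-- the lattice of integral points -/
noncomputable def LMB_lat {N : Type} (V : Submodule K (N → K)) : Submodule R (N → R) :=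
  (V.restrictScalars R).comap ((Algebra.linearMap R K).compLeft N)

theorem LMB_mem_lat {N : Type} {V : Submodule K (N → K)} {w : N → R} :
    w ∈ LMB_lat R V ↔ (fun a => (w a : K)) ∈ V := Iff.rfl

theorem LMB_free {N : Type} [Finite N] (V : Submodule K (N → K)) :
    Module.Free R ((N → R) ⧸ LMB_lat R V) := by
  have hfl : Module.Flat R ((N → R) ⧸ LMB_lat R V) := by
    rw [Module.Flat.flat_iff_torsion_eq_bot_of_isBezout, eq_bot_iff]
    rintro x ⟨⟨r, hr⟩, h⟩
    obtain ⟨w, rfl⟩ := Submodule.Quotient.mk_surjective _ x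
    have hr0 : (r : K) ≠ 0 := by
      have := nonZeroDivisors.ne_zero hr
      intro h; exact this (Subtype.ext h)
    have h1 : r • w ∈ LMB_lat R V := by
      rw [← Submodule.Quotient.mk_eq_zero, Submodule.Quotient.mk_smul]; exact h
    have h2 : w ∈ LMB_lat R V := by
      rw [LMB_mem_lat] at h1 ⊢
      have := V.smul_mem (r : K)⁻¹ h1
      convert this using 1
      funext a
      simp [hr0]
    rw [Submodule.mem_bot, Submodule.Quotient.mk_eq_zero]; exact h2
  exact Module.free_of_flat_of_isLocalRing

theorem LMB_exists {N : Type} [Finite N] (V : Submodule K (N → K)) :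
    ∃ (q : ℕ) (A : (N → R) →ₗ[R] (Fin q → R)) (B : (Fin q → R) →ₗ[R] (N → R)),
      (∀ x, A (B x) = x) ∧ ∀ w, A w = 0 ↔ (fun a => (w a : K)) ∈ V := by
  have := LMB_free R V
  have e : ((N → R) ⧸ LMB_lat R V) ≃ₗ[R] (Fin (finrank R ((N → R) ⧸ LMB_lat R V)) → R) :=
    (finBasis R ((N → R) ⧸ LMB_lat R V)).equivFun
  have hs : Function.Surjective (e.toLinearMap ∘ₗ (LMB_lat R V).mkQ) :=
    e.surjective.comp (Submodule.mkQ_surjective _)
  obtain ⟨B, hB⟩ := Module.projective_lifting_property (e.toLinearMap ∘ₗ (LMB_lat R V).mkQ)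
    LinearMap.id hs
  refine ⟨_, e.toLinearMap ∘ₗ (LMB_lat R V).mkQ, B, fun x => LinearMap.congr_fun hB x, fun w => ?_⟩
  simp only [LinearMap.comp_apply, LinearEquiv.coe_coe, map_eq_zero_iff e e.injective,
    Submodule.mkQ_apply, Submodule.Quotient.mk_eq_zero]
  exact Iff.rfl

open Matrix in
theorem LMB_ker {N : Type} [Fintype N] [DecidableEq N] {F : Type} [Field F] {q : ℕ}
    (A : Matrix (Fin q) N F) (B : Matrix N (Fin q) F) (h : A * B = 1) :
    finrank F (LinearMap.ker A.mulVecLin) + q = Fintype.card N := by
  have hs : Function.Surjective A.mulVecLin := by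
    intro x
    refine ⟨B.mulVec x, ?_⟩
    rw [Matrix.mulVecLin_apply, Matrix.mulVec_mulVec, h, Matrix.one_mulVec]
  have h1 := A.mulVecLin.finrank_range_add_finrank_ker
  rw [LinearMap.range_eq_top.2 hs, finrank_top, Module.finrank_fin_fun, Module.finrank_fintype_fun_eq_card] at h1
  omega

open Matrix in
theorem finrank_redS {N : Type} [Finite N] (V : Submodule K (N → K)) :
    finrank (IsLocalRing.ResidueField R) (redS R V) = finrank K V := by
  classical
  have := Fintype.ofFinite N
  obtain ⟨q, A, B, hAB, hA⟩ := LMB_exists R V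
  have hAB' : LinearMap.toMatrix' A * LinearMap.toMatrix' B = 1 := by
    rw [← LinearMap.toMatrix'_comp]
    have : A ∘ₗ B = LinearMap.id := LinearMap.ext hAB
    rw [this, LinearMap.toMatrix'_id]
  have hAw : ∀ w, A w = LinearMap.toMatrix' A *ᵥ w := fun w => (LinearMap.toMatrix'_mulVec A w).symm
  have hBw : ∀ w, B w = LinearMap.toMatrix' B *ᵥ w := fun w => (LinearMap.toMatrix'_mulVec B w).symm
  generalize LinearMap.toMatrix' A = A' at hAB' hAw
  generalize LinearMap.toMatrix' B = B' at hAB' hBw
  have hmap : ∀ {F : Type} [Field F] (f : R →+* F), A'.map f * B'.map f = 1 := by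
    intro F _ f
    rw [← Matrix.map_mul, hAB', Matrix.map_one f f.map_zero f.map_one]
  have hmv : ∀ {F : Type} [Field F] (f : R →+* F) (w : N → R),
      A'.map f *ᵥ (fun a => f (w a)) = fun i => f (A w i) := by
    intro F _ f w
    funext i
    rw [hAw, RingHom.map_mulVec]
    rfl
  have hV : V = LinearMap.ker (A'.map (algebraMap R K)).mulVecLin := by
    ext v
    rw [LinearMap.mem_ker, Matrix.mulVecLin_apply]
    obtain ⟨b, hb⟩ := IsLocalization.exist_integer_multiples_of_finite (nonZeroDivisors R) v
    choose w hw using hb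
    have hb0 : (algebraMap R K) b ≠ 0 := by
      rw [map_ne_zero_iff _ (FaithfulSMul.algebraMap_injective R K)]
      exact nonZeroDivisors.ne_zero b.2
    have hv : (fun a => algebraMap R K (w a)) = (algebraMap R K b) • v := by
      funext a
      rw [hw a, Pi.smul_apply, Algebra.smul_def, smul_eq_mul]
    have h1 : v ∈ V ↔ (fun a => algebraMap R K (w a)) ∈ V := by
      rw [hv]
      exact (Submodule.smul_mem_iff V hb0).symm
    have h2 : (fun a => algebraMap R K (w a)) ∈ V ↔ A w = 0 := (hA w).symm
    rw [h1, h2]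
    have h3 : (A'.map (algebraMap R K)) *ᵥ v = 0 ↔ (A'.map (algebraMap R K)) *ᵥ (fun a => algebraMap R K (w a)) = 0 := by
      rw [hv, Matrix.mulVec_smul, smul_eq_zero_iff_right hb0]
    rw [h3, hmv]
    constructor
    · intro h; rw [h]; funext i; simp
    · intro h; funext i
      have := congrFun h i
      simp only [Pi.zero_apply] at this
      rwa [map_eq_zero_iff _ (FaithfulSMul.algebraMap_injective R K)] at this
  have hr : redS R V = LinearMap.ker (A'.map (IsLocalRing.residue R)).mulVecLin := by
    ext v
    rw [mem_redS, LinearMap.mem_ker, Matrix.mulVecLin_apply]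
    constructor
    · rintro ⟨w, hw, rfl⟩
      rw [hmv, (hA w).2 hw]
      funext i; simp
    · intro hv
      choose w hw using fun a => IsLocalRing.residue_surjective (v a)
      have hv' : v = fun a => IsLocalRing.residue R (w a) := by funext a; rw [hw]
      refine ⟨w - B (A w), ?_, ?_⟩
      · rw [← hA, map_sub, hAB, sub_self]
      · rw [hv', hmv] at hv
        funext a
        rw [← hw a, Pi.sub_apply, map_sub]
        have : IsLocalRing.residue R (B (A w) a) = 0 := by
          rw [hBw, RingHom.map_mulVec]
          have h0 : (IsLocalRing.residue R ∘ A w) = 0 := hv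
          rw [h0, Matrix.mulVec_zero]; rfl
        rw [this, sub_zero]
  have h1 := LMB_ker _ _ (hmap (algebraMap R K))
  have h2 := LMB_ker _ _ (hmap (IsLocalRing.residue R))
  rw [← hV] at h1
  rw [← hr] at h2
  omega

theorem limS_eq_redS (Λ : Submodule K (Fin 4 → K)) : limS R Λ = redS R Λ := rfl

end Pool.H33.G
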