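import Pool.Agent.H33.G.LNA

/-! # LNS: ideals of lines

`vI Λ` for a 2-dimensional `Λ ⊆ F^4` and `lineI P Q = vI (span {P, Q})` over an infinite field. After a
linear change of coordinates the line is `X 2 = X 3 = 0`. -/

open MvPolynomial Module

namespace Pool.H33.G

set_option linter.unusedSectionVars false

variable {F : Type} [Field F] [Infinite F]

omit [Infinite F] in
theorem LNS_mem_vI {Λ : Submodule F (Fin 4 → F)} {f : A4 F} :
    f ∈ vI Λ ↔ ∀ v ∈ Λ, eval v f = 0 := Iff.rfl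

omit [Infinite F] in
theorem LNS_eval_res (P Q : Fin 4 → F) (x : Fin 2 → F) (f : A4 F) :
    eval x (res P Q f) = eval (x 0 • P + x 1 • Q) f := by
  have h : (MvPolynomial.aeval (R := F) x).comp (res P Q) =
      MvPolynomial.aeval (R := F) (x 0 • P + x 1 • Q) := by
    apply MvPolynomial.algHom_ext
    intro a
    simp [res, mul_comm]
  have h2 := DFunLike.congr_fun h f
  simpa [MvPolynomial.aeval_eq_eval] using h2

theorem lineI_eq_vI (P Q : Fin 4 → F) : lineI P Q = vI (Submodule.span F {P, Q}) := by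
  ext f
  rw [LNS_mem_vI, lineI, RingHom.mem_ker]
  constructor
  · intro h v hv
    obtain ⟨a, b, rfl⟩ := Submodule.mem_span_pair.1 hv
    have h1 := LNS_eval_res P Q ![a, b] f
    rw [h, map_zero] at h1
    simpa using h1.symm
  · intro h
    apply MvPolynomial.funext
    intro x
    rw [LNS_eval_res, map_zero]
    exact h _ (Submodule.mem_span_pair.2 ⟨_, _, rfl⟩)

theorem LNS_vI_eq_iInf (Λ : Submodule F (Fin 4 → F)) :
    vI Λ = ⨅ v : Λ, lineI (v : Fin 4 → F) (v : Fin 4 → F) := by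
  ext f
  rw [LNS_mem_vI, Submodule.mem_iInf]
  constructor
  · intro h v
    rw [lineI_eq_vI, LNS_mem_vI]
    intro w hw
    apply h
    refine (Submodule.span_le.2 ?_) hw
    rintro _ (rfl | rfl) <;> exact v.2
  · intro h v hv
    have h1 := h ⟨v, hv⟩
    rw [lineI_eq_vI, LNS_mem_vI] at h1
    exact h1 v (Submodule.subset_span (Set.mem_insert _ _))

theorem HI_vI (Λ : Submodule F (Fin 4 → F)) : HI (vI Λ) := by
  rw [LNS_vI_eq_iInf]
  exact HI_iInf fun v => HI_lineI _ _

omit [Infinite F] in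
theorem LNS_single {m : ℕ} {M : Type} [AddCommGroup M] [Module F M] (L : (Fin m → F) →ₗ[F] M)
    (x : Fin m → F) : L x = ∑ i, x i • L (Pi.single i 1) := by
  conv_lhs => rw [← Finset.univ_sum_single x]
  rw [map_sum]
  refine Finset.sum_congr rfl fun i _ => ?_
  rw [← L.map_smul, ← Pi.single_smul, smul_eq_mul, mul_one]

/-- composition with a linear substitution -/
noncomputable def LNS_sub {m : ℕ} (L : (Fin m → F) →ₗ[F] (Fin 4 → F)) :
    A4 F →ₐ[F] MvPolynomial (Fin m) F :=
  aeval fun a => ∑ i, C (L (Pi.single i 1) a) * X i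

omit [Infinite F] in
theorem LNS_eval_sub {m : ℕ} (L : (Fin m → F) →ₗ[F] (Fin 4 → F)) (x : Fin m → F) (f : A4 F) :
    eval x (LNS_sub L f) = eval (L x) f := by
  have h : (MvPolynomial.aeval (R := F) x).comp (LNS_sub L) =
      MvPolynomial.aeval (R := F) (L x) := by
    apply MvPolynomial.algHom_ext
    intro a
    have h1 : L x a = ∑ i, x i * L (Pi.single i 1) a := by
      conv_lhs => rw [LNS_single L x]
      simp
    simp [LNS_sub, h1, mul_comm]
  have h2 := DFunLike.congr_fun h f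
  simpa [MvPolynomial.aeval_eq_eval] using h2

theorem vI_isPrime (Λ : Submodule F (Fin 4 → F)) : (vI Λ).IsPrime := by
  let b := Module.finBasis F Λ
  let L : (Fin (finrank F Λ) → F) →ₗ[F] (Fin 4 → F) :=
    Λ.subtype ∘ₗ (b.equivFun.symm : (Fin (finrank F Λ) → F) ≃ₗ[F] Λ).toLinearMap
  have h : vI Λ = RingHom.ker (LNS_sub L) := by
    ext f
    rw [LNS_mem_vI, RingHom.mem_ker]
    constructor
    · intro h
      apply MvPolynomial.funext
      intro x
      rw [LNS_eval_sub, map_zero]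
      exact h _ (Submodule.coe_mem _)
    · intro h v hv
      have h1 := LNS_eval_sub L (b.equivFun ⟨v, hv⟩) f
      rw [h, map_zero] at h1
      have h2 : L (b.equivFun ⟨v, hv⟩) = v := by
        simp [L]
      rw [h2] at h1
      exact h1.symm
  rw [h]
  exact RingHom.ker_isPrime _

omit [Infinite F] in
theorem LNS_basis {Λ : Submodule F (Fin 4 → F)} (h : finrank F Λ = 2) :
    ∃ P Q : Fin 4 → F, LinearIndependent F ![P, Q] ∧ Λ = Submodule.span F {P, Q} := by
  let b := Module.finBasisOfFinrankEq F Λ h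
  refine ⟨b 0, b 1, ?_, ?_⟩
  · have h1 : LinearIndependent F (Λ.subtype ∘ b) :=
      b.linearIndependent.map' Λ.subtype (Submodule.ker_subtype Λ)
    have h2 : (Λ.subtype ∘ b) = ![(b 0 : Fin 4 → F), (b 1 : Fin 4 → F)] := by
      funext i
      fin_cases i <;> rfl
    rwa [h2] at h1
  · apply le_antisymm
    · intro v hv
      have h1 := b.sum_repr ⟨v, hv⟩
      rw [Fin.sum_univ_two] at h1
      have h2 := congrArg Subtype.val h1
      rw [Submodule.mem_span_pair]
      exact ⟨_, _, h2⟩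
    · rw [Submodule.span_le]
      rintro _ (rfl | rfl)
      · exact (b 0).2
      · exact (b 1).2

theorem hf_vI {Λ : Submodule F (Fin 4 → F)} (h : finrank F Λ = 2) (n : ℕ) : hf (vI Λ) n = n + 1 := by
  obtain ⟨P, Q, hPQ, rfl⟩ := LNS_basis h
  rw [← lineI_eq_vI]
  exact hf_lineI hPQ n

theorem not_Bdd_vI {Λ : Submodule F (Fin 4 → F)} (h : finrank F Λ = 2) : ¬ Bdd (vI Λ) := by
  obtain ⟨P, Q, hPQ, rfl⟩ := LNS_basis h
  rw [← lineI_eq_vI]
  exact not_Bdd_lineI hPQ

/-- the linear form of a functional -/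
noncomputable def LNS_lf : Module.Dual F (Fin 4 → F) →ₗ[F] A4 F where
  toFun φ := ∑ a, C (φ (Pi.single a 1)) * X a
  map_add' := by
    intro φ ψ
    simp [add_mul, Finset.sum_add_distrib]
  map_smul' := by
    intro c φ
    simp [Finset.smul_sum, smul_eq_C_mul, mul_assoc]

omit [Infinite F] in
theorem LNS_eval_lf (φ : Module.Dual F (Fin 4 → F)) (v : Fin 4 → F) :
    eval v (LNS_lf φ) = φ v := by
  rw [LNS_single (M := F) φ v]
  simp [LNS_lf, mul_comm]

omit [Infinite F] in
theorem LNS_lf_mem (φ : Module.Dual F (Fin 4 → F)) : LNS_lf φ ∈ Fm F 1 := by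
  show (∑ a, C (φ (Pi.single a 1)) * X a : A4 F) ∈ Fm F 1
  refine Submodule.sum_mem _ fun a _ => ?_
  have h := (isHomogeneous_C (Fin 4) (φ (Pi.single a 1))).mul (isHomogeneous_X F a)
  rwa [zero_add] at h

omit [Infinite F] in
theorem LNS_lf_proj (a : Fin 4) : LNS_lf (LinearMap.proj (R := F) (φ := fun _ : Fin 4 => F) a) =
    (X a : A4 F) := by
  simp only [LNS_lf, LinearMap.coe_mk, AddHom.coe_mk, LinearMap.proj_apply]
  rw [Finset.sum_eq_single a]
  · simp
  · intro b _ hb
    simp [Pi.single_eq_of_ne (Ne.symm hb)]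
  · intro h
    exact absurd (Finset.mem_univ a) h

omit [Infinite F] in
theorem LNS_lf_mem_vI {φ : Module.Dual F (Fin 4 → F)} {Λ : Submodule F (Fin 4 → F)} :
    LNS_lf φ ∈ vI Λ ↔ φ ∈ Λ.dualAnnihilator := by
  rw [LNS_mem_vI, Submodule.mem_dualAnnihilator]
  simp only [LNS_eval_lf]

omit [Infinite F] in
theorem LNS_lf_inj : Function.Injective (LNS_lf (F := F)) := by
  intro φ ψ h
  ext a
  have h1 := congrArg (eval (Pi.single a 1)) h
  rw [LNS_eval_lf, LNS_eval_lf] at h1
  simpa using h1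

omit [Infinite F] in
theorem LNS_lf_surj {f : A4 F} (hf' : f ∈ Fm F 1) : ∃ φ, LNS_lf φ = f := by
  refine ⟨∑ a, coeff (Finsupp.single a 1) f • LinearMap.proj a, ?_⟩
  rw [map_sum]
  simp only [map_smul, LNS_lf_proj]
  ext m
  rw [coeff_sum]
  by_cases hm : m.degree = 1
  · obtain ⟨b, rfl⟩ : ∃ b, m = Finsupp.single b 1 := by
      have h1 : m ∈ Set.range (fun a : Fin 4 => Finsupp.single a 1) := by
        rw [Finsupp.range_single_one]
        exact hm
      obtain ⟨b, hb⟩ := h1
      exact ⟨b, hb.symm⟩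
    rw [Finset.sum_eq_single b]
    · simp
    · intro c _ hc
      rw [coeff_smul, coeff_X, if_neg, smul_zero]
      intro h
      exact hc ((Finsupp.single_left_inj one_ne_zero).1 h)
    · intro h
      exact absurd (Finset.mem_univ b) h
  · rw [IsHomogeneous.coeff_eq_zero hf' hm]
    refine Finset.sum_eq_zero fun c _ => ?_
    rw [coeff_smul, coeff_X, if_neg, smul_zero]
    rintro rfl
    exact hm (Finsupp.degree_single _ _)

omit [Infinite F] in
theorem LNS_finrank_Fm : finrank F (Fm F 1) = 4 := by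
  have h : Fm F 1 = LinearMap.range (LNS_lf (F := F)) := by
    ext f
    constructor
    · intro hf'
      exact LNS_lf_surj hf'
    · rintro ⟨φ, rfl⟩
      exact LNS_lf_mem φ
  rw [h, LinearMap.finrank_range_of_inj LNS_lf_inj, Subspace.dual_finrank_eq]
  simp

theorem vI_le_iff {Λ Λ' : Submodule F (Fin 4 → F)} : vI Λ ≤ vI Λ' ↔ Λ' ≤ Λ := by
  constructor
  · intro h
    rw [← Subspace.dualAnnihilator_le_dualAnnihilator_iff]
    intro φ hφ
    rw [← LNS_lf_mem_vI] at hφ ⊢
    exact h hφ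
  · intro h f hf' v hv
    exact hf' v (h hv)

theorem vI_inj {Λ Λ' : Submodule F (Fin 4 → F)} (h : vI Λ = vI Λ') : Λ = Λ' :=
  le_antisymm (vI_le_iff.1 h.ge) (vI_le_iff.1 h.le)

/-- disjoint lines: the sum of the ideals contains all forms of positive degree -/
theorem vI_sup_of_disjoint {Λ Λ' : Submodule F (Fin 4 → F)} (h : Λ ⊓ Λ' = ⊥) :
    ∀ a, (X a : A4 F) ∈ vI Λ ⊔ vI Λ' := by
  intro a
  have h1 : (LinearMap.proj a : Module.Dual F (Fin 4 → F)) ∈
      Λ.dualAnnihilator ⊔ Λ'.dualAnnihilator := by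
    rw [← Subspace.dualAnnihilator_inf_eq, h, Submodule.dualAnnihilator_bot]
    exact Submodule.mem_top
  obtain ⟨φ, hφ, ψ, hψ, h2⟩ := Submodule.mem_sup.1 h1
  rw [← LNS_lf_proj, ← h2, map_add]
  exact Submodule.add_mem_sup (LNS_lf_mem_vI.2 hφ) (LNS_lf_mem_vI.2 hψ)

/-- `vI Λ` is generated by linear forms -/
theorem LNS_vI_le {p : Ideal (A4 F)} {Λ : Submodule F (Fin 4 → F)}
    (h : ∀ φ ∈ Λ.dualAnnihilator, LNS_lf φ ∈ p) : vI Λ ≤ p := by
  obtain ⟨g, hg⟩ := LinearMap.exists_leftInverse_of_injective Λ.subtype (Submodule.ker_subtype Λ)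
  let L : (Fin 4 → F) →ₗ[F] (Fin 4 → F) := Λ.subtype ∘ₗ g
  have hL : ∀ v ∈ Λ, L v = v := by
    intro v hv
    have := DFunLike.congr_fun hg ⟨v, hv⟩
    exact congrArg Subtype.val this
  have hL' : ∀ v, L v ∈ Λ := fun v => (g v).2
  have h1 : (Ideal.Quotient.mkₐ F p).comp (LNS_sub L) = Ideal.Quotient.mkₐ F p := by
    apply MvPolynomial.algHom_ext
    intro a
    rw [AlgHom.comp_apply, Ideal.Quotient.mkₐ_eq_mk, ← sub_eq_zero, ← map_sub,
      Ideal.Quotient.eq_zero_iff_mem]
    have h2 : LNS_sub L (X a) - X a =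
        LNS_lf ((LinearMap.proj a : Module.Dual F (Fin 4 → F)) ∘ₗ (L - LinearMap.id)) := by
      have h3 : LNS_sub L (X a) = LNS_lf ((LinearMap.proj a : Module.Dual F (Fin 4 → F)) ∘ₗ L) := by
        simp [LNS_sub, LNS_lf]
      rw [LinearMap.comp_sub, map_sub, ← h3, LinearMap.comp_id, LNS_lf_proj]
    rw [h2]
    apply h
    rw [Submodule.mem_dualAnnihilator]
    intro v hv
    simp [hL v hv]
  intro f hf'
  have h4 : LNS_sub L f = 0 := by
    apply MvPolynomial.funext
    intro x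
    rw [LNS_eval_sub, map_zero]
    exact hf' _ (hL' x)
  have h5 := DFunLike.congr_fun h1 f
  rw [AlgHom.comp_apply, h4, map_zero, Ideal.Quotient.mkₐ_eq_mk] at h5
  exact Ideal.Quotient.eq_zero_iff_mem.1 h5.symm

omit [Infinite F] in
theorem LNS_eval_smul {n : ℕ} {f : A4 F} (hf' : f ∈ Fm F n) (c : F) (v : Fin 4 → F) :
    eval (c • v) f = c ^ n * eval v f := by
  rw [eval_eq', eval_eq', Finset.mul_sum]
  refine Finset.sum_congr rfl fun d hd => ?_
  have hd1 : d.degree = n := by
    by_contra hne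
    exact (MvPolynomial.mem_support_iff.1 hd) (IsHomogeneous.coeff_eq_zero hf' hne)
  have hd2 : ∑ i, d i = n := by
    rw [← hd1, Finsupp.degree_eq_sum]
  simp only [Pi.smul_apply, smul_eq_mul, mul_pow]
  rw [Finset.prod_mul_distrib, Finset.prod_pow_eq_pow_sum, hd2]
  ring

omit [Infinite F] in
theorem LNS_finrank_map {V W : Type} [AddCommGroup V] [Module F V] [AddCommGroup W] [Module F W]
    (L : V →ₗ[F] W) (hL : Function.Injective L) (U : Submodule F V) :
    finrank F (U.map L) = finrank F U :=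
  ((U.equivMapOfInjective L hL).finrank_eq).symm

theorem LNS_Bdd {Λ : Submodule F (Fin 4 → F)} (h : finrank F Λ ≤ 1) : Bdd (vI Λ) := by
  obtain ⟨v, hv⟩ : ∃ v : Fin 4 → F, Λ ≤ Submodule.span F {v} := by
    obtain ⟨v, hv⟩ := (finrank_le_one_iff (K := F) (V := Λ)).1 h
    refine ⟨v, fun w hw => ?_⟩
    obtain ⟨c, hc⟩ := hv ⟨w, hw⟩
    rw [Submodule.mem_span_singleton]
    exact ⟨c, congrArg Subtype.val hc⟩
  refine ⟨1, fun n => ?_⟩
  let T : Fm F n →ₗ[F] F := (MvPolynomial.aeval (R := F) v).toLinearMap ∘ₗ (Fm F n).subtype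
  have h1 := LinearMap.finrank_range_add_finrank_ker T
  have h2 : finrank F (LinearMap.range T) ≤ 1 :=
    (Submodule.finrank_le _).trans (by simp)
  have h3 : finrank F (LinearMap.ker T) ≤ finrank F (part (vI Λ) n) := by
    have h4 : finrank F ((LinearMap.ker T).map (Fm F n).subtype) = finrank F (LinearMap.ker T) :=
      LNS_finrank_map _ (Submodule.injective_subtype _) _
    rw [← h4]
    apply Submodule.finrank_mono
    rintro _ ⟨f, hf', rfl⟩
    rw [mem_part]
    refine ⟨?_, f.2⟩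
    intro w hw
    obtain ⟨c, rfl⟩ := Submodule.mem_span_singleton.1 (hv hw)
    have h5 : eval v (f : A4 F) = 0 := by
      have : T f = 0 := hf'
      simpa [T, MvPolynomial.aeval_eq_eval] using this
    rw [Submodule.subtype_apply, LNS_eval_smul f.2, h5, mul_zero]
  unfold hf
  omega

/-- a homogeneous prime with `hf p n ≤ n + 1` and slope one is the ideal of a line.  (The linear forms
in `p` have dimension `≥ 2`; let `Λ` be their common zero space; `vI Λ` is generated by these linear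
forms; if `dim Λ ≤ 1` then `hf (vI Λ)` is bounded; if `dim Λ = 2` use `Bdd_of_lt_prime`.) -/
theorem eq_vI_of_prime {p : Ideal (A4 F)} (hp : p.IsPrime) (hpI : HI p) {c : ℤ} (hL : Lin p 1 c)
    (h : ∀ n : ℕ, hf p n ≤ n + 1) : ∃ Λ : Submodule F (Fin 4 → F), finrank F Λ = 2 ∧ p = vI Λ := by
  let W : Submodule F (Module.Dual F (Fin 4 → F)) := (p.restrictScalars F).comap LNS_lf
  have hnB : ¬ Bdd p := fun hb => one_ne_zero ((Lin_Bdd_iff hL).1 hb)
  have hW : 2 ≤ finrank F W := by
    have h1 := h 1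
    unfold hf at h1
    rw [LNS_finrank_Fm] at h1
    have h2 : part p 1 = W.map LNS_lf := by
      ext f
      rw [mem_part, Submodule.mem_map]
      constructor
      · rintro ⟨h3, h4⟩
        obtain ⟨φ, rfl⟩ := LNS_lf_surj h4
        exact ⟨φ, h3, rfl⟩
      · rintro ⟨φ, h3, rfl⟩
        exact ⟨h3, LNS_lf_mem φ⟩
    rw [h2, LNS_finrank_map _ LNS_lf_inj] at h1
    push_cast at h1
    omega
  have h1 := Subspace.finrank_add_finrank_dualCoannihilator_eq W
  rw [Module.finrank_fin_fun] at h1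
  have h2 : vI W.dualCoannihilator ≤ p := by
    apply LNS_vI_le
    intro φ hφ
    rw [Subspace.dualCoannihilator_dualAnnihilator_eq] at hφ
    exact hφ
  rcases Nat.lt_or_ge (finrank F W.dualCoannihilator) 2 with h3 | h3
  · exact absurd (Bdd_mono h2 (LNS_Bdd (by omega))) hnB
  · have h4 : finrank F W.dualCoannihilator = 2 := by omega
    refine ⟨_, h4, ?_⟩
    by_contra hne
    have hlt : vI W.dualCoannihilator < p := lt_of_le_of_ne h2 (Ne.symm hne)
    exact hnB (Bdd_of_lt_prime (vI_isPrime _) (HI_vI _) hpI hlt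
      (e := 1) (c := 1) ⟨0, fun n _ => by rw [hf_vI h4]; push_cast; ring⟩)

end Pool.H33.G
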