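import Pool.Agent.H33.G.LMA
import Pool.Agent.H33.G.LMB
import Pool.Agent.H33.G.LNS

/-! # LMC: Hilbert functions of limits, limits of lines

`hf_limI`: identify forms of degree `n` with functions on the finite type of monomials of degree `n` and
use `mem_part_limI`, `finrank_redS`.
`limI_vI`: if `f ∈ vI Λ` has coefficients in `R` and `w ∈ R^4 ∩ Λ` then `f̄(w̄) = 0`; so
`limI R (vI Λ) ≤ vI (limS R Λ)`; both have Hilbert function `n + 1` (`hf_vI`), so they are equal. -/

open MvPolynomial Module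

namespace Pool.H33.G

/-- monomials of degree `n` -/
abbrev LMC_N (n : ℕ) : Type :=
  {d : Fin 4 →₀ ℕ // d ∈ Finset.finsuppAntidiag (Finset.univ : Finset (Fin 4)) n}

theorem LMC_mem_N {n : ℕ} {d : Fin 4 →₀ ℕ} :
    d ∈ Finset.finsuppAntidiag (Finset.univ : Finset (Fin 4)) n ↔ d.degree = n := by
  rw [Finset.mem_finsuppAntidiag, Finsupp.degree_eq_sum]
  simp

/-- the form of degree `n` with given coefficients -/
noncomputable def LMC_mk (A : Type) [CommRing A] (n : ℕ) :
    (LMC_N n → A) →ₗ[A] MvPolynomial (Fin 4) A where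
  toFun v := ∑ d, monomial d.1 (v d)
  map_add' v w := by simp [Finset.sum_add_distrib]
  map_smul' c v := by simp [Finset.smul_sum, smul_monomial]

theorem LMC_mk_apply {A : Type} [CommRing A] (n : ℕ) (v : LMC_N n → A) :
    LMC_mk A n v = ∑ d, monomial d.1 (v d) := rfl

theorem LMC_coeff_mk {A : Type} [CommRing A] {n : ℕ} (v : LMC_N n → A) (d : LMC_N n) :
    coeff d.1 (LMC_mk A n v) = v d := by
  classical
  rw [LMC_mk_apply, coeff_sum]
  rw [Finset.sum_eq_single d]
  · simp
  · intro b _ hb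
    rw [coeff_monomial, if_neg]
    intro h; exact hb (Subtype.ext h)
  · intro h; exact absurd (Finset.mem_univ _) h

theorem LMC_mk_hom {A : Type} [CommRing A] {n : ℕ} (v : LMC_N n → A) :
    (LMC_mk A n v).IsHomogeneous n := by
  rw [LMC_mk_apply]
  refine IsHomogeneous.sum _ _ _ fun d _ => isHomogeneous_monomial _ (LMC_mem_N.1 d.2)

theorem LMC_mk_inj (A : Type) [CommRing A] (n : ℕ) : Function.Injective (LMC_mk A n) := by
  intro v w h
  funext d
  rw [← LMC_coeff_mk v d, h, LMC_coeff_mk]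

theorem LMC_mk_coeff {A : Type} [CommRing A] {n : ℕ} {h : MvPolynomial (Fin 4) A}
    (hh : h.IsHomogeneous n) : LMC_mk A n (fun d => coeff d.1 h) = h := by
  ext d
  by_cases hd : d.degree = n
  · exact LMC_coeff_mk (fun d : LMC_N n => coeff d.1 h) ⟨d, LMC_mem_N.2 hd⟩
  · rw [(LMC_mk_hom _).coeff_eq_zero hd, hh.coeff_eq_zero hd]

theorem LMC_map_mk {A B : Type} [CommRing A] [CommRing B] (f : A →+* B) {n : ℕ} (v : LMC_N n → A) :
    MvPolynomial.map f (LMC_mk A n v) = LMC_mk B n (fun d => f (v d)) := by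
  rw [LMC_mk_apply, LMC_mk_apply, map_sum]
  simp

theorem LMC_finrank {F : Type} [Field F] {n : ℕ} {S : Submodule F (A4 F)} (hS : S ≤ Fm F n) :
    finrank F (S.comap (LMC_mk F n)) = finrank F S := by
  have h : (S.comap (LMC_mk F n)).map (LMC_mk F n) = S := by
    rw [Submodule.map_comap_eq, inf_eq_right]
    intro x hx
    exact ⟨_, LMC_mk_coeff (hS hx)⟩
  conv_rhs => rw [← h]
  exact (LinearEquiv.finrank_eq (Submodule.equivMapOfInjective _ (LMC_mk_inj F n) _))

theorem LMC_finrank_Fm (F : Type) [Field F] (n : ℕ) :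
    finrank F (Fm F n) = Fintype.card (LMC_N n) := by
  rw [← LMC_finrank (le_refl (Fm F n))]
  have : (Fm F n).comap (LMC_mk F n) = ⊤ := by
    rw [eq_top_iff]; intro v _; exact LMC_mk_hom v
  rw [this, finrank_top, Module.finrank_fintype_fun_eq_card]

variable {K : Type} [Field K] (R : ValuationSubring K)

theorem hf_limI {I : Ideal (A4 K)} (hI : HI I) (n : ℕ) : hf (limI R I) n = hf I n := by
  unfold hf
  rw [LMC_finrank_Fm, LMC_finrank_Fm, ← LMC_finrank (S := part (limI R I) n) inf_le_right,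
    ← LMC_finrank (S := part I n) inf_le_right, ← finrank_redS R]
  have h : (part (limI R I) n).comap (LMC_mk _ n) = redS R ((part I n).comap (LMC_mk K n)) := by
    ext v
    rw [mem_redS, Submodule.mem_comap, mem_part_limI R hI]
    constructor
    · rintro ⟨h, hh, hI', hv⟩
      refine ⟨fun d => coeff d.1 h, ?_, ?_⟩
      · rw [Submodule.mem_comap]
        have h1 := LMC_map_mk (algebraMap R K) (fun d : LMC_N n => coeff d.1 h)
        rw [LMC_mk_coeff hh] at h1
        have h2 : MvPolynomial.map (algebraMap R K) h ∈ part I n := by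
          rw [mem_part]; exact ⟨hI', hh.map _⟩
        rw [h1] at h2
        exact h2
      · funext d
        rw [← LMC_coeff_mk v d, ← hv, coeff_map]
    · rintro ⟨w, hw, rfl⟩
      rw [Submodule.mem_comap, mem_part] at hw
      refine ⟨LMC_mk R n w, LMC_mk_hom w, ?_, LMC_map_mk _ _⟩
      rw [LMC_map_mk]
      exact hw.1
  rw [h]

theorem Lin_limI {I : Ideal (A4 K)} (hI : HI I) {e : ℕ} {c : ℤ} : Lin (limI R I) e c ↔ Lin I e c := by
  unfold Lin
  simp only [hf_limI R hI]

theorem finrank_limS (Λ : Submodule K (Fin 4 → K)) :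
    finrank (IsLocalRing.ResidueField R) (limS R Λ) = finrank K Λ := by
  rw [limS_eq_redS, finrank_redS]

theorem limS_mono {Λ Λ' : Submodule K (Fin 4 → K)} (h : Λ ≤ Λ') : limS R Λ ≤ limS R Λ' := by
  refine Submodule.span_mono ?_
  rintro v ⟨w, hw, rfl⟩
  exact ⟨w, h hw, rfl⟩

/-- lines with disjoint limits are disjoint -/
theorem inf_eq_bot_of_limS {Λ Λ' : Submodule K (Fin 4 → K)} (h : limS R Λ ⊓ limS R Λ' = ⊥) :
    Λ ⊓ Λ' = ⊥ := by
  have h1 : limS R (Λ ⊓ Λ') = ⊥ := by
    rw [eq_bot_iff, ← h]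
    exact le_inf (limS_mono R inf_le_left) (limS_mono R inf_le_right)
  have h2 := finrank_limS R (Λ ⊓ Λ')
  rw [h1, finrank_bot] at h2
  exact Submodule.finrank_eq_zero.1 h2.symm

theorem limI_vI [Infinite K] [Infinite (IsLocalRing.ResidueField R)] {Λ : Submodule K (Fin 4 → K)}
    (h : finrank K Λ = 2) : limI R (vI Λ) = vI (limS R Λ) := by
  have hle : limI R (vI Λ) ≤ vI (limS R Λ) := by
    intro f hf'
    obtain ⟨p, hp, rfl⟩ := (mem_limI R).1 hf'
    intro v hv
    rw [limS_eq_redS, mem_redS] at hv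
    obtain ⟨w, hw, rfl⟩ := hv
    have h1 : eval (fun a => (w a : K)) (MvPolynomial.map (algebraMap R K) p) = 0 := hp _ hw
    have h2 : eval (fun a => (w a : K)) (MvPolynomial.map (algebraMap R K) p) =
        algebraMap R K (eval w p) := by
      rw [eval_map]
      exact (MvPolynomial.eval₂_comp (algebraMap R K) w p).symm
    have h3 : eval w p = 0 := by
      rw [h2] at h1
      exact (map_eq_zero_iff _ (FaithfulSMul.algebraMap_injective R K)).1 h1
    rw [eval_map, ← Function.comp_def (IsLocalRing.residue R) w, ← MvPolynomial.eval₂_comp, h3, map_zero]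
  refine le_antisymm hle (le_of_part_le (HI_vI _) fun n => ?_)
  have h1 : part (limI R (vI Λ)) n = part (vI (limS R Λ)) n := by
    refine part_eq_of_hf_eq (part_mono hle n) ?_
    rw [hf_limI R (HI_vI _), hf_vI h, hf_vI (by rw [finrank_limS, h])]
  exact h1.ge

end Pool.H33.G
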