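import Pool.Agent.H33.G.BD

/-! # LNA: the ideal `lineI P Q` of a line (kernel of the surjective `res P Q`); change coordinates so that the
line is `X 2 = X 3 = 0`, or use that `res P Q` maps forms of degree `n` onto binary forms of degree `n` -/

open MvPolynomial Module

namespace Pool.H33.G

variable {F : Type} [Field F]

theorem lineI_isPrime (P Q : Fin 4 → F) : (lineI P Q).IsPrime :=
  RingHom.ker_isPrime (res P Q)

theorem LNA_mem {P Q : Fin 4 → F} {f : A4 F} : f ∈ lineI P Q ↔ res P Q f = 0 :=
  RingHom.mem_ker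

theorem LNA_res_hom (P Q : Fin 4 → F) {n : ℕ} {f : A4 F} (hf' : f ∈ Fm F n) :
    (res P Q f).IsHomogeneous n := by
  have h := IsHomogeneous.aeval (S := F) (n := 1) (τ := Fin 2) hf'
    (fun a => C (P a) * X 0 + C (Q a) * X 1)
    (fun a => (isHomogeneous_C_mul_X _ _).add (isHomogeneous_C_mul_X _ _))
  rw [one_mul] at h
  exact h

theorem HI_lineI (P Q : Fin 4 → F) : HI (lineI P Q) := by
  intro f hf' n
  rw [LNA_mem] at hf' ⊢
  by_cases hn : f.totalDegree < n
  · rw [homogeneousComponent_eq_zero _ _ hn, map_zero]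
  · push Not at hn
    have h1 := congrArg (res P Q) (sum_homogeneousComponent f)
    rw [hf', map_sum] at h1
    have h2 := congrArg (homogeneousComponent n) h1
    rw [map_sum, map_zero, Finset.sum_eq_single n] at h2
    · rw [homogeneousComponent_of_mem (LNA_res_hom P Q (homogeneousComponent_mem n f)),
        if_pos rfl] at h2
      exact h2
    · intro m _ hm
      rw [homogeneousComponent_of_mem (LNA_res_hom P Q (homogeneousComponent_mem m f)),
        if_neg hm.symm]
    · intro hcon
      exact absurd (Finset.mem_range.2 (Nat.lt_succ_of_le hn)) hcon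

/-- binary monomials are images of forms -/
theorem LNA_surj {P Q : Fin 4 → F} (h : LinearIndependent F ![P, Q]) (n : ℕ) :
    (Fm F n).map (res P Q).toLinearMap = homogeneousSubmodule (Fin 2) F n := by
  have hinj : Function.Injective (Fintype.linearCombination F ![P, Q]) :=
    linearIndependent_iff_injective_fintypeLinearCombination.1 h
  obtain ⟨g, hg⟩ := (Fintype.linearCombination F ![P, Q]).exists_leftInverse_of_injective
    (LinearMap.ker_eq_bot.2 hinj)
  have hgP : g P = Pi.single 0 1 := by
    have h1 := congrArg (fun t => t (Pi.single 0 1)) hg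
    simpa [Fintype.linearCombination_apply_single] using h1
  have hgQ : g Q = Pi.single 1 1 := by
    have h1 := congrArg (fun t => t (Pi.single 1 1)) hg
    simpa [Fintype.linearCombination_apply_single] using h1
  have hlin : ∀ j : Fin 2, ∃ l : A4 F, l ∈ Fm F 1 ∧ res P Q l = X j := by
    intro j
    refine ⟨∑ a, C (g (Pi.single a 1) j) * X a, ?_, ?_⟩
    · refine Submodule.sum_mem _ (fun a _ => ?_)
      exact isHomogeneous_C_mul_X _ _
    · have hexp : ∀ v : Fin 4 → F, ∑ a, g (Pi.single a 1) j * v a = g v j := by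
        intro v
        conv_rhs => rw [pi_eq_sum_univ' v]
        rw [map_sum, Finset.sum_apply]
        refine Finset.sum_congr rfl (fun a _ => ?_)
        rw [map_smul, Pi.smul_apply, smul_eq_mul, mul_comm]
      rw [map_sum]
      have h2 : ∀ a, res P Q (C (g (Pi.single a 1) j) * X a) =
          C (g (Pi.single a 1) j * P a) * X 0 + C (g (Pi.single a 1) j * Q a) * X 1 := by
        intro a
        unfold res
        rw [map_mul, aeval_C, aeval_X, algebraMap_eq, C_mul, C_mul]
        ring
      rw [Finset.sum_congr rfl (fun a _ => h2 a), Finset.sum_add_distrib, ← Finset.sum_mul,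
        ← Finset.sum_mul, ← map_sum, ← map_sum, hexp, hexp, hgP, hgQ]
      fin_cases j
      · simp
      · simp
  obtain ⟨l0, hl0, hr0⟩ := hlin 0
  obtain ⟨l1, hl1, hr1⟩ := hlin 1
  apply le_antisymm
  · rintro _ ⟨f, hf', rfl⟩
    exact LNA_res_hom P Q hf'
  · intro p hp
    have hp' : p.IsHomogeneous n := hp
    rw [p.as_sum]
    refine Submodule.sum_mem _ (fun m hm => ?_)
    have hdeg : m 0 + m 1 = n := by
      have h6 : m.degree = n := by
        have := hp' (mem_support_iff.1 hm)
        rwa [Finsupp.degree_eq_weight_one]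
      rwa [Finsupp.degree_eq_sum, Fin.sum_univ_two] at h6
    refine ⟨C (coeff m p) * (l0 ^ m 0 * l1 ^ m 1), ?_, ?_⟩
    · have h3 : (l0 ^ m 0 * l1 ^ m 1).IsHomogeneous (1 * m 0 + 1 * m 1) :=
        (IsHomogeneous.pow hl0 (m 0)).mul (IsHomogeneous.pow hl1 (m 1))
      have h4 := (isHomogeneous_C (Fin 4) (coeff m p)).mul h3
      rw [zero_add, one_mul, one_mul, hdeg] at h4
      exact h4
    · have h5 : (res P Q).toLinearMap (C (coeff m p) * (l0 ^ m 0 * l1 ^ m 1)) =
          C (coeff m p) * (X 0 ^ m 0 * X 1 ^ m 1) := by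
        rw [AlgHom.toLinearMap_apply, map_mul, map_mul, map_pow, map_pow, hr0, hr1]
        congr 1
        unfold res
        rw [aeval_C, algebraMap_eq]
      rw [h5, monomial_eq, Finsupp.prod_fintype _ _ (fun i => pow_zero _), Fin.prod_univ_two]

theorem LNA_finrank (n : ℕ) : finrank F (homogeneousSubmodule (Fin 2) F n) = n + 1 := by
  rw [homogeneousSubmodule_eq_finsupp_supported]
  let e : {d : Fin 2 →₀ ℕ | d.degree = n} ≃ Finset.HasAntidiagonal.antidiagonal n :=
    { toFun := fun d => ⟨(d.1 0, d.1 1), by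
        have h := d.2
        rw [Set.mem_ofPred_eq, Finsupp.degree_eq_sum, Fin.sum_univ_two] at h
        exact Finset.HasAntidiagonal.mem_antidiagonal.2 h⟩
      invFun := fun x => ⟨Finsupp.equivFunOnFinite.symm ![x.1.1, x.1.2], by
        rw [Set.mem_ofPred_eq, Finsupp.degree_eq_sum, Fin.sum_univ_two]
        exact Finset.HasAntidiagonal.mem_antidiagonal.1 x.2⟩
      left_inv := fun d => by
        apply Subtype.ext
        ext i
        fin_cases i <;> rfl
      right_inv := fun x => by
        apply Subtype.ext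
        rfl }
  have h1 := (AddMonoidAlgebra.supportedEquivFinsupp (R := F) (S := F)
    {d : Fin 2 →₀ ℕ | d.degree = n}).finrank_eq
  have h2 := (Finsupp.domLCongr (M := F) (R := F) e).finrank_eq
  have h3 : finrank F (Finset.HasAntidiagonal.antidiagonal n →₀ F) = n + 1 := by
    rw [Module.finrank_finsupp_self, Fintype.card_coe, Finset.Nat.card_antidiagonal]
  rw [← h3, ← h2, ← h1]

theorem hf_lineI {P Q : Fin 4 → F} (h : LinearIndependent F ![P, Q]) (n : ℕ) :
    hf (lineI P Q) n = n + 1 := by
  let L : Fm F n →ₗ[F] MvPolynomial (Fin 2) F := (res P Q).toLinearMap.domRestrict (Fm F n)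
  have h1 : LinearMap.range L = homogeneousSubmodule (Fin 2) F n := by
    rw [← LNA_surj h n]
    ext x
    constructor
    · rintro ⟨f, rfl⟩
      exact ⟨f.1, f.2, rfl⟩
    · rintro ⟨f, hf', rfl⟩
      exact ⟨⟨f, hf'⟩, rfl⟩
  have h2 : LinearMap.ker L = (part (lineI P Q) n).comap (Fm F n).subtype := by
    ext x
    rw [LinearMap.mem_ker, Submodule.mem_comap, mem_part, LNA_mem]
    constructor
    · intro hx
      exact ⟨hx, x.2⟩
    · intro hx
      exact hx.1
  have h3 : finrank F (LinearMap.ker L) = finrank F (part (lineI P Q) n) := by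
    rw [h2]
    exact (Submodule.comapSubtypeEquivOfLe (inf_le_right : part (lineI P Q) n ≤ Fm F n)).finrank_eq
  have h4 := LinearMap.finrank_range_add_finrank_ker L
  rw [h1, h3, LNA_finrank] at h4
  unfold hf
  rw [← h4]
  push_cast
  ring

theorem Lin_lineI {P Q : Fin 4 → F} (h : LinearIndependent F ![P, Q]) : Lin (lineI P Q) 1 1 :=
  ⟨0, fun n _ => by rw [hf_lineI h n]; push_cast; ring⟩

theorem not_Bdd_lineI {P Q : Fin 4 → F} (h : LinearIndependent F ![P, Q]) :
    ¬ Bdd (lineI P Q) := by
  rw [Lin_Bdd_iff (Lin_lineI h)]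
  exact one_ne_zero

end Pool.H33.G
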