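import Pool.Agent.H33.G.BD

/-! # LOWA: Chinese remainder theorem in large degrees

By induction over finsets: if every `q j ⊔ q j'` contains all forms of large degree then so does
`q j ⊔ (inf of the others)` (a product of forms: `⨅ ≥ ∏`, and `(q ⊔ a) (q ⊔ b) ≤ q ⊔ a b`; a form of
large degree is a sum of products of forms of large degree); then `hf_inf_add_sup`. -/

open MvPolynomial Module

namespace Pool.H33.G

variable {F : Type} [Field F]

/-- the ideal contains all forms of large degree -/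
def LOWA_Big (K : Ideal (A4 F)) : Prop := ∃ N : ℕ, ∀ n ≥ N, Fm F n ≤ part K n

theorem LOWA_Big_mono {K L : Ideal (A4 F)} (h : K ≤ L) (hK : LOWA_Big K) : LOWA_Big L := by
  obtain ⟨N, hN⟩ := hK
  exact ⟨N, fun n hn => (hN n hn).trans (part_mono h n)⟩

theorem LOWA_mul_mem {R : Type} [CommRing R] (q a b : Ideal R) {r s : R} (hr : r ∈ q ⊔ a)
    (hs : s ∈ q ⊔ b) : r * s ∈ q ⊔ a * b := by
  obtain ⟨r1, hr1, r2, hr2, rfl⟩ := Submodule.mem_sup.1 hr
  obtain ⟨s1, hs1, s2, hs2, rfl⟩ := Submodule.mem_sup.1 hs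
  refine Submodule.mem_sup.2 ⟨r1 * (s1 + s2) + r2 * s1, ?_, r2 * s2, Ideal.mul_mem_mul hr2 hs2, ?_⟩
  · exact q.add_mem (q.mul_mem_right _ hr1) (q.mul_mem_left _ hs1)
  · ring

theorem LOWA_Big_mul {q a b : Ideal (A4 F)} (ha : LOWA_Big (q ⊔ a)) (hb : LOWA_Big (q ⊔ b)) :
    LOWA_Big (q ⊔ a * b) := by
  obtain ⟨N1, h1⟩ := ha
  obtain ⟨N2, h2⟩ := hb
  refine ⟨N1 + N2, fun n hn c hc => ?_⟩
  rw [mem_part]
  refine ⟨?_, hc⟩
  rw [c.as_sum]
  refine (q ⊔ a * b).sum_mem fun d hd => ?_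
  have hd1 : d.degree = n := by
    by_contra hne
    have := IsHomogeneous.coeff_eq_zero hc hne
    exact (MvPolynomial.mem_support_iff.1 hd) this
  obtain ⟨e, hed, he⟩ := Finsupp.exists_le_degree_eq d N2 (by omega)
  have h3 : monomial d (coeff d c) = monomial (d - e) (coeff d c) * monomial e (1 : F) := by
    rw [monomial_mul, mul_one, tsub_add_cancel_of_le hed]
  have h4 : (d - e).degree = n - N2 := by
    have h5 : (d - e).degree + e.degree = d.degree := by
      rw [← map_add, tsub_add_cancel_of_le hed]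
    omega
  have h6 : monomial (d - e) (coeff d c) ∈ q ⊔ a :=
    (h1 (n - N2) (by omega) (isHomogeneous_monomial _ h4)).1
  have h7 : monomial e (1 : F) ∈ q ⊔ b := (h2 N2 le_rfl (isHomogeneous_monomial _ he)).1
  rw [h3]
  exact LOWA_mul_mem q a b h6 h7

theorem LOWA_Big_inf {κ : Type} [DecidableEq κ] {q : κ → Ideal (A4 F)}
    (hc : ∀ j j', j ≠ j' → ∃ N : ℕ, ∀ n ≥ N, Fm F n ≤ part (q j ⊔ q j') n) (j : κ)
    (s : Finset κ) (hj : j ∉ s) : LOWA_Big (q j ⊔ s.inf q) := by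
  have h1 : LOWA_Big (q j ⊔ ∏ i ∈ s, q i) := by
    induction s using Finset.induction_on with
    | empty =>
      refine ⟨0, fun n _ c hc' => ⟨?_, hc'⟩⟩
      rw [Finset.prod_empty, Ideal.one_eq_top, sup_top_eq]
      trivial
    | insert i s hi ih =>
      rw [Finset.prod_insert hi]
      apply LOWA_Big_mul
      · apply hc
        rintro rfl
        exact hj (Finset.mem_insert_self _ _)
      · exact ih fun h => hj (Finset.mem_insert_of_mem h)
  apply LOWA_Big_mono _ h1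
  apply sup_le_sup_left
  exact Ideal.prod_le_inf

theorem LOWA_hf_zero {K : Ideal (A4 F)} {n : ℕ} (h : Fm F n ≤ part K n) : hf K n = 0 := by
  have h1 : part K n = Fm F n := le_antisymm inf_le_right h
  unfold hf
  rw [h1, sub_self]

theorem hf_iInf_coprime {κ : Type} [Fintype κ] [DecidableEq κ] {q : κ → Ideal (A4 F)}
    (hq : ∀ j, HI (q j)) (hc : ∀ j j', j ≠ j' → ∃ N : ℕ, ∀ n ≥ N, Fm F n ≤ part (q j ⊔ q j') n) :
    ∃ n0 : ℕ, ∀ n ≥ n0, hf (⨅ j, q j) n = ∑ j, hf (q j) n := by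
  have h : ∀ s : Finset κ, ∃ n0 : ℕ, ∀ n ≥ n0, hf (s.inf q) n = ∑ j ∈ s, hf (q j) n := by
    intro s
    induction s using Finset.induction_on with
    | empty => exact ⟨0, fun n _ => by rw [Finset.inf_empty, hf_top, Finset.sum_empty]⟩
    | insert j s hj ih =>
      obtain ⟨n0, h0⟩ := ih
      obtain ⟨n1, h1⟩ := LOWA_Big_inf hc j s hj
      refine ⟨n0 + n1, fun n hn => ?_⟩
      rw [Finset.inf_insert, Finset.sum_insert hj, ← h0 n (by omega)]
      have h2 := hf_inf_add_sup (hq j) (HI_finset_inf (s := s) fun i _ => hq i) n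
      rw [LOWA_hf_zero (h1 n (by omega)), add_zero] at h2
      exact h2
  obtain ⟨n0, h0⟩ := h Finset.univ
  refine ⟨n0, fun n hn => ?_⟩
  rw [← h0 n hn, Finset.inf_univ_eq_iInf]

theorem crt_large {κ : Type} [Fintype κ] [DecidableEq κ] {q : κ → Ideal (A4 F)}
    (hq : ∀ j, HI (q j)) (hc : ∀ j j', j ≠ j' → ∃ N : ℕ, ∀ n ≥ N, Fm F n ≤ part (q j ⊔ q j') n) :
    ∃ n0 : ℕ, ∀ n ≥ n0, ∀ f : κ → A4 F, (∀ j, f j ∈ Fm F n) → ∃ h ∈ Fm F n, ∀ j, h - f j ∈ q j := by
  have h : ∀ s : Finset κ, ∃ n0 : ℕ, ∀ n ≥ n0, ∀ f : κ → A4 F, (∀ j, f j ∈ Fm F n) →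
      ∃ h ∈ Fm F n, ∀ j ∈ s, h - f j ∈ q j := by
    intro s
    induction s using Finset.induction_on with
    | empty =>
      exact ⟨0, fun n _ f _ => ⟨0, Submodule.zero_mem _, fun j hj => absurd hj (Finset.notMem_empty j)⟩⟩
    | insert j s hj ih =>
      obtain ⟨n0, h0⟩ := ih
      obtain ⟨n1, h1⟩ := LOWA_Big_inf hc j s hj
      refine ⟨n0 + n1, fun n hn f hf => ?_⟩
      obtain ⟨h, hh, hs⟩ := h0 n (by omega) f hf
      have h2 : f j - h ∈ part (q j ⊔ s.inf q) n :=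
        h1 n (by omega) (Submodule.sub_mem _ (hf j) hh)
      rw [HF2_part_sup (hq j) (HI_finset_inf (s := s) fun i _ => hq i)] at h2
      obtain ⟨u, hu, v, hv, huv⟩ := Submodule.mem_sup.1 h2
      refine ⟨h + v, Submodule.add_mem _ hh hv.2, fun i hi => ?_⟩
      rcases Finset.mem_insert.1 hi with rfl | hi
      · have h3 : h + v - f i = -u := by
          have : u + v = f i - h := huv
          linear_combination this
        rw [h3]
        exact (q i).neg_mem hu.1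
      · have h3 : h + v - f i = (h - f i) + v := by ring
        rw [h3]
        apply (q i).add_mem (hs i hi)
        exact (Submodule.mem_finsetInf.1 hv.1) i hi
  obtain ⟨n0, h0⟩ := h Finset.univ
  refine ⟨n0, fun n hn f hf => ?_⟩
  obtain ⟨h, hh, hs⟩ := h0 n hn f hf
  exact ⟨h, hh, fun j => hs j (Finset.mem_univ j)⟩

end Pool.H33.G
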