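import Pool.Agent.H33.G.LNS
import Pool.Agent.H33.G.LOWA

/-! # LOW: lower bound for the Hilbert function of a union of lines and double lines

Let `A = ⨅ vI (T i)`, `B = ⨅ q j`.
(1) (`hf_iInf_coprime`) `hf A n = card ι * (n+1)` for large `n` and `hf B n = Σ hf (q j) n` for large `n`.
(2) `hf (A ⊓ B) = hf A + hf B - hf (A ⊔ B)`; in large degrees `⨅ (vI (T i) ⊔ B) ≤ A ⊔ B` (`sup_inf_large`),
so `hf (A ⊔ B) n ≤ Σ_i hf (vI (T i) ⊔ B) n`.
(3) `hf (vI (T i) ⊔ B) n ≤ 2 #{j | (i,j) ∈ Γ'}`: let `F = ∏ l_j ^ 2` with linear forms `l_j ∈ vI (L j)`,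
`l_j ∉ vI (T i)`, over these `j`; `vI (T i) ⊔ B` contains all multiples of `F` of large degree, and
`hf (vI (T i) ⊔ (F)) n = deg F`.  -/

open MvPolynomial Module

namespace Pool.H33.G

variable {F : Type} [Field F]

section Aux

attribute [local instance] MvPolynomial.gradedAlgebra

private theorem hc_mul_right {a b : A4 F} {j : ℕ} (hb : b ∈ Fm F j) (i : ℕ) :
    homogeneousComponent (i + j) (a * b) = homogeneousComponent i a * b := by
  have h := DirectSum.coe_decompose_mul_add_of_right_mem (homogeneousSubmodule (Fin 4) F)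
    (i := i) (a := a) hb
  have h1 := decomposition.decompose'_apply (a * b) (i + j)
  have h2 := decomposition.decompose'_apply a i
  rw [← h1, ← h2]
  exact h

end Aux

private theorem hc_of_mem {f : A4 F} {n : ℕ} (h : f ∈ Fm F n) : homogeneousComponent n f = f := by
  have := homogeneousComponent_of_mem h (m := n)
  simpa using this

private theorem form_mem_pow {J : Ideal (A4 F)} (hJ : ∀ a, (X a : A4 F) ∈ J) {N n : ℕ}
    (h : N ≤ n) {f : A4 F} (hf : f ∈ Fm F n) : f ∈ J ^ N := by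
  apply Ideal.pow_le_pow_right h
  rw [f.as_sum]
  apply Ideal.sum_mem
  intro u hu
  have hdeg : u.degree = n := by
    have := (mem_homogeneousSubmodule n f).1 hf (mem_support_iff.1 hu)
    rw [← this, Finsupp.degree_eq_weight_one]
    rfl
  rw [monomial_eq]
  apply Ideal.mul_mem_left
  rw [Finsupp.prod_fintype _ _ (fun i => pow_zero _)]
  have h2 : ∏ a, (X a : A4 F) ^ (u a) ∈ ∏ a, J ^ (u a) :=
    Ideal.prod_mem_prod fun a _ => Ideal.pow_mem_pow (hJ a) _
  rw [Finset.prod_pow_eq_pow_sum] at h2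
  have h3 : ∑ a, u a = n := by
    rw [← hdeg, Finsupp.degree_eq_sum]
  rwa [h3] at h2

private theorem mul_sup_le {I K P : Ideal (A4 F)} : (I ⊔ K) * (I ⊔ P) ≤ I ⊔ K * P := by
  refine Ideal.mul_le.2 fun r hr s hs => ?_
  obtain ⟨a, ha, b, hb, rfl⟩ := Submodule.mem_sup.1 hr
  obtain ⟨c, hc, d, hd, rfl⟩ := Submodule.mem_sup.1 hs
  have : (a + b) * (c + d) = (a * (c + d) + b * c) + b * d := by ring
  rw [this]
  exact Submodule.add_mem_sup (I.add_mem (I.mul_mem_right _ ha) (I.mul_mem_left _ hc))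
    (Ideal.mul_mem_mul hb hd)

private theorem prod_sup_le {κ : Type} {I : Ideal (A4 F)} (K : κ → Ideal (A4 F)) (s : Finset κ) :
    ∏ j ∈ s, (I ⊔ K j) ≤ I ⊔ ∏ j ∈ s, K j := by
  classical
  induction s using Finset.induction_on with
  | empty => simp
  | insert j s hj ih =>
    rw [Finset.prod_insert hj, Finset.prod_insert hj]
    exact le_trans (Ideal.mul_mono_right ih) mul_sup_le

private theorem sq_sup_le {I K : Ideal (A4 F)} : (I ⊔ K) ^ 2 ≤ I ⊔ K ^ 2 := by
  rw [pow_two, pow_two]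
  exact mul_sup_le

/-- in large degrees, intersections of coprime ideals commute with sums -/
private theorem sup_inf_large {κ : Type} [Fintype κ] [DecidableEq κ] {q : κ → Ideal (A4 F)}
    {B : Ideal (A4 F)} (hB : HI B)
    (hq : ∀ j, HI (q j)) (hc : ∀ j j', j ≠ j' → ∃ N : ℕ, ∀ n ≥ N, Fm F n ≤ part (q j ⊔ q j') n) :
    ∃ n0 : ℕ, ∀ n ≥ n0, part (⨅ j, (q j ⊔ B)) n ≤ part ((⨅ j, q j) ⊔ B) n := by
  obtain ⟨n0, hn0⟩ := crt_large hq hc
  obtain ⟨r, hr⟩ := part_gen (HI_iInf fun j => HI_sup (hq j) hB)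
  have hr := hr r le_rfl
  -- products
  have key : ∀ m ≥ n0, ∀ c ∈ Fm F m, ∀ z ∈ (⨅ j, (q j ⊔ B)), c * z ∈ (⨅ j, q j) ⊔ B := by
    intro m hm c hcm z hz
    choose u hu hu' using fun i : κ => hn0 m hm (fun j => if j = i then c else 0) (by
      intro j
      split_ifs
      · exact hcm
      · exact Submodule.zero_mem _)
    have e : c * z = (c - ∑ i, u i) * z + ∑ i, u i * z := by
      rw [sub_mul, Finset.sum_mul]; ring
    rw [e]
    refine Ideal.add_mem _ ?_ (Ideal.sum_mem _ fun i _ => ?_)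
    · apply Ideal.mul_mem_right
      apply (le_sup_left : (⨅ j, q j) ≤ (⨅ j, q j) ⊔ B)
      rw [Ideal.mem_iInf]
      intro j
      have h1 : c - ∑ i, u i = - ∑ i, (u i - if j = i then c else 0) := by
        rw [Finset.sum_sub_distrib, Finset.sum_ite_eq]
        simp
      rw [h1]
      apply neg_mem
      apply Ideal.sum_mem
      intro i _
      exact hu' i j
    · have hzi : z ∈ q i ⊔ B := by
        rw [Ideal.mem_iInf] at hz
        exact hz i
      obtain ⟨a, ha, b, hb, rfl⟩ := Submodule.mem_sup.1 hzi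
      rw [mul_add]
      refine Submodule.add_mem_sup ?_ (B.mul_mem_left _ hb)
      rw [Ideal.mem_iInf]
      intro j
      by_cases hji : j = i
      · subst hji
        exact Ideal.mul_mem_left _ _ ha
      · have := hu' i j
        rw [if_neg hji, sub_zero] at this
        exact Ideal.mul_mem_right _ _ this
  refine ⟨n0 + r, fun n hn => ?_⟩
  rw [← hr n (by omega)]
  intro f hf
  rw [mem_part] at hf ⊢
  refine ⟨?_, hf.2⟩
  obtain ⟨m, rfl⟩ : ∃ m, n = m + r := ⟨n - r, by omega⟩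
  have hm : m ≥ n0 := by omega
  have h2 : homogeneousComponent (m + r) f ∈ (⨅ j, q j) ⊔ B := by
    have h3 := hf.1
    refine Submodule.closure_induction (p := fun x _ =>
      homogeneousComponent (m + r) x ∈ (⨅ j, q j) ⊔ B) ?_ ?_ ?_ h3
    · rw [map_zero]; exact Submodule.zero_mem _
    · intro x y _ _ hx hy
      rw [map_add]
      exact Submodule.add_mem _ hx hy
    · intro a x hx
      have hx' := mem_part.1 hx
      rw [smul_eq_mul, hc_mul_right hx'.2]
      exact key m hm _ (homogeneousComponent_mem m a) x hx'.1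
  rwa [hc_of_mem hf.2] at h2

/-- separating linear form -/
private theorem exists_linear {Λ Λ' : Submodule F (Fin 4 → F)} (h : ¬ Λ ≤ Λ') :
    ∃ l ∈ Fm F 1, l ∈ vI Λ' ∧ l ∉ vI Λ := by
  obtain ⟨v, hv, hv'⟩ := Set.not_subset.1 h
  obtain ⟨φ, hφ, hφ'⟩ := Submodule.exists_dual_map_eq_bot_of_notMem hv' inferInstance
  have heval : ∀ w : Fin 4 → F, eval w (∑ a, C (φ (Pi.single a 1)) * X a : A4 F) = φ w := by
    intro w
    rw [map_sum]
    conv_rhs => rw [← Finset.univ_sum_single w, map_sum]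
    apply Finset.sum_congr rfl
    intro a _
    have : (Pi.single a (w a) : Fin 4 → F) = w a • Pi.single a 1 := by
      rw [← Pi.single_smul, smul_eq_mul, mul_one]
    rw [this, map_smul]
    simp [mul_comm]
  refine ⟨∑ a, C (φ (Pi.single a 1)) * X a, ?_, ?_, ?_⟩
  · apply Submodule.sum_mem
    intro a _
    rw [mem_homogeneousSubmodule]
    simpa using (isHomogeneous_C (Fin 4) (φ (Pi.single a 1))).mul (isHomogeneous_X F a)
  · intro w hw
    rw [heval]
    have : φ w ∈ Submodule.map φ Λ' := Submodule.mem_map_of_mem hw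
    rw [hφ'] at this
    simpa using this
  · intro hl
    have := hl v hv
    rw [heval] at this
    exact hφ this

variable [Infinite F]

/-- the local bound on one line -/
private theorem line_bound {κ : Type} [Fintype κ] [DecidableEq κ] (T : Submodule F (Fin 4 → F))
    (L : κ → Submodule F (Fin 4 → F)) (hT : finrank F T = 2) (hL : ∀ j, finrank F (L j) = 2)
    (hne : ∀ j, T ≠ L j) (q : κ → Ideal (A4 F)) (hq : ∀ j, HI (q j))
    (hq1 : ∀ j, (vI (L j)) ^ 2 ≤ q j) (s : Finset κ) (hs : ∀ j, j ∉ s → T ⊓ L j = ⊥) :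
    ∃ n0 : ℕ, ∀ n ≥ n0, hf (vI T ⊔ ⨅ j, q j) n ≤ 2 * s.card := by
  have hnle : ∀ j, ¬ T ≤ L j := by
    intro j hle
    exact hne j (Submodule.eq_of_le_of_finrank_eq hle (by rw [hT, hL]))
  choose l hl1 hl2 hl3 using fun j => exists_linear (hnle j)
  have hIp := vI_isPrime (F := F) T
  have hIh := HI_vI (F := F) T
  set G : A4 F := ∏ j ∈ s, l j ^ 2 with hG
  have hGm : G ∈ Fm F (2 * s.card) := by
    rw [mem_homogeneousSubmodule]
    have := IsHomogeneous.prod s (fun j => l j ^ 2) (fun _ => 2) (fun j _ => by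
      have := ((mem_homogeneousSubmodule 1 (l j)).1 (hl1 j)).pow 2
      simpa using this)
    simpa [mul_comm] using this
  have hGn : G ∉ vI T := by
    rw [hG, hIp.prod_mem_iff]
    rintro ⟨j, _, hj⟩
    exact hl3 j (hIp.mem_of_pow_mem _ hj)
  have hcln : cln (vI T) (Ideal.span {G}) = vI T := by
    apply le_antisymm
    · intro f hf
      have := hf G (Ideal.mem_span_singleton_self G)
      exact (hIp.mem_or_mem this).resolve_right hGn
    · intro f hf g _
      exact Ideal.mul_mem_right _ _ hf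
  have hfG : ∀ n, hf (vI T ⊔ Ideal.span {G}) (n + 2 * s.card) = 2 * s.card := by
    intro n
    have h1 := hf_colon hIh hGm n
    rw [hcln, hf_vI hT, hf_vI hT] at h1
    push_cast at h1
    linarith
  refine ⟨2 * s.card + 2 * sᶜ.card, fun n hn => ?_⟩
  obtain ⟨m, rfl⟩ : ∃ m, n = m + 2 * s.card := ⟨n - 2 * s.card, by omega⟩
  rw [← hfG m]
  apply hf_anti_part
  intro f hf
  rw [mem_part] at hf ⊢
  refine ⟨?_, hf.2⟩
  obtain ⟨x, hx, y, hy, hxy⟩ := Submodule.mem_sup.1 hf.1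
  obtain ⟨z, rfl⟩ := Ideal.mem_span_singleton'.1 hy
  have h2 : f = homogeneousComponent (m + 2 * s.card) x + homogeneousComponent m z * G := by
    rw [← hc_mul_right hGm, ← map_add, hxy, hc_of_mem hf.2]
  rw [h2]
  refine Ideal.add_mem _ ((le_sup_left : vI T ≤ _) (hIh x hx _)) ?_
  -- the ideal inclusion
  have hle : (vI T ⊔ ∏ j ∈ sᶜ, (vI (L j)) ^ 2) * (∏ j ∈ s, (vI (L j)) ^ 2) ≤ vI T ⊔ ⨅ j, q j := by
    have h3 : (vI T ⊔ ∏ j ∈ sᶜ, (vI (L j)) ^ 2) * (∏ j ∈ s, (vI (L j)) ^ 2) ≤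
        vI T ⊔ (∏ j ∈ sᶜ, (vI (L j)) ^ 2) * (∏ j ∈ s, (vI (L j)) ^ 2) :=
      le_trans (Ideal.mul_mono_right le_sup_right) mul_sup_le
    refine le_trans h3 (sup_le le_sup_left (le_trans ?_ le_sup_right))
    rw [mul_comm, Finset.prod_mul_prod_compl]
    refine le_trans ?_ (le_trans (Ideal.prod_le_inf (s := Finset.univ) (f := q)) ?_)
    · exact Finset.prod_le_prod' fun j _ => hq1 j
    · rw [Finset.inf_univ_eq_iInf]
  apply hle
  apply Ideal.mul_mem_mul
  · -- z part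
    have hm : 2 * sᶜ.card ≤ m := by omega
    set M : Ideal (A4 F) := Ideal.span (Set.range fun a => (X a : A4 F)) with hM
    have h4 : homogeneousComponent m z ∈ M ^ (2 * sᶜ.card) :=
      form_mem_pow (J := M) (fun a => Ideal.subset_span (Set.mem_range_self a)) hm
        (homogeneousComponent_mem m z)
    have h5 : M ^ (2 * sᶜ.card) ≤ vI T ⊔ ∏ j ∈ sᶜ, (vI (L j)) ^ 2 := by
      rw [pow_mul, ← Finset.prod_const]
      refine le_trans (Finset.prod_le_prod' (g := fun j => vI T ⊔ (vI (L j)) ^ 2) ?_)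
        (prod_sup_le (fun j => (vI (L j)) ^ 2) sᶜ)
      intro j hj
      refine le_trans (Ideal.pow_right_mono ?_ 2) sq_sup_le
      rw [hM, Ideal.span_le]
      rintro _ ⟨a, rfl⟩
      exact vI_sup_of_disjoint (hs j (Finset.mem_compl.1 hj)) a
    exact h5 h4
  · exact Ideal.prod_mem_prod fun j _ => Ideal.pow_mem_pow (hl2 j) 2

theorem low {ι κ : Type} [Fintype ι] [Fintype κ] [DecidableEq ι] [DecidableEq κ]
    (T : ι → Submodule F (Fin 4 → F)) (L : κ → Submodule F (Fin 4 → F))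
    (hT : ∀ i, finrank F (T i) = 2) (hL : ∀ j, finrank F (L j) = 2)
    (hTd : ∀ i i', i ≠ i' → T i ⊓ T i' = ⊥) (hLd : ∀ j j', j ≠ j' → L j ⊓ L j' = ⊥)
    (hne : ∀ i j, T i ≠ L j) (q : κ → Ideal (A4 F)) (hq : ∀ j, HI (q j))
    (hq1 : ∀ j, (vI (L j)) ^ 2 ≤ q j) (hq2 : ∀ j, q j ≤ vI (L j)) (Γ' : Finset (ι × κ))
    (hΓ : ∀ i j, (i, j) ∉ Γ' → T i ⊓ L j = ⊥) :
    ∃ n0 : ℕ, ∀ n ≥ n0, (Fintype.card ι : ℤ) * (n + 1) + ∑ j, hf (q j) n - 2 * Γ'.card ≤
      hf ((⨅ i, vI (T i)) ⊓ (⨅ j, q j)) n := by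
  have hIh : ∀ i, HI (vI (T i)) := fun i => HI_vI (T i)
  have hA : HI (⨅ i, vI (T i)) := HI_iInf hIh
  have hB : HI (⨅ j, q j) := HI_iInf hq
  have hcT : ∀ i i', i ≠ i' → ∃ N : ℕ, ∀ n ≥ N, Fm F n ≤ part (vI (T i) ⊔ vI (T i')) n := by
    intro i i' h
    refine ⟨1, fun n hn f hf => mem_part.2 ⟨?_, hf⟩⟩
    have := form_mem_pow (vI_sup_of_disjoint (hTd i i' h)) hn hf
    rwa [pow_one] at this
  have hcq : ∀ j j', j ≠ j' → ∃ N : ℕ, ∀ n ≥ N, Fm F n ≤ part (q j ⊔ q j') n := by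
    intro j j' h
    refine ⟨4, fun n hn f hf => mem_part.2 ⟨?_, hf⟩⟩
    have h1 := form_mem_pow (vI_sup_of_disjoint (hLd j j' h)) hn hf
    have h2 : (vI (L j) ⊔ vI (L j')) ^ (2 + 2) ≤ vI (L j) ^ 2 ⊔ vI (L j') ^ 2 :=
      Ideal.sup_pow_add_le_pow_sup_pow
    exact sup_le_sup (hq1 j) (hq1 j') (h2 h1)
  obtain ⟨n1, hn1⟩ := hf_iInf_coprime hIh hcT
  obtain ⟨n2, hn2⟩ := hf_iInf_coprime hq hcq
  obtain ⟨n3, hn3⟩ := sup_inf_large hB hIh hcT
  choose n4 hn4 using fun i : ι => line_bound (T i) L (hT i) hL (hne i) q hq hq1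
    (Finset.univ.filter fun j => (i, j) ∈ Γ') (fun j hj => hΓ i j (by simpa using hj))
  refine ⟨max (max n1 n2) (max n3 (∑ i, n4 i)), fun n hn => ?_⟩
  have hn1' := hn1 n (by omega)
  have hn2' := hn2 n (by omega)
  have hn3' := hn3 n (by omega)
  have hn4' : ∀ i, hf (vI (T i) ⊔ ⨅ j, q j) n ≤
      2 * (Finset.univ.filter fun j => (i, j) ∈ Γ').card := by
    intro i
    apply hn4 i n
    have : n4 i ≤ ∑ i, n4 i := Finset.single_le_sum (fun _ _ => Nat.zero_le _) (Finset.mem_univ i)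
    omega
  have h1 := hf_inf_add_sup hA hB n
  have h2 : hf ((⨅ i, vI (T i)) ⊔ ⨅ j, q j) n ≤ 2 * Γ'.card := by
    refine le_trans (hf_anti_part hn3') ?_
    have h3 := hf_finset_inf_le (s := Finset.univ) (I := fun i => vI (T i) ⊔ ⨅ j, q j)
      (fun i _ => HI_sup (hIh i) hB) n
    rw [Finset.inf_univ_eq_iInf] at h3
    refine le_trans h3 (le_trans (Finset.sum_le_sum fun i _ => hn4' i) ?_)
    rw [← Finset.mul_sum]
    have h4 : ∑ i, (Finset.univ.filter fun j => (i, j) ∈ Γ').card = Γ'.card := by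
      have : ∀ i, (Finset.univ.filter fun j => (i, j) ∈ Γ').card =
          (Γ'.filter fun p => p.1 = i).card := by
        intro i
        rw [← Finset.card_map ⟨fun j => (i, j), Prod.mk_right_injective i⟩]
        congr 1
        ext ⟨a, b⟩
        simp only [Finset.mem_map, Finset.mem_filter, Finset.mem_univ, true_and,
          Function.Embedding.coeFn_mk, Prod.mk.injEq]
        constructor
        · rintro ⟨j, hj, rfl, rfl⟩
          exact ⟨hj, rfl⟩
        · rintro ⟨h, rfl⟩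
          exact ⟨b, h, rfl, rfl⟩
      simp_rw [this]
      exact (Finset.card_eq_sum_card_fiberwise (fun p _ => Finset.mem_univ p.1)).symm
    have h5 : (∑ i, ((Finset.univ.filter fun j => (i, j) ∈ Γ').card : ℤ)) = Γ'.card := by
      exact_mod_cast h4
    rw [h5]
  have h6 : ∑ i, hf (vI (T i)) n = (Fintype.card ι : ℤ) * (n + 1) := by
    simp_rw [hf_vI (hT _)]
    rw [Finset.sum_const, Finset.card_univ, nsmul_eq_mul]
  rw [hn1', hn2', h6] at h1
  linarith

end Pool.H33.G
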