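import Pool.Agent.H33.G.EXA

/-! # NB: double structures in the limit have bounded defect

`J ⊇ (lI j)^2` and `J ⊇ C.ideal` in large degrees.  Let `y0,y1,u,w` be dual to `P,Q,U,V` (index `j`),
`γ = G(y0,y1) u - y0^M w ∈ dI j` (`G = hg (g j) (M j)`).  Modulo `(lI j)^2`, `part (dI j) n` is
`γ * F[y0,y1]_{n-1-M}`.  For `k ∈ K := (⨅ tI) ⊓ (⨅_{j' ≠ j} dI j')` one has `γ k ∈ C.ideal`.  The
restriction of `K` to the line `L j` contains the product of the restrictions of `tI i` and `(lI j')^2`: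
`(s,t)` if the lines are disjoint, `(l_i)` (`l_i` a nonzero linear form) if `(i,j) ∈ Γ`; so it contains in large
degree all multiples of a form of degree `ν_j = #{i | (i,j) ∈ Γ}`.  Hence
`dim (part (dI j) n) - dim (part ((lI j)^2 ⊔ J) n) ≤ ν_j` for large `n`, i.e.
`hf J n ≤ hf (dI j) n + ν_j = 2 n + 1 + M j + ν_j`. -/

open MvPolynomial Module

namespace Pool.H33.G

section Coord

variable {F : Type} [Field F] {P Q U V : Fin 4 → F}

/-- the linear form with given values -/
noncomputable def NB_F (l : (Fin 4 → F) →ₗ[F] F) : A4 F :=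
  ∑ a, C (l (fun j => if a = j then 1 else 0)) * X a

theorem NB_F_hom (l : (Fin 4 → F) →ₗ[F] F) : (NB_F l).IsHomogeneous 1 :=
  IsHomogeneous.sum _ _ _ fun _ _ => isHomogeneous_C_mul_X _ _

theorem NB_F_val (l : (Fin 4 → F) →ₗ[F] F) (v : Fin 4 → F) :
    ∑ a, l (fun j => if a = j then 1 else 0) * v a = l v := by
  rw [LinearMap.pi_apply_eq_sum_univ l v]
  refine Finset.sum_congr rfl fun a _ => ?_
  rw [smul_eq_mul, mul_comm]

theorem NB_F_res (l : (Fin 4 → F) →ₗ[F] F) :
    res P Q (NB_F l) = C (l P) * X 0 + C (l Q) * X 1 := by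
  unfold NB_F res
  rw [map_sum, ← NB_F_val l P, ← NB_F_val l Q, map_sum, map_sum, Finset.sum_mul, Finset.sum_mul,
    ← Finset.sum_add_distrib]
  refine Finset.sum_congr rfl fun a _ => ?_
  rw [map_mul, aeval_X, map_mul, map_mul, algHom_C]
  rw [algebraMap_eq]
  ring

theorem NB_F_dres (g : Polynomial F) (M : ℕ) (l : (Fin 4 → F) →ₗ[F] F) :
    dres P Q U V g M (NB_F l) = X 0 ^ M * C (l U) + hg g M * C (l V) := by
  have h : ∀ a, pderiv a (NB_F l) = C (l (fun j => if a = j then 1 else 0)) := by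
    intro a
    unfold NB_F
    rw [map_sum, Finset.sum_eq_single a]
    · rw [pderiv_C_mul, pderiv_X_self, mul_one]
    · intro b _ hb
      rw [pderiv_C_mul, pderiv_X_of_ne hb, mul_zero]
    · intro h
      exact absurd (Finset.mem_univ a) h
  unfold dres
  rw [← NB_F_val l U, ← NB_F_val l V, map_sum, map_sum, Finset.mul_sum, Finset.mul_sum,
    ← Finset.sum_add_distrib]
  refine Finset.sum_congr rfl fun a _ => ?_
  rw [h, algHom_C, algebraMap_eq, map_mul, map_mul]
  ring

theorem NB_X (b : Basis (Fin 4) F (Fin 4 → F)) (a : Fin 4) :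
    (X a : A4 F) = ∑ i, C (b i a) * NB_F (b.coord i) := by
  unfold NB_F
  simp only [Finset.mul_sum]
  rw [Finset.sum_comm]
  have h : ∀ c : Fin 4, ∑ i, C (b i a) * (C (b.coord i (fun j => if c = j then 1 else 0)) * X c) =
      (if c = a then X c else 0 : A4 F) := by
    intro c
    have h1 : ∑ i, b i a * b.coord i (fun j => if c = j then 1 else 0) = if c = a then 1 else 0 := by
      have h2 := congrFun (b.sum_repr (fun j => if c = j then (1 : F) else 0)) a
      rw [Finset.sum_apply] at h2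
      rw [← h2]
      refine Finset.sum_congr rfl fun i _ => ?_
      rw [Pi.smul_apply, smul_eq_mul, mul_comm]
      rfl
    have h3 : ∑ i, C (b i a) * (C (b.coord i (fun j => if c = j then 1 else 0)) * X c) =
        C (∑ i, b i a * b.coord i (fun j => if c = j then 1 else 0)) * (X c : A4 F) := by
      rw [map_sum, Finset.sum_mul]
      refine Finset.sum_congr rfl fun i _ => ?_
      rw [map_mul, mul_assoc]
    rw [h3, h1]
    split_ifs
    · rw [C_1, one_mul]
    · rw [C_0, zero_mul]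
  simp only [h]
  rw [Finset.sum_ite_eq']
  simp

theorem NB_dres_mul (g : Polynomial F) (M : ℕ) (f h : A4 F) : dres P Q U V g M (f * h) =
    res P Q f * dres P Q U V g M h + res P Q h * dres P Q U V g M f := by
  unfold dres
  rw [Finset.mul_sum, Finset.mul_sum, ← Finset.sum_add_distrib]
  refine Finset.sum_congr rfl fun a _ => ?_
  rw [pderiv_mul, map_add, map_mul, map_mul]
  ring

theorem NB_dres_add (g : Polynomial F) (M : ℕ) (f h : A4 F) : dres P Q U V g M (f + h) =
    dres P Q U V g M f + dres P Q U V g M h := by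
  unfold dres
  rw [← Finset.sum_add_distrib]
  refine Finset.sum_congr rfl fun a _ => ?_
  rw [map_add, map_add, add_mul]

theorem NB_dres_sub (g : Polynomial F) (M : ℕ) (f h : A4 F) : dres P Q U V g M (f - h) =
    dres P Q U V g M f - dres P Q U V g M h := by
  have := NB_dres_add (P := P) (Q := Q) (U := U) (V := V) g M (f - h) h
  rw [sub_add_cancel] at this
  rw [this, add_sub_cancel_right]

theorem NB_hg_hom (g : Polynomial F) (M : ℕ) : (hg g M).IsHomogeneous M := by
  unfold hg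
  refine IsHomogeneous.sum _ _ _ fun i hi => ?_
  rw [Finset.mem_range] at hi
  have h := ((isHomogeneous_C (Fin 2) (g.coeff i)).mul
    ((isHomogeneous_X_pow (R := F) (0 : Fin 2) (M - i)))).mul
    (isHomogeneous_X_pow (R := F) (1 : Fin 2) i)
  have e : 0 + (M - i) + i = M := by omega
  rw [e] at h
  exact h

theorem NB_hg_ne (g : Polynomial F) (M : ℕ) (hg' : g.natDegree = M) (hM : 0 < M) :
    hg g M ≠ 0 := by
  intro h0
  have hlc : g.coeff M ≠ 0 := by
    rw [← hg', Polynomial.coeff_natDegree]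
    intro h0
    rw [Polynomial.leadingCoeff_eq_zero] at h0
    rw [h0, Polynomial.natDegree_zero] at hg'
    omega
  apply hlc
  have h3 := congrArg (eval ![(0 : F), 1]) h0
  unfold hg at h3
  rw [map_sum, Finset.sum_eq_single M] at h3
  · simpa using h3
  · intro i hi' hne
    rw [Finset.mem_range] at hi'
    have h5 : M - i ≠ 0 := by omega
    simp only [map_mul, map_pow, eval_C, eval_X]
    have h4 : (![0, 1] : Fin 2 → F) 0 = 0 := rfl
    rw [h4, zero_pow h5, mul_zero, zero_mul]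
  · intro h
    exact absurd (Finset.mem_range.mpr (Nat.lt_succ_self M)) h

/-- dual coordinates and the section of the restriction -/
theorem NB_coords (hi : LinearIndependent F ![P, Q, U, V]) :
    ∃ (s : MvPolynomial (Fin 2) F →ₐ[F] A4 F) (u w : A4 F),
      (∀ p, res P Q (s p) = p) ∧ (∀ g M p, dres P Q U V g M (s p) = 0) ∧
      (∀ n p, p.IsHomogeneous n → (s p).IsHomogeneous n) ∧
      u.IsHomogeneous 1 ∧ w.IsHomogeneous 1 ∧ u ∈ lineI P Q ∧ w ∈ lineI P Q ∧
      (∀ g M, dres P Q U V g M u = X 0 ^ M) ∧ (∀ g M, dres P Q U V g M w = hg g M) ∧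
      (∀ f, f - s (res P Q f) ∈ Ideal.span {u, w}) := by
  let b : Basis (Fin 4) F (Fin 4 → F) := basisOfLinearIndependentOfCardEqFinrank hi (by simp)
  have hb : ∀ i, b i = ![P, Q, U, V] i := by
    intro i
    simp [b]
  have hc : ∀ i j, b.coord i (![P, Q, U, V] j) = if j = i then 1 else 0 := by
    intro i j
    rw [← hb, Basis.coord_apply, Basis.repr_self, Finsupp.single_apply]
  have hP : ∀ i, b.coord i P = if (0 : Fin 4) = i then 1 else 0 := fun i => hc i 0
  have hQ : ∀ i, b.coord i Q = if (1 : Fin 4) = i then 1 else 0 := fun i => hc i 1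
  have hU : ∀ i, b.coord i U = if (2 : Fin 4) = i then 1 else 0 := fun i => hc i 2
  have hV : ∀ i, b.coord i V = if (3 : Fin 4) = i then 1 else 0 := fun i => hc i 3
  have r0 : res P Q (NB_F (b.coord 0)) = X 0 := by
    rw [NB_F_res, hP, hQ]
    simp
  have r1 : res P Q (NB_F (b.coord 1)) = X 1 := by
    rw [NB_F_res, hP, hQ]
    simp
  have d0 : ∀ g M, dres P Q U V g M (NB_F (b.coord 0)) = 0 := by
    intro g M
    rw [NB_F_dres, hU, hV]
    simp
  have d1 : ∀ g M, dres P Q U V g M (NB_F (b.coord 1)) = 0 := by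
    intro g M
    rw [NB_F_dres, hU, hV]
    simp
  let s : MvPolynomial (Fin 2) F →ₐ[F] A4 F := aeval ![NB_F (b.coord 0), NB_F (b.coord 1)]
  have hs0 : s (X 0) = NB_F (b.coord 0) := by simp [s]
  have hs1 : s (X 1) = NB_F (b.coord 1) := by simp [s]
  have hsX : ∀ i, res P Q (s (X i)) = X i ∧ ∀ g M, dres P Q U V g M (s (X i)) = 0 := by
    intro i
    fin_cases i
    · exact ⟨by simpa [hs0] using r0, by simpa [hs0] using d0⟩
    · exact ⟨by simpa [hs1] using r1, by simpa [hs1] using d1⟩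
  have hsr : ∀ p, res P Q (s p) = p := by
    intro p
    have : (res P Q).comp s = AlgHom.id F _ := by
      apply MvPolynomial.algHom_ext
      intro i
      exact (hsX i).1
    exact congrArg (fun t : MvPolynomial (Fin 2) F →ₐ[F] MvPolynomial (Fin 2) F => t p) this
  refine ⟨s, NB_F (b.coord 2), NB_F (b.coord 3), hsr, ?_, ?_, NB_F_hom _, NB_F_hom _, ?_, ?_, ?_,
    ?_, ?_⟩
  · intro g M p
    induction p using MvPolynomial.induction_on with
    | C _ =>
      rw [algHom_C]
      unfold dres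
      refine Finset.sum_eq_zero fun c _ => ?_
      rw [algebraMap_eq, pderiv_C, map_zero, zero_mul]
    | add p q hp hq => rw [map_add, NB_dres_add, hp, hq, add_zero]
    | mul_X p i hp => rw [map_mul, NB_dres_mul, hp, (hsX i).2, mul_zero, mul_zero, add_zero]
  · intro n p hp
    have := hp.aeval (S := F) (τ := Fin 4) ![NB_F (b.coord 0), NB_F (b.coord 1)] (n := 1) (by
      intro i
      fin_cases i
      · exact NB_F_hom _
      · exact NB_F_hom _)
    rw [one_mul] at this
    exact this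
  · change res P Q _ = 0
    rw [NB_F_res, hP, hQ]
    simp
  · change res P Q _ = 0
    rw [NB_F_res, hP, hQ]
    simp
  · intro g M
    rw [NB_F_dres, hU, hV]
    simp
  · intro g M
    rw [NB_F_dres, hU, hV]
    simp
  · set I : Ideal (A4 F) := Ideal.span {NB_F (b.coord 2), NB_F (b.coord 3)} with hI
    have hu : NB_F (b.coord 2) ∈ I := Ideal.subset_span (by simp)
    have hw : NB_F (b.coord 3) ∈ I := Ideal.subset_span (by simp)
    have key : (Ideal.Quotient.mkₐ F I).comp (s.comp (res P Q)) = Ideal.Quotient.mkₐ F I := by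
      apply MvPolynomial.algHom_ext
      intro a
      change Ideal.Quotient.mk I (s (res P Q (X a))) = Ideal.Quotient.mk I (X a)
      rw [eq_comm, ← sub_eq_zero, ← map_sub, Ideal.Quotient.eq_zero_iff_mem]
      have h1 : s (res P Q (X a)) = C (P a) * NB_F (b.coord 0) + C (Q a) * NB_F (b.coord 1) := by
        unfold res
        rw [aeval_X, map_add, map_mul, map_mul, hs0, hs1, algHom_C, algHom_C]
        rfl
      have h2 : (X a : A4 F) = C (P a) * NB_F (b.coord 0) + C (Q a) * NB_F (b.coord 1) +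
          C (U a) * NB_F (b.coord 2) + C (V a) * NB_F (b.coord 3) := by
        conv_lhs => rw [NB_X b a]
        rw [Fin.sum_univ_four]
        simp only [hb]
        rfl
      have h3 : (X a : A4 F) - s (res P Q (X a)) =
          C (U a) * NB_F (b.coord 2) + C (V a) * NB_F (b.coord 3) := by
        rw [h1]
        conv_lhs => rw [h2]
        ring
      rw [h3]
      exact I.add_mem (I.mul_mem_left _ hu) (I.mul_mem_left _ hw)
    intro f
    rw [← Ideal.Quotient.eq_zero_iff_mem, map_sub, sub_eq_zero]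
    exact (congrArg (fun t : A4 F →ₐ[F] (A4 F ⧸ I) => t f) key).symm

theorem NB_vars {P₁ P₂ P₃ P₄ : Fin 4 → F} (hi : LinearIndependent F ![P₁, P₂, P₃, P₄]) (a : Fin 4) :
    (X a : A4 F) ∈ lineI P₁ P₂ ⊔ lineI P₃ P₄ := by
  let b : Basis (Fin 4) F (Fin 4 → F) := basisOfLinearIndependentOfCardEqFinrank hi (by simp)
  have hb : ∀ i, b i = ![P₁, P₂, P₃, P₄] i := by
    intro i
    simp [b]
  have hc : ∀ i j, b.coord i (![P₁, P₂, P₃, P₄] j) = if j = i then 1 else 0 := by
    intro i j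
    rw [← hb, Basis.coord_apply, Basis.repr_self, Finsupp.single_apply]
  have h1 : ∀ i, b.coord i P₁ = if (0 : Fin 4) = i then 1 else 0 := fun i => hc i 0
  have h2 : ∀ i, b.coord i P₂ = if (1 : Fin 4) = i then 1 else 0 := fun i => hc i 1
  have h3 : ∀ i, b.coord i P₃ = if (2 : Fin 4) = i then 1 else 0 := fun i => hc i 2
  have h4 : ∀ i, b.coord i P₄ = if (3 : Fin 4) = i then 1 else 0 := fun i => hc i 3
  rw [NB_X b a]
  refine Ideal.sum_mem _ fun i _ => Ideal.mul_mem_left _ _ ?_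
  have hx : NB_F (b.coord i) ∈ lineI P₁ P₂ ∨ NB_F (b.coord i) ∈ lineI P₃ P₄ := by
    change res P₁ P₂ _ = 0 ∨ res P₃ P₄ _ = 0
    rw [NB_F_res, NB_F_res, h1, h2, h3, h4]
    fin_cases i <;> simp
  rcases hx with hx | hx
  · exact (le_sup_left : lineI P₁ P₂ ≤ lineI P₁ P₂ ⊔ lineI P₃ P₄) hx
  · exact (le_sup_right : lineI P₃ P₄ ≤ lineI P₁ P₂ ⊔ lineI P₃ P₄) hx

theorem NB_ind2 (hi : LinearIndependent F ![P, Q, U, V]) : LinearIndependent F ![P, Q] := by
  have h := hi.comp (![0, 1] : Fin 2 → Fin 4) (by decide)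
  have e : (![P, Q, U, V] ∘ (![0, 1] : Fin 2 → Fin 4)) = ![P, Q] := by
    funext i
    fin_cases i <;> rfl
  rwa [e] at h

theorem NB_hf_sq (hi : LinearIndependent F ![P, Q, U, V]) (n : ℕ) :
    hf ((lineI P Q) ^ 2) (n + 1) ≤ 3 * ((n : ℤ) + 1) + 1 := by
  obtain ⟨s, u, w, hs, -, hsn, hu, hw, hul, hwl, -, -, hsp⟩ := NB_coords hi
  have hHI : HI (lineI P Q) := HI_lineI P Q
  have hHI2 : HI ((lineI P Q) ^ 2) := HI_pow hHI 2
  have hu1 : u ∈ Fm F 1 := (mem_homogeneousSubmodule _ _).2 hu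
  have hw1 : w ∈ Fm F 1 := (mem_homogeneousSubmodule _ _).2 hw
  have h1 := hf_colon hHI2 hu1 n
  have h2 := hf_colon (HI_sup hHI2 (BD_HI_single hu1)) hw1 n
  have h3 : hf (cln ((lineI P Q) ^ 2) (Ideal.span {u})) n ≤ n + 1 := by
    rw [← hf_lineI (NB_ind2 hi) n]
    refine hf_anti (fun f hf' => ?_) n
    rw [BD_mem_cln_single, pow_two]
    exact Ideal.mul_mem_mul hf' hul
  have h4 : hf (cln ((lineI P Q) ^ 2 ⊔ Ideal.span {u}) (Ideal.span {w})) n ≤ n + 1 := by
    rw [← hf_lineI (NB_ind2 hi) n]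
    refine hf_anti (fun f hf' => ?_) n
    rw [BD_mem_cln_single, pow_two]
    exact (le_sup_left : lineI P Q * lineI P Q ≤ _) (Ideal.mul_mem_mul hf' hwl)
  have h5 : hf ((lineI P Q) ^ 2 ⊔ Ideal.span {u} ⊔ Ideal.span {w}) (n + 1) ≤ (n + 1 : ℕ) + 1 := by
    rw [← hf_lineI (NB_ind2 hi) (n + 1)]
    refine hf_anti (fun f hf' => ?_) (n + 1)
    have hf0 : res P Q f = 0 := hf'
    have := hsp f
    rw [hf0, map_zero, sub_zero] at this
    have hle : Ideal.span {u, w} ≤ (lineI P Q) ^ 2 ⊔ Ideal.span {u} ⊔ Ideal.span {w} := by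
      rw [Ideal.span_insert, sup_assoc]
      exact le_sup_right
    exact hle this
  push_cast at h5
  linarith

theorem NB_gamma (hi : LinearIndependent F ![P, Q, U, V]) {g : Polynomial F} {M : ℕ}
    (hg' : g.natDegree = M) (hM : 0 < M) :
    ∃ γ ∈ Fm F (M + 1), γ ∈ dblI P Q U V g M ∧ γ ∈ lineI P Q ∧
      ∀ f, f * γ ∈ (lineI P Q) ^ 2 → f ∈ lineI P Q := by
  obtain ⟨s, u, w, hs, hsd, hsn, hu, hw, hul, hwl, hdu, hdw, hsp⟩ := NB_coords hi
  refine ⟨s (hg g M) * u - s (X 0 ^ M) * w, ?_, ⟨?_, ?_⟩, ?_, ?_⟩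
  · rw [mem_homogeneousSubmodule]
    exact ((hsn _ _ (NB_hg_hom g M)).mul hu).sub
      ((hsn _ _ (isHomogeneous_X_pow (R := F) (0 : Fin 2) M)).mul hw)
  · rw [map_sub, map_mul, map_mul]
    have h1 : res P Q u = 0 := hul
    have h2 : res P Q w = 0 := hwl
    rw [h1, h2]
    ring
  · rw [NB_dres_sub, dres_mul hul, dres_mul hwl, hs, hs, hdu, hdw]
    ring
  · exact Ideal.sub_mem _ (Ideal.mul_mem_left _ _ hul) (Ideal.mul_mem_left _ _ hwl)
  · intro f hf'
    have h1 := (sq_le_dblI (U := U) (V := V) (g := 0) (M := 0) hf').2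
    have h2 : s (hg g M) * u - s (X 0 ^ M) * w ∈ lineI P Q :=
      Ideal.sub_mem _ (Ideal.mul_mem_left _ _ hul) (Ideal.mul_mem_left _ _ hwl)
    rw [dres_mul h2, NB_dres_sub, dres_mul hul, dres_mul hwl, hs, hs, hdu, hdw] at h1
    have h3 : (hg 0 0 : MvPolynomial (Fin 2) F) = 0 := by
      unfold hg
      simp
    rw [h3, mul_zero, sub_zero, pow_zero, mul_one] at h1
    exact (mul_eq_zero.mp h1).resolve_right (NB_hg_ne g M hg' hM)

theorem NB_hf_gamma (hi : LinearIndependent F ![P, Q, U, V]) {M : ℕ} {γ : A4 F}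
    (h1 : γ ∈ Fm F (M + 1)) (h2 : ∀ f, f * γ ∈ (lineI P Q) ^ 2 → f ∈ lineI P Q) (n : ℕ) :
    hf ((lineI P Q) ^ 2 ⊔ Ideal.span {γ}) (n + (M + 1)) ≤ 2 * ((n : ℤ) + M + 1) + 1 + M := by
  have h3 := hf_colon (HI_pow (HI_lineI P Q) 2) h1 n
  have h4 := NB_hf_sq hi (n + M)
  have h5 : hf (lineI P Q) n ≤ hf (cln ((lineI P Q) ^ 2) (Ideal.span {γ})) n := by
    refine hf_anti (fun f hf' => ?_) n
    rw [BD_mem_cln_single] at hf'
    exact h2 f hf'
  rw [hf_lineI (NB_ind2 hi)] at h5
  have e : n + M + 1 = n + (M + 1) := by ring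
  rw [e] at h4
  push_cast at h4
  linarith

/-- a linear form vanishing on the first line but not on the second -/
theorem NB_lin {TP TQ : Fin 4 → F} (hi : LinearIndependent F ![P, Q, U, V])
    (hT : LinearIndependent F ![TP, TQ]) {g : Polynomial F} {M : ℕ} (hg' : g.natDegree = M)
    (hM : 0 < M) {s t : F} (hst : s ≠ 0 ∨ t ≠ 0)
    (hD : s ^ M • U + (MvPolynomial.eval ![s, t] (hg g M)) • V ∈
      Submodule.span F {P, Q, TP, TQ}) :
    ∃ φ ∈ Fm F 1, φ ∈ lineI TP TQ ∧ φ ∉ lineI P Q := by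
  have hr : ∀ A B : Fin 4 → F, LinearIndependent F ![A, B] →
      finrank F (Submodule.span F {A, B}) = 2 := by
    intro A B hAB
    have h := finrank_span_eq_card hAB
    rw [Fintype.card_fin] at h
    have e : Set.range ![A, B] = {A, B} := by
      ext x
      simp only [Set.mem_range, Fin.exists_fin_two, Set.mem_insert_iff, Set.mem_singleton_iff]
      exact ⟨fun h => h.imp Eq.symm Eq.symm, fun h => h.imp Eq.symm Eq.symm⟩
    rwa [e] at h
  have hnle : ¬ Submodule.span F {P, Q} ≤ Submodule.span F {TP, TQ} := by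
    intro hle
    have heq := Submodule.eq_of_le_of_finrank_eq hle
      ((hr P Q (NB_ind2 hi)).trans (hr TP TQ hT).symm)
    have hD' : s ^ M • U + (MvPolynomial.eval ![s, t] (hg g M)) • V ∈
        Submodule.span F {P, Q} := by
      refine (Submodule.span_le.2 ?_ : Submodule.span F {P, Q, TP, TQ} ≤ _) hD
      intro x hx
      simp only [Set.mem_insert_iff, Set.mem_singleton_iff] at hx
      rcases hx with rfl | rfl | rfl | rfl
      · exact Submodule.subset_span (by simp)
      · exact Submodule.subset_span (by simp)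
      · rw [heq]
        exact Submodule.subset_span (by simp)
      · rw [heq]
        exact Submodule.subset_span (by simp)
    obtain ⟨α, β, hαβ⟩ := Submodule.mem_span_pair.1 hD'
    have hlin := Fintype.linearIndependent_iff.mp hi
      ![α, β, -s ^ M, -(MvPolynomial.eval ![s, t] (hg g M))] (by
        rw [Fin.sum_univ_four]
        simp only [Matrix.cons_val_zero, Matrix.cons_val_one, Matrix.cons_val]
        rw [hαβ]
        module)
    have h2 : s ^ M = 0 := by
      have := hlin 2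
      simpa using this
    have h3 : eval ![s, t] (hg g M) = 0 := by
      have := hlin 3
      simpa using this
    have hs : s = 0 := by
      by_contra hs
      exact pow_ne_zero M hs h2
    have ht : t ≠ 0 := hst.resolve_left (fun h => h hs)
    have hlc : g.coeff M ≠ 0 := by
      rw [← hg', Polynomial.coeff_natDegree]
      intro h0
      rw [Polynomial.leadingCoeff_eq_zero] at h0
      rw [h0, Polynomial.natDegree_zero] at hg'
      omega
    subst hs
    unfold hg at h3
    rw [map_sum, Finset.sum_eq_single M] at h3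
    · simp only [map_mul, map_pow, eval_C, eval_X, Nat.sub_self, pow_zero, mul_one] at h3
      have h4 : (![0, t] : Fin 2 → F) 1 = t := rfl
      rw [h4] at h3
      rcases mul_eq_zero.mp h3 with h5 | h5
      · exact hlc h5
      · exact pow_ne_zero M ht h5
    · intro i hi' hne
      rw [Finset.mem_range] at hi'
      have h5 : M - i ≠ 0 := by omega
      simp only [map_mul, map_pow, eval_C, eval_X]
      have h4 : (![0, t] : Fin 2 → F) 0 = 0 := rfl
      rw [h4, zero_pow h5, mul_zero, zero_mul]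
    · intro h
      exact absurd (Finset.mem_range.mpr (Nat.lt_succ_self M)) h
  have hv : ∃ v, (v = P ∨ v = Q) ∧ v ∉ Submodule.span F {TP, TQ} := by
    by_contra hcon
    push Not at hcon
    apply hnle
    rw [Submodule.span_le]
    intro x hx
    simp only [Set.mem_insert_iff, Set.mem_singleton_iff] at hx
    exact hcon x hx
  obtain ⟨v, hv, hvn⟩ := hv
  obtain ⟨l, hl1, hl2⟩ := Submodule.exists_dual_map_eq_bot_of_notMem hvn inferInstance
  have hl0 : ∀ x ∈ Submodule.span F {TP, TQ}, l x = 0 := by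
    intro x hx
    have : l x ∈ (Submodule.span F {TP, TQ}).map l := Submodule.mem_map_of_mem hx
    rw [hl2] at this
    exact (Submodule.mem_bot F).1 this
  refine ⟨NB_F l, (mem_homogeneousSubmodule _ _).2 (NB_F_hom l), ?_, ?_⟩
  · change res TP TQ _ = 0
    rw [NB_F_res, hl0 TP (Submodule.subset_span (by simp)),
      hl0 TQ (Submodule.subset_span (by simp))]
    simp
  · intro hcon
    have hcon' : res P Q (NB_F l) = 0 := hcon
    rw [NB_F_res] at hcon'
    rcases hv with rfl | rfl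
    · apply hl1
      have := congrArg (eval ![(1 : F), 0]) hcon'
      simpa using this
    · apply hl1
      have := congrArg (eval ![(0 : F), 1]) hcon'
      simpa using this

end Coord

section Main

variable {F : Type} [Field F]

theorem NB_mul_sup (a b l : Ideal (A4 F)) : (a ⊔ l) * (b ⊔ l) ≤ a * b ⊔ l := by
  rw [Ideal.mul_le]
  intro x hx y hy
  obtain ⟨x1, hx1, x2, hx2, rfl⟩ := Submodule.mem_sup.1 hx
  obtain ⟨y1, hy1, y2, hy2, rfl⟩ := Submodule.mem_sup.1 hy
  have h : (x1 + x2) * (y1 + y2) = x1 * y1 + (x1 * y2 + x2 * (y1 + y2)) := by ring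
  rw [h]
  refine Submodule.add_mem_sup (Ideal.mul_mem_mul hx1 hy1) ?_
  exact l.add_mem (l.mul_mem_left _ hy2) (l.mul_mem_right _ hx2)

theorem NB_prod_sup {α : Type} [DecidableEq α] (s : Finset α) (a : α → Ideal (A4 F))
    (l : Ideal (A4 F)) : ∏ i ∈ s, (a i ⊔ l) ≤ (∏ i ∈ s, a i) ⊔ l := by
  induction s using Finset.induction_on with
  | empty => simp
  | insert i s hi ih =>
    rw [Finset.prod_insert hi, Finset.prod_insert hi]
    exact (Ideal.mul_mono_right ih).trans (NB_mul_sup _ _ _)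

theorem NB_prod_mono {α : Type} [DecidableEq α] (s : Finset α) (a b : α → Ideal (A4 F))
    (h : ∀ i ∈ s, a i ≤ b i) : ∏ i ∈ s, a i ≤ ∏ i ∈ s, b i := by
  induction s using Finset.induction_on with
  | empty => simp
  | insert i s hi ih =>
    rw [Finset.prod_insert hi, Finset.prod_insert hi]
    exact Ideal.mul_mono (h i (Finset.mem_insert_self i s))
      (ih fun k hk => h k (Finset.mem_insert_of_mem hk))

/-- the irrelevant ideal -/
noncomputable abbrev NB_m (F : Type) [Field F] : Ideal (A4 F) := idealOfVars (Fin 4) F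

theorem NB_m_le {a : Ideal (A4 F)} (h : ∀ i, (X i : A4 F) ∈ a) : NB_m F ≤ a := by
  rw [NB_m, idealOfVars, Ideal.span_le]
  rintro _ ⟨i, rfl⟩
  exact h i

theorem NB_hf_m {N n : ℕ} (hn : N ≤ n) : hf (NB_m F ^ N) n ≤ 0 := by
  rw [← hf_top (F := F) n]
  refine hf_anti_part (fun f hf' => ?_)
  rw [mem_part] at hf' ⊢
  refine ⟨?_, hf'.2⟩
  rw [NB_m, mem_pow_idealOfVars_iff]
  intro x hx
  have h1 := (mem_homogeneousSubmodule _ _).1 hf'.2
  by_contra hlt
  exact (mem_support_iff.1 hx) (h1.coeff_eq_zero (by omega))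

theorem NB_hf_mult {l B : Ideal (A4 F)} (hl : l.IsPrime) (hlI : HI l) (hB : HI B) (hlB : l ≤ B)
    (hl1 : ∀ n : ℕ, hf l n = n + 1) {ν N : ℕ} {f : A4 F} (hf1 : f ∈ Fm F ν) (hf2 : f ∉ l)
    (hf3 : Ideal.span {f} * NB_m F ^ N ≤ B) (n : ℕ) (hn : N ≤ n) : hf B (n + ν) ≤ ν := by
  have h1 := hf_colon hB hf1 n
  have h2 := hf_colon hlI hf1 n
  rw [BD_cln_prime hl hf2, hl1, hl1] at h2
  have h3 : hf (B ⊔ Ideal.span {f}) (n + ν) ≤ hf (l ⊔ Ideal.span {f}) (n + ν) :=
    hf_anti (sup_le_sup_right hlB _) _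
  have h4 : hf (cln B (Ideal.span {f})) n ≤ 0 := by
    refine (hf_anti (fun x hx => ?_) n).trans (NB_hf_m hn)
    rw [BD_mem_cln_single, mul_comm]
    exact hf3 (Ideal.mul_mem_mul (Ideal.mem_span_singleton_self f) hx)
  push_cast at h2
  linarith

variable [Infinite F] {ι κ : Type} [Fintype ι] [Fintype κ] [DecidableEq ι]
  [DecidableEq κ] {C : Cfg F ι κ} {Γ : Finset (ι × κ)}

/-- the intersection of the other components -/
noncomputable def NB_K (C : Cfg F ι κ) (j : κ) : Ideal (A4 F) :=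
  Finset.univ.inf C.tI ⊓ (Finset.univ.erase j).inf C.dI

theorem NB_node (hC : C.Good Γ) (j : κ) (i : ι) (h : (i, j) ∈ Γ) :
    ∃ φ ∈ Fm F 1, φ ∈ C.tI i ∧ φ ∉ C.lI j := by
  obtain ⟨s, t, hst, -, hD⟩ := hC.node i j h
  exact NB_lin (hC.lind j) (hC.tind i) (hC.deg j) (hC.pos j) hst hD

theorem NB_K_bound (hC : C.Good Γ) (j : κ) :
    ∃ N : ℕ, ∀ n ≥ N, hf (C.lI j ⊔ NB_K C j) n ≤
      ((Finset.univ.filter fun i => (i, j) ∈ Γ).card : ℤ) := by
  classical
  choose! φ hφ1 hφ2 hφ3 using NB_node hC j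
  set S : Finset ι := Finset.univ.filter fun i => (i, j) ∈ Γ with hS
  set f : A4 F := ∏ i ∈ S, φ i with hf'
  have hHIl : HI (C.lI j) := HI_lineI _ _
  have hprime : (C.lI j).IsPrime := lineI_isPrime _ _
  have hHIB : HI (C.lI j ⊔ NB_K C j) := by
    refine HI_sup hHIl (HI_inf (HI_finset_inf fun i _ => HI_lineI _ _)
      (HI_finset_inf fun i _ => HI_dblI))
  have hf1 : f ∈ Fm F S.card := by
    rw [mem_homogeneousSubmodule, hf']
    have := IsHomogeneous.prod S φ (fun _ => 1) (fun i hi => by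
      have := hφ1 i (by simpa [hS] using hi)
      rwa [mem_homogeneousSubmodule] at this)
    simpa using this
  have hf2 : f ∉ C.lI j := by
    intro hcon
    rw [hf', hprime.prod_mem_iff] at hcon
    obtain ⟨i, hi, hi'⟩ := hcon
    exact hφ3 i (by simpa [hS] using hi) hi'
  obtain ⟨N, hN⟩ : ∃ N, Ideal.span {f} * NB_m F ^ N ≤ C.lI j ⊔ NB_K C j := by
    refine ⟨(Finset.univ.filter fun i => ¬ (i, j) ∈ Γ).card + 2 * (Finset.univ.erase j).card, ?_⟩
    have h1 : ∀ i ∈ (Finset.univ : Finset ι),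
        (if (i, j) ∈ Γ then Ideal.span {φ i} else NB_m F) ≤ C.tI i ⊔ C.lI j := by
      intro i _
      split_ifs with h
      · rw [Ideal.span_singleton_le_iff_mem]
        exact (le_sup_left : C.tI i ≤ _) (hφ2 i h)
      · exact NB_m_le (NB_vars (hC.non i j h))
    have h2 : ∀ j' ∈ Finset.univ.erase j, NB_m F ^ 2 ≤ C.dI j' ⊔ C.lI j := by
      intro j' hj'
      have hne : j' ≠ j := (Finset.mem_erase.1 hj').1
      have h3 : NB_m F ≤ C.lI j' ⊔ C.lI j := NB_m_le (NB_vars (hC.ldis j' j hne))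
      rw [pow_two]
      refine (Ideal.mul_mono h3 h3).trans ((NB_mul_sup _ _ _).trans ?_)
      refine sup_le_sup_right ?_ _
      rw [← pow_two]
      exact sq_le_dblI
    have h3 := NB_prod_mono Finset.univ _ _ h1
    have h4 := NB_prod_mono (Finset.univ.erase j) _ _ h2
    rw [Finset.prod_ite, Ideal.prod_span_singleton, Finset.prod_const] at h3
    rw [Finset.prod_const, ← pow_mul] at h4
    have h5 := (Ideal.mul_mono h3 h4).trans ((Ideal.mul_mono (NB_prod_sup _ _ _)
      (NB_prod_sup _ _ _)).trans (NB_mul_sup _ _ _))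
    rw [pow_add, ← mul_assoc]
    refine h5.trans ?_
    rw [sup_comm]
    refine sup_le_sup_left ?_ _
    refine le_inf ?_ ?_
    · exact Ideal.mul_le_left.trans Ideal.prod_le_inf
    · exact Ideal.mul_le_right.trans Ideal.prod_le_inf
  refine ⟨N + S.card, fun n hn => ?_⟩
  obtain ⟨m, rfl⟩ := Nat.exists_eq_add_of_le' (le_trans (Nat.le_add_left _ _) hn)
  exact NB_hf_mult hprime hHIl hHIB le_sup_left
    (fun n => hf_lineI (NB_ind2 (hC.lind j)) n) hf1 hf2 hN m (by omega)

theorem defect_bound (hC : C.Good Γ) {J : Ideal (A4 F)} (hJ : HI J) (hJC : Lle C.ideal J) (j : κ)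
    (h2 : (C.lI j) ^ 2 ≤ J) :
    ∃ n0 : ℕ, ∀ n ≥ n0, hf J n ≤ 2 * n + 1 + C.M j + ((Finset.univ.filter fun i => (i, j) ∈ Γ).card : ℤ) := by
  classical
  obtain ⟨γ, hγ1, hγ2, hγ3, hγ4⟩ := NB_gamma (hC.lind j) (hC.deg j) (hC.pos j)
  obtain ⟨N, hN⟩ := NB_K_bound hC j
  obtain ⟨n1, hn1⟩ := hJC
  have hHIl : HI (C.lI j) := HI_lineI _ _
  have hHIl2 : HI ((C.lI j) ^ 2) := HI_pow hHIl 2
  have hHIC : HI C.ideal := Good.HI_ideal
  set I0 : Ideal (A4 F) := (C.lI j) ^ 2 ⊔ C.ideal with hI0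
  have hHI0 : HI I0 := HI_sup hHIl2 hHIC
  have hK : C.lI j ⊔ NB_K C j ≤ cln I0 (Ideal.span {γ}) := by
    refine sup_le ?_ ?_
    · intro x hx
      rw [BD_mem_cln_single]
      refine (le_sup_left : (C.lI j) ^ 2 ≤ I0) ?_
      rw [pow_two]
      exact Ideal.mul_mem_mul hx hγ3
    · intro x hx
      rw [BD_mem_cln_single]
      refine (le_sup_right : C.ideal ≤ I0) ?_
      obtain ⟨hx1, hx2⟩ := hx
      rw [Finset.inf_eq_iInf] at hx1 hx2
      refine ⟨?_, ?_⟩
      · have : x ∈ (⨅ i, C.tI i : Ideal (A4 F)) := by simpa using hx1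
        exact Ideal.mul_mem_right _ _ this
      · change x * γ ∈ (⨅ j, C.dI j : Ideal (A4 F))
        rw [Ideal.mem_iInf]
        intro j'
        by_cases hj : j' = j
        · subst hj
          exact Ideal.mul_mem_left _ _ hγ2
        · refine Ideal.mul_mem_right _ _ ?_
          have h3 : (⨅ a ∈ Finset.univ.erase j, C.dI a : Ideal (A4 F)) ≤ C.dI j' :=
            iInf₂_le j' (Finset.mem_erase.2 ⟨hj, Finset.mem_univ _⟩)
          exact h3 hx2
  refine ⟨max n1 (N + (C.M j + 1)), fun n hn => ?_⟩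
  have hle : hf J n ≤ hf I0 n := by
    refine hf_anti_part (fun x hx => ?_)
    rw [mem_part] at hx ⊢
    obtain ⟨hx1, hx2⟩ := hx
    refine ⟨?_, hx2⟩
    obtain ⟨a, ha, b, hb, rfl⟩ := Submodule.mem_sup.1 hx1
    have h3 : homogeneousComponent n (a + b) = a + b :=
      (homogeneousComponent_of_mem hx2).trans (if_pos rfl)
    rw [← h3, map_add]
    refine J.add_mem (h2 (hHIl2 a ha n)) ?_
    have h4 : homogeneousComponent n b ∈ part C.ideal n := by
      rw [mem_part]
      exact ⟨hHIC b hb n, homogeneousComponent_mem n b⟩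
    exact (mem_part.1 (hn1 n (le_trans (le_max_left _ _) hn) h4)).1
  refine hle.trans ?_
  have hn' : N + (C.M j + 1) ≤ n := le_trans (le_max_right _ _) hn
  obtain ⟨m, rfl⟩ := Nat.exists_eq_add_of_le' (le_trans (Nat.le_add_left _ _) hn')
  have h5 := hf_colon hHI0 hγ1 m
  have h6 : hf (I0 ⊔ Ideal.span {γ}) (m + (C.M j + 1)) ≤
      hf ((C.lI j) ^ 2 ⊔ Ideal.span {γ}) (m + (C.M j + 1)) :=
    hf_anti (sup_le_sup_right le_sup_left _) _
  have h7 := NB_hf_gamma (hC.lind j) hγ1 hγ4 m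
  have h8 := (hf_anti hK m).trans (hN m (by omega))
  push_cast
  have h9 : hf ((C.lI j) ^ 2 ⊔ Ideal.span {γ}) (m + (C.M j + 1)) ≤
      2 * ((m : ℤ) + C.M j + 1) + 1 + C.M j := h7
  linarith

end Main

end Pool.H33.G
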