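import Pool.Agent.H33.G.DEC
import Pool.Agent.H33.G.EXA

/-! # SUP: subschemes of the curve `C`

All ideals `J` here are homogeneous and contain `C.ideal` in large degrees.
* `sup_prime`: `C.ideal ≤ p` (`Lle_prime`), `∏ tI i * ∏ (lI j)^2 ≤ C.ideal ≤ p`, so `p` contains the prime ideal
  of a line; equality by `Bdd_of_lt_prime`.
* `sup_upper`: `Qs = (inf of tI i over suppT) ⊓ (inf of dI j over suppL)`, `A = cln J Qs`.  `A` is bounded:
  otherwise `exists_prime` gives `p ⊇ A ⊇ J`, so `p` is one of the line ideals by `sup_prime`; then that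
  line is in the support; but `A` contains an element outside: with `g_ℓ' ∈ P_ℓ' \ I_ℓ` (squares of linear
  forms) for all other lines `ℓ'` and a linear form `x ∉ I_ℓ` the element
  `x^N ∏ g_ℓ'` (`N` from `Lle_mul_pow`) is in `A`, not in `I_ℓ`.  Then `mod_bound` and
  `hf (J ⊔ Qs) ≤ hf Qs ≤ Σ`.
* `sup_lower`: `J ≤ inf of the line ideals`, `Lin_finset_inf`.
* `sup_rank`: same as `sup_upper` with `Qs = lI j`, using `dblI_rank_one` for `ℓ = L j`.
* `sup_pure`: a form `f ∈ J`, `f ∉ P_ℓ` (`P_ℓ = tI i` or `dI j`); `C.ideal' := C.ideal ⊔ ..`: by `hf_colon`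
  `hf (C.ideal ⊔ (f)) (n + a) = hf C.ideal (n+a) - hf (cln C.ideal (f)) n` and
  `cln C.ideal (f) ≤ cln P_ℓ (f) ≤ I_ℓ` (primary), so the difference is at least `n + 1`; and
  `part (C.ideal ⊔ (f)) n ≤ part J n` for large `n`. -/

open MvPolynomial Module

namespace Pool.H33.G

section Family

variable {F : Type} [Field F] {Ω : Type} [Fintype Ω]

/-- a family of primes `IL a` of lines with primary ideals `PL a`. -/
structure SupFam (IL PL : Ω → Ideal (A4 F)) : Prop where
  prime : ∀ a, (IL a).IsPrime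
  hI : ∀ a, HI (IL a)
  lin : ∀ a, Lin (IL a) 1 1
  le : ∀ a, PL a ≤ IL a
  sq : ∀ a, (IL a) ^ 2 ≤ PL a
  prim : ∀ a f y, f ∉ IL a → f * y ∈ PL a → y ∈ PL a
  hP : ∀ a, HI (PL a)
  inj : ∀ a b, IL a = IL b → a = b

namespace SupFam

variable {IL PL : Ω → Ideal (A4 F)}

omit [Fintype Ω] in
theorem not_bdd (S : SupFam IL PL) (a : Ω) : ¬ Bdd (IL a) := by
  rw [Lin_Bdd_iff (S.lin a)]
  exact one_ne_zero

omit [Fintype Ω] in
theorem eq_of_le (S : SupFam IL PL) {a : Ω} {p : Ideal (A4 F)} (hp : HI p) (hb : ¬ Bdd p)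
    (h : IL a ≤ p) : IL a = p := by
  by_contra hne
  exact hb (Bdd_of_lt_prime (S.prime a) (S.hI a) hp (lt_of_le_of_ne h hne) (S.lin a))

theorem HI_all (S : SupFam IL PL) : HI (Finset.univ.inf PL) := HI_finset_inf fun a _ => S.hP a

theorem of_prime (S : SupFam IL PL) {J p : Ideal (A4 F)} (hJC : Lle (Finset.univ.inf PL) J)
    (hp : UP J p) : ∃ a, p = IL a := by
  obtain ⟨hp1, hp2, hp3, hp4⟩ := hp
  have h1 : Finset.univ.inf PL ≤ p := Lle_prime S.HI_all hp1 hp2 hp4 hJC hp3
  obtain ⟨a, _, ha⟩ := (Ideal.IsPrime.inf_le' hp1).1 h1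
  have h2 : IL a ≤ p := hp1.le_of_pow_le ((S.sq a).trans ha)
  exact ⟨a, (S.eq_of_le hp2 hp4 h2).symm⟩

omit [Fintype Ω] in
theorem exists_not_mem (S : SupFam IL PL) {a b : Ω} (hab : b ≠ a) : ∃ g ∈ PL b, g ∉ IL a := by
  by_contra hcon
  push Not at hcon
  have h1 : PL b ≤ IL a := hcon
  have h2 : IL b ≤ IL a := (S.prime a).le_of_pow_le ((S.sq b).trans h1)
  exact hab (S.inj b a (S.eq_of_le (S.hI a) (S.not_bdd a) h2))

theorem outside (S : SupFam IL PL) {J : Ideal (A4 F)} (hJC : Lle (Finset.univ.inf PL) J) (a : Ω) :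
    ∃ t, t ∉ IL a ∧ ∀ g ∈ PL a, t * g ∈ J := by
  classical
  have h1 : ∀ b, ∃ g, (b ≠ a → g ∈ PL b) ∧ g ∉ IL a := by
    intro b
    by_cases hb : b = a
    · exact ⟨1, fun h => absurd hb h, fun h =>
        (S.prime a).ne_top ((Ideal.eq_top_iff_one _).2 h)⟩
    · obtain ⟨g, hg, hg'⟩ := S.exists_not_mem hb
      exact ⟨g, fun _ => hg, hg'⟩
  choose g hg hg' using h1
  obtain ⟨N, hN⟩ := Lle_mul_pow S.HI_all hJC
  obtain ⟨x, hx, hx'⟩ := exists_linear_not_mem (S.prime a) (S.hI a) (S.not_bdd a)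
  refine ⟨x ^ N * ∏ b ∈ Finset.univ.erase a, g b, ?_, ?_⟩
  · intro h
    rcases (S.prime a).mem_or_mem h with h | h
    · exact hx' ((S.prime a).mem_of_pow_mem N h)
    · obtain ⟨b, _, hb⟩ := ((S.prime a).prod_mem_iff).1 h
      exact hg' b hb
  · intro u hu
    rw [mul_assoc]
    apply hN x hx
    rw [Submodule.mem_finsetInf]
    intro b _
    by_cases hb : b = a
    · rw [hb]
      exact (PL a).mul_mem_left _ hu
    · obtain ⟨w, hw⟩ := Finset.dvd_prod_of_mem g (Finset.mem_erase.2 ⟨hb, Finset.mem_univ b⟩)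
      rw [hw]
      have : g b * w * u = (w * u) * g b := by ring
      rw [this]
      exact (PL b).mul_mem_left _ (hg b hb)

theorem upper (S : SupFam IL PL) {J Q : Ideal (A4 F)} (hJ : HI J) (hQ : HI Q)
    (hJC : Lle (Finset.univ.inf PL) J)
    (h : ∀ a, J ≤ IL a → ∃ t, t ∉ IL a ∧ ∀ g ∈ Q, t * g ∈ J) :
    ∃ c : ℤ, ∀ n, hf J n ≤ hf Q n + c := by
  have hA : HI (cln J Q) := HI_cln hJ hQ
  have hJA : J ≤ cln J Q := fun f hf g _ => J.mul_mem_right g hf
  have hb : Bdd (cln J Q) := by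
    by_contra hb
    obtain ⟨p, hp1, hp2, hp3, hp4⟩ := exists_prime hA hb
    obtain ⟨a, rfl⟩ := S.of_prime hJC ⟨hp1, hp2, hJA.trans hp3, hp4⟩
    obtain ⟨t, ht, ht'⟩ := h a (hJA.trans hp3)
    exact ht (hp3 ht')
  have hmul : cln J Q * Q ≤ J := by
    rw [Ideal.mul_le]
    intro r hr s hs
    exact hr s hs
  obtain ⟨c, hc⟩ := mod_bound hJ hQ hA hb hmul
  refine ⟨c, fun n => (hc n).trans ?_⟩
  have := hf_anti (le_sup_right : Q ≤ J ⊔ Q) n
  linarith

theorem upper_fin (S : SupFam IL PL) {J : Ideal (A4 F)} (hJ : HI J)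
    (hJC : Lle (Finset.univ.inf PL) J) (s : Finset Ω) (hs : ∀ a, J ≤ IL a → a ∈ s) :
    ∃ c : ℤ, ∀ n, hf J n ≤ ∑ a ∈ s, hf (PL a) n + c := by
  classical
  obtain ⟨c, hc⟩ := S.upper hJ (HI_finset_inf fun a (_ : a ∈ s) => S.hP a) hJC (by
    intro a ha
    obtain ⟨t, ht, ht'⟩ := S.outside hJC a
    exact ⟨t, ht, fun g hg => ht' g ((Finset.inf_le (hs a ha) : s.inf PL ≤ PL a) hg)⟩)
  refine ⟨c, fun n => (hc n).trans ?_⟩
  have := hf_finset_inf_le (s := s) (I := PL) (fun a _ => S.hP a) n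
  linarith

omit [Fintype Ω] in
theorem lower (S : SupFam IL PL) {J : Ideal (A4 F)} (s : Finset Ω) (hs : ∀ a ∈ s, J ≤ IL a) :
    ∃ c : ℤ, ∀ n : ℕ, (s.card : ℤ) * n - c ≤ hf J n := by
  obtain ⟨C, hC⟩ := Lin_finset_inf (s := s) (q := IL) (e := fun _ => 1) (c := fun _ => 1)
    (fun a _ => S.hI a) (fun a _ => S.lin a) (by
      intro a _ b _ hab p _ hpI hap hbp
      by_contra hb
      exact hab (S.inj a b ((S.eq_of_le hpI hb hap).trans (S.eq_of_le hpI hb hbp).symm)))
  obtain ⟨c, hc⟩ := Lin_bound hC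
  refine ⟨c, fun n => ?_⟩
  have h1 := hf_anti (Finset.le_inf hs) n
  have h2 := (abs_le.1 (hc n)).1
  have h3 : ((∑ a ∈ s, 1 : ℕ) : ℤ) = s.card := by simp
  rw [h3] at h2
  linarith

theorem pure (S : SupFam IL PL) {J : Ideal (A4 F)} (hJ : HI J)
    (hJC : Lle (Finset.univ.inf PL) J) {c : ℤ}
    (h : ∃ n0 : ℕ, ∀ n ≥ n0, hf (Finset.univ.inf PL) n ≤ hf J n + c) :
    J ≤ Finset.univ.inf PL := by
  obtain ⟨n0, hn0⟩ := h
  obtain ⟨n1, hn1⟩ := hJC
  refine le_of_part_le hJ fun a f hf' => ?_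
  obtain ⟨hfJ, hfa⟩ := mem_part.1 hf'
  rw [mem_part]
  refine ⟨?_, hfa⟩
  by_contra hcon
  rw [Submodule.mem_finsetInf] at hcon
  push Not at hcon
  obtain ⟨l, _, hl⟩ := hcon
  have h1 : ∀ n, hf (Finset.univ.inf PL) (n + a) =
      hf (Finset.univ.inf PL ⊔ Ideal.span {f}) (n + a) +
        hf (cln (Finset.univ.inf PL) (Ideal.span {f})) n := fun n => hf_colon S.HI_all hfa n
  have h2 : cln (Finset.univ.inf PL) (Ideal.span {f}) ≤ IL l := by
    intro g hg
    by_contra hgl
    have h3 : g * f ∈ Finset.univ.inf PL := hg f (Ideal.mem_span_singleton_self f)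
    have h4 : g * f ∈ PL l := (Finset.inf_le (Finset.mem_univ l) : Finset.univ.inf PL ≤ PL l) h3
    exact hl (S.prim l g f hgl h4)
  have h5 : ∀ n ≥ n1, hf J n ≤ hf (Finset.univ.inf PL ⊔ Ideal.span {f}) n := by
    intro n hn
    apply hf_anti_part
    intro u hu
    obtain ⟨hu1, hu2⟩ := mem_part.1 hu
    obtain ⟨v, hv, w, hw, hvw⟩ := Submodule.mem_sup.1 hu1
    have hwJ : w ∈ J := by
      obtain ⟨z, rfl⟩ := Ideal.mem_span_singleton'.1 hw
      exact J.mul_mem_left _ hfJ
    rw [mem_part]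
    refine ⟨?_, hu2⟩
    have h6 : u = homogeneousComponent n v + homogeneousComponent n w := by
      rw [← map_add, hvw]
      exact (homogeneousComponent_of_mem hu2).symm ▸ by simp
    rw [h6]
    refine J.add_mem ?_ (hJ w hwJ n)
    have h7 : homogeneousComponent n v ∈ part (Finset.univ.inf PL) n :=
      mem_part.2 ⟨S.HI_all v hv n, homogeneousComponent_isHomogeneous n v⟩
    exact (mem_part.1 (hn1 n hn h7)).1
  obtain ⟨n2, hn2⟩ := S.lin l
  have h8 := hn2 (max (max n0 n1) n2 + c.toNat) (by omega)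
  have h9 := hf_anti h2 (max (max n0 n1) n2 + c.toNat)
  have h10 := h1 (max (max n0 n1) n2 + c.toNat)
  have h11 := h5 (max (max n0 n1) n2 + c.toNat + a) (by omega)
  have h12 := hn0 (max (max n0 n1) n2 + c.toNat + a) (by omega)
  have h13 : c ≤ c.toNat := Int.self_le_toNat c
  push_cast at h8
  have h14 : (0 : ℤ) ≤ max (max (n0 : ℤ) n1) n2 := by
    have : (0 : ℤ) ≤ n2 := Int.natCast_nonneg n2
    exact le_trans this (le_max_right _ _)
  linarith

end SupFam

end Family

variable {F : Type} [Field F] [Infinite F] {ι κ : Type} [Fintype ι] [Fintype κ] [DecidableEq ι]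
  [DecidableEq κ] {C : Cfg F ι κ} {Γ : Finset (ι × κ)}

omit [Infinite F] in
theorem sup_li {a b c d : Fin 4 → F} (h : LinearIndependent F ![a, b, c, d]) {s t : F}
    (hm : s • c + t • d ∈ Submodule.span F {a, b}) : s = 0 ∧ t = 0 := by
  obtain ⟨x, y, hxy⟩ := Submodule.mem_span_pair.1 hm
  have h1 := Fintype.linearIndependent_iff.1 h ![-x, -y, s, t] (by
    rw [Fin.sum_univ_four]
    simp only [Matrix.cons_val_zero, Matrix.cons_val_one, Matrix.cons_val]
    rw [add_assoc, ← hxy]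
    simp only [neg_smul]
    abel)
  exact ⟨by simpa using h1 2, by simpa using h1 3⟩

omit [Infinite F] in
theorem sup_li2 {a b c d : Fin 4 → F} (h : LinearIndependent F ![a, b, c, d]) :
    LinearIndependent F ![a, b] := by
  rw [Fintype.linearIndependent_iff]
  intro g hg
  rw [Fin.sum_univ_two] at hg
  have h1 := Fintype.linearIndependent_iff.1 h ![g 0, g 1, 0, 0] (by
    rw [Fin.sum_univ_four]
    simpa using hg)
  intro i
  fin_cases i
  · simpa using h1 0
  · simpa using h1 1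

omit [Infinite F] in
theorem sup_hg {g : Polynomial F} {M : ℕ} (hg' : g.natDegree = M) (hM : 0 < M) {s t : F}
    (hst : s ≠ 0 ∨ t ≠ 0) (h1 : s ^ M = 0) (h2 : MvPolynomial.eval ![s, t] (hg g M) = 0) :
    False := by
  have hs : s = 0 := by
    by_contra h
    exact pow_ne_zero M h h1
  subst hs
  have ht : t ≠ 0 := hst.resolve_left (fun h => h rfl)
  unfold hg at h2
  rw [map_sum, Finset.sum_range_succ, Finset.sum_eq_zero, zero_add] at h2
  · simp only [map_mul, map_pow, eval_C, eval_X, Nat.sub_self, pow_zero, mul_one,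
      Matrix.cons_val_one, Matrix.cons_val_fin_one] at h2
    rcases mul_eq_zero.1 h2 with h3 | h3
    · rw [← hg', Polynomial.coeff_natDegree, Polynomial.leadingCoeff_eq_zero] at h3
      rw [h3, Polynomial.natDegree_zero] at hg'
      omega
    · exact pow_ne_zero M ht h3
  · intro i hi
    have : M - i ≠ 0 := by
      have := Finset.mem_range.1 hi
      omega
    simp [this]

theorem sup_line_le {P Q P' Q' : Fin 4 → F} (h : lineI P Q ≤ lineI P' Q') :
    P' ∈ Submodule.span F {P, Q} ∧ Q' ∈ Submodule.span F {P, Q} := by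
  rw [lineI_eq_vI, lineI_eq_vI, vI_le_iff] at h
  exact ⟨h (Submodule.subset_span (by simp)), h (Submodule.subset_span (by simp))⟩

omit [Fintype ι] [Fintype κ] in
theorem sup_fam (hC : C.Good Γ) :
    SupFam (Sum.elim C.tI C.lI) (Sum.elim C.tI C.dI) where
  prime := by
    rintro (i | j)
    · exact lineI_isPrime _ _
    · exact lineI_isPrime _ _
  hI := by
    rintro (i | j)
    · exact HI_lineI _ _
    · exact HI_lineI _ _
  lin := by
    rintro (i | j)
    · exact Lin_lineI (hC.tind i)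
    · exact Lin_lineI (sup_li2 (hC.lind j))
  le := by
    rintro (i | j)
    · exact le_refl _
    · exact dblI_le
  sq := by
    rintro (i | j)
    · exact Ideal.pow_le_self two_ne_zero
    · exact sq_le_dblI
  prim := by
    rintro (i | j) f y hf hy
    · exact ((lineI_isPrime _ _).mem_or_mem hy).resolve_left hf
    · exact dblI_primary hf hy
  hP := by
    rintro (i | j)
    · exact HI_lineI _ _
    · exact HI_dblI
  inj := by
    have key : ∀ i j, C.lI j ≤ C.tI i → False := by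
      intro i j hle
      obtain ⟨h1, h2⟩ := sup_line_le hle
      by_cases hij : (i, j) ∈ Γ
      · obtain ⟨s, t, hst, _, hn⟩ := hC.node i j hij
        have h3 : Submodule.span F {C.P j, C.Q j, C.TP i, C.TQ i} ≤
            Submodule.span F {C.P j, C.Q j} := by
          rw [Submodule.span_le]
          rintro v hv
          simp only [Set.mem_insert_iff, Set.mem_singleton_iff] at hv
          rcases hv with rfl | rfl | rfl | rfl
          · exact Submodule.subset_span (by simp)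
          · exact Submodule.subset_span (by simp)
          · exact h1
          · exact h2
        obtain ⟨h4, h5⟩ := sup_li (hC.lind j) (h3 hn)
        exact sup_hg (hC.deg j) (hC.pos j) hst h4 h5
      · have h3 := hC.non i j hij
        -- `TP, TQ` are in the span of `P, Q`: four independent vectors in a plane
        have h4 : Submodule.span F (Set.range ![C.TP i, C.TQ i, C.P j, C.Q j]) ≤
            Submodule.span F {C.P j, C.Q j} := by
          rw [Submodule.span_le]
          rintro v ⟨l, rfl⟩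
          fin_cases l
          · exact h1
          · exact h2
          · exact Submodule.subset_span (by simp)
          · exact Submodule.subset_span (by simp)
        have h5 := finrank_span_eq_card h3
        have h6 := Submodule.finrank_mono h4
        have h7 : finrank F (Submodule.span F {C.P j, C.Q j}) ≤ 2 := by
          have h8 := finrank_range_le_card (R := F) ![C.P j, C.Q j]
          rw [Fintype.card_fin, Matrix.range_cons, Matrix.range_cons, Matrix.range_empty,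
            Set.union_empty] at h8
          exact h8
        rw [Fintype.card_fin] at h5
        omega
    have h1 : ∀ i i', C.tI i = C.tI i' → i = i' := by
      intro i i' h
      by_contra hne
      have h2 := (sup_line_le (le_of_eq h)).1
      have h3 := sup_li (hC.tdis i i' hne) (s := 1) (t := 0) (by simpa using h2)
      exact one_ne_zero h3.1
    have h2 : ∀ j j', C.lI j = C.lI j' → j = j' := by
      intro j j' h
      by_contra hne
      have h2 := (sup_line_le (le_of_eq h)).1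
      have h3 := sup_li (hC.ldis j j' hne) (s := 1) (t := 0) (by simpa using h2)
      exact one_ne_zero h3.1
    rintro (i | j) (i' | j') h
    · rw [h1 i i' h]
    · exact absurd (le_of_eq h.symm) (key i j')
    · exact absurd (le_of_eq h) (key i' j)
    · rw [h2 j j' h]

omit [Infinite F] [DecidableEq ι] [DecidableEq κ] in
theorem sup_ideal : C.ideal = Finset.univ.inf (Sum.elim C.tI C.dI) := by
  rw [Finset.inf_univ_eq_iInf, iInf_sum]
  rfl

theorem sup_prime (hC : C.Good Γ) {J p : Ideal (A4 F)} (hJC : Lle C.ideal J) (hp : UP J p) :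
    (∃ i, p = C.tI i) ∨ (∃ j, p = C.lI j) := by
  rw [sup_ideal] at hJC
  obtain ⟨a | a, ha⟩ := (sup_fam hC).of_prime hJC hp
  · exact Or.inl ⟨a, ha⟩
  · exact Or.inr ⟨a, ha⟩

theorem sup_upper (hC : C.Good Γ) {J : Ideal (A4 F)} (hJ : HI J) (hJC : Lle C.ideal J)
    (sT : Finset ι) (sL : Finset κ) (hT : ∀ i, J ≤ C.tI i → i ∈ sT) (hL : ∀ j, J ≤ C.lI j → j ∈ sL) :
    ∃ c : ℤ, ∀ n : ℕ, hf J n ≤ ((sT.card : ℤ) + 2 * sL.card) * n + c := by
  rw [sup_ideal] at hJC
  obtain ⟨c, hc⟩ := (sup_fam hC).upper_fin hJ hJC (sT.disjSum sL) (by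
    rintro (i | j) h
    · exact Finset.inl_mem_disjSum.2 (hT i h)
    · exact Finset.inr_mem_disjSum.2 (hL j h))
  have h1 : ∀ i, ∀ n : ℕ, hf (C.tI i) n = n + 1 := fun i n => hf_lineI (hC.tind i) n
  have h2 : ∀ j, ∃ b : ℤ, ∀ n : ℕ, hf (C.dI j) n ≤ 2 * n + b := by
    intro j
    have h3 : Lin (C.dI j) 2 (1 + C.M j) := ⟨C.M j, fun n hn => by
      have := hf_dblI (hC.lind j) (hC.deg j) (hC.pos j) hn
      unfold Cfg.dI
      rw [this]
      push_cast
      ring⟩
    obtain ⟨b, hb⟩ := Lin_bound h3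
    refine ⟨b, fun n => ?_⟩
    have := (abs_le.1 (hb n)).2
    push_cast at this
    linarith
  choose b hb using h2
  refine ⟨∑ i ∈ sT, 1 + ∑ j ∈ sL, b j + c, fun n => (hc n).trans ?_⟩
  rw [Finset.sum_disjSum]
  simp only [Sum.elim_inl, Sum.elim_inr]
  have h4 : ∑ i ∈ sT, hf (C.tI i) n = sT.card * n + ∑ i ∈ sT, 1 := by
    rw [Finset.sum_congr rfl fun i _ => h1 i n, Finset.sum_add_distrib]
    simp
  have h5 : ∑ j ∈ sL, hf (C.dI j) n ≤ 2 * sL.card * n + ∑ j ∈ sL, b j := by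
    refine (Finset.sum_le_sum fun j _ => hb j n).trans (le_of_eq ?_)
    rw [Finset.sum_add_distrib, Finset.sum_const, nsmul_eq_mul]
    ring
  rw [h4]
  linarith

theorem sup_lower (hC : C.Good Γ) {J : Ideal (A4 F)}
    (sT : Finset ι) (sL : Finset κ) (hT : ∀ i ∈ sT, J ≤ C.tI i) (hL : ∀ j ∈ sL, J ≤ C.lI j) :
    ∃ c : ℤ, ∀ n : ℕ, ((sT.card : ℤ) + sL.card) * n - c ≤ hf J n := by
  obtain ⟨c, hc⟩ := (sup_fam hC).lower (J := J) (sT.disjSum sL) (by
    rintro (i | j) h
    · exact hT i (Finset.inl_mem_disjSum.1 h)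
    · exact hL j (Finset.inr_mem_disjSum.1 h))
  refine ⟨c, fun n => ?_⟩
  have := hc n
  rw [Finset.card_disjSum] at this
  push_cast at this
  exact this

theorem sup_rank (hC : C.Good Γ) {J : Ideal (A4 F)} (hJ : HI J) (hJC : Lle C.ideal J)
    (j : κ) (hT : ∀ i, ¬ J ≤ C.tI i) (hL : ∀ j', J ≤ C.lI j' → j' = j) (hd : ¬ J ≤ C.dI j) :
    ∃ c : ℤ, ∀ n : ℕ, hf J n ≤ n + c := by
  rw [sup_ideal] at hJC
  obtain ⟨c, hc⟩ := (sup_fam hC).upper (Q := C.lI j) hJ (HI_lineI _ _) hJC (by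
    rintro (i | j') h
    · exact absurd h (hT i)
    · have hj := hL j' h
      subst hj
      obtain ⟨a, haJ, had⟩ := SetLike.not_le_iff_exists.1 hd
      obtain ⟨t, ht, ht'⟩ := dblI_rank_one (hC.lind j') (h haJ) had
      obtain ⟨t', ht1, ht2⟩ := (sup_fam hC).outside hJC (Sum.inr j')
      refine ⟨t' * t, fun hm => ?_, fun y hy => ?_⟩
      · rcases ((sup_fam hC).prime (Sum.inr j')).mem_or_mem hm with h1 | h1
        · exact ht1 h1
        · exact ht h1
      · obtain ⟨u, hu, v, hv, huv⟩ := Submodule.mem_sup.1 (ht' y hy)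
        rw [mul_assoc, ← huv, mul_add]
        refine J.add_mem ?_ (ht2 v hv)
        obtain ⟨z, rfl⟩ := Ideal.mem_span_singleton'.1 hu
        exact J.mul_mem_left _ (J.mul_mem_left _ haJ))
  refine ⟨1 + c, fun n => (hc n).trans ?_⟩
  have : hf (C.lI j) n = n + 1 := hf_lineI (sup_li2 (hC.lind j)) n
  rw [this]
  linarith

theorem sup_pure (hC : C.Good Γ) {J : Ideal (A4 F)} (hJ : HI J) (hJC : Lle C.ideal J) {c : ℤ}
    (h : ∃ n0 : ℕ, ∀ n ≥ n0, hf C.ideal n ≤ hf J n + c) : J ≤ C.ideal := by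
  rw [sup_ideal] at hJC h ⊢
  exact (sup_fam hC).pure hJ hJC h

end Pool.H33.G
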