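import Pool.Agent.H33.G.BZ
import Pool.Agent.H33.G.LMC
import Pool.Agent.H33.G.SUP
import Pool.Agent.H33.G.NB

/-! # MCA: the generic curve `I` over `K` specialising to the good curve `C`: one component

`Sit` collects the hypotheses.  For `UP I p` (a component of the generic curve): `Lin p e c` with `e ≥ 1`,
`hf p n ≤ e n + 1` (`hf_prime_le`).
`mc_dichotomy`: let `qp I p ≠ p`.  Let `sT, sL` be the supports of `limI R p` (the sets of `i`, `j` with
`limI R p ≤ C.tI i`, `≤ C.lI j`); they are also the supports of `limI R (qp I p)` (`pow_le_qp`, `limI_pow`,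
`qp_le`).  `Lle C.ideal (limI R I)`, `limI R I ≤ limI R (qp I p)`.  `sup_lower` for `limI R p`:
`|sT| + |sL| ≤ e`; `slope_qp` and `sup_upper` for `limI R (qp I p)`: `2 e ≤ e' ≤ |sT| + 2 |sL|`.  Hence `sT = ∅`,
`|sL| = e`, `e' = 2 e`.  By `low` (with `κ = Empty`) for the disjoint lines `L j`, `j ∈ sL`:
`hf (limI R p) n ≥ e (n+1)` for large `n`, so `e ≤ 1`.  So `e = 1`, `p = vI Λ` (`eq_vI_of_prime`),
`limI R p = vI (limS R Λ)` and `limI R p ≤ C.lI j`, so `limS R Λ = span {P j, Q j}` (`vI_le_iff`, dimension).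
`p^2 ≤ qp I p` by `sq_le_qp`.  `limI R (qp I p) ≤ C.dI j`, otherwise `sup_rank` contradicts slope 2; this gives
`1 + M j ≤ c` (`hf_dblI`).  `defect_bound` for `limI R (qp I p) ≥ (limI R p)^2 = (C.lI j)^2` gives the upper
bound. -/

open MvPolynomial Module

namespace Pool.H33.G

/-- the situation: `I` is (the homogeneous ideal of) a curve over `K` whose limit is the good curve `C` -/
structure Sit {K : Type} [Field K] (R : ValuationSubring K) (I : Ideal (A4 K)) {ι κ : Type}
    [Fintype ι] [Fintype κ] (C : Cfg (IsLocalRing.ResidueField R) ι κ) (Γ : Finset (ι × κ)) :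
    Prop where
  hI : HI I
  good : C.Good Γ
  lle : Lle C.ideal (limI R I)
  lin : Lin I (Fintype.card ι + 2 * Fintype.card κ) (chi0 C.M Γ)
  big : ∀ j, 3 * Γ.card + 2 ≤ C.M j

variable {K : Type} [Field K] [IsAlgClosed K] {R : ValuationSubring K}
  [Infinite (IsLocalRing.ResidueField R)] {I : Ideal (A4 K)} {ι κ : Type} [Fintype ι] [Fintype κ]
  [DecidableEq ι] [DecidableEq κ] {C : Cfg (IsLocalRing.ResidueField R) ι κ} {Γ : Finset (ι × κ)}

theorem mc_comp (S : Sit R I C Γ) {p : Ideal (A4 K)} (hp : UP I p) :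
    ∃ (e : ℕ) (c : ℤ), Lin p e c ∧ 1 ≤ e ∧ ∀ n : ℕ, hf p n ≤ e * n + 1 := by
  obtain ⟨e, c, -, hL⟩ := exists_Lin_of_le hp.2.1 hp.2.2.1 S.lin
  have he : 1 ≤ e := by
    rcases Nat.eq_zero_or_pos e with h | h
    · exact absurd ((Lin_Bdd_iff hL).2 h) hp.2.2.2
    · exact h
  exact ⟨e, c, hL, he, hf_prime_le hp.1 hp.2.1 hL he⟩

theorem mca_span_finrank {F : Type} [Field F] {P Q : Fin 4 → F}
    (h : LinearIndependent F ![P, Q]) : finrank F (Submodule.span F {P, Q}) = 2 := by
  have h1 := finrank_span_eq_card h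
  have h2 : Set.range ![P, Q] = {P, Q} := by
    simp [Matrix.range_cons, Matrix.range_empty]
    exact Set.pair_comm _ _
  rw [h2] at h1
  simpa using h1

theorem mca_pair_of_four {F : Type} [Field F] {P Q U V : Fin 4 → F}
    (h : LinearIndependent F ![P, Q, U, V]) : LinearIndependent F ![P, Q] := by
  have h1 := h.comp ![(0 : Fin 4), 1] (by decide)
  have h2 : ![P, Q] = ![P, Q, U, V] ∘ ![(0 : Fin 4), 1] := by
    funext i
    fin_cases i <;> rfl
  rw [h2]
  exact h1

theorem mca_disj {F : Type} [Field F] {v1 v2 v3 v4 : Fin 4 → F}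
    (h : LinearIndependent F ![v1, v2, v3, v4]) :
    Submodule.span F {v1, v2} ⊓ Submodule.span F {v3, v4} = ⊥ := by
  rw [eq_bot_iff]
  rintro x ⟨hx1, hx2⟩
  obtain ⟨a, b, rfl⟩ := Submodule.mem_span_pair.1 hx1
  obtain ⟨c, e, hce⟩ := Submodule.mem_span_pair.1 hx2
  have hli := Fintype.linearIndependent_iff.1 h ![a, b, -c, -e] (by
    simp [Fin.sum_univ_succ]
    have : a • v1 + b • v2 - (c • v3 + e • v4) = 0 := by rw [hce, sub_self]
    rw [← this]; abel)
  have ha := hli 0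
  have hb := hli 1
  simp at ha hb
  rw [ha, hb]
  simp

theorem mc_dichotomy (S : Sit R I C Γ) {p : Ideal (A4 K)} (hp : UP I p) (hne : qp I p ≠ p) :
    ∃ (Λ : Submodule K (Fin 4 → K)) (j : κ), finrank K Λ = 2 ∧ p = vI Λ ∧
      limS R Λ = Submodule.span _ {C.P j, C.Q j} ∧ limI R p = C.lI j ∧ p ^ 2 ≤ qp I p ∧
      ∃ c : ℤ, Lin (qp I p) 2 c ∧ 1 + (C.M j : ℤ) ≤ c ∧
        c ≤ 1 + C.M j + ((Finset.univ.filter fun i => (i, j) ∈ Γ).card : ℤ) := by
  classical
  have hinfK : Infinite K := inferInstance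
  obtain ⟨e, c, hL, he, hle⟩ := mc_comp S hp
  have hqHI : HI (qp I p) := HI_qp S.hI hp.1 hp.2.1
  have hIq : I ≤ qp I p := le_qp hp.1
  have hqp' : qp I p ≤ p := qp_le hp.1 hp.2.2.1
  obtain ⟨e', c', -, hLq⟩ := exists_Lin_of_le hqHI hIq S.lin
  have h2e : 2 * e ≤ e' := slope_qp S.hI S.lin hp hne hL hLq
  have hCp : Lle C.ideal (limI R p) := Lle_trans S.lle (Lle_of_le (limI_mono R hp.2.2.1))
  have hCq : Lle C.ideal (limI R (qp I p)) := Lle_trans S.lle (Lle_of_le (limI_mono R hIq))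
  have hpHI : HI (limI R p) := HI_limI R hp.2.1
  have hqlHI : HI (limI R (qp I p)) := HI_limI R hqHI
  let sT : Finset ι := Finset.univ.filter fun i => limI R p ≤ C.tI i
  let sL : Finset κ := Finset.univ.filter fun j => limI R p ≤ C.lI j
  have hsT : ∀ i, i ∈ sT ↔ limI R p ≤ C.tI i := fun i => by simp [sT]
  have hsL : ∀ j, j ∈ sL ↔ limI R p ≤ C.lI j := fun j => by simp [sL]
  -- lower bound
  have hlow : sT.card + sL.card ≤ e := by
    obtain ⟨c0, h0⟩ := sup_lower S.good sT sL (fun i hi => (hsT i).1 hi) (fun j hj => (hsL j).1 hj)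
    refine Lin_ge hL (c' := -c0) ⟨0, fun n _ => ?_⟩
    have := h0 n
    rw [hf_limI R hp.2.1] at this
    push_cast
    linarith
  -- supports agree
  obtain ⟨N, hN⟩ := pow_le_qp S.hI S.lin hp
  have hsupp : ∀ {P0 : Ideal (A4 (IsLocalRing.ResidueField R))}, P0.IsPrime →
      limI R (qp I p) ≤ P0 → limI R p ≤ P0 := by
    intro P0 hP0 h
    have h1 : limI R p ^ N ≤ P0 :=
      le_trans (limI_pow R N) (le_trans (limI_mono R hN) h)
    exact hP0.le_of_pow_le h1
  have hup : e' ≤ sT.card + 2 * sL.card := by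
    obtain ⟨c0, h0⟩ := sup_upper S.good hqlHI hCq sT sL
      (fun i hi => (hsT i).2 (hsupp (lineI_isPrime _ _) hi))
      (fun j hj => (hsL j).2 (hsupp (lineI_isPrime _ _) hj))
    refine Lin_le hLq (c' := c0) ⟨0, fun n _ => ?_⟩
    have := h0 n
    rw [hf_limI R hqHI] at this
    push_cast
    linarith
  have hT0 : sT.card = 0 := by omega
  have hLe : sL.card = e := by omega
  have he' : e' = 2 * e := by omega
  -- disjoint lines
  have hle1 : e ≤ 1 := by
    obtain ⟨n0, hn0⟩ := low (F := IsLocalRing.ResidueField R) (ι := {j // j ∈ sL}) (κ := Empty)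
      (fun j => Submodule.span _ {C.P j.1, C.Q j.1}) (fun j => j.elim)
      (fun j => mca_span_finrank (mca_pair_of_four (S.good.lind j.1))) (fun j => j.elim)
      (fun i i' hii => mca_disj (S.good.ldis i.1 i'.1 (fun h => hii (Subtype.ext h))))
      (fun j => j.elim) (fun _ j => j.elim) (fun j => j.elim) (fun j => j.elim) (fun j => j.elim)
      (fun j => j.elim) ∅ (fun _ j => j.elim)
    have h1 := hn0 n0 le_rfl
    have h2 : limI R p ≤ (⨅ i : {j // j ∈ sL}, vI (Submodule.span _ {C.P i.1, C.Q i.1})) ⊓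
        (⨅ j : Empty, (j.elim : Ideal (A4 (IsLocalRing.ResidueField R)))) := by
      refine le_inf (le_iInf fun i => ?_) (le_iInf fun j => j.elim)
      rw [← lineI_eq_vI]
      exact (hsL i.1).1 i.2
    have h3 := hf_anti h2 n0
    rw [hf_limI R hp.2.1] at h3
    have h4 := hle n0
    simp only [Finset.univ_eq_empty, Finset.sum_empty, Finset.card_empty, Fintype.card_coe] at h1
    have h5 : (sL.card : ℤ) * (n0 + 1) ≤ e * n0 + 1 := by
      have := h1.trans (h3.trans h4)
      push_cast at this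
      linarith
    rw [hLe] at h5
    have : (e : ℤ) ≤ 1 := by linarith
    exact_mod_cast this
  obtain rfl : e = 1 := le_antisymm hle1 he
  obtain rfl : e' = 2 := by omega
  obtain ⟨j, hj⟩ := Finset.card_eq_one.1 hLe
  have hjL : limI R p ≤ C.lI j := (hsL j).1 (by rw [hj]; exact Finset.mem_singleton_self j)
  obtain ⟨Λ, hΛ, hpΛ⟩ := eq_vI_of_prime hp.1 hp.2.1 hL (fun n => by have := hle n; push_cast at this; linarith)
  have hlimΛ : limI R p = vI (limS R Λ) := by rw [hpΛ, limI_vI R hΛ]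
  have hli : LinearIndependent _ ![C.P j, C.Q j] := mca_pair_of_four (S.good.lind j)
  have hlj : C.lI j = vI (Submodule.span _ {C.P j, C.Q j}) := lineI_eq_vI _ _
  have hΛeq : limS R Λ = Submodule.span _ {C.P j, C.Q j} := by
    have h1 : vI (limS R Λ) ≤ vI (Submodule.span _ {C.P j, C.Q j}) := by
      rw [← hlimΛ, ← hlj]; exact hjL
    have h2 := vI_le_iff.1 h1
    refine (Submodule.eq_of_le_of_finrank_eq h2 ?_).symm
    rw [mca_span_finrank hli, finrank_limS R, hΛ]
  have hlimeq : limI R p = C.lI j := by rw [hlimΛ, hΛeq, hlj]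
  have hsq : p ^ 2 ≤ qp I p := sq_le_qp S.hI S.lin hp hne hL (by simpa using hLq)
  have hTn : ∀ i, ¬ limI R (qp I p) ≤ C.tI i := by
    intro i hi
    have : i ∈ sT := (hsT i).2 (hsupp (lineI_isPrime _ _) hi)
    rw [Finset.card_eq_zero.1 hT0] at this
    simp at this
  have hLn : ∀ j', limI R (qp I p) ≤ C.lI j' → j' = j := by
    intro j' hj'
    have : j' ∈ sL := (hsL j').2 (hsupp (lineI_isPrime _ _) hj')
    rw [hj] at this
    simpa using this
  have hd : limI R (qp I p) ≤ C.dI j := by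
    by_contra hcon
    obtain ⟨c0, h0⟩ := sup_rank S.good hqlHI hCq j hTn hLn hcon
    have : (2 : ℕ) ≤ 1 := by
      refine Lin_le hLq (c' := c0) ⟨0, fun n _ => ?_⟩
      have := h0 n
      rw [hf_limI R hqHI] at this
      push_cast
      linarith
    omega
  refine ⟨Λ, j, hΛ, hpΛ, hΛeq, hlimeq, hsq, c', hLq, ?_, ?_⟩
  · obtain ⟨n0, hn0⟩ := hLq
    have h1 := hn0 (max n0 (C.M j)) (le_max_left _ _)
    have h2 := hf_anti hd (max n0 (C.M j))
    rw [hf_limI R hqHI] at h2
    have h3 : hf (C.dI j) (max n0 (C.M j)) = 2 * (max n0 (C.M j) : ℕ) + 1 + C.M j :=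
      hf_dblI (S.good.lind j) (S.good.deg j) (S.good.pos j) (le_max_right _ _)
    rw [h3, h1] at h2
    push_cast at h2 ⊢
    linarith
  · have hsq' : (C.lI j) ^ 2 ≤ limI R (qp I p) := by
      rw [← hlimeq]
      exact le_trans (limI_pow R 2) (limI_mono R hsq)
    obtain ⟨n1, hn1⟩ := defect_bound S.good hqlHI hCq j hsq'
    obtain ⟨n0, hn0⟩ := hLq
    have h1 := hn0 (max n0 n1) (le_max_left _ _)
    have h2 := hn1 (max n0 n1) (le_max_right _ _)
    rw [hf_limI R hqHI, h1] at h2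
    push_cast at h2 ⊢
    linarith

end Pool.H33.G
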