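import Pool.Agent.H33.G.MCA

/-! # MCB: injectivity of the specialisation on double components; the pure part

`mc_inj`: if `p ≠ p'` both specialise to `L j`, then `q = qp I p ⊓ qp I p'` has slope 4 (`Lin_finset_inf` or
`hf_inf_add_sup`: no prime with unbounded Hilbert function contains both, by `UP_eq`), while
`limI R q ≥ limI R (p^2 * p'^2) ≥ (C.lI j)^4`, so the support of `limI R q` is contained in `{L j}` and
`sup_upper` gives slope `≤ 2`.
`mc_pure`: `J = s.inf (qp I) ≥ I`; `hf I n ≤ hf J n + c` (`decomp`); `sup_pure` for `limI R J` gives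
`limI R J ≤ C.ideal`, hence `hf J n = hf (limI R J) n ≥ hf C.ideal n = hf I n ≥ hf J n` for large `n`. -/

open MvPolynomial Module

namespace Pool.H33.G

variable {K : Type} [Field K] [IsAlgClosed K] {R : ValuationSubring K}
  [Infinite (IsLocalRing.ResidueField R)] {I : Ideal (A4 K)} {ι κ : Type} [Fintype ι] [Fintype κ]
  [DecidableEq ι] [DecidableEq κ] {C : Cfg (IsLocalRing.ResidueField R) ι κ} {Γ : Finset (ι × κ)}

omit [IsAlgClosed K] in
theorem mcb_hg {F : Type} [Field F] {g : Polynomial F} {M : ℕ} (hd : g.natDegree = M) (hM : 0 < M)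
    {t : F} (ht : t ≠ 0) : MvPolynomial.eval ![0, t] (hg g M) ≠ 0 := by
  have h1 : MvPolynomial.eval ![0, t] (hg g M) = g.coeff M * t ^ M := by
    unfold hg
    rw [map_sum, Finset.sum_range_succ]
    have : ∑ i ∈ Finset.range M, MvPolynomial.eval ![0, t]
        (C (g.coeff i) * X 0 ^ (M - i) * X 1 ^ i) = 0 := by
      refine Finset.sum_eq_zero fun i hi => ?_
      have hi' : M - i ≠ 0 := by have := Finset.mem_range.1 hi; omega
      simp [hi']
    rw [this]
    simp
  rw [h1]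
  refine mul_ne_zero ?_ (pow_ne_zero _ ht)
  have hg0 : g ≠ 0 := by rintro rfl; simp at hd; omega
  rw [← hd]
  exact Polynomial.leadingCoeff_ne_zero.2 hg0

omit [IsAlgClosed K] [Fintype ι] [Fintype κ] [DecidableEq ι] [DecidableEq κ] in
theorem mcb_ne (hC : C.Good Γ) (i : ι) (j : κ) : ¬ C.lI j ≤ C.tI i := by
  intro h
  have h1 : Submodule.span (IsLocalRing.ResidueField R) {C.TP i, C.TQ i} ≤
      Submodule.span (IsLocalRing.ResidueField R) {C.P j, C.Q j} := by
    have h2 : vI (Submodule.span _ {C.P j, C.Q j}) ≤ vI (Submodule.span _ {C.TP i, C.TQ i}) := by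
      rw [← lineI_eq_vI, ← lineI_eq_vI]; exact h
    exact vI_le_iff.1 h2
  by_cases hij : (i, j) ∈ Γ
  · obtain ⟨s, t, hst, -, hn⟩ := hC.node i j hij
    have h3 : Submodule.span (IsLocalRing.ResidueField R) {C.P j, C.Q j, C.TP i, C.TQ i} ≤
        Submodule.span _ {C.P j, C.Q j} := by
      refine Submodule.span_le.2 ?_
      rintro x (rfl | rfl | rfl | rfl)
      · exact Submodule.subset_span (by simp)
      · exact Submodule.subset_span (by simp)
      · exact h1 (Submodule.subset_span (by simp))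
      · exact h1 (Submodule.subset_span (by simp))
    obtain ⟨a, b, hab⟩ := Submodule.mem_span_pair.1 (h3 hn)
    set G0 := MvPolynomial.eval ![s, t] (hg (C.g j) (C.M j)) with hG0
    have hli := Fintype.linearIndependent_iff.1 (hC.lind j) ![a, b, -s ^ C.M j, -G0] (by
      simp [Fin.sum_univ_succ]
      rw [← sub_eq_zero] at hab
      rw [← hab]; abel)
    have hs := hli 2
    have ht := hli 3
    simp at hs ht
    have hs0 : s = 0 := hs.1
    subst hs0
    have ht0 : t ≠ 0 := by simpa using hst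
    apply mcb_hg (hC.deg j) (hC.pos j) ht0
    rw [← hG0]; exact ht
  · have hli := hC.non i j hij
    have h4 := mca_disj hli
    have h5 : C.TP i ∈ Submodule.span (IsLocalRing.ResidueField R) {C.TP i, C.TQ i} ⊓
        Submodule.span _ {C.P j, C.Q j} :=
      ⟨Submodule.subset_span (by simp), h1 (Submodule.subset_span (by simp))⟩
    rw [h4, Submodule.mem_bot] at h5
    exact (mca_pair_of_four hli).ne_zero 0 h5

omit [IsAlgClosed K] [Fintype ι] [Fintype κ] [DecidableEq ι] [DecidableEq κ] in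
theorem mcb_ne' (hC : C.Good Γ) {j j' : κ} (hjj : j ≠ j') : ¬ C.lI j ≤ C.lI j' := by
  intro h
  have h1 : Submodule.span (IsLocalRing.ResidueField R) {C.P j', C.Q j'} ≤
      Submodule.span (IsLocalRing.ResidueField R) {C.P j, C.Q j} := by
    have h2 : vI (Submodule.span _ {C.P j, C.Q j}) ≤ vI (Submodule.span _ {C.P j', C.Q j'}) := by
      rw [← lineI_eq_vI, ← lineI_eq_vI]; exact h
    exact vI_le_iff.1 h2
  have hli := hC.ldis j j' hjj
  have h4 := mca_disj hli
  have h5 : C.P j' ∈ Submodule.span (IsLocalRing.ResidueField R) {C.P j, C.Q j} ⊓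
      Submodule.span _ {C.P j', C.Q j'} :=
    ⟨h1 (Submodule.subset_span (by simp)), Submodule.subset_span (by simp)⟩
  rw [h4, Submodule.mem_bot] at h5
  exact (mca_pair_of_four (hC.lind j')).ne_zero 0 h5

theorem mc_inj (S : Sit R I C Γ) {p p' : Ideal (A4 K)} (hp : UP I p) (hp' : UP I p')
    (hne : qp I p ≠ p) (hne' : qp I p' ≠ p') (h : limI R p = limI R p') : p = p' := by
  by_contra hpp
  obtain ⟨Λ, j, hΛ, hpΛ, hlS, hlI, hsq, c, hLq, hc1, hc2⟩ := mc_dichotomy S hp hne
  obtain ⟨Λ', j', hΛ', hpΛ', hlS', hlI', hsq', c', hLq', hc1', hc2'⟩ := mc_dichotomy S hp' hne'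
  have hq : HI (qp I p) := HI_qp S.hI hp.1 hp.2.1
  have hq' : HI (qp I p') := HI_qp S.hI hp'.1 hp'.2.1
  have hsup : HI (qp I p ⊔ qp I p') := HI_sup hq hq'
  have hIq : I ≤ qp I p := le_qp hp.1
  have hIq' : I ≤ qp I p' := le_qp hp'.1
  -- the sum is bounded
  have hb : Bdd (qp I p ⊔ qp I p') := by
    by_contra hb
    obtain ⟨P0, hP0⟩ := exists_prime hsup hb
    have h1 : p ^ 2 ≤ P0 := le_trans hsq (le_trans le_sup_left hP0.2.2.1)
    have h2 : p' ^ 2 ≤ P0 := le_trans hsq' (le_trans le_sup_right hP0.2.2.1)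
    have h3 : p ≤ P0 := hP0.1.le_of_pow_le h1
    have h4 : p' ≤ P0 := hP0.1.le_of_pow_le h2
    have hUP : UP I P0 := ⟨hP0.1, hP0.2.1, le_trans hIq (le_trans le_sup_left hP0.2.2.1), hP0.2.2.2⟩
    exact hpp ((UP_eq S.lin hp hUP h3).trans (UP_eq S.lin hp' hUP h4).symm)
  obtain ⟨b, hb⟩ := hb
  have hqi : HI (qp I p ⊓ qp I p') := HI_inf hq hq'
  have hC : Lle C.ideal (limI R (qp I p ⊓ qp I p')) :=
    Lle_trans S.lle (Lle_of_le (limI_mono R (le_inf hIq hIq')))
  have hpow : (C.lI j) ^ 4 ≤ limI R (qp I p ⊓ qp I p') := by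
    have h1 : p ^ 2 * p' ^ 2 ≤ qp I p ⊓ qp I p' :=
      le_trans (Ideal.mul_mono hsq hsq') Ideal.mul_le_inf
    have h2 : limI R p ^ 2 * limI R p' ^ 2 ≤ limI R (qp I p ⊓ qp I p') :=
      le_trans (Ideal.mul_mono (limI_pow R 2) (limI_pow R 2))
        (le_trans (limI_mul R) (limI_mono R h1))
    rw [← h, hlI, ← pow_add] at h2
    exact h2
  obtain ⟨c0, h0⟩ := sup_upper S.good (HI_limI R hqi) hC ∅ {j}
    (fun i hi => by
      exfalso
      have h1 : C.lI j ≤ C.tI i := by
        have := le_trans hpow hi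
        exact (lineI_isPrime _ _ : (C.tI i).IsPrime).le_of_pow_le this
      exact mcb_ne S.good i j h1)
    (fun j2 hj2 => by
      have h1 : C.lI j ≤ C.lI j2 := by
        have := le_trans hpow hj2
        exact (lineI_isPrime _ _ : (C.lI j2).IsPrime).le_of_pow_le this
      by_contra hcon
      exact mcb_ne' S.good (fun h => hcon (by simp [h])) h1)
  obtain ⟨n1, hn1⟩ := hLq
  obtain ⟨n2, hn2⟩ := hLq'
  -- choose a large `n`
  have key : ∀ n : ℕ, n1 ≤ n → n2 ≤ n → 2 * (n : ℤ) ≤ c0 + b - c - c' := by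
    intro n ha hb'
    have e1 := hf_inf_add_sup hq hq' n
    have e2 := hn1 n ha
    have e3 := hn2 n hb'
    have e4 := hb n
    have e5 := h0 n
    rw [hf_limI R hqi] at e5
    simp only [Finset.card_empty, Finset.card_singleton] at e5
    push_cast at e1 e2 e3 e4 e5
    linarith
  have hbig := key (n1 + n2 + (c0 + b - c - c').toNat + 1) (by omega) (by omega)
  have := Int.self_le_toNat (c0 + b - c - c')
  push_cast at hbig
  have h5 : (0 : ℤ) ≤ n1 := Int.natCast_nonneg _
  have h6 : (0 : ℤ) ≤ n2 := Int.natCast_nonneg _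
  have h7 : (0 : ℤ) ≤ ((c0 + b - c - c').toNat : ℤ) := Int.natCast_nonneg _
  linarith

theorem mc_pure (S : Sit R I C Γ) {s : Finset (Ideal (A4 K))} (hs : ∀ p, p ∈ s ↔ UP I p) :
    limI R (s.inf (qp I)) ≤ C.ideal ∧
      Lin (s.inf (qp I)) (Fintype.card ι + 2 * Fintype.card κ) (chi0 C.M Γ) := by
  obtain ⟨c, hc⟩ := decomp S.hI S.lin hs
  have hJHI : HI (s.inf (qp I)) := HI_finset_inf fun p hp =>
    HI_qp S.hI ((hs p).1 hp).1 ((hs p).1 hp).2.1
  have hIJ : I ≤ s.inf (qp I) := Finset.le_inf fun p hp => le_qp ((hs p).1 hp).1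
  have hC : Lle C.ideal (limI R (s.inf (qp I))) := Lle_trans S.lle (Lle_of_le (limI_mono R hIJ))
  obtain ⟨n0, hn0⟩ := S.lin
  obtain ⟨n1, hn1⟩ := exact_hf S.good
  have h1 : limI R (s.inf (qp I)) ≤ C.ideal := by
    refine sup_pure S.good (HI_limI R hJHI) hC (c := c) ⟨max n0 n1, fun n hn => ?_⟩
    rw [hf_limI R hJHI, hn1 n (le_trans (le_max_right _ _) hn), ← hn0 n (le_trans (le_max_left _ _) hn)]
    exact hc n
  refine ⟨h1, max n0 n1, fun n hn => ?_⟩
  have h2 := hf_anti h1 n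
  rw [hf_limI R hJHI, hn1 n (le_trans (le_max_right _ _) hn)] at h2
  have h3 := hf_anti hIJ n
  rw [hn0 n (le_trans (le_max_left _ _) hn)] at h3
  exact le_antisymm h3 h2

end Pool.H33.G
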