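import Pool.Agent.H33.G.MCB

/-! # MCC: every double line is the limit of a double component (genus counting)

Let `s` be the finite set of all components (`UP_finite`), `D` the subset with `qp I p ≠ p`, `A` the rest.
`hf (s.inf (qp I)) n ≤ Σ_A hf p n + Σ_D hf (qp I p) n ≤ Σ_A (e_p n + 1) + Σ_D (2 n + c_p)` with
`c_p ≤ 1 + M j(p) + ν j(p)`, `j : D → κ` injective (`mc_inj`).  `sum_slopes`:
`Σ_A e_p + 2 |D| = |ι| + 2 |κ|`, so comparing constant terms (`mc_pure`)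
`chi0 ≤ |A| + Σ_D c_p ≤ (|ι| + 2 |κ| - 2 |D|) + Σ_{j ∈ j(D)} (1 + M j + ν j)`.  With `κ' = κ \ j(D)`,
`|κ| - |D| = |κ'|`, `Σ ν j ≤ |Γ|`: `Σ_{j ∈ κ'} (1 + M j - 2) ≤ 3 |Γ|`, contradicting `M j ≥ 3 |Γ| + 2` unless
`κ' = ∅`. -/

open MvPolynomial Module

namespace Pool.H33.G

variable {K : Type} [Field K] [IsAlgClosed K] {R : ValuationSubring K}
  [Infinite (IsLocalRing.ResidueField R)] {I : Ideal (A4 K)} {ι κ : Type} [Fintype ι] [Fintype κ]
  [DecidableEq ι] [DecidableEq κ] {C : Cfg (IsLocalRing.ResidueField R) ι κ} {Γ : Finset (ι × κ)}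

/-- the numerical argument -/
theorem MCC_arith {ι κ P : Type} [Fintype ι] [Fintype κ] [DecidableEq ι] [DecidableEq κ] [DecidableEq P]
    {M : κ → ℕ} {Γ : Finset (ι × κ)} (big : ∀ j, 3 * Γ.card + 2 ≤ M j) (A D : Finset P)
    (e : P → ℕ) (c : P → ℤ) (jj : P → κ) (he : ∀ p ∈ A, 1 ≤ e p) (hinj : Set.InjOn jj D)
    (hsum : ∑ p ∈ A, e p + 2 * D.card = Fintype.card ι + 2 * Fintype.card κ)
    (hc : ∀ p ∈ D, c p ≤ 1 + M (jj p) +
      ((Finset.univ.filter fun i => (i, jj p) ∈ Γ).card : ℤ))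
    (hchi : chi0 M Γ ≤ (A.card : ℤ) + ∑ p ∈ D, c p) (j : κ) : ∃ p ∈ D, jj p = j := by
  classical
  by_contra hcon
  push Not at hcon
  set T : Finset κ := D.image jj with hT
  have hjT : j ∉ T := by
    rw [hT, Finset.mem_image]
    rintro ⟨p, hp, hpj⟩
    exact hcon p hp hpj
  have hcardT : T.card = D.card := Finset.card_image_of_injOn hinj
  have hA : A.card ≤ ∑ p ∈ A, e p := by
    have := Finset.card_nsmul_le_sum A e 1 he
    simpa using this
  have h1 : ∑ p ∈ D, c p ≤ ∑ j ∈ T, (1 + (M j : ℤ) +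
      ((Finset.univ.filter fun i => (i, j) ∈ Γ).card : ℤ)) := by
    rw [hT, Finset.sum_image (fun a ha b hb h => hinj ha hb h)]
    exact Finset.sum_le_sum hc
  have h2 : ∑ j ∈ T, ((Finset.univ.filter fun i => (i, j) ∈ Γ).card : ℤ) ≤ (Γ.card : ℤ) := by
    have h3 : ∑ j : κ, (Finset.univ.filter fun i => (i, j) ∈ Γ).card = Γ.card := by
      rw [Finset.card_eq_sum_card_fiberwise (f := Prod.snd) (t := Finset.univ)
        (fun x _ => Finset.mem_coe.2 (Finset.mem_univ _))]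
      refine Finset.sum_congr rfl fun b _ => ?_
      refine Finset.card_bij (fun i _ => (i, b)) ?_ ?_ ?_
      · intro i hi
        rw [Finset.mem_filter] at hi ⊢
        exact ⟨hi.2, rfl⟩
      · intro i _ i' _ h
        exact (Prod.mk.inj h).1
      · rintro ⟨i, b'⟩ hx
        rw [Finset.mem_filter] at hx
        obtain ⟨hx1, hx2⟩ := hx
        simp only at hx2
        subst hx2
        exact ⟨i, by rw [Finset.mem_filter]; exact ⟨Finset.mem_univ _, hx1⟩, rfl⟩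
    rw [← h3]
    push_cast
    exact Finset.sum_le_sum_of_subset_of_nonneg (Finset.subset_univ _) fun _ _ _ => by positivity
  rw [Finset.sum_add_distrib] at h1
  have h4 : ∑ j ∈ T, (1 + (M j : ℤ)) + ∑ j ∈ Tᶜ, (1 + (M j : ℤ)) = ∑ j, (1 + (M j : ℤ)) :=
    Finset.sum_add_sum_compl T _
  have h5 : (2 : ℤ) * Tᶜ.card + (3 * Γ.card + 1) ≤ ∑ j ∈ Tᶜ, (1 + (M j : ℤ)) := by
    have hj : j ∈ Tᶜ := Finset.mem_compl.2 hjT
    rw [← Finset.add_sum_erase _ _ hj]
    have h6 : (Tᶜ.card : ℤ) = (Tᶜ.erase j).card + 1 := by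
      rw [Finset.card_erase_of_mem hj]
      have : 0 < Tᶜ.card := Finset.card_pos.2 ⟨j, hj⟩
      omega
    have h7 : (2 : ℤ) * (Tᶜ.erase j).card ≤ ∑ j ∈ Tᶜ.erase j, (1 + (M j : ℤ)) := by
      have := Finset.card_nsmul_le_sum (Tᶜ.erase j) (fun j => 1 + (M j : ℤ)) 2 fun x _ => by
        have := big x
        have h8 : (2 : ℤ) ≤ M x := by exact_mod_cast (by omega : 2 ≤ M x)
        linarith
      rw [nsmul_eq_mul] at this
      linarith
    have h8 : (3 : ℤ) * Γ.card + 2 ≤ M j := by exact_mod_cast big j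
    linarith
  have h6 : (Tᶜ.card : ℤ) = Fintype.card κ - D.card := by
    have := Finset.card_add_card_compl T
    rw [hcardT] at this
    omega
  unfold chi0 at hchi
  have hsum' : (∑ p ∈ A, (e p : ℤ)) + 2 * D.card = Fintype.card ι + 2 * Fintype.card κ := by
    exact_mod_cast hsum
  have hA' : (A.card : ℤ) ≤ ∑ p ∈ A, (e p : ℤ) := by exact_mod_cast hA
  linarith

theorem mc_surj (S : Sit R I C Γ) (j : κ) :
    ∃ p, UP I p ∧ qp I p ≠ p ∧ limI R p = C.lI j := by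
  classical
  have hfin : {p | UP I p}.Finite := UP_finite S.hI S.lin
  set s : Finset (Ideal (A4 K)) := hfin.toFinset with hs
  have hs' : ∀ p, p ∈ s ↔ UP I p := fun p => by rw [hs, Set.Finite.mem_toFinset]; rfl
  set A := s.filter fun p => qp I p = p with hA
  set D := s.filter fun p => ¬ qp I p = p with hD
  have h1 : ∀ p : Ideal (A4 K), ∃ (e : ℕ) (c : ℤ), UP I p →
      (Lin p e c ∧ 1 ≤ e ∧ ∀ n : ℕ, hf p n ≤ e * n + 1) := by
    intro p
    by_cases hp : UP I p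
    · obtain ⟨e, c, h⟩ := mc_comp S hp
      exact ⟨e, c, fun _ => h⟩
    · exact ⟨0, 0, fun h => absurd h hp⟩
  choose e c0 hec using h1
  have h2 : ∀ p : Ideal (A4 K), ∃ (j' : κ) (c : ℤ), (UP I p ∧ qp I p ≠ p) →
      (limI R p = C.lI j' ∧ Lin (qp I p) 2 c ∧
        c ≤ 1 + C.M j' + ((Finset.univ.filter fun i => (i, j') ∈ Γ).card : ℤ)) := by
    intro p
    by_cases hp : UP I p ∧ qp I p ≠ p
    · obtain ⟨Λ, j', -, -, -, h3, -, c, h4, -, h5⟩ := mc_dichotomy S hp.1 hp.2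
      exact ⟨j', c, fun _ => ⟨h3, h4, h5⟩⟩
    · exact ⟨j, 0, fun h => absurd h hp⟩
  choose jj c hjc using h2
  have hAm : ∀ p ∈ A, UP I p ∧ qp I p = p := fun p hp => by
    rw [hA, Finset.mem_filter] at hp
    exact ⟨(hs' p).1 hp.1, hp.2⟩
  have hDm : ∀ p ∈ D, UP I p ∧ qp I p ≠ p := fun p hp => by
    rw [hD, Finset.mem_filter] at hp
    exact ⟨(hs' p).1 hp.1, hp.2⟩
  have hinj : Set.InjOn jj D := by
    intro p hp p' hp' h
    have h3 := hDm p hp
    have h4 := hDm p' hp'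
    refine mc_inj S h3.1 h4.1 h3.2 h4.2 ?_
    rw [(hjc p h3).1, (hjc p' h4).1, h]
  -- slopes
  have hsum := sum_slopes (I := I) S.hI S.lin hs' (e := fun p => if qp I p = p then e p else 2)
    (c := fun p => if qp I p = p then c0 p else c p) (by
      intro p hp
      by_cases h : qp I p = p
      · simp only [if_pos h]
        rw [h]
        exact (hec p ((hs' p).1 hp)).1
      · simp only [if_neg h]
        exact (hjc p ⟨(hs' p).1 hp, h⟩).2.1)
  have hsum2 : ∑ p ∈ A, e p + 2 * D.card = Fintype.card ι + 2 * Fintype.card κ := by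
    rw [← hsum, Finset.sum_ite]
    rw [Finset.sum_const, smul_eq_mul, mul_comm]
  -- the constant terms
  have hup : ∃ n0 : ℕ, ∀ n ≥ n0, hf (s.inf (qp I)) n ≤
      ∑ p ∈ A, ((e p : ℤ) * n + 1) + ∑ p ∈ D, (2 * (n : ℤ) + c p) := by
    have h5 : ∀ p ∈ D, ∃ n0 : ℕ, ∀ n ≥ n0, hf (qp I p) n = 2 * (n : ℤ) + c p := fun p hp => by
      obtain ⟨n0, h⟩ := (hjc p (hDm p hp)).2.1
      exact ⟨n0, fun n hn => by rw [h n hn]; push_cast; ring⟩
    choose! N hN using h5
    refine ⟨D.sup N, fun n hn => ?_⟩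
    refine le_trans (hf_finset_inf_le (fun p hp => ?_) n) ?_
    · have := (hs' p).1 hp
      exact HI_qp S.hI this.1 this.2.1
    · rw [← Finset.sum_filter_add_sum_filter_not s (fun p => qp I p = p)]
      refine add_le_add (Finset.sum_le_sum fun p hp => ?_) (Finset.sum_le_sum fun p hp => ?_)
      · have h6 := hAm p hp
        rw [h6.2]
        exact (hec p h6.1).2.2 n
      · exact (hN p hp n (le_trans (Finset.le_sup hp) hn)).le
  obtain ⟨n1, hn1⟩ := hup
  obtain ⟨n2, hn2⟩ := (mc_pure S hs').2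
  have hchi : chi0 C.M Γ ≤ (A.card : ℤ) + ∑ p ∈ D, c p := by
    have h6 := hn1 (n1 + n2) (by omega)
    rw [hn2 (n1 + n2) (by omega), Finset.sum_add_distrib, Finset.sum_add_distrib,
      ← Finset.sum_mul, Finset.sum_const, Finset.sum_const, nsmul_eq_mul, nsmul_eq_mul] at h6
    have h7 : (∑ p ∈ A, (e p : ℤ)) + 2 * D.card = Fintype.card ι + 2 * Fintype.card κ := by
      exact_mod_cast hsum2
    have h8 : ((Fintype.card ι + 2 * Fintype.card κ : ℕ) : ℤ) = (∑ p ∈ A, (e p : ℤ)) + 2 * D.card := by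
      rw [h7]; push_cast; ring
    rw [h8] at h6
    have h9 : ((∑ p ∈ A, (e p : ℤ)) + 2 * D.card) * ((n1 + n2 : ℕ) : ℤ) =
      (∑ p ∈ A, (e p : ℤ)) * ((n1 + n2 : ℕ) : ℤ) + (D.card : ℤ) * (2 * ((n1 + n2 : ℕ) : ℤ)) := by ring
    rw [h9] at h6
    linarith
  obtain ⟨p, hp, hpj⟩ := MCC_arith S.big A D e c jj (fun p hp => (hec p (hAm p hp).1).2.1) hinj hsum2
    (fun p hp => (hjc p (hDm p hp)).2.2) hchi j
  refine ⟨p, (hDm p hp).1, (hDm p hp).2, ?_⟩
  rw [(hjc p (hDm p hp)).1, hpj]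

end Pool.H33.G
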