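import Pool.Agent.H33.G.MCC

/-! # MCD: the reduced components are lines specialising bijectively to the `T i`

Notation as in MCC.  `|D| = |κ|` (`mc_inj`, `mc_surj`), so `Σ_A e_p = |ι|` (`sum_slopes`).  Let
`a = A.inf id`.  `limI R a * limI R (D.inf (qp I)) ≤ limI R (s.inf (qp I)) ≤ C.ideal ≤ C.tI i`; `D.inf (qp I)`
contains `∏ p^2`, so `limI R (D.inf ..) ≥ ∏ (C.lI j)^2` is not contained in the prime `C.tI i`; so
`limI R a ≤ C.tI i` for all `i`.  By `low` (κ = Empty) `hf a n = hf (limI R a) n ≥ |ι| (n + 1)` for large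
`n`, while `hf a n ≤ Σ_A (e_p n + 1) = |ι| n + |A|`, so `|A| ≥ |ι| = Σ e_p ≥ |A|`: all `e_p = 1` and
`|A| = |ι|`.  `eq_vI_of_prime` shows that the `p ∈ A` are lines.  For each `i`, `∏_A limI R p ≤ limI R a ≤ C.tI i`
gives `p_i ∈ A` with `limI R p_i ≤ C.tI i`, so equality (`limI_vI`, `vI_le_iff`).  `i ↦ p_i` is injective, hence
bijective onto `A`. -/

open MvPolynomial Module

namespace Pool.H33.G

variable {K : Type} [Field K] [IsAlgClosed K] {R : ValuationSubring K}
  [Infinite (IsLocalRing.ResidueField R)] {I : Ideal (A4 K)} {ι κ : Type} [Fintype ι] [Fintype κ]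
  [DecidableEq ι] [DecidableEq κ] {C : Cfg (IsLocalRing.ResidueField R) ι κ} {Γ : Finset (ι × κ)}

omit [IsAlgClosed K] [Infinite (IsLocalRing.ResidueField R)] in
theorem mcd_limI_top : limI R (⊤ : Ideal (A4 K)) = ⊤ := by
  rw [Ideal.eq_top_iff_one, mem_limI]
  exact ⟨1, Submodule.mem_top, map_one _⟩

theorem mcd_prod_le (s : Finset (Ideal (A4 K))) (f : Ideal (A4 K) → Ideal (A4 K)) :
    ∏ p ∈ s, limI R (f p) ≤ limI R (s.inf f) := by
  classical
  induction s using Finset.induction_on with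
  | empty => rw [Finset.inf_empty, mcd_limI_top]; exact le_top
  | insert a s ha ih =>
    rw [Finset.prod_insert ha, Finset.inf_insert]
    exact (Ideal.mul_mono_right ih).trans ((limI_mul R).trans (limI_mono R Ideal.mul_le_inf))

omit [IsAlgClosed K] in
theorem mcd_not_le (S : Sit R I C Γ) (i : ι) (j : κ) : ¬ C.lI j ≤ C.tI i := by
  intro h
  have F := sup_fam S.good
  have h1 := F.eq_of_le (a := Sum.inr j) (p := C.tI i) (F.hI (Sum.inl i)) (F.not_bdd (Sum.inl i)) h
  have h2 := F.inj (Sum.inr j) (Sum.inl i) h1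
  simp at h2

/-- the number of double components -/
theorem mcd_card_D (S : Sit R I C Γ) {D : Finset (Ideal (A4 K))}
    (hD : ∀ p, p ∈ D ↔ UP I p ∧ qp I p ≠ p) : D.card = Fintype.card κ := by
  classical
  choose P hP1 hP2 hP3 using mc_surj S
  have hinj : Function.Injective P := by
    intro j j' h
    have h1 : C.lI j = C.lI j' := by rw [← hP3 j, ← hP3 j', h]
    have h2 := (sup_fam S.good).inj (Sum.inr j) (Sum.inr j') h1
    simpa using h2
  have hDeq : D = Finset.univ.image P := by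
    ext p
    rw [hD, Finset.mem_image]
    constructor
    · rintro ⟨hp, hne⟩
      obtain ⟨Λ, j, -, -, -, hl, -⟩ := mc_dichotomy S hp hne
      refine ⟨j, Finset.mem_univ j, ?_⟩
      exact mc_inj S (hP1 j) hp (hP2 j) hne (by rw [hP3 j, hl])
    · rintro ⟨j, -, rfl⟩
      exact ⟨hP1 j, hP2 j⟩
  rw [hDeq, Finset.card_image_of_injective _ hinj, Finset.card_univ]

/-- every reduced line of `C` contains the limit of a reduced component -/
theorem mcd_exists (S : Sit R I C Γ) {s : Finset (Ideal (A4 K))} (hs : ∀ p, p ∈ s ↔ UP I p)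
    (i : ι) : ∃ p, UP I p ∧ qp I p = p ∧ limI R p ≤ C.tI i := by
  have h1 : limI R (s.inf (qp I)) ≤ C.tI i :=
    (mc_pure S hs).1.trans (inf_le_left.trans (iInf_le _ i))
  have h2 := (mcd_prod_le s (qp I)).trans h1
  have hprime : (C.tI i).IsPrime := lineI_isPrime _ _
  obtain ⟨p, hps, hp⟩ := (Ideal.IsPrime.prod_le hprime).1 h2
  have hup := (hs p).1 hps
  by_cases hne : qp I p = p
  · exact ⟨p, hup, hne, by rw [hne] at hp; exact hp⟩
  · exfalso
    obtain ⟨Λ, j, -, -, -, hl, hsq, -⟩ := mc_dichotomy S hup hne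
    have h3 : limI R p ^ 2 ≤ C.tI i := (limI_pow R 2).trans ((limI_mono R hsq).trans hp)
    have h4 := hprime.le_of_pow_le h3
    rw [hl] at h4
    exact mcd_not_le S i j h4

theorem mc_red (S : Sit R I C Γ) : ∃ T' : ι → Submodule K (Fin 4 → K),
    (∀ i, finrank K (T' i) = 2) ∧ (∀ i, limS R (T' i) = Submodule.span _ {C.TP i, C.TQ i}) ∧
    (∀ p, (UP I p ∧ qp I p = p) ↔ ∃ i, p = vI (T' i)) := by
  classical
  have hinfK : Infinite K := inferInstance
  obtain ⟨s, hs⟩ : ∃ s : Finset (Ideal (A4 K)), ∀ p, p ∈ s ↔ UP I p :=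
    ⟨(UP_finite S.hI S.lin).toFinset, fun p => by simp⟩
  let A := s.filter fun p => qp I p = p
  let D := s.filter fun p => ¬ qp I p = p
  have hA : ∀ p, p ∈ A ↔ UP I p ∧ qp I p = p := fun p => by simp [A, hs]
  have hD : ∀ p, p ∈ D ↔ UP I p ∧ qp I p ≠ p := fun p => by simp [D, hs]
  have hDc := mcd_card_D S hD
  -- slopes
  have hex : ∀ p, ∃ (e : ℕ) (c : ℤ), UP I p → Lin (qp I p) e c := by
    intro p
    by_cases hp : UP I p
    · obtain ⟨e, c, -, h⟩ := exists_Lin_of_le (HI_qp S.hI hp.1 hp.2.1) (le_qp (I := I) hp.1) S.lin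
      exact ⟨e, c, fun _ => h⟩
    · exact ⟨0, 0, fun h => absurd h hp⟩
  choose e c he using hex
  have hsum := sum_slopes S.hI S.lin hs (e := e) (c := c) (fun p hp => he p ((hs p).1 hp))
  have hsplit : ∑ p ∈ A, e p + ∑ p ∈ D, e p = ∑ p ∈ s, e p :=
    Finset.sum_filter_add_sum_filter_not s (fun p => qp I p = p) e
  have hDsum : ∑ p ∈ D, e p = 2 * Fintype.card κ := by
    have h1 : ∀ p ∈ D, e p = 2 := by
      intro p hp
      obtain ⟨hup, hne⟩ := (hD p).1 hp
      obtain ⟨Λ, j, -, -, -, -, -, c', hL, -⟩ := mc_dichotomy S hup hne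
      exact (Lin_unique (he p hup) hL).1
    rw [Finset.sum_congr rfl h1, Finset.sum_const, hDc, smul_eq_mul, mul_comm]
  have hAsum : ∑ p ∈ A, e p = Fintype.card ι := by omega
  have hAe : ∀ p ∈ A, 1 ≤ e p ∧ (∀ n : ℕ, hf p n ≤ e p * n + 1) ∧ Lin p (e p) (c p) := by
    intro p hp
    obtain ⟨hup, heq⟩ := (hA p).1 hp
    obtain ⟨e1, c1, hL, h1, h2⟩ := mc_comp S hup
    have h3 := he p hup
    rw [heq] at h3
    obtain ⟨h4, h5⟩ := Lin_unique h3 hL
    rw [h4]
    exact ⟨h1, h2, h5 ▸ hL⟩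
  -- counting
  choose p hp1 hp2 hp3 using mcd_exists S hs
  have hpA : ∀ i, p i ∈ A := fun i => (hA _).2 ⟨hp1 i, hp2 i⟩
  have hHIA : ∀ q ∈ A, HI (id q) := fun q hq => ((hA q).1 hq).1.2.1
  have hcard : Fintype.card ι ≤ A.card := by
    obtain ⟨n0, hn0⟩ := low (F := IsLocalRing.ResidueField R) (ι := ι) (κ := Empty)
      (fun i => Submodule.span _ {C.TP i, C.TQ i}) (fun j => j.elim)
      (fun i => mca_span_finrank (S.good.tind i)) (fun j => j.elim)
      (fun i i' hii => mca_disj (S.good.tdis i i' hii))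
      (fun j => j.elim) (fun _ j => j.elim) (fun j => j.elim) (fun j => j.elim) (fun j => j.elim)
      (fun j => j.elim) ∅ (fun _ j => j.elim)
    have h1 := hn0 n0 le_rfl
    have h2 : limI R (A.inf id) ≤ (⨅ i : ι, vI (Submodule.span _ {C.TP i, C.TQ i})) ⊓
        (⨅ j : Empty, (j.elim : Ideal (A4 (IsLocalRing.ResidueField R)))) := by
      refine le_inf (le_iInf fun i => ?_) (le_iInf fun j => j.elim)
      rw [← lineI_eq_vI]
      exact (limI_mono R (Finset.inf_le (f := id) (hpA i))).trans (hp3 i)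
    have h3 := hf_anti h2 n0
    rw [hf_limI R (HI_finset_inf hHIA)] at h3
    have h4 := hf_finset_inf_le hHIA n0
    have h5 : ∑ a ∈ A, hf (id a) n0 ≤ ∑ a ∈ A, ((e a : ℤ) * n0 + 1) :=
      Finset.sum_le_sum fun q hq => (hAe q hq).2.1 n0
    rw [Finset.sum_add_distrib, ← Finset.sum_mul, Finset.sum_const, nsmul_eq_mul, mul_one] at h5
    have h6 : (∑ a ∈ A, (e a : ℤ)) = Fintype.card ι := by
      rw [← hAsum]; push_cast; rfl
    rw [h6] at h5
    simp only [Finset.univ_eq_empty, Finset.sum_empty, Finset.card_empty] at h1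
    have h7 := h1.trans (h3.trans (h4.trans h5))
    push_cast at h7
    have h8 : (Fintype.card ι : ℤ) ≤ A.card := by linarith
    exact_mod_cast h8
  have hcard2 : A.card ≤ Fintype.card ι := by
    rw [← hAsum, Finset.card_eq_sum_ones]
    exact Finset.sum_le_sum fun q hq => (hAe q hq).1
  have hcardA : A.card = Fintype.card ι := le_antisymm hcard2 hcard
  have he1 : ∀ q ∈ A, e q = 1 := by
    intro q hq
    have h1 : ∑ a ∈ A, 1 = ∑ a ∈ A, e a := by
      rw [hAsum, ← hcardA, Finset.card_eq_sum_ones]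
    exact ((Finset.sum_eq_sum_iff_of_le fun a ha => (hAe a ha).1).1 h1 q hq).symm
  -- the components are lines
  have hline : ∀ q ∈ A, ∃ Λ : Submodule K (Fin 4 → K), finrank K Λ = 2 ∧ q = vI Λ := by
    intro q hq
    obtain ⟨-, h2, h3⟩ := hAe q hq
    rw [he1 q hq] at h2 h3
    exact eq_vI_of_prime ((hA q).1 hq).1.1 ((hA q).1 hq).1.2.1 h3
      (fun n => by have := h2 n; push_cast at this; linarith)
  choose T' hT1 hT2 using fun i => hline (p i) (hpA i)
  have hT3 : ∀ i, limS R (T' i) = Submodule.span _ {C.TP i, C.TQ i} := by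
    intro i
    have h1 : vI (limS R (T' i)) ≤ vI (Submodule.span _ {C.TP i, C.TQ i}) := by
      rw [← limI_vI R (hT1 i), ← hT2 i, ← lineI_eq_vI]
      exact hp3 i
    have h2 := vI_le_iff.1 h1
    refine (Submodule.eq_of_le_of_finrank_eq h2 ?_).symm
    rw [mca_span_finrank (S.good.tind i), finrank_limS R, hT1 i]
  have hinj : Function.Injective p := by
    intro i i' h
    have h1 : ∀ i, limI R (p i) = C.tI i := by
      intro i
      have h2 : limI R (p i) = limI R (vI (T' i)) := by rw [← hT2 i]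
      rw [h2, limI_vI R (hT1 i), hT3 i]
      exact (lineI_eq_vI _ _).symm
    have h3 : C.tI i = C.tI i' := by rw [← h1 i, ← h1 i', h]
    have h4 := (sup_fam S.good).inj (Sum.inl i) (Sum.inl i') h3
    simpa using h4
  have himg : Finset.univ.image p = A := by
    refine Finset.eq_of_subset_of_card_le ?_ ?_
    · intro q hq
      obtain ⟨i, -, rfl⟩ := Finset.mem_image.1 hq
      exact hpA i
    · rw [Finset.card_image_of_injective _ hinj, Finset.card_univ, hcardA]
  refine ⟨T', hT1, hT3, fun q => ?_⟩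
  rw [← hA q, ← himg, Finset.mem_image]
  constructor
  · rintro ⟨i, -, rfl⟩
    exact ⟨i, hT2 i⟩
  · rintro ⟨i, rfl⟩
    exact ⟨i, Finset.mem_univ i, hT2 i⟩

end Pool.H33.G
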