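import Pool.Agent.H33.G.MCD

/-! # MCE: the incidences are preserved

`L' j` from `mc_surj`, `mc_dichotomy`; `T' i` from `mc_red`.  Disjointness of the `T' i` among each other and of
the `L' j`, and `T' i ⊓ L' j = ⊥` for `(i,j) ∉ Γ`: `inf_eq_bot_of_limS`.  `T' i ≠ L' j` since
`vI (T' i)` satisfies `qp = p` and `vI (L' j)` does not.  Let `Γ' = {(i,j) | T' i ⊓ L' j ≠ ⊥} ⊆ Γ`.
`(⨅ vI (T' i)) ⊓ (⨅ qp I (vI (L' j))) = s.inf (qp I)`.  `low` and `mc_pure`:
`|ι| + Σ c_j - 2 |Γ'| ≤ chi0 = |ι| + Σ (1 + M j) - 2 |Γ|` with `c_j ≥ 1 + M j`; so `|Γ'| ≥ |Γ|`, `Γ' = Γ` and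
`c_j = 1 + M j`. -/

open MvPolynomial Module

namespace Pool.H33.G

/-- the conclusion of the classification: lines `T' i`, `L' j` over `K` -/
structure Out {K : Type} [Field K] (R : ValuationSubring K) (I : Ideal (A4 K)) {ι κ : Type}
    (C : Cfg (IsLocalRing.ResidueField R) ι κ) (Γ : Finset (ι × κ))
    (T' : ι → Submodule K (Fin 4 → K)) (L' : κ → Submodule K (Fin 4 → K)) : Prop where
  fT : ∀ i, finrank K (T' i) = 2
  fL : ∀ j, finrank K (L' j) = 2
  lT : ∀ i, limS R (T' i) = Submodule.span _ {C.TP i, C.TQ i}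
  lL : ∀ j, limS R (L' j) = Submodule.span _ {C.P j, C.Q j}
  redT : ∀ p, (UP I p ∧ qp I p = p) ↔ ∃ i, p = vI (T' i)
  redL : ∀ p, (UP I p ∧ qp I p ≠ p) ↔ ∃ j, p = vI (L' j)
  chi : ∀ j, Lin (qp I (vI (L' j))) 2 (1 + C.M j)
  inc : ∀ i j, (i, j) ∈ Γ ↔ T' i ⊓ L' j ≠ ⊥

variable {K : Type} [Field K] [IsAlgClosed K] {R : ValuationSubring K}
  [Infinite (IsLocalRing.ResidueField R)] {I : Ideal (A4 K)} {ι κ : Type} [Fintype ι] [Fintype κ]
  [DecidableEq ι] [DecidableEq κ] {C : Cfg (IsLocalRing.ResidueField R) ι κ} {Γ : Finset (ι × κ)}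

/-- two lines with four independent spanning vectors are disjoint -/
theorem MCE_disj {F : Type} [Field F] {a b c d : Fin 4 → F} (h : LinearIndependent F ![a, b, c, d]) :
    Submodule.span F {a, b} ⊓ Submodule.span F {c, d} = ⊥ := by
  rw [eq_bot_iff]
  rintro x ⟨hx1, hx2⟩
  obtain ⟨s, t, hst⟩ := Submodule.mem_span_pair.1 hx1
  obtain ⟨u, v, huv⟩ := Submodule.mem_span_pair.1 hx2
  have h0 := Fintype.linearIndependent_iff.1 h ![s, t, -u, -v] (by
    rw [Fin.sum_univ_four]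
    show s • a + t • b + (-u) • c + (-v) • d = 0
    rw [neg_smul, neg_smul]
    have : s • a + t • b = u • c + v • d := by rw [hst, huv]
    rw [this]
    abel)
  have hs : s = 0 := h0 0
  have ht : t = 0 := h0 1
  rw [Submodule.mem_bot, ← hst, hs, ht, zero_smul, zero_smul, add_zero]

theorem mc_main (S : Sit R I C Γ) : ∃ T' L', Out R I C Γ T' L' := by
  classical
  have : Infinite K := IsAlgClosed.instInfinite
  have hfin : {p | UP I p}.Finite := UP_finite S.hI S.lin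
  set s : Finset (Ideal (A4 K)) := hfin.toFinset with hs
  have hs' : ∀ p, p ∈ s ↔ UP I p := fun p => by rw [hs, Set.Finite.mem_toFinset]; rfl
  obtain ⟨T', hT2, hTlim, hTred⟩ := mc_red S
  -- the double lines
  have hL : ∀ j, ∃ (Λ : Submodule K (Fin 4 → K)) (c : ℤ), finrank K Λ = 2 ∧ UP I (vI Λ) ∧
      qp I (vI Λ) ≠ vI Λ ∧ limS R Λ = Submodule.span _ {C.P j, C.Q j} ∧
      limI R (vI Λ) = C.lI j ∧ (vI Λ) ^ 2 ≤ qp I (vI Λ) ∧ Lin (qp I (vI Λ)) 2 c ∧
      1 + (C.M j : ℤ) ≤ c := by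
    intro j
    obtain ⟨p, hp, hne, hlim⟩ := mc_surj S j
    obtain ⟨Λ, j', h1, h2, h3, h4, h5, c, h6, h7, -⟩ := mc_dichotomy S hp hne
    have hjj : j' = j := by
      by_contra hj
      have h8 : C.lI j' = C.lI j := by rw [← h4, hlim]
      unfold Cfg.lI at h8
      rw [lineI_eq_vI, lineI_eq_vI] at h8
      have h9 := vI_inj h8
      have h10 := MCE_disj (S.good.ldis j' j hj)
      rw [← h9, inf_idem] at h10
      have h11 : finrank (IsLocalRing.ResidueField R) (Submodule.span (IsLocalRing.ResidueField R) {C.P j', C.Q j'}) = 2 := by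
        rw [← h3, finrank_limS, h1]
      rw [h10, finrank_bot] at h11
      omega
    subst hjj
    subst h2
    exact ⟨Λ, c, h1, hp, hne, h3, h4, h5, h6, h7⟩
  choose L' cc hL2 hLU hLne hLlim hLlimI hLsq hLlin hLc using hL
  have hredL : ∀ p, (UP I p ∧ qp I p ≠ p) ↔ ∃ j, p = vI (L' j) := by
    intro p
    constructor
    · rintro ⟨hp, hne⟩
      obtain ⟨Λ, j, h1, h2, h3, h4, h5, c, h6, h7, -⟩ := mc_dichotomy S hp hne
      exact ⟨j, mc_inj S hp (hLU j) hne (hLne j) (by rw [h4, hLlimI])⟩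
    · rintro ⟨j, rfl⟩
      exact ⟨hLU j, hLne j⟩
  set Γ' : Finset (ι × κ) := Finset.univ.filter fun x => T' x.1 ⊓ L' x.2 ≠ ⊥ with hΓ'
  have hsub : Γ' ⊆ Γ := by
    intro x hx
    rw [hΓ', Finset.mem_filter] at hx
    by_contra hxΓ
    apply hx.2
    apply inf_eq_bot_of_limS R
    rw [hTlim, hLlim]
    exact MCE_disj (S.good.non x.1 x.2 hxΓ)
  have hTU : ∀ i, UP I (vI (T' i)) ∧ qp I (vI (T' i)) = vI (T' i) := fun i =>
    (hTred _).2 ⟨i, rfl⟩
  have hlow := low T' L' hT2 hL2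
    (fun i i' hii => inf_eq_bot_of_limS R (by
      rw [hTlim, hTlim]
      exact MCE_disj (S.good.tdis i i' hii)))
    (fun j j' hjj => inf_eq_bot_of_limS R (by
      rw [hLlim, hLlim]
      exact MCE_disj (S.good.ldis j j' hjj)))
    (fun i j hij => hLne j (by rw [← hij]; exact (hTU i).2))
    (fun j => qp I (vI (L' j))) (fun j => HI_qp S.hI (hLU j).1 (hLU j).2.1) hLsq
    (fun j => qp_le (hLU j).1 (hLU j).2.2.1) Γ' (fun i j hij => by
      by_contra h
      exact hij (by rw [hΓ', Finset.mem_filter]; exact ⟨Finset.mem_univ _, h⟩))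
  obtain ⟨n1, hn1⟩ := hlow
  obtain ⟨n2, hn2⟩ := (mc_pure S hs').2
  choose N hN using hLlin
  have hle : s.inf (qp I) ≤ (⨅ i, vI (T' i)) ⊓ (⨅ j, qp I (vI (L' j))) := by
    refine le_inf (le_iInf fun i => ?_) (le_iInf fun j => ?_)
    · have h1 : s.inf (qp I) ≤ qp I (vI (T' i)) := Finset.inf_le ((hs' _).2 (hTU i).1)
      rwa [(hTU i).2] at h1
    · exact Finset.inf_le ((hs' _).2 (hLU j))
  have hkey : ∑ j, cc j - 2 * (Γ'.card : ℤ) ≤ ∑ j, (1 + (C.M j : ℤ)) - 2 * Γ.card := by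
    set n := n1 + n2 + Finset.univ.sup N with hn
    have h1 := hn1 n (by omega)
    have h2 := hn2 n (by omega)
    have h3 := hf_anti hle n
    have h4 : ∑ j, hf (qp I (vI (L' j))) n = ∑ j, (2 * (n : ℤ) + cc j) := by
      refine Finset.sum_congr rfl fun j _ => ?_
      have := hN j n (le_trans (Finset.le_sup (Finset.mem_univ j)) (by omega))
      rw [this]
      push_cast
      ring
    rw [h4, Finset.sum_add_distrib, Finset.sum_const, nsmul_eq_mul, Finset.card_univ] at h1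
    unfold chi0 at h2
    rw [h2] at h3
    have h5 := le_trans h1 h3
    push_cast at h5
    nlinarith [h5]
  have hsumc : ∑ j, (1 + (C.M j : ℤ)) ≤ ∑ j, cc j := Finset.sum_le_sum fun j _ => hLc j
  have hcard := Finset.card_le_card hsub
  have hΓeq : Γ' = Γ := Finset.eq_of_subset_of_card_le hsub (by
    have h1 : (Γ.card : ℤ) ≤ Γ'.card := by linarith
    exact_mod_cast h1)
  have hceq : ∀ j, cc j = 1 + (C.M j : ℤ) := by
    have h1 : ∑ j, (1 + (C.M j : ℤ)) = ∑ j, cc j := by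
      rw [hΓeq] at hkey
      linarith
    intro j
    exact ((Finset.sum_eq_sum_iff_of_le fun j _ => hLc j).1 h1 j (Finset.mem_univ j)).symm
  refine ⟨T', L', ?_⟩
  exact
    { fT := hT2
      fL := hL2
      lT := hTlim
      lL := hLlim
      redT := hTred
      redL := hredL
      chi := fun j => by
        rw [← hceq j]
        exact ⟨N j, hN j⟩
      inc := fun i j => by
        rw [← hΓeq, hΓ', Finset.mem_filter]
        exact ⟨fun h => h.2, fun h => ⟨Finset.mem_univ _, h⟩⟩ }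

end Pool.H33.G
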