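import Pool.Agent.H33.G.XCA

/-! # PLA: plane configuration attached to lines in `K^4`, algebra over `K`

`T : Fin 9 → ..`, `L : Fin 10 → ..` lines (2-dimensional subspaces of `K^4`). `PD` = coordinates:
`E` a basis of `K^4` with `E 0, E 1 ∈ L 0`, `E 2, E 3 ∈ L 1`, `E 1, E 3 ∈ T 8` and
`E 0 + α i E 1, E 2 + β i E 3 ∈ T i` for `i < 8`.

* `collinear`: for `b : Fin 8` choose nonzero `w ∈ T 8 ⊓ L (b+2)`, `w = x E1 + y E3` with `x, y ≠ 0` (as
  `L (b+2)` is disjoint from `L 0`, `L 1`) and nonzero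
  `w_i = a_i (E0 + α_i E1) + b_i (E2 + β_i E3) ∈ T i ⊓ L (b+2)`, `a_i, b_i ≠ 0`; `L (b+2)` is spanned by `w, w_i`;
  so `w_j = c w_i + d w`: `(α_j - α_i) : (β_j - β_i) = x b_i : y a_i`.
* `PD_unique`: `L 0 ⊓ T 8` and `L 1 ⊓ T 8` are one dimensional.
-/

open Module

namespace Pool.H33.G

variable {K : Type} [Field K]

structure PD (T : Fin 9 → Submodule K (Fin 4 → K)) (L : Fin 10 → Submodule K (Fin 4 → K))
    (E : Fin 4 → (Fin 4 → K)) (α β : Fin 8 → K) : Prop where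
  ind : LinearIndependent K E
  e0 : E 0 ∈ L 0
  e1 : E 1 ∈ L 0
  e2 : E 2 ∈ L 1
  e3 : E 3 ∈ L 1
  t1 : E 1 ∈ T 8
  t3 : E 3 ∈ T 8
  a : ∀ i : Fin 8, E 0 + α i • E 1 ∈ T i.castSucc
  b : ∀ i : Fin 8, E 2 + β i • E 3 ∈ T i.castSucc

theorem pla_coord {E : Fin 4 → (Fin 4 → K)} (h : LinearIndependent K E) (c0 c1 c2 c3 : K)
    (h0 : c0 • E 0 + c1 • E 1 + c2 • E 2 + c3 • E 3 = 0) : c0 = 0 ∧ c1 = 0 ∧ c2 = 0 ∧ c3 = 0 := by
  rw [Fintype.linearIndependent_iff] at h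
  have h1 := h ![c0, c1, c2, c3] (by
    rw [Fin.sum_univ_four]
    exact h0)
  exact ⟨h1 0, h1 1, h1 2, h1 3⟩

theorem pla_span {M : Submodule K (Fin 4 → K)} (hM : finrank K M = 2) {u v : Fin 4 → K}
    (hu : u ∈ M) (hv : v ∈ M) (hli : LinearIndependent K ![u, v]) :
    M = Submodule.span K {u, v} := by
  symm
  apply Submodule.eq_of_le_of_finrank_eq
  · rw [Submodule.span_le]
    intro z hz
    rcases hz with rfl | hz
    · exact hu
    · rw [Set.mem_singleton_iff] at hz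
      rw [hz]
      exact hv
  · rw [hM]
    have h1 := finrank_span_eq_card hli
    rw [Matrix.range_cons, Matrix.range_cons, Matrix.range_empty, Set.union_empty] at h1
    exact h1

theorem pla_mem {M : Submodule K (Fin 4 → K)} (hM : finrank K M = 2) {u v : Fin 4 → K}
    (hu : u ∈ M) (hv : v ∈ M) (hli : LinearIndependent K ![u, v]) (z : Fin 4 → K) (hz : z ∈ M) :
    ∃ p q : K, z = p • u + q • v := by
  rw [pla_span hM hu hv hli, Submodule.mem_span_pair] at hz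
  obtain ⟨p, q, hpq⟩ := hz
  exact ⟨p, q, hpq.symm⟩

theorem pla_line {M M' : Submodule K (Fin 4 → K)} (hM : finrank K M = 2) (hM' : finrank K M' = 2)
    (hne : M ≠ M') {u v : Fin 4 → K} (hu0 : u ≠ 0) (hu : u ∈ M) (hu' : u ∈ M') (hv : v ∈ M)
    (hv' : v ∈ M') : ∃ c : K, v = c • u := by
  by_contra hcon
  push Not at hcon
  apply hne
  have hli : LinearIndependent K ![u, v] := by
    rw [LinearIndependent.pair_iff' hu0]
    intro a ha
    exact hcon a ha.symm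
  rw [pla_span hM hu hv hli, pla_span hM' hu' hv' hli]

theorem pla_ne {M : Submodule K (Fin 4 → K)} (hM : M ≠ ⊥) : ∃ w ∈ M, w ≠ 0 :=
  (Submodule.ne_bot_iff M).1 hM

theorem pla_memT {T : Fin 9 → Submodule K (Fin 4 → K)} {L : Fin 10 → Submodule K (Fin 4 → K)}
    (hT : ∀ i, finrank K (T i) = 2) {E : Fin 4 → (Fin 4 → K)} {α β : Fin 8 → K}
    (h : PD T L E α β) (i : Fin 8) (z : Fin 4 → K) (hz : z ∈ T i.castSucc) :
    ∃ a b : K, z = a • E 0 + (a * α i) • E 1 + b • E 2 + (b * β i) • E 3 := by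
  have hli : LinearIndependent K ![E 0 + α i • E 1, E 2 + β i • E 3] := by
    rw [LinearIndependent.pair_iff]
    intro s t hst
    have h1 := pla_coord h.ind s (s * α i) t (t * β i) (by
      rw [← hst]
      module)
    exact ⟨h1.1, h1.2.2.1⟩
  obtain ⟨p, q, hpq⟩ := pla_mem (hT _) (h.a i) (h.b i) hli z hz
  refine ⟨p, q, ?_⟩
  rw [hpq]
  module

theorem pla_mem8 {T : Fin 9 → Submodule K (Fin 4 → K)} {L : Fin 10 → Submodule K (Fin 4 → K)}
    (hT : ∀ i, finrank K (T i) = 2) {E : Fin 4 → (Fin 4 → K)} {α β : Fin 8 → K}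
    (h : PD T L E α β) (z : Fin 4 → K) (hz : z ∈ T 8) : ∃ x y : K, z = x • E 1 + y • E 3 := by
  have hli : LinearIndependent K ![E 1, E 3] := by
    rw [LinearIndependent.pair_iff]
    intro s t hst
    have h1 := pla_coord h.ind 0 s 0 t (by
      rw [← hst]
      module)
    exact ⟨h1.2.1, h1.2.2.2⟩
  exact pla_mem (hT _) h.t1 h.t3 hli z hz

theorem pla_disj {L L' : Submodule K (Fin 4 → K)} (hd : L ⊓ L' = ⊥) {z : Fin 4 → K} (h1 : z ∈ L)
    (h2 : z ∈ L') : z = 0 := by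
  have h3 : z ∈ L ⊓ L' := ⟨h1, h2⟩
  rw [hd] at h3
  exact h3

/-- the slope of the line through two points of the configuration -/
theorem pla_slope {T : Fin 9 → Submodule K (Fin 4 → K)} {L : Fin 10 → Submodule K (Fin 4 → K)}
    (hT : ∀ i, finrank K (T i) = 2) {E : Fin 4 → (Fin 4 → K)} {α β : Fin 8 → K}
    (h : PD T L E α β) {M : Submodule K (Fin 4 → K)} (hM : finrank K M = 2)
    (h1 : L 1 ⊓ M = ⊥) {x y : K} (hx : x ≠ 0)
    (hw : x • E 1 + y • E 3 ∈ M) {i : Fin 8} {a b : K} (ha : a ≠ 0)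
    (hi : a • E 0 + (a * α i) • E 1 + b • E 2 + (b * β i) • E 3 ∈ M) (j : Fin 8)
    (hj : T j.castSucc ⊓ M ≠ ⊥) : a * (α j - α i) * y = b * (β j - β i) * x := by
  obtain ⟨z, hz, hz0⟩ := pla_ne hj
  obtain ⟨a', b', rfl⟩ := pla_memT hT h j z hz.1
  have ha' : a' ≠ 0 := by
    rintro rfl
    apply hz0
    apply pla_disj h1 _ hz.2
    have h3 : (0 : K) • E 0 + (0 * α j) • E 1 + b' • E 2 + (b' * β j) • E 3 =
        b' • E 2 + (b' * β j) • E 3 := by
      module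
    rw [h3]
    exact add_mem (Submodule.smul_mem _ _ h.e2) (Submodule.smul_mem _ _ h.e3)
  have hli : LinearIndependent K ![x • E 1 + y • E 3,
      a • E 0 + (a * α i) • E 1 + b • E 2 + (b * β i) • E 3] := by
    rw [LinearIndependent.pair_iff]
    intro s t hst
    have h3 := pla_coord h.ind (t * a) (s * x + t * (a * α i)) (t * b) (s * y + t * (b * β i)) (by
      rw [← hst]
      module)
    have ht : t = 0 := by
      rcases mul_eq_zero.1 h3.1 with h4 | h4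
      · exact h4
      · exact absurd h4 ha
    refine ⟨?_, ht⟩
    have h5 := h3.2.1
    rw [ht, zero_mul, add_zero] at h5
    rcases mul_eq_zero.1 h5 with h4 | h4
    · exact h4
    · exact absurd h4 hx
  obtain ⟨p, q, hpq⟩ := pla_mem hM hw hi hli _ hz.2
  have h3 := pla_coord h.ind (a' - q * a) (a' * α j - p * x - q * (a * α i)) (b' - q * b)
    (b' * β j - p * y - q * (b * β i)) (by
      have h4 : (a' - q * a) • E 0 + (a' * α j - p * x - q * (a * α i)) • E 1 +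
          (b' - q * b) • E 2 + (b' * β j - p * y - q * (b * β i)) • E 3 =
          (a' • E 0 + (a' * α j) • E 1 + b' • E 2 + (b' * β j) • E 3) -
          (p • (x • E 1 + y • E 3) +
            q • (a • E 0 + (a * α i) • E 1 + b • E 2 + (b * β i) • E 3)) := by
        module
      rw [h4, ← hpq, sub_self])
  obtain ⟨e0, e1, e2, e3⟩ := h3
  have hq : q ≠ 0 := by
    rintro rfl
    apply ha'
    linear_combination e0
  apply mul_left_cancel₀ hq
  linear_combination y * e1 - x * e3 - (α j * y) * e0 + (β j * x) * e2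

theorem collinear {T : Fin 9 → Submodule K (Fin 4 → K)} {L : Fin 10 → Submodule K (Fin 4 → K)}
    (hT : ∀ i, finrank K (T i) = 2) (hL : ∀ j, finrank K (L j) = 2)
    (hTd : ∀ i i', i ≠ i' → T i ⊓ T i' = ⊥) (hLd : ∀ j j', j ≠ j' → L j ⊓ L j' = ⊥)
    (hinc : ∀ i j, (i, j) ∈ Gam → T i ⊓ L j ≠ ⊥)
    {E : Fin 4 → (Fin 4 → K)} {α β : Fin 8 → K} (h : PD T L E α β) (b : Fin 8) :
    br α β (blk b 0) (blk b 1) (blk b 2) = 0 := by
  obtain ⟨j, hj⟩ : ∃ j : Fin 10, j = ⟨b.1 + 2, by omega⟩ := ⟨_, rfl⟩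
  have hj0 : (0 : Fin 10) ≠ j := by
    rw [hj]
    intro h1
    have h2 := congrArg Fin.val h1
    simp at h2
  have hj1 : (1 : Fin 10) ≠ j := by
    rw [hj]
    intro h1
    have h2 := congrArg Fin.val h1
    simp at h2
  have hm8 : ((8 : Fin 9), j) ∈ Gam := by
    rw [Gam, Finset.mem_filter]
    exact ⟨Finset.mem_univ _, Or.inl rfl⟩
  have hmi : ∀ c, ((blk b c).castSucc, j) ∈ Gam := by
    intro c
    rw [Gam, Finset.mem_filter]
    exact ⟨Finset.mem_univ _, Or.inr (Or.inr (Or.inr ⟨b, c, hj, rfl⟩))⟩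
  have h0 := hLd 0 j hj0
  have h1 := hLd 1 j hj1
  obtain ⟨w, hw, hw0⟩ := pla_ne (hinc _ _ hm8)
  obtain ⟨x, y, rfl⟩ := pla_mem8 hT h w hw.1
  have hx : x ≠ 0 := by
    rintro rfl
    apply hw0
    apply pla_disj h1 _ hw.2
    rw [zero_smul, zero_add]
    exact Submodule.smul_mem _ _ h.e3
  have hy : y ≠ 0 := by
    rintro rfl
    apply hw0
    apply pla_disj h0 _ hw.2
    rw [zero_smul, add_zero]
    exact Submodule.smul_mem _ _ h.e1
  obtain ⟨z, hz, hz0⟩ := pla_ne (hinc _ _ (hmi 0))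
  obtain ⟨a', b', rfl⟩ := pla_memT hT h _ z hz.1
  have ha' : a' ≠ 0 := by
    rintro rfl
    apply hz0
    apply pla_disj h1 _ hz.2
    have h3 : (0 : K) • E 0 + (0 * α (blk b 0)) • E 1 + b' • E 2 + (b' * β (blk b 0)) • E 3 =
        b' • E 2 + (b' * β (blk b 0)) • E 3 := by
      module
    rw [h3]
    exact add_mem (Submodule.smul_mem _ _ h.e2) (Submodule.smul_mem _ _ h.e3)
  have s1 := pla_slope hT h (hL j) h1 hx hw.2 ha' hz.2 (blk b 1) (hinc _ _ (hmi 1))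
  have s2 := pla_slope hT h (hL j) h1 hx hw.2 ha' hz.2 (blk b 2) (hinc _ _ (hmi 2))
  apply mul_left_cancel₀ (mul_ne_zero ha' hy)
  unfold br
  linear_combination (β (blk b 2) - β (blk b 0)) * s1 - (β (blk b 1) - β (blk b 0)) * s2

theorem PD_unique {T : Fin 9 → Submodule K (Fin 4 → K)} {L : Fin 10 → Submodule K (Fin 4 → K)}
    (hT : ∀ i, finrank K (T i) = 2) (hL : ∀ j, finrank K (L j) = 2)
    (hTL : T 8 ≠ L 0 ∧ T 8 ≠ L 1) (hTd : ∀ i i', i ≠ i' → T i ⊓ T i' = ⊥)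
    (hTi : ∀ i : Fin 8, T i.castSucc ≠ L 0 ∧ T i.castSucc ≠ L 1)
    {E E' : Fin 4 → (Fin 4 → K)} {α β α' β' : Fin 8 → K} (h : PD T L E α β) (h' : PD T L E' α' β') :
    ∃ x y z w : K, x ≠ 0 ∧ z ≠ 0 ∧ (∀ i, α i = x * α' i + y) ∧ (∀ i, β i = z * β' i + w) := by
  have hE1 : E 1 ≠ 0 := h.ind.ne_zero 1
  have hE3 : E 3 ≠ 0 := h.ind.ne_zero 3
  obtain ⟨s, hs⟩ := pla_line (hT 8) (hL 0) hTL.1 hE1 h.t1 h.e1 h'.t1 h'.e1
  obtain ⟨t, ht⟩ := pla_line (hT 8) (hL 1) hTL.2 hE3 h.t3 h.e3 h'.t3 h'.e3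
  have hs0 : s ≠ 0 := by
    rintro rfl
    exact h'.ind.ne_zero 1 (by rw [hs, zero_smul])
  have ht0 : t ≠ 0 := by
    rintro rfl
    exact h'.ind.ne_zero 3 (by rw [ht, zero_smul])
  have hli01 : LinearIndependent K ![E 0, E 1] := by
    rw [LinearIndependent.pair_iff]
    intro s t hst
    have h1 := pla_coord h.ind s t 0 0 (by
      rw [← hst]
      module)
    exact ⟨h1.1, h1.2.1⟩
  have hli23 : LinearIndependent K ![E 2, E 3] := by
    rw [LinearIndependent.pair_iff]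
    intro s t hst
    have h1 := pla_coord h.ind 0 0 s t (by
      rw [← hst]
      module)
    exact ⟨h1.2.2.1, h1.2.2.2⟩
  obtain ⟨x0, x1, hx⟩ := pla_mem (hL 0) h.e0 h.e1 hli01 (E' 0) h'.e0
  obtain ⟨y0, y1, hy⟩ := pla_mem (hL 1) h.e2 h.e3 hli23 (E' 2) h'.e2
  have hx0 : x0 ≠ 0 := by
    rintro rfl
    have h1 := pla_coord h'.ind s (-x1) 0 0 (by
      rw [hx, hs]
      module)
    exact hs0 h1.1
  have hy0 : y0 ≠ 0 := by
    rintro rfl
    have h1 := pla_coord h'.ind 0 0 t (-y1) (by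
      rw [hy, ht]
      module)
    exact ht0 h1.2.2.1
  refine ⟨s / x0, x1 / x0, t / y0, y1 / y0, div_ne_zero hs0 hx0, div_ne_zero ht0 hy0,
    fun i => ?_, fun i => ?_⟩
  · have hu0 : E 0 + α i • E 1 ≠ 0 := by
      intro h1
      have h2 := pla_coord h.ind 1 (α i) 0 0 (by
        rw [← h1]
        module)
      exact one_ne_zero h2.1
    obtain ⟨c, hc⟩ := pla_line (hT i.castSucc) (hL 0) (hTi i).1 hu0 (h.a i)
      (add_mem h.e0 (Submodule.smul_mem _ _ h.e1)) (h'.a i)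
      (add_mem h'.e0 (Submodule.smul_mem _ _ h'.e1))
    rw [hx, hs] at hc
    have h2 := pla_coord h.ind (x0 - c) (x1 + α' i * s - c * α i) 0 0 (by
      have h3 : (x0 - c) • E 0 + (x1 + α' i * s - c * α i) • E 1 + (0 : K) • E 2 + (0 : K) • E 3 =
          (x0 • E 0 + x1 • E 1 + α' i • s • E 1) - c • (E 0 + α i • E 1) := by
        module
      rw [h3, hc, sub_self])
    obtain ⟨e0, e1, -, -⟩ := h2
    field_simp
    linear_combination (α i) * e0 - e1
  · have hu0 : E 2 + β i • E 3 ≠ 0 := by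
      intro h1
      have h2 := pla_coord h.ind 0 0 1 (β i) (by
        rw [← h1]
        module)
      exact one_ne_zero h2.2.2.1
    obtain ⟨c, hc⟩ := pla_line (hT i.castSucc) (hL 1) (hTi i).2 hu0 (h.b i)
      (add_mem h.e2 (Submodule.smul_mem _ _ h.e3)) (h'.b i)
      (add_mem h'.e2 (Submodule.smul_mem _ _ h'.e3))
    rw [hy, ht] at hc
    have h2 := pla_coord h.ind 0 0 (y0 - c) (y1 + β' i * t - c * β i) (by
      have h3 : (0 : K) • E 0 + (0 : K) • E 1 + (y0 - c) • E 2 + (y1 + β' i * t - c * β i) • E 3 =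
          (y0 • E 2 + y1 • E 3 + β' i • t • E 3) - c • (E 2 + β i • E 3) := by
        module
      rw [h3, hc, sub_self])
    obtain ⟨-, -, e0, e1⟩ := h2
    field_simp
    linear_combination (β i) * e0 - e1

end Pool.H33.G
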