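import Pool.Agent.H33.G.PLA
import Pool.Agent.H33.G.LMC
import Pool.Agent.H33.G.VAL

/-! # PLB: coordinates adapted to a valuation subring

Hypotheses: the limits of the lines are the explicit lines with parameter `w0` in the residue field.
Construction: `L 0 ⊓ T 8` is one dimensional (`T 8 ⊓ L 0 ≠ ⊥`, limits differ); its limit is contained in
`span {e0, e1} ⊓ span {e1, e3} = span {e1}`; take a generator `E 1 ∈ R^4` with reduction `e1` (scale).
`limS R (L 0) ∋ e0` gives `E 0 ∈ L 0 ∩ R^4` with reduction `e0`; similarly `E 2, E 3`.  `E` is a basis since the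
reductions are (`det` is a unit).  A nonzero vector of `T i ⊓ L 0` is `x E0 + y E1`; `x ≠ 0` (as
`T i ⊓ T 8 = ⊥`); if `y / x ∉ R` then `(x/y) E0 + E1 ∈ T i ⊓ L 0` would reduce to `e1`, which is not in
`span {(1, al i, 0,0), (0,0,1, be i)}`; so `α i = y / x ∈ R` and the reduction of `E 0 + α i E 1` is in this span,
so `residue (α i) = al w0 i`. -/

open Module

namespace Pool.H33.G

variable {K : Type} [Field K]

theorem PLB_mem (R : ValuationSubring K) {Λ : Submodule K (Fin 4 → K)}
    {v : Fin 4 → IsLocalRing.ResidueField R} :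
    v ∈ limS R Λ ↔ ∃ w : Fin 4 → R, (fun a => (w a : K)) ∈ Λ ∧
      v = fun a => IsLocalRing.residue R (w a) := by
  rw [limS_eq_redS]
  exact mem_redS R

theorem PLB_scale (R : ValuationSubring K) {n : ℕ} {v : Fin n → K} (hv : v ≠ 0) :
    ∃ (c : K) (w : Fin n → R) (a : Fin n), c ≠ 0 ∧ (∀ b, (w b : K) = c * v b) ∧ w a = 1 := by
  obtain ⟨b0, hb0⟩ := Function.ne_iff.1 hv
  have : Nonempty (Fin n) := ⟨b0⟩
  obtain ⟨a, ha⟩ := Finite.exists_max fun a => R.valuation (v a)
  have hva : v a ≠ 0 := by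
    intro h0
    have h1 := ha b0
    rw [h0, map_zero, le_zero_iff, map_eq_zero] at h1
    exact hb0 h1
  have hval : R.valuation (v a) ≠ 0 := by
    rw [Ne, map_eq_zero]
    exact hva
  refine ⟨(v a)⁻¹, fun b => ⟨(v a)⁻¹ * v b, ?_⟩, a, inv_ne_zero hva, fun b => rfl, ?_⟩
  · rw [← ValuationSubring.valuation_le_one_iff, map_mul, map_inv₀]
    calc (R.valuation (v a))⁻¹ * R.valuation (v b) ≤ (R.valuation (v a))⁻¹ * R.valuation (v a) :=
          mul_le_mul_right (ha b) _
      _ = 1 := inv_mul_cancel₀ hval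
  · apply Subtype.ext
    exact inv_mul_cancel₀ hva

theorem PLB_indep (R : ValuationSubring K) {n : ℕ} (w : Fin n → Fin 4 → R)
    (h : LinearIndependent (IsLocalRing.ResidueField R)
      (fun i a => IsLocalRing.residue R (w i a))) :
    LinearIndependent K (fun i a => (w i a : K)) := by
  rw [Fintype.linearIndependent_iff] at h ⊢
  intro g hg
  by_contra hcon
  push Not at hcon
  obtain ⟨i0, hi0⟩ := hcon
  obtain ⟨c, g', a, hc, hg', ha⟩ := PLB_scale R (v := g) (fun h0 => hi0 (congrFun h0 i0))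
  have h1 : ∑ i, IsLocalRing.residue R (g' i) • (fun a => IsLocalRing.residue R (w i a)) = 0 := by
    funext b
    have h2 := congrFun hg b
    simp only [Finset.sum_apply, Pi.smul_apply, smul_eq_mul, Pi.zero_apply] at h2 ⊢
    have h3 : ∑ i, g' i * w i b = 0 := by
      apply Subtype.ext
      push_cast
      have h4 : ∀ i, (g' i : K) * (w i b : K) = c * (g i * w i b) := fun i => by
        rw [hg']
        ring
      rw [Finset.sum_congr rfl fun i _ => h4 i, ← Finset.mul_sum, h2, mul_zero]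
    have h5 := congrArg (IsLocalRing.residue R) h3
    rw [map_sum, map_zero] at h5
    rw [← h5]
    exact Finset.sum_congr rfl fun i _ => (map_mul _ _ _).symm
  have h2 := h _ h1 a
  rw [ha, map_one] at h2
  exact one_ne_zero h2

theorem PLB_C (R : ValuationSubring K) {Λ Λ' : Submodule K (Fin 4 → K)} (hne : Λ ⊓ Λ' ≠ ⊥)
    (e : Fin 4 → IsLocalRing.ResidueField R)
    (h : ∀ v, v ∈ limS R Λ → v ∈ limS R Λ' → ∃ c : IsLocalRing.ResidueField R, v = c • e) :
    ∃ w : Fin 4 → R, (fun a => (w a : K)) ∈ Λ ∧ (fun a => (w a : K)) ∈ Λ' ∧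
      ∀ a, IsLocalRing.residue R (w a) = e a := by
  obtain ⟨v, hv, hv0⟩ := Submodule.exists_mem_ne_zero_of_ne_bot hne
  obtain ⟨c, w, a, hc, hw, ha⟩ := PLB_scale R hv0
  have hw' : (fun a => (w a : K)) = c • v := by
    funext b
    rw [hw]
    rfl
  obtain ⟨c', hc'⟩ := h (fun a => IsLocalRing.residue R (w a))
    ((PLB_mem R).2 ⟨w, by rw [hw']; exact Λ.smul_mem _ hv.1, rfl⟩)
    ((PLB_mem R).2 ⟨w, by rw [hw']; exact Λ'.smul_mem _ hv.2, rfl⟩)
  have hc0 : c' ≠ 0 := by
    rintro rfl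
    have h1 := congrFun hc' a
    simp only [ha, map_one, zero_smul, Pi.zero_apply] at h1
    exact one_ne_zero h1
  obtain ⟨u, hu⟩ := IsLocalRing.residue_surjective c'
  have hun : IsUnit u := by
    rw [← IsLocalRing.residue_ne_zero_iff_isUnit, hu]
    exact hc0
  obtain ⟨u', rfl⟩ := hun
  have hmem : (fun a => ((((u'⁻¹ : Rˣ) : R) * w a : R) : K)) = ((((u'⁻¹ : Rˣ) : R) : K) * c) • v := by
    funext b
    rw [Pi.smul_apply, smul_eq_mul, mul_assoc, ← hw b]
    rfl
  refine ⟨fun a => ((u'⁻¹ : Rˣ) : R) * w a, ?_, ?_, ?_⟩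
  · rw [hmem]
    exact Λ.smul_mem _ hv.1
  · rw [hmem]
    exact Λ'.smul_mem _ hv.2
  · intro b
    have h1 := congrFun hc' b
    simp only [Pi.smul_apply, smul_eq_mul] at h1
    rw [map_mul, h1, ← hu, ← mul_assoc, ← map_mul, Units.inv_mul, map_one, one_mul]

theorem PLB_D (R : ValuationSubring K) {Λ T : Submodule K (Fin 4 → K)} (hΛ : finrank K Λ = 2)
    (w : Fin 2 → Fin 4 → R) (hw : ∀ i, (fun a => (w i a : K)) ∈ Λ)
    (hind : LinearIndependent (IsLocalRing.ResidueField R)
      (fun i a => IsLocalRing.residue R (w i a)))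
    (hTL : T ⊓ Λ ≠ ⊥) (hf2 : (fun a => IsLocalRing.residue R (w 1 a)) ∉ limS R T) :
    ∃ α : R, (fun a => (w 0 a : K)) + (α : K) • (fun a => (w 1 a : K)) ∈ T ∧
      (fun a => IsLocalRing.residue R (w 0 a)) + IsLocalRing.residue R α •
        (fun a => IsLocalRing.residue R (w 1 a)) ∈ limS R T := by
  have hK := PLB_indep R w hind
  have hspan : Submodule.span K (Set.range fun i a => (w i a : K)) = Λ := by
    refine Submodule.eq_of_le_of_finrank_eq ?_ ?_
    · rw [Submodule.span_le]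
      rintro _ ⟨i, rfl⟩
      exact hw i
    · rw [finrank_span_eq_card hK, hΛ]
      rfl
  obtain ⟨v, hv, hv0⟩ := Submodule.exists_mem_ne_zero_of_ne_bot hTL
  have hv2 : v ∈ Submodule.span K (Set.range fun i a => (w i a : K)) := by
    rw [hspan]
    exact hv.2
  obtain ⟨c, hc⟩ := (Submodule.mem_span_range_iff_exists_fun K).1 hv2
  rw [Fin.sum_univ_two] at hc
  have hf2' : (fun a => (w 1 a : K)) ∉ T := fun h => hf2 ((PLB_mem R).2 ⟨w 1, h, rfl⟩)
  have hc0 : c 0 ≠ 0 := by
    intro h0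
    rw [h0, zero_smul, zero_add] at hc
    have hc1 : c 1 ≠ 0 := by
      intro h1
      rw [h1, zero_smul] at hc
      exact hv0 hc.symm
    apply hf2'
    have h2 : (fun a => (w 1 a : K)) = (c 1)⁻¹ • v := by
      rw [← hc, smul_smul, inv_mul_cancel₀ hc1, one_smul]
    rw [h2]
    exact T.smul_mem _ hv.1
  have hα : (fun a => (w 0 a : K)) + (c 1 / c 0) • (fun a => (w 1 a : K)) = (c 0)⁻¹ • v := by
    rw [← hc, smul_add, smul_smul, smul_smul, inv_mul_cancel₀ hc0, one_smul, div_eq_inv_mul]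
  have hαT : (fun a => (w 0 a : K)) + (c 1 / c 0) • (fun a => (w 1 a : K)) ∈ T := by
    rw [hα]
    exact T.smul_mem _ hv.1
  have hαR : c 1 / c 0 ∈ R := by
    by_contra hnR
    have hc1 : c 1 ≠ 0 := by
      intro h1
      apply hnR
      rw [h1, zero_div]
      exact R.zero_mem
    have hinv : (c 1 / c 0)⁻¹ ∈ R := (R.mem_or_inv_mem _).resolve_left hnR
    have hnu : IsLocalRing.residue R ⟨(c 1 / c 0)⁻¹, hinv⟩ = 0 := by
      by_contra hne
      have hu : IsUnit (⟨(c 1 / c 0)⁻¹, hinv⟩ : R) :=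
        (IsLocalRing.residue_ne_zero_iff_isUnit _).1 hne
      obtain ⟨u, hu⟩ := hu
      apply hnR
      have h3 : ((u : R) : K) * (((u⁻¹ : Rˣ) : R) : K) = 1 := by
        have := congrArg (Subtype.val) (u.mul_inv)
        exact this
      rw [hu] at h3
      have h4 : (c 1 / c 0) = (((u⁻¹ : Rˣ) : R) : K) := by
        have h5 : (c 1 / c 0) ≠ 0 := div_ne_zero hc1 hc0
        change (c 1 / c 0)⁻¹ * _ = 1 at h3
        field_simp at h3 ⊢
        exact h3.symm
      rw [h4]
      exact Subtype.mem _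
    apply hf2
    rw [PLB_mem]
    refine ⟨fun a => ⟨(c 1 / c 0)⁻¹, hinv⟩ * w 0 a + w 1 a, ?_, ?_⟩
    · have h6 : (fun a => (((⟨(c 1 / c 0)⁻¹, hinv⟩ : R) * w 0 a + w 1 a : R) : K)) =
          (c 1 / c 0)⁻¹ • ((fun a => (w 0 a : K)) + (c 1 / c 0) • (fun a => (w 1 a : K))) := by
        rw [smul_add, smul_smul, inv_mul_cancel₀ (div_ne_zero hc1 hc0), one_smul]
        rfl
      rw [h6]
      exact T.smul_mem _ hαT
    · funext a
      rw [map_add, map_mul, hnu, zero_mul, zero_add]
  refine ⟨⟨c 1 / c 0, hαR⟩, hαT, ?_⟩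
  rw [PLB_mem]
  refine ⟨fun a => w 0 a + ⟨c 1 / c 0, hαR⟩ * w 1 a, hαT, ?_⟩
  funext a
  rw [map_add, map_mul]
  rfl

theorem exists_PD (R : ValuationSubring K) {T : Fin 9 → Submodule K (Fin 4 → K)}
    {L : Fin 10 → Submodule K (Fin 4 → K)} (w0 : IsLocalRing.ResidueField R)
    (hT : ∀ i, finrank K (T i) = 2) (hL : ∀ j, finrank K (L j) = 2)
    (hTd : ∀ i i', i ≠ i' → T i ⊓ T i' = ⊥)
    (hinc : ∀ i j, (i, j) ∈ Gam → T i ⊓ L j ≠ ⊥)
    (lT : ∀ i, limS R (T i) = Submodule.span _ {sTP w0 i, sTQ w0 i})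
    (lL : ∀ j, limS R (L j) = Submodule.span _ {sP w0 j, sQ w0 j}) :
    ∃ (E : Fin 4 → (Fin 4 → K)) (α β : Fin 8 → R), PD T L E (fun i => (α i : K)) (fun i => (β i : K)) ∧
      (∀ i, IsLocalRing.residue R (α i) = al w0 i) ∧ (∀ i, IsLocalRing.residue R (β i) = be w0 i) := by
  have lT8 : limS R (T 8) = Submodule.span _ {![0, 1, 0, 0], ![0, 0, 0, 1]} := by
    rw [lT 8]
    have h1 : sTP w0 8 = ![0, 1, 0, 0] := Fin.lastCases_last
    have h2 : sTQ w0 8 = ![0, 0, 0, 1] := Fin.lastCases_last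
    rw [h1, h2]
  have lTi : ∀ i : Fin 8, limS R (T i.castSucc) =
      Submodule.span _ {![1, al w0 i, 0, 0], ![0, 0, 1, be w0 i]} := by
    intro i
    rw [lT i.castSucc]
    have h1 : sTP w0 i.castSucc = ![1, al w0 i, 0, 0] := Fin.lastCases_castSucc _
    have h2 : sTQ w0 i.castSucc = ![0, 0, 1, be w0 i] := Fin.lastCases_castSucc _
    rw [h1, h2]
  have lL0 : limS R (L 0) = Submodule.span _ {![1, 0, 0, 0], ![0, 1, 0, 0]} := lL 0
  have lL1 : limS R (L 1) = Submodule.span _ {![0, 0, 1, 0], ![0, 0, 0, 1]} := lL 1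
  -- the four vectors
  obtain ⟨W1, hW1T, hW1L, hW1⟩ := PLB_C R (hinc 8 0 (by decide)) ![0, 1, 0, 0] (by
    intro v hv hv'
    rw [lT8, Submodule.mem_span_pair] at hv
    rw [lL0, Submodule.mem_span_pair] at hv'
    obtain ⟨a, b, hab⟩ := hv
    obtain ⟨c, d, hcd⟩ := hv'
    refine ⟨a, ?_⟩
    rw [← hab] at hcd ⊢
    have h3 := congrFun hcd 3
    simp at h3
    rw [← h3]
    simp)
  obtain ⟨W3, hW3T, hW3L, hW3⟩ := PLB_C R (hinc 8 1 (by decide)) ![0, 0, 0, 1] (by
    intro v hv hv'
    rw [lT8, Submodule.mem_span_pair] at hv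
    rw [lL1, Submodule.mem_span_pair] at hv'
    obtain ⟨a, b, hab⟩ := hv
    obtain ⟨c, d, hcd⟩ := hv'
    refine ⟨b, ?_⟩
    rw [← hab] at hcd ⊢
    have h3 := congrFun hcd 1
    simp at h3
    rw [← h3]
    simp)
  obtain ⟨W0, hW0L, hW0⟩ := (PLB_mem R).1 (show (![1, 0, 0, 0] : Fin 4 → IsLocalRing.ResidueField R) ∈
    limS R (L 0) by
      rw [lL0]
      exact Submodule.subset_span (Set.mem_insert _ _))
  obtain ⟨W2, hW2L, hW2⟩ := (PLB_mem R).1 (show (![0, 0, 1, 0] : Fin 4 → IsLocalRing.ResidueField R) ∈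
    limS R (L 1) by
      rw [lL1]
      exact Submodule.subset_span (Set.mem_insert _ _))
  have hW1' : (fun a => IsLocalRing.residue R (W1 a)) = ![0, 1, 0, 0] := funext hW1
  have hW3' : (fun a => IsLocalRing.residue R (W3 a)) = ![0, 0, 0, 1] := funext hW3
  -- the coefficients
  have hA : ∀ i : Fin 8, ∃ α : R, (fun a => (W0 a : K)) + (α : K) • (fun a => (W1 a : K)) ∈
      T i.castSucc ∧ IsLocalRing.residue R α = al w0 i := by
    intro i
    obtain ⟨α, h1, h2⟩ := PLB_D R (hL 0) (T := T i.castSucc) ![W0, W1] (by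
        intro j
        fin_cases j
        · exact hW0L
        · exact hW1L) (by
        rw [Fintype.linearIndependent_iff]
        intro g hg
        rw [Fin.sum_univ_two] at hg
        change g 0 • (fun a => IsLocalRing.residue R (W0 a)) +
          g 1 • (fun a => IsLocalRing.residue R (W1 a)) = 0 at hg
        rw [hW1', ← hW0] at hg
        have e0 := congrFun hg 0
        have e1 := congrFun hg 1
        simp at e0 e1
        intro j
        fin_cases j
        · exact e0
        · exact e1) (hinc _ _ (by simp [Gam])) (by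
        change (fun a => IsLocalRing.residue R (W1 a)) ∉ _
        rw [hW1', lTi, Submodule.mem_span_pair]
        rintro ⟨a, b, hab⟩
        have e0 := congrFun hab 0
        have e1 := congrFun hab 1
        simp at e0 e1
        rw [e0, zero_mul] at e1
        exact zero_ne_one e1)
    refine ⟨α, h1, ?_⟩
    change (fun a => IsLocalRing.residue R (W0 a)) + IsLocalRing.residue R α •
      (fun a => IsLocalRing.residue R (W1 a)) ∈ _ at h2
    rw [hW1', ← hW0, lTi, Submodule.mem_span_pair] at h2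
    obtain ⟨a, b, hab⟩ := h2
    have e0 := congrFun hab 0
    have e1 := congrFun hab 1
    simp at e0 e1
    rw [e0, one_mul] at e1
    exact e1.symm
  have hB : ∀ i : Fin 8, ∃ β : R, (fun a => (W2 a : K)) + (β : K) • (fun a => (W3 a : K)) ∈
      T i.castSucc ∧ IsLocalRing.residue R β = be w0 i := by
    intro i
    obtain ⟨β, h1, h2⟩ := PLB_D R (hL 1) (T := T i.castSucc) ![W2, W3] (by
        intro j
        fin_cases j
        · exact hW2L
        · exact hW3L) (by
        rw [Fintype.linearIndependent_iff]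
        intro g hg
        rw [Fin.sum_univ_two] at hg
        change g 0 • (fun a => IsLocalRing.residue R (W2 a)) +
          g 1 • (fun a => IsLocalRing.residue R (W3 a)) = 0 at hg
        rw [hW3', ← hW2] at hg
        have e0 := congrFun hg 2
        have e1 := congrFun hg 3
        simp at e0 e1
        intro j
        fin_cases j
        · exact e0
        · exact e1) (hinc _ _ (by simp [Gam])) (by
        change (fun a => IsLocalRing.residue R (W3 a)) ∉ _
        rw [hW3', lTi, Submodule.mem_span_pair]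
        rintro ⟨a, b, hab⟩
        have e0 := congrFun hab 2
        have e1 := congrFun hab 3
        simp at e0 e1
        rw [e0, zero_mul] at e1
        exact zero_ne_one e1)
    refine ⟨β, h1, ?_⟩
    change (fun a => IsLocalRing.residue R (W2 a)) + IsLocalRing.residue R β •
      (fun a => IsLocalRing.residue R (W3 a)) ∈ _ at h2
    rw [hW3', ← hW2, lTi, Submodule.mem_span_pair] at h2
    obtain ⟨a, b, hab⟩ := h2
    have e0 := congrFun hab 2
    have e1 := congrFun hab 3
    simp at e0 e1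
    rw [e0, one_mul] at e1
    exact e1.symm
  choose α hα hα' using hA
  choose β hβ hβ' using hB
  refine ⟨fun i a => (![W0, W1, W2, W3] i a : K), α, β, ⟨?_, hW0L, hW1L, hW2L, hW3L, hW1T, hW3T,
    hα, hβ⟩, hα', hβ'⟩
  refine PLB_indep R ![W0, W1, W2, W3] ?_
  rw [Fintype.linearIndependent_iff]
  intro g hg
  rw [Fin.sum_univ_four] at hg
  change g 0 • (fun a => IsLocalRing.residue R (W0 a)) +
    g 1 • (fun a => IsLocalRing.residue R (W1 a)) + g 2 • (fun a => IsLocalRing.residue R (W2 a)) +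
    g 3 • (fun a => IsLocalRing.residue R (W3 a)) = 0 at hg
  rw [hW1', hW3', ← hW0, ← hW2] at hg
  have e0 := congrFun hg 0
  have e1 := congrFun hg 1
  have e2 := congrFun hg 2
  have e3 := congrFun hg 3
  simp at e0 e1 e2 e3
  intro j
  fin_cases j
  · exact e0
  · exact e1
  · exact e2
  · exact e3

end Pool.H33.G
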