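import Pool.Agent.H33.G.BD

/-! # PRI: the primary component `qp I p` at a prime with unbounded Hilbert function

* `mem_qp`, `HI_qp` (for homogeneous `p`; McCoy's theorem on zero divisors of polynomial rings applied to
  the generating polynomials `Σ_n f_n T^n` of the homogeneous components).
* `pow_le_qp`: for a form `f ∈ p` the chain `cln I (f^k)` stabilises at `b = cln I (f^N)`.
  If `b ≤ p` then `f` is a nonzerodivisor mod `b` and
  `b ⊔ (f) ≤ p`, but `hf (b ⊔ (f))` is bounded (`hf b` is eventually linear, `cln b (f) = b`),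
  contradiction.  So some `g ∈ b \ p`, `g f^N ∈ I`, i.e. `f^N ∈ qp`.
* `pri_exists_ann`: there is a form `g ∈ p \ qp` with `cln qp (g) = p`.
* `slope_qp`: `hf qp n = hf p n + (dim p_n - dim qp_n)` and `p ⊇ qp ⊔ (g)` with
  `hf qp (n+a) = hf (qp ⊔ (g)) (n+a) + hf p n ≥ hf p (n + a) + hf p n`.
* `sq_le_qp`: if `Lin p e c`, `Lin qp (2e) c'` then `hf (qp ⊔ (g)) n ≤ hf p n + const`, so for a form
  `h ∈ p` the ideal `cln (qp ⊔ (g)) (h)` is bounded, hence not `≤ p`: some `t ∉ p` with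
  `t h ∈ qp ⊔ (g)`; then for `h' ∈ p`: `t h h' ∈ qp` as `g h' ∈ qp`. -/

open MvPolynomial Module

namespace Pool.H33.G

variable {F : Type} [Field F]

theorem mem_qp {I p : Ideal (A4 F)} (hp : p.IsPrime) {f : A4 F} :
    f ∈ qp I p ↔ ∃ g, g ∉ p ∧ g * f ∈ I := by
  constructor
  · intro h
    unfold qp at h
    refine Submodule.span_induction (p := fun f _ => ∃ g, g ∉ p ∧ g * f ∈ I) ?_ ?_ ?_ ?_ h
    · intro x hx; exact hx
    · exact ⟨1, fun h => hp.ne_top ((Ideal.eq_top_iff_one _).2 h), by simp⟩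
    · rintro x y _ _ ⟨g, hg, hgx⟩ ⟨g', hg', hgy⟩
      refine ⟨g * g', fun h => (hp.mem_or_mem h).elim hg hg', ?_⟩
      have : g * g' * (x + y) = g' * (g * x) + g * (g' * y) := by ring
      rw [this]
      exact I.add_mem (I.mul_mem_left _ hgx) (I.mul_mem_left _ hgy)
    · rintro a x _ ⟨g, hg, hgx⟩
      refine ⟨g, hg, ?_⟩
      have : g * (a • x) = a * (g * x) := by rw [smul_eq_mul]; ring
      rw [this]
      exact I.mul_mem_left _ hgx
  · intro h
    exact Ideal.subset_span h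

theorem le_qp {I p : Ideal (A4 F)} (hp : p.IsPrime) : I ≤ qp I p := by
  intro f hf
  exact (mem_qp hp).2 ⟨1, fun h => hp.ne_top ((Ideal.eq_top_iff_one _).2 h), by simpa using hf⟩

theorem qp_le {I p : Ideal (A4 F)} (hp : p.IsPrime) (h : I ≤ p) : qp I p ≤ p := by
  intro f hf
  obtain ⟨g, hg, hgf⟩ := (mem_qp hp).1 hf
  exact (hp.mem_or_mem (h hgf)).resolve_left hg

theorem qp_primary {I p : Ideal (A4 F)} (hp : p.IsPrime) {f g : A4 F} (hf : f ∉ p)
    (h : f * g ∈ qp I p) : g ∈ qp I p := by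
  obtain ⟨t, ht, hI⟩ := (mem_qp hp).1 h
  refine (mem_qp hp).2 ⟨t * f, fun h => (hp.mem_or_mem h).elim ht hf, ?_⟩
  rw [mul_assoc]; exact hI

/-- the ring homomorphism `f ↦ Σ_n f_n T^n` -/
private noncomputable def priPhi : A4 F →ₐ[F] Polynomial (A4 F) :=
  aeval (fun i => Polynomial.C (X i) * Polynomial.X)

private theorem priPhi_monomial (s : Fin 4 →₀ ℕ) (c : F) :
    priPhi (monomial s c) = Polynomial.C (monomial s c) * Polynomial.X ^ s.degree := by
  unfold priPhi
  rw [aeval_monomial]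
  simp only [mul_pow]
  rw [Finsupp.prod_mul, ← mul_assoc]
  congr 1
  · rw [monomial_eq, map_mul]
    congr 1
    rw [Finsupp.prod, Finsupp.prod, map_prod]
    simp only [map_pow]
  · rw [Finsupp.prod, Finset.prod_pow_eq_pow_sum, Finsupp.degree]
    rfl

private theorem priPhi_coeff (f : A4 F) (n : ℕ) :
    (priPhi f).coeff n = homogeneousComponent n f := by
  induction f using MvPolynomial.induction_on' with
  | monomial s c =>
    rw [priPhi_monomial, Polynomial.coeff_C_mul_X_pow,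
      homogeneousComponent_of_mem (isHomogeneous_monomial c rfl)]
  | add p q hp hq => rw [map_add, Polynomial.coeff_add, hp, hq, map_add]

private theorem pri_mccoy {A : Type} [CommRing A] {q : Ideal A} {P Q : Polynomial A}
    (hPQ : ∀ m, (P * Q).coeff m ∈ q) {j : ℕ} (hj : ∀ a, P.coeff j * a ∈ q → a ∈ q) (n : ℕ) :
    Q.coeff n ∈ q := by
  have hprod : P.map (Ideal.Quotient.mk q) * Q.map (Ideal.Quotient.mk q) = 0 := by
    rw [← Polynomial.map_mul]
    ext m
    rw [Polynomial.coeff_map, Polynomial.coeff_zero]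
    exact Ideal.Quotient.eq_zero_iff_mem.2 (hPQ m)
  have hnzd : P.map (Ideal.Quotient.mk q) ∈ nonZeroDivisors (Polynomial (A ⧸ q)) := by
    rw [Polynomial.mem_nonZeroDivisors_iff]
    intro a ha
    obtain ⟨a, rfl⟩ := Ideal.Quotient.mk_surjective a
    have h2 := congrArg (fun R => Polynomial.coeff R j) ha
    simp only [Polynomial.coeff_smul, Polynomial.coeff_map, Polynomial.coeff_zero,
      smul_eq_mul] at h2
    refine Ideal.Quotient.eq_zero_iff_mem.2 (hj a (Ideal.Quotient.eq_zero_iff_mem.1 ?_))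
    rw [map_mul, mul_comm]; exact h2
  have h0 : Q.map (Ideal.Quotient.mk q) = 0 :=
    (mul_left_mem_nonZeroDivisors_eq_zero_iff hnzd).1 hprod
  have h1 := congrArg (fun R => Polynomial.coeff R n) h0
  simp only [Polynomial.coeff_map, Polynomial.coeff_zero] at h1
  exact Ideal.Quotient.eq_zero_iff_mem.1 h1

theorem HI_qp {I p : Ideal (A4 F)} (hI : HI I) (hp : p.IsPrime) (hpI : HI p) : HI (qp I p) := by
  intro f hf n
  obtain ⟨g, hg, hgf⟩ := (mem_qp hp).1 hf
  obtain ⟨j, hj⟩ : ∃ j, homogeneousComponent j g ∉ p := by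
    by_contra hcon
    push Not at hcon
    apply hg
    rw [← sum_homogeneousComponent g]
    exact p.sum_mem fun i _ => hcon i
  have h1 := pri_mccoy (q := qp I p) (P := priPhi g) (Q := priPhi f) (j := j) (fun m => by
    rw [← map_mul, priPhi_coeff]
    exact le_qp hp (hI _ hgf m)) (fun a ha => by
    rw [priPhi_coeff] at ha
    exact qp_primary hp hj ha) n
  rw [priPhi_coeff] at h1
  exact h1

private theorem pri_mem_cln {I : Ideal (A4 F)} {f g : A4 F} :
    g ∈ cln I (Ideal.span {f}) ↔ g * f ∈ I := by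
  constructor
  · intro h
    exact h f (Ideal.mem_span_singleton_self f)
  · intro h x hx
    obtain ⟨y, rfl⟩ := Ideal.mem_span_singleton.1 hx
    rw [← mul_assoc]
    exact I.mul_mem_right _ h

private theorem pri_bdd {I : Ideal (A4 F)} (h : ∃ (c : ℤ) (n0 : ℕ), ∀ n ≥ n0, hf I n ≤ c) :
    Bdd I := by
  obtain ⟨c, n0, h⟩ := h
  refine ⟨|c| + ∑ k ∈ Finset.range n0, hf I k, fun n => ?_⟩
  have hs : 0 ≤ ∑ k ∈ Finset.range n0, hf I k := Finset.sum_nonneg fun k _ => hf_nonneg I k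
  by_cases hn : n0 ≤ n
  · exact (h n hn).trans ((le_abs_self c).trans (le_add_of_nonneg_right hs))
  · have h1 : hf I n ≤ ∑ k ∈ Finset.range n0, hf I k :=
      Finset.single_le_sum (f := fun k => hf I k) (fun k _ => hf_nonneg I k)
        (Finset.mem_range.2 (not_le.1 hn))
    exact h1.trans (le_add_of_nonneg_left (abs_nonneg c))

private theorem pri_le_of_forms {p Q : Ideal (A4 F)} (hp : HI p)
    (h : ∀ a, ∀ f ∈ Fm F a, f ∈ p → f ∈ Q) : p ≤ Q := by
  intro f hf
  rw [← sum_homogeneousComponent f]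
  exact Q.sum_mem fun i _ => h i _ (homogeneousComponent_mem i f) (hp f hf i)

private theorem pri_exists_form {J p : Ideal (A4 F)} (hJ : HI J) (h : ¬ J ≤ p) :
    ∃ a, ∃ f ∈ Fm F a, f ∈ J ∧ f ∉ p := by
  by_contra hcon
  push Not at hcon
  exact h (pri_le_of_forms hJ hcon)

private theorem pri_HI_span {a : ℕ} {f : A4 F} (hf : f ∈ Fm F a) : HI (Ideal.span {f}) :=
  HI_span fun g hg => ⟨a, by rw [Set.mem_singleton_iff.1 hg]; exact hf⟩

theorem pow_le_qp {I p : Ideal (A4 F)} (hI : HI I) {d : ℕ} {χ : ℤ} (hL : Lin I d χ) (hp : UP I p) :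
    ∃ N : ℕ, p ^ N ≤ qp I p := by
  obtain ⟨hpp, hpI, hIp, hnb⟩ := hp
  have key : ∀ a, ∀ f ∈ Fm F a, f ∈ p → f ∈ (qp I p).radical := by
    intro a f hfa hfp
    let ch : ℕ →o Ideal (A4 F) := ⟨fun k => cln I (Ideal.span {f ^ k}), by
      intro i j hij g hg
      rw [pri_mem_cln] at hg ⊢
      rw [← Nat.sub_add_cancel hij, pow_add, mul_comm (f ^ (j - i)), ← mul_assoc]
      exact I.mul_mem_right _ hg⟩
    obtain ⟨N, hN⟩ := monotone_stabilizes_iff_noetherian.2 (inferInstance : IsNoetherianRing (A4 F)) ch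
    have hfN : f ^ N ∈ Fm F (a * N) := (show f.IsHomogeneous a from hfa).pow N
    have hbI : HI (cln I (Ideal.span {f ^ N})) := HI_cln hI (pri_HI_span hfN)
    have hIb : I ≤ cln I (Ideal.span {f ^ N}) := fun g hg => pri_mem_cln.2 (I.mul_mem_right _ hg)
    have hcl : cln (cln I (Ideal.span {f ^ N})) (Ideal.span {f}) = cln I (Ideal.span {f ^ N}) := by
      apply le_antisymm
      · intro g hg
        rw [pri_mem_cln, pri_mem_cln, mul_assoc, ← pow_succ'] at hg
        have h1 : ch N = ch (N + 1) := hN (N + 1) (Nat.le_succ N)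
        have h2 : g ∈ ch (N + 1) := pri_mem_cln.2 hg
        rw [← h1] at h2
        exact h2
      · intro g hg
        exact pri_mem_cln.2 (Ideal.mul_mem_right _ _ hg)
    by_contra hcon
    have hbp : cln I (Ideal.span {f ^ N}) ≤ p := by
      intro g hg
      by_contra hgp
      exact hcon ⟨N, (mem_qp hpp).2 ⟨g, hgp, pri_mem_cln.1 hg⟩⟩
    obtain ⟨e', c', he', n0, hn0⟩ := exists_Lin_of_le hbI hIb hL
    apply hnb
    refine Bdd_mono (sup_le hbp ((Ideal.span_singleton_le_iff_mem _).2 hfp)) (pri_bdd ?_)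
    refine ⟨e' * a, n0 + a, fun n hn => ?_⟩
    obtain ⟨m, rfl⟩ := Nat.exists_eq_add_of_le hn
    have h1 := hf_colon hbI hfa (n0 + m)
    rw [hcl, hn0 (n0 + m) (by omega), hn0 (n0 + m + a) (by omega)] at h1
    have h2 : n0 + a + m = n0 + m + a := by ring
    rw [h2]
    push_cast at h1
    linarith
  apply Ideal.exists_pow_le_of_le_radical_of_fg _ (IsNoetherian.noetherian p)
  exact pri_le_of_forms hpI key

private theorem pri_exists_ann {I p : Ideal (A4 F)} (hI : HI I) {d : ℕ} {χ : ℤ} (hL : Lin I d χ)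
    (hp : UP I p) (hne : qp I p ≠ p) :
    ∃ a, ∃ g ∈ Fm F a, g ∈ p ∧ (∀ x ∈ p, x * g ∈ qp I p) ∧ cln (qp I p) (Ideal.span {g}) = p := by
  obtain ⟨hpp, hpI, hIp, hnb⟩ := hp
  have hex := pow_le_qp hI hL ⟨hpp, hpI, hIp, hnb⟩
  classical
  have hN := Nat.find_spec hex
  have hmin := fun k => Nat.find_min hex (m := k)
  revert hN hmin
  generalize Nat.find hex = N
  intro hN hmin
  have hN2 : 2 ≤ N := by
    by_contra hlt
    push Not at hlt
    interval_cases N
    · rw [pow_zero, Ideal.one_eq_top, top_le_iff] at hN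
      exact hpp.ne_top (top_le_iff.1 (hN ▸ qp_le hpp hIp))
    · rw [pow_one] at hN
      exact hne (le_antisymm (qp_le hpp hIp) hN)
  have h1 : ¬ p ^ (N - 1) ≤ qp I p := hmin (N - 1) (by omega)
  obtain ⟨a, g, hga, hgp, hgq⟩ := pri_exists_form (HI_pow hpI (N - 1)) h1
  have hgp' : g ∈ p := Ideal.pow_le_self (by omega) hgp
  have hann : ∀ x ∈ p, x * g ∈ qp I p := by
    intro x hx
    apply hN
    have h2 : N = 1 + (N - 1) := by omega
    rw [h2, pow_add, pow_one]
    exact Ideal.mul_mem_mul hx hgp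
  refine ⟨a, g, hga, hgp', hann, le_antisymm ?_ ?_⟩
  · intro x hx
    rw [pri_mem_cln] at hx
    by_contra hxp
    exact hgq (qp_primary hpp hxp hx)
  · intro x hx
    exact pri_mem_cln.2 (hann x hx)

theorem slope_qp {I p : Ideal (A4 F)} (hI : HI I) {d : ℕ} {χ : ℤ} (hL : Lin I d χ) (hp : UP I p)
    (hne : qp I p ≠ p) {e e' : ℕ} {c c' : ℤ} (h : Lin p e c) (h' : Lin (qp I p) e' c') :
    2 * e ≤ e' := by
  obtain ⟨a, g, hga, hgp, hann, hcl⟩ := pri_exists_ann hI hL hp hne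
  obtain ⟨hpp, hpI, hIp, hnb⟩ := hp
  obtain ⟨n0, hn0⟩ := h
  obtain ⟨n1, hn1⟩ := h'
  by_contra hlt
  push Not at hlt
  have hq : HI (qp I p) := HI_qp hI hpp hpI
  have h1 : ∀ n ≥ n0 + n1, (e' : ℤ) * (n + a) + c' ≥ e * (n + a) + c + (e * n + c) := by
    intro n hn
    have h2 := hf_colon hq hga n
    rw [hcl, hn0 n (by omega), hn1 (n + a) (by omega)] at h2
    have h3 : hf p (n + a) ≤ hf (qp I p ⊔ Ideal.span {g}) (n + a) :=
      hf_anti (sup_le (qp_le hpp hIp) ((Ideal.span_singleton_le_iff_mem _).2 hgp)) _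
    rw [hn0 (n + a) (by omega)] at h3
    push_cast at h2 h3
    linarith
  have h4 : (e' : ℤ) + 1 ≤ 2 * e := by exact_mod_cast hlt
  have h5 := h1 (n0 + n1 + (|e' * a + c' - e * a - c - c| + 1).toNat) (by omega)
  have h6 : ((|(e' : ℤ) * a + c' - e * a - c - c| + 1).toNat : ℤ) = |(e' : ℤ) * a + c' - e * a - c - c| + 1 :=
    Int.toNat_of_nonneg (by positivity)
  push_cast at h5
  rw [h6] at h5
  have h7 := le_abs_self ((e' : ℤ) * a + c' - e * a - c - c)
  set T : ℤ := |(e' : ℤ) * a + c' - e * a - c - c| with hT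
  have h8 : (0 : ℤ) ≤ (n0 : ℤ) + n1 + (T + 1) := by positivity
  nlinarith [mul_le_mul_of_nonneg_right h4 h8]

theorem sq_le_qp {I p : Ideal (A4 F)} (hI : HI I) {d : ℕ} {χ : ℤ} (hL : Lin I d χ) (hp : UP I p)
    (hne : qp I p ≠ p) {e : ℕ} {c c' : ℤ} (h : Lin p e c) (h' : Lin (qp I p) (2 * e) c') :
    p ^ 2 ≤ qp I p := by
  obtain ⟨a, g, hga, hgp, hann, hcl⟩ := pri_exists_ann hI hL hp hne
  obtain ⟨hpp, hpI, hIp, hnb⟩ := hp
  obtain ⟨n0, hn0⟩ := h
  obtain ⟨n1, hn1⟩ := h'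
  have hq : HI (qp I p) := HI_qp hI hpp hpI
  have hJI : HI (qp I p ⊔ Ideal.span {g}) := HI_sup hq (pri_HI_span hga)
  have hJp : qp I p ⊔ Ideal.span {g} ≤ p :=
    sup_le (qp_le hpp hIp) ((Ideal.span_singleton_le_iff_mem _).2 hgp)
  have hJ : ∀ n ≥ n0 + n1, hf (qp I p ⊔ Ideal.span {g}) (n + a) = e * (n + a) + (e * a + c' - c) := by
    intro n hn
    have h2 := hf_colon hq hga n
    rw [hcl, hn0 n (by omega), hn1 (n + a) (by omega)] at h2
    push_cast at h2
    linarith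
  have key : ∀ b, ∀ x ∈ Fm F b, x ∈ p → ∀ y ∈ p, x * y ∈ qp I p := by
    intro b x hxb hxp y hyp
    have hB : Bdd (cln (qp I p ⊔ Ideal.span {g}) (Ideal.span {x})) := by
      apply pri_bdd
      refine ⟨e * a + c' - c - c, n0 + n1 + a, fun n hn => ?_⟩
      have h2 := hf_colon hJI hxb n
      have h3 : hf p (n + b) ≤ hf (qp I p ⊔ Ideal.span {g} ⊔ Ideal.span {x}) (n + b) :=
        hf_anti (sup_le hJp ((Ideal.span_singleton_le_iff_mem _).2 hxp)) _
      have h4 := hJ (n + b - a) (by omega)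
      rw [Nat.sub_add_cancel (by omega)] at h4
      have h5 : ((n + b - a : ℕ) : ℤ) = (n : ℤ) + b - a := by
        rw [Nat.cast_sub (by omega)]; push_cast; ring
      rw [h5] at h4
      rw [hn0 (n + b) (by omega)] at h3
      push_cast at h3
      linarith
    have hnot : ¬ cln (qp I p ⊔ Ideal.span {g}) (Ideal.span {x}) ≤ p :=
      fun hle => hnb (Bdd_mono hle hB)
    obtain ⟨t, htc, htp⟩ := SetLike.not_le_iff_exists.1 hnot
    rw [pri_mem_cln] at htc
    apply qp_primary hpp htp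
    obtain ⟨u, hu, v, hv, huv⟩ := Submodule.mem_sup.1 htc
    obtain ⟨w, rfl⟩ := Ideal.mem_span_singleton.1 hv
    have h6 : t * (x * y) = u * y + w * (y * g) := by
      rw [← mul_assoc, ← huv]; ring
    rw [h6]
    exact Ideal.add_mem _ (Ideal.mul_mem_right _ _ hu) (Ideal.mul_mem_left _ _ (hann y hyp))
  rw [pow_two, Ideal.mul_le]
  intro x hx y hy
  rw [← sum_homogeneousComponent x, Finset.sum_mul]
  exact Ideal.sum_mem _ fun i _ =>
    key i _ (homogeneousComponent_mem i x) (hpI x hx i) y hy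

end Pool.H33.G
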