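import Pool.Agent.H33.G.CFG

/-! # XCA: arithmetic of the explicit configuration

`a + b ω ≠ 0` for integers `(a,b) ≠ (0,0)` (multiply by the conjugate: `a^2 - a b + b^2`, or: `ω` is not
rational).  All statements are finite checks; a convenient way: do the computation in
`QuadraticAlgebra ℤ (-1) (-1)` (or pairs of integers) with `decide` and map to `F`. -/

open MvPolynomial Module

namespace Pool.H33.G

variable {F : Type} [Field F] [CharZero F] {ω : F}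

/-- twice the oriented area of a triangle -/
def br {F : Type} [Field F] (a b : Fin 8 → F) (i j l : Fin 8) : F :=
  (a j - a i) * (b l - b i) - (a l - a i) * (b j - b i)

def numB {F : Type} [Field F] (a b : Fin 8 → F) : F := br a b 0 3 2 * br a b 1 4 0 * br a b 7 2 1
def denB {F : Type} [Field F] (a b : Fin 8 → F) : F := br a b 3 1 2 * br a b 4 2 0 * br a b 0 7 1

/-! pairs of integers `(a, b)` stand for `a + b ω` -/

def xcaM (x y : ℤ × ℤ) : ℤ × ℤ := (x.1 * y.1 - x.2 * y.2, x.1 * y.2 + x.2 * y.1 - x.2 * y.2)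

def xcaE {F : Type} [Field F] (ω : F) (x : ℤ × ℤ) : F := (x.1 : F) + (x.2 : F) * ω

omit [CharZero F] in
theorem xcaE_mul (h : ω ^ 2 + ω + 1 = 0) (x y : ℤ × ℤ) :
    xcaE ω (xcaM x y) = xcaE ω x * xcaE ω y := by
  simp only [xcaE, xcaM]
  push_cast
  linear_combination (-(x.2 : F) * (y.2 : F)) * h

omit [CharZero F] in
theorem xcaE_sub (x y : ℤ × ℤ) : xcaE ω (x - y) = xcaE ω x - xcaE ω y := by
  simp only [xcaE, Prod.fst_sub, Prod.snd_sub]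
  push_cast
  ring

omit [CharZero F] in
theorem xcaE_add (x y : ℤ × ℤ) : xcaE ω (x + y) = xcaE ω x + xcaE ω y := by
  simp only [xcaE, Prod.fst_add, Prod.snd_add]
  push_cast
  ring

theorem xcaE_eq_zero (h : ω ^ 2 + ω + 1 = 0) (x : ℤ × ℤ) (hx : xcaE ω x = 0) : x = 0 := by
  obtain ⟨a, b⟩ := x
  simp only [xcaE] at hx
  have h1 : ((a ^ 2 - a * b + b ^ 2 : ℤ) : F) = 0 := by
    push_cast
    linear_combination ((a : F) - b - b * ω) * hx + (b : F) ^ 2 * h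
  have h2 : a ^ 2 - a * b + b ^ 2 = 0 := by exact_mod_cast h1
  have hb : b = 0 := by nlinarith [sq_nonneg (2 * a - b), sq_nonneg b]
  have ha : a = 0 := by
    rw [hb] at h2
    nlinarith [sq_nonneg a]
  rw [ha, hb]
  rfl

theorem xcaE_inj (h : ω ^ 2 + ω + 1 = 0) {x y : ℤ × ℤ} (hxy : xcaE ω x = xcaE ω y) : x = y := by
  have h1 : xcaE ω (x - y) = 0 := by
    rw [xcaE_sub, hxy, sub_self]
  exact sub_eq_zero.1 (xcaE_eq_zero h _ h1)

def xcaZ0 : Fin 8 → ℤ × ℤ := ![(2, 0), (2, 0), (1, 0), (4, 0), (2, 1), (5, 1), (5, 3), (3, 0)]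
def xcaZ1 : Fin 8 → ℤ × ℤ := ![(1, 0), (0, 0), (1, 0), (1, 0), (0, 1), (2, 1), (2, 2), (2, 0)]
def xcaZ2 : Fin 8 → ℤ × ℤ := ![(0, 0), (1, 0), (1, 0), (1, 0), (1, 1), (2, 1), (2, 1), (1, 0)]
def xcaP : Fin 8 → ℤ × ℤ :=
  ![(4, 0), (-1, 0), (1, -1), (-2, 0), (-4, -4), (1, 0), (2, -3), (-4, 1)]
def xcaQ : Fin 8 → ℤ × ℤ :=
  ![(2, 0), (1, 0), (2, 1), (-1, 0), (-2, -2), (0, 0), (1, 0), (-2, -1)]
def xcaR : Fin 8 → ℤ × ℤ :=
  ![(-4, 0), (-2, 0), (-4, -2), (-1, 0), (1, 1), (1, 0), (-2, -3), (1, 2)]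

omit [CharZero F] in
theorem xca_z0 (i : Fin 8) : z0 ω i = xcaE ω (xcaZ0 i) := by
  fin_cases i <;> simp [z0, xcaZ0, xcaE]

omit [CharZero F] in
theorem xca_z1 (i : Fin 8) : z1 ω i = xcaE ω (xcaZ1 i) := by
  fin_cases i <;> simp [z1, xcaZ1, xcaE]

omit [CharZero F] in
theorem xca_z2 (i : Fin 8) : z2 ω i = xcaE ω (xcaZ2 i) := by
  fin_cases i <;> simp [z2, xcaZ2, xcaE]

omit [CharZero F] in
theorem xca_pk (i : Fin 8) : pk ω i = xcaE ω (xcaP i) := by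
  fin_cases i <;> simp [pk, xcaP, xcaE] <;> ring

omit [CharZero F] in
theorem xca_qk (i : Fin 8) : qk ω i = xcaE ω (xcaQ i) := by
  fin_cases i <;> simp [qk, xcaQ, xcaE] <;> ring

omit [CharZero F] in
theorem xca_rk (i : Fin 8) : rk ω i = xcaE ω (xcaR i) := by
  fin_cases i <;> simp [rk, xcaR, xcaE] <;> ring

/-- determinant of three points -/
def xcaD (i j l : Fin 8) : ℤ × ℤ :=
  xcaM (xcaZ0 i) (xcaM (xcaZ1 j) (xcaZ2 l) - xcaM (xcaZ2 j) (xcaZ1 l)) -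
    xcaM (xcaZ1 i) (xcaM (xcaZ0 j) (xcaZ2 l) - xcaM (xcaZ2 j) (xcaZ0 l)) +
    xcaM (xcaZ2 i) (xcaM (xcaZ0 j) (xcaZ1 l) - xcaM (xcaZ1 j) (xcaZ0 l))

theorem z0_ne (h : ω ^ 2 + ω + 1 = 0) (i : Fin 8) : z0 ω i ≠ 0 := by
  rw [xca_z0]
  intro h0
  exact (by decide : ∀ i, xcaZ0 i ≠ 0) i (xcaE_eq_zero h _ h0)

theorem xca_br (h : ω ^ 2 + ω + 1 = 0) (i j l : Fin 8) :
    br (al ω) (be ω) i j l * (z0 ω i * z0 ω j * z0 ω l) = xcaE ω (xcaD i j l) := by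
  have h1 := z0_ne h i
  have h2 := z0_ne h j
  have h3 := z0_ne h l
  have h4 : xcaE ω (xcaD i j l) = z0 ω i * (z1 ω j * z2 ω l - z2 ω j * z1 ω l) -
      z1 ω i * (z0 ω j * z2 ω l - z2 ω j * z0 ω l) +
      z2 ω i * (z0 ω j * z1 ω l - z1 ω j * z0 ω l) := by
    simp only [xcaD, xcaE_add, xcaE_sub, xcaE_mul h, xca_z0, xca_z1, xca_z2]
  rw [h4]
  simp only [br, al, be]
  field_simp
  ring

theorem al_inj (h : ω ^ 2 + ω + 1 = 0) : Function.Injective (al ω) := by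
  intro i j hij
  simp only [al] at hij
  rw [div_eq_div_iff (z0_ne h i) (z0_ne h j), xca_z0, xca_z0, xca_z1, xca_z1, ← xcaE_mul h,
    ← xcaE_mul h] at hij
  exact (by decide : ∀ i j, xcaM (xcaZ1 i) (xcaZ0 j) = xcaM (xcaZ1 j) (xcaZ0 i) → i = j) i j
    (xcaE_inj h hij)

theorem be_inj (h : ω ^ 2 + ω + 1 = 0) : Function.Injective (be ω) := by
  intro i j hij
  simp only [be] at hij
  rw [div_eq_div_iff (z0_ne h i) (z0_ne h j), xca_z0, xca_z0, xca_z2, xca_z2, ← xcaE_mul h,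
    ← xcaE_mul h] at hij
  exact (by decide : ∀ i j, xcaM (xcaZ2 i) (xcaZ0 j) = xcaM (xcaZ2 j) (xcaZ0 i) → i = j) i j
    (xcaE_inj h hij)

theorem pk_ne (h : ω ^ 2 + ω + 1 = 0) (b : Fin 8) : pk ω b ≠ 0 := by
  rw [xca_pk]
  intro h0
  exact (by decide : ∀ i, xcaP i ≠ 0) b (xcaE_eq_zero h _ h0)

theorem rk_ne (h : ω ^ 2 + ω + 1 = 0) (b : Fin 8) : rk ω b ≠ 0 := by
  rw [xca_rk]
  intro h0
  exact (by decide : ∀ i, xcaR i ≠ 0) b (xcaE_eq_zero h _ h0)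

theorem pk_inj (h : ω ^ 2 + ω + 1 = 0) : Function.Injective (pk ω) := by
  intro i j hij
  rw [xca_pk, xca_pk] at hij
  exact (by decide : ∀ i j, xcaP i = xcaP j → i = j) i j (xcaE_inj h hij)

theorem rk_inj (h : ω ^ 2 + ω + 1 = 0) : Function.Injective (rk ω) := by
  intro i j hij
  rw [xca_rk, xca_rk] at hij
  exact (by decide : ∀ i j, xcaR i = xcaR j → i = j) i j (xcaE_inj h hij)

theorem on_line (h : ω ^ 2 + ω + 1 = 0) (b : Fin 8) (c : Fin 3) :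
    pk ω b * be ω (blk b c) = qk ω b + rk ω b * al ω (blk b c) := by
  have h1 := z0_ne h (blk b c)
  have h2 : xcaM (xcaP b) (xcaZ2 (blk b c)) =
      xcaM (xcaQ b) (xcaZ0 (blk b c)) + xcaM (xcaR b) (xcaZ1 (blk b c)) :=
    (by decide : ∀ (b : Fin 8) (c : Fin 3), xcaM (xcaP b) (xcaZ2 (blk b c)) =
      xcaM (xcaQ b) (xcaZ0 (blk b c)) + xcaM (xcaR b) (xcaZ1 (blk b c))) b c
  have h3 := congrArg (xcaE ω) h2
  rw [xcaE_add, xcaE_mul h, xcaE_mul h, xcaE_mul h, ← xca_pk, ← xca_z2, ← xca_qk, ← xca_z0,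
    ← xca_rk, ← xca_z1] at h3
  simp only [al, be]
  field_simp
  linear_combination h3

theorem off_line (h : ω ^ 2 + ω + 1 = 0) (b i : Fin 8) (hi : ∀ c, i ≠ blk b c) :
    pk ω b * be ω i ≠ qk ω b + rk ω b * al ω i := by
  intro h0
  have h1 := z0_ne h i
  simp only [al, be] at h0
  field_simp at h0
  have h3 : xcaE ω (xcaM (xcaP b) (xcaZ2 i)) =
      xcaE ω (xcaM (xcaQ b) (xcaZ0 i) + xcaM (xcaR b) (xcaZ1 i)) := by
    rw [xcaE_add, xcaE_mul h, xcaE_mul h, xcaE_mul h, ← xca_pk, ← xca_z2, ← xca_qk, ← xca_z0,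
      ← xca_rk, ← xca_z1]
    linear_combination h0
  exact (by decide : ∀ b i : Fin 8, (∀ c, i ≠ blk b c) → xcaM (xcaP b) (xcaZ2 i) ≠
      xcaM (xcaQ b) (xcaZ0 i) + xcaM (xcaR b) (xcaZ1 i)) b i hi (xcaE_inj h h3)

set_option maxRecDepth 100000 in
theorem xca_D_ne : ∀ (i j l : Fin 8), i ≠ j → i ≠ l → j ≠ l →
    (∀ b, ¬ ((∃ c, i = blk b c) ∧ (∃ c, j = blk b c) ∧ (∃ c, l = blk b c))) →
    xcaD i j l ≠ 0 := by
  decide

/-- triples not contained in a line of the configuration are not collinear -/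
theorem br_ne (h : ω ^ 2 + ω + 1 = 0) (i j l : Fin 8) (hij : i ≠ j) (hil : i ≠ l) (hjl : j ≠ l)
    (hb : ∀ b, ¬ ((∃ c, i = blk b c) ∧ (∃ c, j = blk b c) ∧ (∃ c, l = blk b c))) :
    br (al ω) (be ω) i j l ≠ 0 := by
  intro h0
  have h1 := xca_br h i j l
  rw [h0, zero_mul] at h1
  have h2 := xcaE_eq_zero h _ h1.symm
  exact xca_D_ne i j l hij hil hjl hb h2

theorem num_eq (h : ω ^ 2 + ω + 1 = 0) :
    numB (al ω) (be ω) = ω * denB (al ω) (be ω) ∧ denB (al ω) (be ω) ≠ 0 := by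
  have hD1 : denB (al ω) (be ω) ≠ 0 := by
    unfold denB
    refine mul_ne_zero (mul_ne_zero ?_ ?_) ?_
    · exact br_ne h 3 1 2 (by decide) (by decide) (by decide) (by decide)
    · exact br_ne h 4 2 0 (by decide) (by decide) (by decide) (by decide)
    · exact br_ne h 0 7 1 (by decide) (by decide) (by decide) (by decide)
  refine ⟨?_, hD1⟩
  have h0 := z0_ne h
  have hz : z0 ω 0 * z0 ω 0 * (z0 ω 1 * z0 ω 1) * (z0 ω 2 * z0 ω 2) * z0 ω 3 * z0 ω 4 * z0 ω 7 ≠ 0 := by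
    refine mul_ne_zero (mul_ne_zero (mul_ne_zero (mul_ne_zero (mul_ne_zero ?_ ?_) ?_) ?_) ?_) ?_
    · exact mul_ne_zero (h0 0) (h0 0)
    · exact mul_ne_zero (h0 1) (h0 1)
    · exact mul_ne_zero (h0 2) (h0 2)
    · exact h0 3
    · exact h0 4
    · exact h0 7
  apply mul_right_cancel₀ hz
  have e1 : xcaM (xcaM (xcaD 0 3 2) (xcaD 1 4 0)) (xcaD 7 2 1) =
      xcaM (0, 1) (xcaM (xcaM (xcaD 3 1 2) (xcaD 4 2 0)) (xcaD 0 7 1)) := by decide
  have e2 := congrArg (xcaE ω) e1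
  have e3 : xcaE ω (0, 1) = ω := by simp [xcaE]
  rw [xcaE_mul h, xcaE_mul h, xcaE_mul h, xcaE_mul h, xcaE_mul h, e3, ← xca_br h, ← xca_br h,
    ← xca_br h, ← xca_br h, ← xca_br h, ← xca_br h] at e2
  unfold numB denB
  linear_combination e2

end Pool.H33.G
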